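import Pool.Agent.P.MP_c1f06d_ag.QSn

open Matrix Polynomial

universe u

namespace Pool.Agent.P.MP_c1f06d_ag

open IsLocalRing

variable {R : Type*} [CommRing R] [IsLocalRing R]

theorem finite_maximalSpectrum (R T : Type*) [CommRing R] [IsLocalRing R] [CommRing T]
    [Algebra R T] [Module.Finite R T] : Finite (MaximalSpectrum T) := by
  have hfin := Algebra.QuasiFinite.finite_primesOver (R := R) (S := T) (maximalIdeal R)
  have := hfin.to_subtype
  refine Finite.of_injective
    (fun n : MaximalSpectrum T => (⟨n.asIdeal, n.isMaximal.isPrime, ⟨?_⟩⟩ :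
      (maximalIdeal R).primesOver T)) ?_
  · have := n.isMaximal
    have h := Ideal.isMaximal_comap_of_isIntegral_of_isMaximal (R := R) n.asIdeal
    exact (IsLocalRing.eq_maximalIdeal h).symm
  · intro a b hab
    exact MaximalSpectrum.ext (congrArg Subtype.val hab)

/-- Sets of elements of `R` that miss only finitely many residue classes. -/
noncomputable def Gen (R : Type*) [CommRing R] [IsLocalRing R] : Filter R :=
  Filter.comap (residue R) Filter.cofinite

theorem gen_neBot [Infinite (ResidueField R)] : (Gen R).NeBot := by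
  exact Filter.NeBot.comap_of_surj Filter.cofinite_neBot residue_surjective

theorem eventually_notMem {T : Type*} [CommRing T] [Algebra R T] [Module.Finite R T]
    (p : MaximalSpectrum T → T[X]) (hp : ∀ n, ∃ i, (p n).coeff i ∉ n.asIdeal) :
    ∀ᶠ c in Gen R, ∀ n : MaximalSpectrum T, (p n).eval (algebraMap R T c) ∉ n.asIdeal := by
  have := finite_maximalSpectrum R T
  rw [Filter.eventually_all]
  intro n
  have hmax := n.isMaximal
  let _ : Field (T ⧸ n.asIdeal) := Ideal.Quotient.field n.asIdeal
  have hcom : n.asIdeal.comap (algebraMap R T) = maximalIdeal R :=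
    IsLocalRing.eq_maximalIdeal
      (Ideal.isMaximal_comap_of_isIntegral_of_isMaximal (R := R) n.asIdeal)
  let j : ResidueField R →+* T ⧸ n.asIdeal :=
    Ideal.Quotient.lift (maximalIdeal R) ((Ideal.Quotient.mk n.asIdeal).comp (algebraMap R T))
      (fun a ha => by
        rw [← hcom] at ha
        exact Ideal.Quotient.eq_zero_iff_mem.2 ha)
  have hj : ∀ c, j (residue R c) = Ideal.Quotient.mk n.asIdeal (algebraMap R T c) := fun c => rfl
  have hne : (p n).map (Ideal.Quotient.mk n.asIdeal) ≠ 0 := by
    obtain ⟨i, hi⟩ := hp n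
    intro h
    apply hi
    have h2 := congrArg (fun q => q.coeff i) h
    simp only [coeff_map, coeff_zero] at h2
    exact Ideal.Quotient.eq_zero_iff_mem.1 h2
  have hfin : {x | IsRoot ((p n).map (Ideal.Quotient.mk n.asIdeal)) x}.Finite :=
    finite_setOfPred_isRoot hne
  have hfin2 := hfin.preimage (f := j) j.injective.injOn
  refine Filter.mem_comap.2 ⟨_, hfin2.compl_mem_cofinite, ?_⟩
  intro c hc hmem
  apply hc
  change IsRoot _ (j (residue R c))
  rw [hj, IsRoot, eval_map, eval₂_at_apply]
  exact Ideal.Quotient.eq_zero_iff_mem.2 hmem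

theorem eventually_isUnit {T : Type*} [CommRing T] [Algebra R T] [Module.Finite R T]
    (p : T[X]) (i : ℕ) (hp : IsUnit (p.coeff i)) :
    ∀ᶠ c in Gen R, IsUnit (p.eval (algebraMap R T c)) := by
  have h := eventually_notMem (R := R) (T := T) (fun _ => p) (fun n => ⟨i, fun hm =>
    n.isMaximal.ne_top (Ideal.eq_top_of_isUnit_mem _ hm hp)⟩)
  refine h.mono fun c hc => ?_
  by_contra hu
  obtain ⟨m, hm, hmem⟩ := exists_max_ideal_of_mem_nonunits (mem_nonunits_iff.2 hu)
  exact hc ⟨m, hm⟩ hmem

end Pool.Agent.P.MP_c1f06d_ag
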