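import Pool.Agent.P.MP_c1f06d_ag.QField

open Matrix Polynomial

universe u

namespace Pool.Agent.P.MP_c1f06d_ag

variable {T T' : Type*} [CommRing T] [CommRing T'] {m : ℕ}

/-- `y` pairs to one with some vector. -/
def Good (Q : Matrix (Fin m) (Fin m) T) (y : Fin m → T) : Prop := ∃ z, bv Q y z = 1

/-- The module is the orthogonal sum of the line through `r`, with unit value, and of the kernel of
`ρ`, on which the polar form is unimodular. -/
structure Semi (Q : Matrix (Fin m) (Fin m) T) (r ρ : Fin m → T) : Prop where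
  unit : IsUnit (qv Q r)
  one : r ⬝ᵥ ρ = 1
  perp : (Q + Qᵀ) *ᵥ r = (2 * qv Q r) • ρ
  dual : ∀ i, ∃ (y : Fin m → T) (s : T), (Q + Qᵀ) *ᵥ y + s • ρ = Pi.single i 1

/-- The form `(s, u) ↦ s * ρ u + q u`. -/
def ext (Q : Matrix (Fin m) (Fin m) T) (ρ : Fin m → T) : Matrix (Fin (m + 1)) (Fin (m + 1)) T :=
  Matrix.of (Fin.cons (Fin.cons 0 ρ) fun i => Fin.cons 0 (Q i))

/-- The form `(s, u) ↦ s ^ 2 + q u`. -/
def ext1 (Q : Matrix (Fin m) (Fin m) T) : Matrix (Fin (m + 1)) (Fin (m + 1)) T :=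
  Matrix.of (Fin.cons (Fin.cons 1 0) fun i => Fin.cons 0 (Q i))

/-- The vector of the extended module whose orthogonal is the original module. -/
def wvec (Q : Matrix (Fin m) (Fin m) T) (r : Fin m → T) : Fin (m + 1) → T :=
  Fin.cons (-(2 * qv Q r)) r

variable {Q Q' : Matrix (Fin m) (Fin m) T} {r ρ : Fin m → T}

theorem qv_ext (s : T) (u : Fin m → T) :
    qv (ext Q ρ) (Fin.cons s u) = s * (u ⬝ᵥ ρ) + qv Q u := by
  simp [qv, ext, dotProduct, mulVec, Fin.sum_univ_succ, mul_comm]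

theorem bv_ext (s t : T) (u v : Fin m → T) :
    bv (ext Q ρ) (Fin.cons s u) (Fin.cons t v) = s * (v ⬝ᵥ ρ) + t * (u ⬝ᵥ ρ) + bv Q u v := by
  have h := qv_add (ext Q ρ) (Fin.cons s u) (Fin.cons t v)
  have e : (Fin.cons s u + Fin.cons t v : Fin (m + 1) → T) = Fin.cons (s + t) (u + v) := by
    funext i; refine Fin.cases ?_ (fun i => ?_) i <;> simp
  rw [e, qv_ext, qv_ext, qv_ext, qv_add, add_dotProduct] at h
  linear_combination -h

theorem qv_ext1 (s : T) (u : Fin m → T) : qv (ext1 Q) (Fin.cons s u) = s ^ 2 + qv Q u := by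
  simp [qv, ext1, dotProduct, mulVec, Fin.sum_univ_succ, sq]

theorem bv_ext1 (s t : T) (u v : Fin m → T) :
    bv (ext1 Q) (Fin.cons s u) (Fin.cons t v) = 2 * s * t + bv Q u v := by
  have h := qv_add (ext1 Q) (Fin.cons s u) (Fin.cons t v)
  have e : (Fin.cons s u + Fin.cons t v : Fin (m + 1) → T) = Fin.cons (s + t) (u + v) := by
    funext i; refine Fin.cases ?_ (fun i => ?_) i <;> simp
  rw [e, qv_ext1, qv_ext1, qv_ext1, qv_add] at h
  linear_combination -h

theorem ext_map (f : T →+* T') : (ext Q ρ).map f = ext (Q.map f) (f ∘ ρ) := by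
  ext i j
  refine Fin.cases ?_ (fun i => ?_) i <;> refine Fin.cases ?_ (fun j => ?_) j <;> simp [ext]

theorem ext1_map (f : T →+* T') : (ext1 Q).map f = ext1 (Q.map f) := by
  ext i j
  refine Fin.cases ?_ (fun i => ?_) i <;> refine Fin.cases ?_ (fun j => ?_) j <;> simp [ext1]

theorem comp_cons (f : T → T') (s : T) (u : Fin m → T) :
    f ∘ (Fin.cons s u : Fin (m + 1) → T) = Fin.cons (f s) (f ∘ u) := by
  funext i; refine Fin.cases ?_ (fun i => ?_) i <;> simp

theorem wvec_map (f : T →+* T') : f ∘ wvec Q r = wvec (Q.map f) (f ∘ r) := by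
  rw [wvec, wvec, comp_cons, qv_map, map_neg, map_mul, map_ofNat]

theorem Good.map {y : Fin m → T} (h : Good Q y) (f : T →+* T') : Good (Q.map f) (f ∘ y) :=
  let ⟨z, hz⟩ := h; ⟨f ∘ z, by rw [bv_map, hz, map_one]⟩

theorem good_of_isUnit {y z : Fin m → T} (h : IsUnit (bv Q y z)) : Good Q y := by
  obtain ⟨u, hu⟩ := h
  exact ⟨(↑u⁻¹ : T) • z, by rw [bv_smul_right, ← hu, Units.inv_mul]⟩

theorem Good.smul {y : Fin m → T} (h : Good Q y) {a : T} (ha : IsUnit a) : Good Q (a • y) :=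
  let ⟨z, hz⟩ := h; good_of_isUnit (z := z) (by rwa [bv_smul_left, hz, mul_one])

theorem Good.refl {y z : Fin m → T} (h : Good Q y) (hz : IsUnit (qv Q z)) :
    Good Q (refl Q z y) :=
  let ⟨t, ht⟩ := h
  ⟨Pool.Agent.P.MP_c1f06d_ag.refl Q z t, by
    rw [← reflMat_mulVec, ← reflMat_mulVec, (carries_reflMat hz).bv, ht]⟩

theorem unim_of_dual (h : ∀ i, ∃ y, (Q + Qᵀ) *ᵥ y = Pi.single i 1) : Unim Q := by
  choose y hy using h
  refine isUnit_det_of_right_inverse (B := (Matrix.of y)ᵀ) ?_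
  ext i j
  have := congrFun (hy j) i
  rw [Pi.single_apply] at this
  rw [Matrix.one_apply, ← this]
  rfl

theorem Semi.map (h : Semi Q r ρ) (f : T →+* T') : Semi (Q.map f) (f ∘ r) (f ∘ ρ) where
  unit := by rw [qv_map]; exact h.unit.map f
  one := by rw [← RingHom.map_dotProduct, h.one, map_one]
  perp := by
    funext i
    rw [polar_map, ← RingHom.map_mulVec, h.perp, qv_map]
    simp [map_ofNat]
  dual := fun i => by
    obtain ⟨y, s, e⟩ := h.dual i
    refine ⟨f ∘ y, f s, funext fun j => ?_⟩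
    have := congrArg f (congrFun e j)
    rw [Pi.add_apply, polar_map, ← RingHom.map_mulVec]
    simpa [Pi.single_apply, apply_ite f] using this

theorem Semi.bv_r (h : Semi Q r ρ) (x : Fin m → T) : bv Q x r = 2 * qv Q r * (x ⬝ᵥ ρ) := by
  rw [bv, h.perp, dotProduct_smul, smul_eq_mul]

/-- Every linear form is a polar form plus a multiple of `ρ`. -/
theorem Semi.exists_dual (h : Semi Q r ρ) (a : Fin m → T) :
    ∃ (y : Fin m → T) (s : T), ∀ x, x ⬝ᵥ a = bv Q x y + s * (x ⬝ᵥ ρ) := by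
  choose y s e using h.dual
  refine ⟨∑ i, a i • y i, ∑ i, a i * s i, fun x => ?_⟩
  have e1 : (Q + Qᵀ) *ᵥ (∑ i, a i • y i) + (∑ i, a i * s i) • ρ = a := by
    rw [mulVec_sum, Finset.sum_smul, ← Finset.sum_add_distrib]
    conv_rhs => rw [← Finset.univ_sum_single a]
    refine Finset.sum_congr rfl fun i _ => ?_
    rw [mulVec_smul, mul_smul, ← smul_add, e, ← Pi.single_smul, smul_eq_mul, mul_one]
  conv_lhs => rw [← e1]
  rw [dotProduct_add, dotProduct_smul, smul_eq_mul, bv]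

/-- A vector that pairs into an ideal is a multiple of `r` modulo the ideal. -/
theorem Semi.sub_mem (h : Semi Q r ρ) (I : Ideal T) {x : Fin m → T} (hx : ∀ y, bv Q x y ∈ I)
    (i : Fin m) : x i - (x ⬝ᵥ ρ) * r i ∈ I := by
  obtain ⟨y, s, e⟩ := h.exists_dual (Pi.single i 1)
  have e1 := e x
  have e2 := e r
  rw [dotProduct_single, mul_one] at e1 e2
  rw [h.one, bv_comm, h.bv_r] at e2
  have e3 : x i - (x ⬝ᵥ ρ) * r i = bv Q x y - (y ⬝ᵥ ρ) * bv Q x r := by
    rw [e1, e2, h.bv_r]; ring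
  rw [e3]
  exact I.sub_mem (hx y) (I.mul_mem_left _ (hx r))

theorem Semi.eq_smul (h : Semi Q r ρ) {x : Fin m → T} (hx : ∀ y, bv Q x y = 0) :
    x = (x ⬝ᵥ ρ) • r :=
  funext fun i => sub_eq_zero.1 (h.sub_mem ⊥ hx i)

theorem Semi.bv_wvec (h : Semi Q r ρ) (x : Fin (m + 1) → T) :
    bv (ext Q ρ) x (wvec Q r) = x 0 := by
  rw [← Fin.cons_self_tail x, wvec, bv_ext, h.one, h.bv_r]
  simp

theorem Semi.qv_wvec (h : Semi Q r ρ) : qv (ext Q ρ) (wvec Q r) = -qv Q r := by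
  rw [wvec, qv_ext, h.one]; ring

theorem Semi.unim_ext (h : Semi Q r ρ) : Unim (ext Q ρ) := by
  have key : ∀ (y : Fin (m + 1) → T) (i : Fin (m + 1)), (∀ x, bv (ext Q ρ) x y = x i) →
      (ext Q ρ + (ext Q ρ)ᵀ) *ᵥ y = Pi.single i 1 := fun y i hy => funext fun j => by
    have := hy (Pi.single j 1)
    rw [bv, single_dotProduct, one_mul] at this
    rw [this, Pi.single_apply, Pi.single_apply]
    simp [eq_comm]
  refine unim_of_dual fun i => ?_
  refine Fin.cases ⟨_, key _ _ h.bv_wvec⟩ (fun i => ?_) i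
  obtain ⟨y, s, e⟩ := h.exists_dual (Pi.single i 1)
  refine ⟨Fin.cons s y - (y ⬝ᵥ ρ) • wvec Q r, key _ _ fun x => ?_⟩
  rw [bv_sub_right, bv_smul_right, h.bv_wvec, ← Fin.cons_self_tail x, bv_ext]
  have := e (Fin.tail x)
  rw [dotProduct_single, mul_one] at this
  simp only [Fin.cons_zero, Fin.cons_succ]
  linear_combination -this

theorem Unim.semi_ext1 (h : Unim Q) :
    Semi (ext1 Q) (Fin.cons 1 0) (Fin.cons 1 0) := by
  have key : ∀ (y : Fin (m + 1) → T) (j : Fin (m + 1)),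
      ((ext1 Q + (ext1 Q)ᵀ) *ᵥ y) j = bv (ext1 Q) (Pi.single j 1) y := fun y j => by
    rw [bv, single_dotProduct, one_mul]
  have s0 : (Pi.single 0 1 : Fin (m + 1) → T) = Fin.cons 1 0 := by
    funext i; refine Fin.cases ?_ (fun i => ?_) i <;> simp
  have s1 : ∀ j : Fin m, (Pi.single j.succ 1 : Fin (m + 1) → T) = Fin.cons 0 (Pi.single j 1) :=
    fun j => by
      funext i; refine Fin.cases ?_ (fun i => ?_) i
      · simp [Pi.single_apply, (Fin.succ_ne_zero j).symm]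
      · simp [Pi.single_apply]
  refine ⟨by simp [qv_ext1, qv_zero], by simp [dotProduct, Fin.sum_univ_succ], ?_, fun i => ?_⟩
  · funext j
    rw [key, qv_ext1, qv_zero]
    refine Fin.cases ?_ (fun j => ?_) j
    · rw [s0, bv_ext1, bv_zero_left]; simp
    · rw [s1, bv_ext1, bv_zero_right]; simp
  · refine Fin.cases ⟨0, 1, by simp [s0]⟩ (fun i => ?_) i
    obtain ⟨y, hy⟩ := h.exists_bv_eq i
    refine ⟨Fin.cons 0 y, 0, funext fun j => ?_⟩
    rw [zero_smul, add_zero, key]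
    refine Fin.cases ?_ (fun j => ?_) j
    · rw [s0, bv_ext1, bv_zero_left, s1]; simp
    · rw [s1, bv_ext1, hy, s1]; simp [Pi.single_apply, eq_comm]

theorem Iso.ext1 (h : Iso Q Q') : Iso (ext1 Q) (ext1 Q') := by
  obtain ⟨g, hg⟩ := h
  refine ⟨Pool.Agent.P.MP_c1f06d_ag.ext1 g, fun x => ?_⟩
  have e : Pool.Agent.P.MP_c1f06d_ag.ext1 g *ᵥ x = Fin.cons (x 0) (g *ᵥ Fin.tail x) := by
    funext i
    refine Fin.cases ?_ (fun i => ?_) i <;>
      simp [Pool.Agent.P.MP_c1f06d_ag.ext1, mulVec, dotProduct, Fin.sum_univ_succ, Fin.tail]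
  rw [e, qv_ext1, hg, ← qv_ext1, Fin.cons_self_tail]

theorem Sn.ext1 {a : T} (h : Sn Q a) : Sn (ext1 Q) a := by
  obtain ⟨l, hl, rfl⟩ := h
  refine ⟨l.map (fun x => Fin.cons 0 x), by simpa using hl, ?_⟩
  rw [List.map_map]
  congr 1
  exact List.map_congr_left fun x _ => by simp [qv_ext1]

end Pool.Agent.P.MP_c1f06d_ag
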