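import Pool.Agent.P.MP_c1f06d_ag.CD
import Pool.Agent.P.MP_c1f06d_ag.BDefs

open Matrix Polynomial

universe u

namespace Pool.Agent.P.MP_c1f06d_ag

open IsLocalRing

variable {T : Type*} [CommRing T] [IsLocalRing T] [Infinite (ResidueField T)] {m : ℕ}
  {Q : Matrix (Fin m) (Fin m) T}

theorem bcd_step {h : Matrix (Fin m) (Fin m) T} (hh : Carries h Q Q) {y d0 d : Fin m → T}
    (h0 : IsUnit (qv Q d0)) (hd : bv Q y d = 1) :
    ∃ l : List (Fin m → T), (∀ v ∈ l, IsUnit (qv Q v)) ∧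
      (l.map (reflMat Q)).prod *ᵥ h *ᵥ y = y ∧ ∀ w, h *ᵥ w = w → bv Q w d0 = 0 → bv Q w d = 0 →
        (l.map (reflMat Q)).prod *ᵥ w = w ∧ ∀ v ∈ l, bv Q w v = 0 := by
  have ho : ∀ w, h *ᵥ w = w → bv Q w (h *ᵥ y) = bv Q w y := fun w hw => by
    rw [← hh.bv w y, hw]
  by_cases hu : IsUnit (qv Q (h *ᵥ y - y))
  · refine ⟨[h *ᵥ y - y], by simpa using hu, ?_, fun w hw _ _ => ?_⟩
    · simpa [-mulVec_mulVec, reflMat_mulVec] using refl_sub (hh y) hu
    · have w1 : bv Q w (h *ᵥ y - y) = 0 := by rw [bv_sub_right, ho w hw, sub_self]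
      exact ⟨by simpa [reflMat_mulVec] using refl_of_bv_eq_zero w1, by simpa using w1⟩
  have := gen_neBot (R := T)
  obtain ⟨e, e0, e1, e2⟩ := ((cd_gen (b := bv Q d0 d) (c := qv Q d + bv Q d0 (h *ᵥ d))
    (bv Q d (h *ᵥ d)) (qv Q (h *ᵥ d)) (.inl h0)).and
    ((cd_gen (a := bv Q y d0) (c := bv Q y (h *ᵥ d)) 0 0 (.inr (.inl isUnit_one))).and
    (cd_gen (a := bv Q (h *ᵥ y) d0) (b := bv Q (h *ᵥ y) d) 0 0
      (.inr (.inr isUnit_one))))).exists
  obtain ⟨z, hz⟩ : ∃ z, z = d0 + e • d + e ^ 2 • h *ᵥ d := ⟨_, rfl⟩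
  have hb : ∀ w, bv Q w z = bv Q w d0 + e * bv Q w d + e ^ 2 * bv Q w (h *ᵥ d) := fun w => by
    rw [hz, bv_add_right, bv_add_right, bv_smul_right, bv_smul_right]
  have z0 : IsUnit (qv Q z) := by
    refine (congrArg IsUnit ?_).mpr e0
    simp only [hz, qv_add, qv_smul, bv_add_left, bv_smul_left, bv_smul_right]
    ring
  have z1 : IsUnit (bv Q y z) := by
    refine (congrArg IsUnit ?_).mpr e1
    rw [hb, hd]
    ring
  have z2 : IsUnit (bv Q (h *ᵥ y) z) := by
    refine (congrArg IsUnit ?_).mpr e2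
    rw [hb, hh.bv, hd]
    ring
  have hq : qv Q (refl Q z (h *ᵥ y)) = qv Q y := by rw [qv_refl z0, hh]
  have z3 : IsUnit (qv Q (refl Q z (h *ᵥ y) - y)) := by
    have e : qv Q (refl Q z (h *ᵥ y) - y) =
        qv Q (h *ᵥ y - y) + bv Q (h *ᵥ y) z * Ring.inverse (qv Q z) * bv Q y z := by
      rw [qv_sub, qv_sub, hq, hh, bv_refl_left, bv_comm Q z y]
      ring
    have u := (z2.mul z0.ringInverse).mul z1
    rw [← add_sub_cancel_left (qv Q (h *ᵥ y - y)) (_ * _ * _), ← e, sub_eq_add_neg] at u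
    exact (isUnit_or_isUnit_of_isUnit_add u).resolve_right fun h => hu (by simpa using h)
  refine ⟨[refl Q z (h *ᵥ y) - y, z], by simpa using ⟨z3, z0⟩, ?_, fun w hw w0 w1 => ?_⟩
  · simpa [← mulVec_mulVec, reflMat_mulVec] using refl_sub hq z3
  · have w2 : bv Q w z = 0 := by
      rw [hb, w0, w1, ← hw, hh.bv, w1]
      ring
    have w3 : bv Q w (refl Q z (h *ᵥ y) - y) = 0 := by
      rw [bv_sub_right, bv_comm, bv_refl_left, bv_comm Q z, w2, bv_comm, ho w hw]
      ring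
    exact ⟨by simp [← mulVec_mulVec, reflMat_mulVec, refl_of_bv_eq_zero w2, refl_of_bv_eq_zero w3],
      by simpa using ⟨w3, w2⟩⟩

theorem bcd_rel (hQ : Unim Q) {g : Matrix (Fin m) (Fin m) T} (hg : Carries g Q Q) {d0 w : Fin m → T}
    (h0 : IsUnit (qv Q d0)) {i0 j0 : Fin m} (hj0 : IsUnit (d0 j0)) (hij : i0 ≠ j0) (hi0 : d0 i0 = 0)
    (hw : ∀ x, bv Q x w = x i0) (hgw : g *ᵥ w = w) :
    ∃ l : List (Fin m → T), (∀ v ∈ l, IsUnit (qv Q v) ∧ v i0 = 0) ∧
      g = (l.map (reflMat Q)).prod := by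
  obtain ⟨u, hu⟩ := hj0
  choose v hv using fun i => hQ.exists_dual
    (if i = j0 then Pi.single j0 (↑u⁻¹ : T) else Pi.single i 1 - Pi.single j0 (d0 i * ↑u⁻¹))
  have v0 : ∀ i, bv Q (v i) d0 = if i = j0 then 1 else 0 := fun i => by
    rw [bv_comm, hv]
    split_ifs <;> simp [← hu, mul_comm (d0 i)]
  have v1 : ∀ i k, k ≠ j0 → bv Q (v i) (Pi.single k 1) = if i = k then 1 else 0 := by
    intro i k hk
    rw [bv_comm, hv]
    split_ifs with h1 h2 <;> simp_all [eq_comm]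
  have v2 : v i0 = w := sub_eq_zero.1 (hQ.eq_zero fun y => by
    rw [bv_comm, bv_sub_right, hv, hw, if_neg hij, hi0]
    simp)
  have ins : ∀ (s : Finset (Fin m)) i, i0 ∈ s → j0 ∉ s → i ∉ s → (∃ l : List (Fin m → T),
      (∀ v ∈ l, IsUnit (qv Q v) ∧ v i0 = 0) ∧
        ∀ j ∈ s, ((l.map (reflMat Q)).prod * g) *ᵥ v j = v j) →
      ∃ l : List (Fin m → T), (∀ v ∈ l, IsUnit (qv Q v) ∧ v i0 = 0) ∧
        ∀ j ∈ insert i s, ((l.map (reflMat Q)).prod * g) *ᵥ v j = v j := by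
    rintro s i hi0s hj hi ⟨l, hl, hs⟩
    obtain ⟨l', a1, a2, a3⟩ := bcd_step (hg.mul (cd_list fun v hv => (hl v hv).1).1) (y := v i)
      (d := if i = j0 then d0 else Pi.single i 1) h0 (by split_ifs with h <;> simp [v0, v1, h])
    have a4 := fun j (hj' : j ∈ s) => a3 _ (hs j hj')
      (by simp [v0, show j ≠ j0 from fun e => hj (e ▸ hj')])
      (by
        have b1 : j ≠ j0 := fun e => hj (e ▸ hj')
        have b2 : j ≠ i := fun e => hi (e ▸ hj')
        split_ifs with h <;> simp [v0, v1, h, b1, b2])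
    refine ⟨l' ++ l, fun x hx => (List.mem_append.1 hx).elim (fun hx => ⟨a1 x hx, ?_⟩) (hl x),
      fun j hj' => ?_⟩
    · rw [← hw x, bv_comm, ← v2]
      exact (a4 i0 hi0s).2 x hx
    rw [List.map_append, List.prod_append, mul_assoc, ← mulVec_mulVec]
    rcases Finset.mem_insert.1 hj' with rfl | hj'
    · exact a2
    rw [hs j hj']
    exact (a4 j hj').1
  have all : ∀ s : Finset (Fin m), j0 ∉ s → ∃ l : List (Fin m → T),
      (∀ v ∈ l, IsUnit (qv Q v) ∧ v i0 = 0) ∧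
        ∀ j ∈ insert i0 s, ((l.map (reflMat Q)).prod * g) *ᵥ v j = v j := by
    intro s
    induction s using Finset.induction_on with
    | empty => exact fun _ => ⟨[], by simp, by simp [v2, hgw]⟩
    | insert i s hi ih =>
      intro h
      have h1 : j0 ∉ s := fun e => h (Finset.mem_insert_of_mem e)
      by_cases e : i = i0
      · rw [e, Finset.insert_idem]
        exact ih h1
      · rw [Finset.insert_comm]
        exact ins _ i (Finset.mem_insert_self _ _) (by simp [h1, hij.symm]) (by simp [e, hi])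
          (ih h1)
  obtain ⟨l, hl, hs⟩ := ins (insert i0 (Finset.univ.erase j0)) j0 (by simp) (by simp [hij.symm])
    (by simp [hij.symm]) (all _ (by simp))
  have hl1 := cd_list fun v hv => (hl v hv).1
  refine ⟨l.reverse, by simpa using hl, ?_⟩
  have e : (l.map (reflMat Q)).prod * g = 1 := by
    refine Matrix.toLin'.injective (LinearMap.ext fun x => ?_)
    have c : ∀ i, bv Q (((l.map (reflMat Q)).prod * g) *ᵥ x - x) (v i) = 0 := fun i => by
      rw [bv_sub_left, ← (hg.mul hl1.1).bv x, hs i (by by_cases h : i = j0 <;> simp [h]), sub_self]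
    rw [toLin'_apply, toLin'_apply, one_mulVec, ← sub_eq_zero]
    generalize ((l.map (reflMat Q)).prod * g) *ᵥ x - x = w at c
    have c0 : w j0 = 0 := by simpa [hv] using c j0
    funext i
    by_cases h : i = j0
    · exact h ▸ c0
    · simpa [hv, h, c0] using c i
  rw [← one_mul g, ← hl1.2, mul_assoc, e, mul_one]

/-- An isometry of the extended form that fixes `wvec` is a product of reflections in vectors of the
original module. -/
theorem Semi.cartan_dieudonne {r ρ : Fin m → T} (h : Semi Q r ρ)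
    {g : Matrix (Fin (m + 1)) (Fin (m + 1)) T} (hg : Carries g (ext Q ρ) (ext Q ρ))
    (hw : g *ᵥ wvec Q r = wvec Q r) :
    ∃ l : List (Fin m → T), (∀ v ∈ l, IsUnit (qv Q v)) ∧
      g = ((l.map fun v => (Fin.cons 0 v : Fin (m + 1) → T)).map (reflMat (ext Q ρ))).prod := by
  obtain ⟨j, hj⟩ : ∃ j, IsUnit (r j) := by
    by_contra hn
    exact (qv_mem_span Q r (maximalIdeal T) fun i hi => hn ⟨i, hi⟩) h.unit
  obtain ⟨l, hl, e⟩ := bcd_rel h.unim_ext hg (d0 := Fin.cons 0 r) (i0 := 0) (j0 := j.succ)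
    (by rw [qv_ext, zero_mul, zero_add]; exact h.unit) hj (Fin.succ_ne_zero j).symm rfl
    h.bv_wvec hw
  have e1 : ∀ v ∈ l, (Fin.cons 0 (Fin.tail v) : Fin (m + 1) → T) = v := fun v hv => by
    rw [← (hl v hv).2, Fin.cons_self_tail]
  refine ⟨l.map Fin.tail, fun v hv => ?_, ?_⟩
  · obtain ⟨x, hx, rfl⟩ := List.mem_map.1 hv
    have := (hl x hx).1
    rwa [← e1 x hx, qv_ext, zero_mul, zero_add] at this
  · have e2 : (l.map Fin.tail).map (fun v => (Fin.cons 0 v : Fin (m + 1) → T)) = l := by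
      rw [List.map_map]
      exact (List.map_congr_left (g := id) e1).trans (List.map_id l)
    rw [e2]
    exact e

end Pool.Agent.P.MP_c1f06d_ag
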