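import Pool.Agent.P.MP_c1f06d_ag.Cliff
import Pool.Agent.P.MP_c1f06d_ag.BDefs

open Matrix Polynomial

universe u

namespace Pool.Agent.P.MP_c1f06d_ag

open CliffordAlgebra

variable {R : Type u} [CommRing R] {m : ℕ} {Q : Matrix (Fin m) (Fin m) R} {r ρ : Fin m → R}
variable {T T' : Type u} [CommRing T] [Algebra R T] [CommRing T'] [Algebra R T']

theorem scalar_of_contract {x : Cl Q T}
    (h0 : ∀ i, contractLeft (Q := formOver Q T) (LinearMap.proj i) x = 0) :
    ∃ c, x = algebraMap T (Cl Q T) c := by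
  have key : ∀ s : Finset (Fin m), x ∈ cliffSub Q T s → ∃ c, x = algebraMap T (Cl Q T) c := by
    intro s
    induction s using Finset.induction_on with
    | empty =>
      intro hx
      rw [cliffSub, Finset.coe_empty, Set.image_empty, Algebra.adjoin_empty, Algebra.mem_bot] at hx
      obtain ⟨c, hc⟩ := hx
      exact ⟨c, hc.symm⟩
    | insert i s hi ih =>
      intro hx
      obtain ⟨a, ha, b, hb, e⟩ := cliff_split i s hx
      have h1 := h0 i
      rw [e, map_add, cliff_kill hi ha, contractLeft_ι_mul, cliff_kill hi hb] at h1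
      have h2 : b = 0 := by simpa using h1
      apply ih
      rw [e, h2, mul_zero, add_zero]
      exact ha
  exact key Finset.univ (cliff_univ x)

theorem eq_zero_of_even_odd {x : Cl Q T} (h0 : x ∈ evenOdd (formOver Q T) 0)
    (h1 : x ∈ evenOdd (formOver Q T) 1) : x = 0 :=
  Submodule.disjoint_def.1 (evenOdd_isCompl (formOver Q T)).disjoint x h0 h1

/-- An odd element that anticommutes with the orthogonal of `w` is a multiple of `w`. -/
theorem odd_eq_smul (hQ : Unim Q) {w e : Fin m → T} (hew : bv (Q.map (algebraMap R T)) e w = 1)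
    {N : Cl Q T} (hN : N ∈ evenOdd (formOver Q T) 1)
    (h : ∀ u, bv (Q.map (algebraMap R T)) u w = 0 →
      ι (formOver Q T) u * N + N * ι (formOver Q T) u = 0) :
    ∃ c : T, N = c • ι (formOver Q T) w := by
  have h1 : ∀ u, bv (Q.map (algebraMap R T)) u w = 0 →
      contractLeft (Q := formOver Q T) ((formOver Q T).polarBilin u) N = 0 := fun u hu => by
    rw [← cliff_comm, involute_eq_of_mem_odd hN, neg_mul, sub_neg_eq_add, h u hu]
  have all : ∀ x : Cl Q T, (∀ u, bv (Q.map (algebraMap R T)) u w = 0 →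
      contractLeft (Q := formOver Q T) ((formOver Q T).polarBilin u) x = 0) →
      contractLeft (Q := formOver Q T) ((formOver Q T).polarBilin e) x = 0 →
      ∃ c, x = algebraMap T (Cl Q T) c := fun x a1 a2 => scalar_of_contract fun i => by
    obtain ⟨y, hy⟩ := (hQ.map (algebraMap R T)).exists_bv_eq i
    have e1 : (formOver Q T).polarBilin y = LinearMap.proj i := by
      apply LinearMap.ext
      intro v
      rw [QuadraticMap.polarBilin_apply_apply, cliff_polar, bv_comm, hy]; rfl
    have e2 := a1 (y - bv (Q.map (algebraMap R T)) y w • e)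
      (by rw [bv_sub_left, bv_smul_left, hew, mul_one, sub_self])
    rw [map_sub, map_smul, map_sub, map_smul, LinearMap.sub_apply, LinearMap.smul_apply, a2,
      smul_zero, sub_zero, e1] at e2
    exact e2
  obtain ⟨c, hc⟩ := all (contractLeft (Q := formOver Q T) ((formOver Q T).polarBilin e) N)
    (fun u hu => by rw [contractLeft_comm, h1 u hu, map_zero, neg_zero])
    (contractLeft_contractLeft _ _)
  obtain ⟨c', hc'⟩ := all (N - c • ι (formOver Q T) w)
    (fun u hu => by
      rw [map_sub, map_smul, h1 u hu, contractLeft_ι, QuadraticMap.polarBilin_apply_apply,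
        cliff_polar, hu, map_zero, smul_zero, sub_zero])
    (by
      rw [map_sub, map_smul, hc, contractLeft_ι, QuadraticMap.polarBilin_apply_apply,
        cliff_polar, hew, map_one, Algebra.algebraMap_eq_smul_one, sub_self])
  refine ⟨c, sub_eq_zero.1 (eq_zero_of_even_odd ?_ ?_)⟩
  · rw [hc']
    exact one_le_evenOdd_zero _ (Submodule.mem_one.2 ⟨c', rfl⟩)
  · exact Submodule.sub_mem _ hN (Submodule.smul_mem _ _ (ι_mem_evenOdd_one _ _))

/-- The inclusion of the module in the extended module. -/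
def cons0 (T : Type u) [CommRing T] (m : ℕ) : (Fin m → T) →ₗ[T] (Fin (m + 1) → T) where
  toFun v := Fin.cons 0 v
  map_add' a b := funext fun i => by refine Fin.cases ?_ (fun i => ?_) i <;> simp
  map_smul' c a := funext fun i => by refine Fin.cases ?_ (fun i => ?_) i <;> simp

theorem formOver_ext (s : T) (u : Fin m → T) : formOver (ext Q ρ) T (Fin.cons s u) =
    s * (u ⬝ᵥ (algebraMap R T ∘ ρ)) + formOver Q T u := by
  rw [formOver_eq_qv, formOver_eq_qv, ext_map, qv_ext]

/-- The map of Clifford algebras induced by the inclusion. -/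
noncomputable def jmap (Q : Matrix (Fin m) (Fin m) R) (ρ : Fin m → R) (T : Type u) [CommRing T]
    [Algebra R T] : Cl Q T →ₐ[T] Cl (ext Q ρ) T :=
  CliffordAlgebra.lift (formOver Q T) ⟨(ι (formOver (ext Q ρ) T)).comp (cons0 T m), fun v => by
    change ι (formOver (ext Q ρ) T) (Fin.cons 0 v) * ι (formOver (ext Q ρ) T) (Fin.cons 0 v) = _
    rw [ι_sq_scalar, formOver_ext, zero_mul, zero_add]⟩

theorem jmap_ι (v : Fin m → T) :
    jmap Q ρ T (ι (formOver Q T) v) = ι (formOver (ext Q ρ) T) (Fin.cons 0 v) :=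
  CliffordAlgebra.lift_ι_apply _ _ v

theorem jmap_injective : Function.Injective (jmap Q ρ T) := by
  let d : Module.Dual T (Fin m → T) :=
    { toFun := fun u => u ⬝ᵥ (algebraMap R T ∘ ρ)
      map_add' := fun a b => add_dotProduct _ _ _
      map_smul' := fun c a => smul_dotProduct _ _ _ }
  let L : (Fin (m + 1) → T) →ₗ[T] Module.End T (Cl Q T) :=
    { toFun := fun x => LinearMap.mulLeft T (ι (formOver Q T) (Fin.tail x)) +
        x 0 • contractLeft (Q := formOver Q T) d
      map_add' := fun a b => LinearMap.ext fun z => by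
        simp only [LinearMap.add_apply, LinearMap.mulLeft_apply, LinearMap.smul_apply, Pi.add_apply,
          show Fin.tail (a + b) = Fin.tail a + Fin.tail b from rfl, map_add, add_mul, add_smul]
        abel
      map_smul' := fun c a => LinearMap.ext fun z => by
        simp only [LinearMap.add_apply, LinearMap.mulLeft_apply, LinearMap.smul_apply,
          Pi.smul_apply, show Fin.tail (c • a) = c • Fin.tail a from rfl, map_smul, smul_mul_assoc,
          RingHom.id_apply, smul_add, smul_eq_mul, mul_smul] }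
  have hL : ∀ x z, L x z = ι (formOver Q T) (Fin.tail x) * z +
      x 0 • contractLeft (Q := formOver Q T) d z := fun x z => rfl
  let Φ : Cl (ext Q ρ) T →ₐ[T] Module.End T (Cl Q T) :=
    CliffordAlgebra.lift (formOver (ext Q ρ) T) ⟨L, fun x => LinearMap.ext fun z => by
      rw [Module.End.mul_apply, hL, hL, map_add, map_smul, contractLeft_contractLeft,
        contractLeft_ι_mul, mul_add, ← mul_assoc, ι_sq_scalar, Module.algebraMap_end_apply]
      conv_rhs => rw [← Fin.cons_self_tail x, formOver_ext]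
      rw [mul_smul_comm, smul_zero, add_zero, smul_sub, add_smul, ← Algebra.smul_def, mul_smul]
      change _ + _ + (x 0 • (Fin.tail x ⬝ᵥ (algebraMap R T ∘ ρ)) • z - _) = _
      abel⟩
  have key : ∀ x z, Φ (jmap Q ρ T x) z = x * z := fun x => by
    induction x using CliffordAlgebra.induction with
    | algebraMap c =>
      intro z
      rw [AlgHom.commutes, AlgHom.commutes, Module.algebraMap_end_apply, Algebra.smul_def]
    | ι v =>
      intro z
      rw [jmap_ι, CliffordAlgebra.lift_ι_apply, hL]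
      simp
    | mul a b ha hb =>
      intro z
      rw [map_mul, map_mul, Module.End.mul_apply, ha, hb, mul_assoc]
    | add a b ha hb =>
      intro z
      rw [map_add, map_add, LinearMap.add_apply, ha, hb, add_mul]
  intro a b h
  rw [← mul_one a, ← mul_one b, ← key, ← key, h]

theorem jmap_involute (x : Cl Q T) : jmap Q ρ T (involute x) = involute (jmap Q ρ T x) := by
  induction x using CliffordAlgebra.induction with
  | algebraMap r => rw [AlgHom.commutes, AlgHom.commutes, AlgHom.commutes]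
  | ι v => rw [involute_ι, map_neg, jmap_ι, involute_ι]
  | mul a b ha hb => rw [map_mul, map_mul, map_mul, map_mul, ha, hb]
  | add a b ha hb => rw [map_add, map_add, map_add, map_add, ha, hb]

theorem jmap_reverse (x : Cl Q T) : jmap Q ρ T (reverse x) = reverse (jmap Q ρ T x) := by
  induction x using CliffordAlgebra.induction with
  | algebraMap r => rw [reverse.commutes, AlgHom.commutes, reverse.commutes]
  | ι v => rw [reverse_ι, jmap_ι, reverse_ι]
  | mul a b ha hb => rw [reverse.map_mul, map_mul, map_mul, reverse.map_mul, ha, hb]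
  | add a b ha hb => rw [map_add, map_add, map_add, map_add, ha, hb]

theorem jmap_clMap (f : T →ₐ[R] T') (x : Cl Q T) :
    jmap Q ρ T' (clMap Q f x) = clMap (ext Q ρ) f (jmap Q ρ T x) := by
  induction x using CliffordAlgebra.induction with
  | algebraMap r => rw [clMap_algebraMap, AlgHom.commutes, AlgHom.commutes, clMap_algebraMap]
  | ι v => rw [clMap_ι, jmap_ι, jmap_ι, clMap_ι, comp_cons, map_zero]
  | mul a b ha hb => rw [map_mul, map_mul, map_mul, map_mul, ha, hb]
  | add a b ha hb => rw [map_add, map_add, map_add, map_add, ha, hb]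

theorem jmap_even {x : Cl Q T} (hx : x ∈ even (formOver Q T)) :
    jmap Q ρ T x ∈ even (formOver (ext Q ρ) T) := by
  induction x, hx using CliffordAlgebra.even_induction with
  | algebraMap r => rw [AlgHom.commutes]; exact Subalgebra.algebraMap_mem _ _
  | add x y _ _ hx hy => rw [map_add]; exact add_mem hx hy
  | ι_mul_ι_mul a b x _ hx =>
    rw [map_mul, map_mul, jmap_ι, jmap_ι]
    exact mul_mem (ι_mul_ι_mem_evenOdd_zero _ _ _) hx

theorem jmap_vprod (l : List (Fin m → T)) : jmap Q ρ T (vprod Q l) =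
    vprod (ext Q ρ) (l.map fun v => (Fin.cons 0 v : Fin (m + 1) → T)) := by
  induction l with
  | nil => rw [cliff_nil, map_one, List.map_nil, cliff_nil]
  | cons a l ih => rw [cliff_cons, map_mul, jmap_ι, ih, List.map_cons, cliff_cons]

theorem Semi.bv_w (h : Semi Q r ρ) (x : Fin (m + 1) → T) :
    bv ((ext Q ρ).map (algebraMap R T)) x (algebraMap R T ∘ wvec Q r) = x 0 := by
  rw [ext_map, wvec_map, (h.map _).bv_wvec]

theorem Semi.jmap_comm (h : Semi Q r ρ) (x : Cl Q T) :
    involute (jmap Q ρ T x) * ι (formOver (ext Q ρ) T) (algebraMap R T ∘ wvec Q r) =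
      ι (formOver (ext Q ρ) T) (algebraMap R T ∘ wvec Q r) * jmap Q ρ T x := by
  induction x using CliffordAlgebra.induction with
  | algebraMap r => rw [AlgHom.commutes, AlgHom.commutes, Algebra.commutes]
  | ι v =>
    have h1 := ι_mul_ι_add_swap (Q := formOver (ext Q ρ) T) (Fin.cons 0 v)
      (algebraMap R T ∘ wvec Q r)
    rw [cliff_polar, h.bv_w, Fin.cons_zero, map_zero] at h1
    rw [jmap_ι, involute_ι, neg_mul]
    exact neg_eq_of_add_eq_zero_right h1
  | mul a b ha hb => rw [map_mul, map_mul, mul_assoc, hb, ← mul_assoc, ha, mul_assoc]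
  | add a b ha hb => rw [map_add, map_add, add_mul, mul_add, ha, hb]

/-- The matrix induced by an element of the small Clifford algebra fixes `wvec`. -/
theorem Semi.ind_fix (h : Semi Q r ρ) {x : Cl Q T} (hx : IsUnit x)
    {g : Matrix (Fin (m + 1)) (Fin (m + 1)) T} (hg : Ind (ext Q ρ) (jmap Q ρ T x) g) :
    g *ᵥ (algebraMap R T ∘ wvec Q r) = algebraMap R T ∘ wvec Q r :=
  cl_ι_injective (Q := ext Q ρ) ((hx.map (jmap Q ρ T)).mul_right_cancel
    ((hg _).symm.trans (h.jmap_comm x)))

theorem Semi.spin_aux (h : Semi Q r ρ) (x : Spin Q T) (v : Fin (m + 1) → T) :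
    ∃ w, jmap Q ρ T x.val.val * ι (formOver (ext Q ρ) T) v =
      ι (formOver (ext Q ρ) T) w * jmap Q ρ T x.val.val := by
  obtain ⟨g', hg', -⟩ := spin_ind x⁻¹
  have ev := jmap_even (ρ := ρ) x.2.1
  have ev' := jmap_even (ρ := ρ) (x⁻¹).2.1
  set X := jmap Q ρ T x.val.val
  set Y := jmap Q ρ T (x⁻¹).val.val with hY
  have XY : X * Y = 1 := by rw [← map_mul]; exact (congrArg _ x.val.mul_inv).trans (map_one _)
  have YX : Y * X = 1 := by rw [← map_mul]; exact (congrArg _ x.val.inv_mul).trans (map_one _)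
  have a1 : ∀ u, Y * ι (formOver (ext Q ρ) T) (Fin.cons 0 u) =
      ι (formOver (ext Q ρ) T) (Fin.cons 0 (g' *ᵥ u)) * Y := fun u => by
    have := congrArg (jmap Q ρ T) (hg' u)
    rwa [involute_eq_of_mem_even (x⁻¹).2.1, map_mul, map_mul, jmap_ι, jmap_ι] at this
  obtain ⟨e', he'⟩ := (h.unim_ext.map (algebraMap R T)).exists_dual
    (Fin.cons 0 (g'ᵀ *ᵥ (algebraMap R T ∘ ρ)))
  obtain ⟨c, hc⟩ := odd_eq_smul h.unim_ext (e := Fin.cons 1 0) (w := algebraMap R T ∘ wvec Q r)
    (by rw [h.bv_w]; rfl)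
    (N := X * ι (formOver (ext Q ρ) T) (Fin.cons 1 0) * Y - ι (formOver (ext Q ρ) T) e')
    (Submodule.sub_mem _ (by
      have := SetLike.mul_mem_graded (A := evenOdd (formOver (ext Q ρ) T))
        (SetLike.mul_mem_graded (A := evenOdd (formOver (ext Q ρ) T)) ev
          (ι_mem_evenOdd_one _ (Fin.cons 1 0))) ev'
      rwa [zero_add, add_zero] at this) (ι_mem_evenOdd_one _ _))
    (fun u hu => by
      rw [h.bv_w] at hu
      rw [← Fin.cons_self_tail u, hu]
      generalize Fin.tail u = u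
      have b1 := ι_mul_ι_add_swap (Q := formOver (ext Q ρ) T) (Fin.cons 0 u) e'
      have b2 := ι_mul_ι_add_swap (Q := formOver (ext Q ρ) T) (Fin.cons 0 (g' *ᵥ u)) (Fin.cons 1 0)
      rw [cliff_polar, he'] at b1
      rw [cliff_polar, ext_map, bv_ext, bv_zero_right, zero_mul, zero_add, add_zero, one_mul] at b2
      have b3 : (Fin.cons 0 u : Fin (m + 1) → T) ⬝ᵥ Fin.cons 0 (g'ᵀ *ᵥ (algebraMap R T ∘ ρ)) =
          (g' *ᵥ u) ⬝ᵥ (algebraMap R T ∘ ρ) := by
        rw [dotProduct_comm (g' *ᵥ u), dotProduct_mulVec, ← mulVec_transpose, dotProduct_comm _ u]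
        simp [dotProduct, Fin.sum_univ_succ]
      have b4 : ι (formOver (ext Q ρ) T) (Fin.cons 0 u) * X =
          X * ι (formOver (ext Q ρ) T) (Fin.cons 0 (g' *ᵥ u)) := by
        rw [← mul_one (X * _), ← YX, ← mul_assoc, mul_assoc X, ← a1, ← mul_assoc, XY, one_mul]
      have b5 := congrArg (fun z => X * z * Y) b2
      simp only [mul_add, add_mul] at b5
      rw [← Algebra.commutes, mul_assoc _ X Y, XY, mul_one, ← b3, ← b1] at b5
      rw [mul_sub, sub_mul, ← mul_assoc, ← mul_assoc, b4, mul_assoc _ Y, a1, sub_add_sub_comm, ← b5,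
        sub_eq_zero]
      simp only [mul_assoc])
  obtain ⟨w, hw⟩ := x.2.2.2.1 (Fin.tail v)
  have c1 := congrArg (jmap Q ρ T) (show x.val.val * ι (formOver Q T) (Fin.tail v) =
    ι (formOver Q T) w * x.val.val from hw)
  rw [map_mul, map_mul, jmap_ι, jmap_ι] at c1
  have c2 : X * ι (formOver (ext Q ρ) T) (Fin.cons 1 0) =
      ι (formOver (ext Q ρ) T) (e' + c • (algebraMap R T ∘ wvec Q r)) * X := by
    rw [map_add, map_smul, ← hc, add_sub_cancel, mul_assoc, YX, mul_one]
  have c3 : v = v 0 • Fin.cons 1 0 + Fin.cons 0 (Fin.tail v) := funext fun i => by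
    refine Fin.cases ?_ (fun i => ?_) i <;> simp [Fin.tail]
  refine ⟨v 0 • (e' + c • (algebraMap R T ∘ wvec Q r)) + Fin.cons 0 w, ?_⟩
  conv_lhs => rw [c3]
  rw [map_add, map_smul, mul_add, mul_smul_comm, c1, c2, map_add _ (v 0 • _), map_smul, add_mul,
    smul_mul_assoc]

theorem Semi.spin_ind (h : Semi Q r ρ) (x : Spin Q T) :
    ∃ g : Matrix (Fin (m + 1)) (Fin (m + 1)) T, Ind (ext Q ρ) (jmap Q ρ T x.val.val) g ∧
      Carries g ((ext Q ρ).map (algebraMap R T)) ((ext Q ρ).map (algebraMap R T)) := by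
  refine Pool.Agent.P.MP_c1f06d_ag.spin_ind
    ⟨Units.map (jmap Q ρ T).toRingHom.toMonoidHom x.val, jmap_even x.2.1, ?_, h.spin_aux x,
      fun w => ?_⟩
  · change jmap Q ρ T x.val.val * reverse (jmap Q ρ T x.val.val) = 1
    rw [← jmap_reverse, ← map_mul, x.2.2.1, map_one]
  · obtain ⟨v, hv⟩ := h.spin_aux x⁻¹ w
    refine ⟨v, ?_⟩
    change jmap Q ρ T x.val.val * _ = _ * jmap Q ρ T x.val.val
    have XY : jmap Q ρ T x.val.val * jmap Q ρ T (x⁻¹).val.val = 1 := by
      rw [← map_mul]; exact (congrArg _ x.val.mul_inv).trans (map_one _)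
    have YX : jmap Q ρ T (x⁻¹).val.val * jmap Q ρ T x.val.val = 1 := by
      rw [← map_mul]; exact (congrArg _ x.val.inv_mul).trans (map_one _)
    change _ * ι (formOver (ext Q ρ) T) v = ι (formOver (ext Q ρ) T) w * _
    rw [← mul_one (jmap Q ρ T x.val.val * _), ← YX, ← mul_assoc, mul_assoc _ (ι _ v), ← hv,
      ← mul_assoc, XY, one_mul]

theorem Semi.mem_spin (h : Semi Q r ρ) {x : (Cl Q T)ˣ} {g : Matrix (Fin (m + 1)) (Fin (m + 1)) T}
    (hc : Carries g ((ext Q ρ).map (algebraMap R T)) ((ext Q ρ).map (algebraMap R T)))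
    (he : x.val ∈ even (formOver Q T)) (hn : reverse x.val * x.val = 1)
    (hx : Ind (ext Q ρ) (jmap Q ρ T x.val) g) : x ∈ Spin Q T := by
  have hi : involute x.val = x.val := involute_eq_of_mem_even he
  have e : (x⁻¹).val = reverse x.val := Units.inv_eq_of_mul_eq_one_left hn
  have hd := hc.isUnit_det (h.unim_ext.map _)
  have z : ∀ v, (g *ᵥ v) 0 = v 0 := fun v => by
    rw [← h.bv_w (g *ᵥ v), ← h.bv_w v, ← hc.bv v, h.ind_fix x.isUnit hx]
  have key : ∀ u u' : Fin m → T, g *ᵥ Fin.cons 0 u = Fin.cons 0 u' →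
      x.val * ι (formOver Q T) u = ι (formOver Q T) u' * x.val := fun u u' hu =>
    jmap_injective (ρ := ρ) (by
      rw [map_mul, map_mul, jmap_ι, jmap_ι, ← hu, ← hx, ← jmap_involute, hi])
  refine ⟨he, by rw [← e, Units.mul_inv], fun v => ⟨Fin.tail (g *ᵥ Fin.cons 0 v), key _ _ ?_⟩,
    fun w => ⟨Fin.tail (g⁻¹ *ᵥ Fin.cons 0 w), key _ _ ?_⟩⟩
  · conv_lhs => rw [← Fin.cons_self_tail (g *ᵥ Fin.cons 0 v), z, Fin.cons_zero]
  · have e1 : g *ᵥ (g⁻¹ *ᵥ Fin.cons 0 w) = Fin.cons 0 w := by
      rw [mulVec_mulVec, mul_nonsing_inv _ hd, one_mulVec]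
    have e2 := z (g⁻¹ *ᵥ Fin.cons 0 w)
    rw [e1, Fin.cons_zero] at e2
    conv_rhs => rw [← e1, ← Fin.cons_self_tail (g⁻¹ *ᵥ Fin.cons 0 w), ← e2]

theorem exists_spin_map' (f : T →ₐ[R] T') (x : Spin Q T) :
    ∃ x' : Spin Q T', clMap Q f x.val.val = x'.val.val := by
  obtain ⟨h, h1, -⟩ := spin_ind x
  obtain ⟨k, k1, -⟩ := spin_ind x⁻¹
  have hk : h * k = 1 := by
    have := h1.mul k1
    rw [show x.val.val * (x⁻¹).val.val = 1 from x.val.mul_inv] at this
    exact Ind.unique isUnit_one this ind_one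
  have hd' : IsUnit (h.map f).det := by
    have := (isUnit_det_of_right_inverse hk).map f.toRingHom
    rwa [RingHom.map_det] at this
  have e : (x.val⁻¹).val = reverse x.val.val := Units.inv_eq_of_mul_eq_one_right x.2.2.1
  refine ⟨⟨Units.map (clMap Q f).toMonoidHom x.val,
    mem_spin hd' (clMap_even Q f x.2.1) ?_ (h1.map f)⟩, rfl⟩
  change reverse (clMap Q f x.val.val) * clMap Q f x.val.val = 1
  rw [← clMap_reverse, ← map_mul, ← e, Units.inv_mul, map_one]

end Pool.Agent.P.MP_c1f06d_ag
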