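import Pool.Agent.P.MP_c1f06d_ag.BNormInd

open Matrix Polynomial

universe u

namespace Pool.Agent.P.MP_c1f06d_ag

open IsLocalRing

variable {m : ℕ} {R : Type*} [CommRing R] [IsLocalRing R] {Q : Matrix (Fin m) (Fin m) R}
  {r ρ : Fin m → R}

section
variable {S : Type*} [CommRing S] [Algebra R S] [Module.Free R S] [Module.Finite R S]

theorem Semi.norm_inf_good [Infinite (ResidueField R)] (hQ : Semi Q r ρ) (hm : 5 ≤ m)
    {v0 : Fin m → R} (h0 : IsUnit (qv Q v0)) (g0 : Good Q v0) {θ : S}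
    (hθ : Algebra.adjoin R {θ} = ⊤) {y : Fin m → S}
    (hy : IsUnit (qv (Q.map (algebraMap R S)) y)) (hg : Good (Q.map (algebraMap R S)) y) :
    Sn Q (Algebra.norm R (qv (Q.map (algebraMap R S)) y) * qv Q v0 ^ Module.finrank R S) := by
  have := gen_neBot (R := R)
  obtain ⟨z1, hz1⟩ := hg
  have key := fun y hy hg =>
    NormA.of_generator (S := S) (y := y) h0 g0 (hQ.normA hm h0 g0 _) hy hg
  set Q' := Q.map (algebraMap R S)
  have hz : bv Q' y (θ • z1) = θ := by rw [bv_smul_right, hz1, mul_one]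
  generalize θ • z1 = z at hz
  obtain ⟨b, hb⟩ := hy.exists_right_inv
  have hv : ∀ α β : S, qv Q' (α • y + β • z) = α ^ 2 * qv Q' y + β ^ 2 * qv Q' z + α * (β * θ) :=
    fun α β => by rw [qv_add, qv_smul, qv_smul, bv_smul_left, bv_smul_right, hz]
  let f : S[X] := C (qv Q' y) + C θ * X + C (qv Q' z) * X ^ 2
  have f0 : f.coeff 0 = qv Q' y := by simp [f]
  have f1 : f.coeff 1 = θ := by simp [f]
  have fe : ∀ e : S, f.eval e = qv Q' ((1 : S) • y + e • z) := fun e => by
    rw [hv]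
    simp only [f, eval_add, eval_mul, eval_C, eval_X, eval_pow]
    ring
  have hE := (eventually_isUnit (R := R) f 0 (f0 ▸ hy)).and
    (eventually_adjoin_eq_top (R := R) f 1 (f1 ▸ hθ))
  obtain ⟨e, u1, g1⟩ := hE.exists
  set e1 := algebraMap R S e
  obtain ⟨e', ⟨u2, g2⟩, g3⟩ := (hE.and (eventually_adjoin_eq_top (R := R)
    (C (f.eval e1 * b) * f) 0 (by
      rwa [coeff_C_mul, f0, mul_assoc, mul_comm b, hb, mul_one]))).exists
  set e2 := algebraMap R S e'
  have h3 : f.eval e1 * b * f.eval e2 =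
      qv Q' ((1 - e1 * e2 * qv Q' z * b) • y + (e1 + e2 + e1 * e2 * θ * b) • z) := by
    rw [fe, fe, hv, hv, hv]
    linear_combination (qv Q' y + θ * (e1 + e2) + (e1 + e2) ^ 2 * qv Q' z -
      (e1 * e2) ^ 2 * qv Q' z ^ 2 * b) * hb
  have u3 := (u1.mul (IsUnit.of_mul_eq_one_right _ hb)).mul u2
  rw [eval_mul, eval_C, h3] at g3
  have h4 : qv Q' y * (f.eval e1 * b * f.eval e2) = f.eval e1 * f.eval e2 := by
    linear_combination f.eval e1 * f.eval e2 * hb
  rw [h3] at u3 h4
  rw [fe] at u1 u2 g1 g2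
  refine Sn.cancel h0 (key _ u3 g3) ((u3.map (Algebra.norm R)).mul (h0.pow _)) ?_
  have h5 := (key _ u1 g1).mul (key _ u2 g2)
  rw [mul_mul_mul_comm, ← map_mul] at h5 ⊢
  rwa [h4, fe, fe]

/-- It is enough to treat vectors that pair to one. -/
theorem bnorm_reduce {v0 : Fin m → R} (h0 : IsUnit (qv Q v0)) {y : Fin m → S} (a : S)
    (u1 : IsUnit (qv (Q.map (algebraMap R S)) (a • y + algebraMap R S ∘ v0)))
    (s1 : Sn Q (Algebra.norm R (qv (Q.map (algebraMap R S)) (a • y + algebraMap R S ∘ v0)) *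
      qv Q v0 ^ Module.finrank R S))
    (s2 : Sn Q (Algebra.norm R (qv (Q.map (algebraMap R S))
      ((a * bv (Q.map (algebraMap R S)) y (algebraMap R S ∘ v0) +
        qv (Q.map (algebraMap R S)) (algebraMap R S ∘ v0)) • y -
        (a * qv (Q.map (algebraMap R S)) y) • (algebraMap R S ∘ v0))) *
      qv Q v0 ^ Module.finrank R S)) :
    Sn Q (Algebra.norm R (qv (Q.map (algebraMap R S)) y) * qv Q v0 ^ Module.finrank R S) := by
  refine Sn.cancel h0 s1 ((u1.map (Algebra.norm R)).mul (h0.pow _)) ?_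
  rw [btrick, map_mul, map_mul, qv_map, Algebra.norm_algebraMap, mul_assoc] at s2
  exact s2

theorem Semi.norm_inf [Infinite (ResidueField R)] (hQ : Semi Q r ρ) (hm : 5 ≤ m)
    {v0 : Fin m → R} (h0 : IsUnit (qv Q v0)) (g0 : Good Q v0) {θ : S}
    (hθ : Algebra.adjoin R {θ} = ⊤) {y : Fin m → S}
    (hy : IsUnit (qv (Q.map (algebraMap R S)) y)) :
    Sn Q (Algebra.norm R (qv (Q.map (algebraMap R S)) y) * qv Q v0 ^ Module.finrank R S) := by
  have := gen_neBot (R := R)
  have hu : IsUnit (qv (Q.map (algebraMap R S)) (algebraMap R S ∘ v0)) := by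
    rw [qv_map]; exact h0.map _
  obtain ⟨c, u1, a1, a2⟩ := (btrick_eventually (R := R) hy hu (g0.map (algebraMap R S))).exists
  exact bnorm_reduce h0 _ u1 (hQ.norm_inf_good hm h0 g0 hθ u1 a1)
    (hQ.norm_inf_good hm h0 g0 hθ (by rw [btrick]; exact (hy.mul hu).mul u1) a2)

end

theorem Semi.sn_of_adjoinRoot_inf [Infinite (ResidueField R)] (hQ : Semi Q r ρ) (hm : 5 ≤ m)
    {P : R[X]} (hP : P.Monic) (hodd : Odd P.natDegree) {a : R} (ha : IsUnit a)
    (h : Sn (Q.map (AdjoinRoot.of P)) (AdjoinRoot.of P a)) : Sn Q a := by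
  obtain ⟨v0, h0, g0⟩ := hQ.exists_good (by omega)
  have := Module.Free.of_basis (AdjoinRoot.powerBasis' hP).basis
  have := Module.Finite.of_basis (AdjoinRoot.powerBasis' hP).basis
  exact sn_descend (S := AdjoinRoot P) h0 ((AdjoinRoot.powerBasis' hP).finrank ▸ hodd)
    (fun _ hy => hQ.norm_inf hm h0 g0 AdjoinRoot.adjoinRoot_eq_top hy) ha h

theorem Semi.sn_of_adjoinRoot_prime (hQ : Semi Q r ρ) (hm : 5 ≤ m) {P : R[X]} (hP : P.Monic)
    (hirr : Irreducible (P.map (residue R))) (hp : P.natDegree.Prime) (hodd : Odd P.natDegree)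
    {a : R} (ha : IsUnit a) (h : Sn (Q.map (AdjoinRoot.of P)) (AdjoinRoot.of P a)) : Sn Q a := by
  obtain ⟨v0, h0, g0⟩ := hQ.exists_good (by omega)
  have := Module.Free.of_basis (AdjoinRoot.powerBasis' hP).basis
  have := Module.Finite.of_basis (AdjoinRoot.powerBasis' hP).basis
  have := Fact.mk hirr
  set B := P.map (residue R) with hB
  have hd : B.natDegree = P.natDegree := hP.natDegree_map _
  have h3 : 2 < B.natDegree := hd ▸ lt_of_le_of_ne hp.two_le fun e => by
    rw [← e] at hodd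
    exact absurd hodd (by decide)
  let φ : AdjoinRoot P →+* AdjoinRoot B :=
    AdjoinRoot.lift ((AdjoinRoot.of B).comp (residue R)) (AdjoinRoot.root B)
      (by rw [← eval₂_map]; exact AdjoinRoot.eval₂_root _)
  have hφ : ∀ r, φ (AdjoinRoot.mk P r) = AdjoinRoot.mk B (r.map (residue R)) := fun r => by
    rw [AdjoinRoot.lift_mk, ← eval₂_map, ← AdjoinRoot.aeval_eq]
    rfl
  have hm' := map_surjective (residue R) residue_surjective
  have hs : Function.Surjective φ := fun x => by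
    obtain ⟨r, rfl⟩ := AdjoinRoot.mk_surjective x
    obtain ⟨r, rfl⟩ := hm' r
    exact ⟨_, hφ r⟩
  have hk : ∀ x, φ x = 0 → x ∈ (maximalIdeal R).map (algebraMap R (AdjoinRoot P)) := fun x hx => by
    obtain ⟨r, rfl⟩ := AdjoinRoot.mk_surjective x
    obtain ⟨t, ht⟩ := AdjoinRoot.mk_eq_zero.1 ((hφ r).symm.trans hx)
    obtain ⟨t, rfl⟩ := hm' t
    have h1 : r - P * t ∈ RingHom.ker (mapRingHom (residue R)) := by
      rw [RingHom.mem_ker, coe_mapRingHom, Polynomial.map_sub, Polynomial.map_mul, ht, sub_self]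
    rw [ker_mapRingHom, ker_residue] at h1
    have h2 := Ideal.mem_map_of_mem (AdjoinRoot.mk P) h1
    rwa [Ideal.map_map, map_sub, map_mul, AdjoinRoot.mk_self, zero_mul, sub_zero] at h2
  have hg : ∀ x, φ x ∉ (⊥ : Subalgebra (ResidueField R) (AdjoinRoot B)) →
      Algebra.adjoin R {x} = ⊤ := fun x hx => by
    have := Subalgebra.isSimpleOrder_of_finrank_prime (ResidueField R) (AdjoinRoot B)
      (by rwa [(AdjoinRoot.powerBasis hirr.ne_zero).finrank, AdjoinRoot.powerBasis_dim, hd])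
    have h1 := (eq_bot_or_eq_top (Algebra.adjoin (ResidueField R) {φ x})).resolve_left
      fun e => hx (e ▸ Algebra.self_mem_adjoin_singleton _ _)
    rw [← Algebra.toSubmodule_eq_top, eq_top_iff]
    refine Submodule.le_of_le_smul_of_le_jacobson_bot Module.Finite.fg_top
      (maximalIdeal_le_jacobson ⊥) fun s _ => ?_
    have h2 : φ s ∈ Algebra.adjoin (ResidueField R) {φ x} := h1 ▸ trivial
    rw [Algebra.adjoin_singleton_eq_range_aeval] at h2
    obtain ⟨p, hp⟩ := h2
    obtain ⟨p, rfl⟩ := hm' p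
    rw [← add_sub_cancel (aeval x p) s, Ideal.smul_top_eq_map]
    refine Submodule.add_mem_sup (aeval_mem_adjoin_singleton R x) (hk _ ?_)
    rw [map_sub, ← hp, aeval_def, hom_eval₂, sub_eq_zero]
    change eval₂ _ _ _ = _
    rw [eval₂_map]
    exact congrArg (fun f => eval₂ f (φ x) p) (AdjoinRoot.lift_comp_of _).symm
  have hr : φ (AdjoinRoot.root P) = AdjoinRoot.root B := AdjoinRoot.lift_root _
  have hn : ∀ c, AdjoinRoot.root B ^ 2 ≠ algebraMap (ResidueField R) _ c := fun c e => by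
    have h1 : B ∣ X ^ 2 - C c := AdjoinRoot.mk_eq_zero.1 (by
      rw [map_sub, map_pow, sub_eq_zero]
      exact e)
    have h2 := natDegree_le_of_dvd h1 (X_pow_sub_C_ne_zero two_pos c)
    rw [natDegree_X_pow_sub_C] at h2
    omega
  have hu : IsUnit (AdjoinRoot.root P) := by
    obtain ⟨x, hx⟩ := hs (AdjoinRoot.root B)⁻¹
    refine isUnit_of_mul_isUnit_left (y := x) (isUnit_of_sub_mem_map (R := R) isUnit_one (hk _ ?_))
    rw [map_sub, map_mul, hr, hx, map_one, mul_inv_cancel₀, sub_self]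
    exact fun e => hn 0 (by rw [e, map_zero, zero_pow two_ne_zero])
  have un : ∀ x, φ x ≠ 0 → IsUnit x := fun x hx => by
    obtain ⟨x', hx'⟩ := hs (φ x)⁻¹
    refine isUnit_of_mul_isUnit_left (y := x') (isUnit_of_sub_mem_map (R := R) isUnit_one (hk _ ?_))
    rw [map_sub, map_mul, hx', map_one, mul_inv_cancel₀ hx, sub_self]
  have hA : NormA Q v0 (Module.finrank R (AdjoinRoot P)) := hQ.normA hm h0 g0 _
  have good : ∀ y : Fin m → AdjoinRoot P, IsUnit (qv (Q.map (algebraMap R (AdjoinRoot P))) y) →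
      Good (Q.map (algebraMap R (AdjoinRoot P))) y →
      Sn Q (Algebra.norm R (qv (Q.map (algebraMap R (AdjoinRoot P))) y) *
        qv Q v0 ^ Module.finrank R (AdjoinRoot P)) := fun y hy gy => by
    by_cases hc : φ (qv (Q.map (algebraMap R (AdjoinRoot P))) y) ∈
        (⊥ : Subalgebra (ResidueField R) (AdjoinRoot B))
    · obtain ⟨c, hc⟩ := Algebra.mem_bot.1 hc
      have h1 := hA.of_good (y := AdjoinRoot.root P • y)
        (by rw [qv_smul]; exact (hu.pow 2).mul hy) (gy.smul hu) (hg _ fun e => by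
          obtain ⟨c', e⟩ := Algebra.mem_bot.1 e
          rw [qv_smul, map_mul, map_pow, hr, ← hc] at e
          refine hn (c' / c) ?_
          rw [map_div₀, e, mul_div_cancel_right₀ _ (hc ▸ (hy.map φ).ne_zero)])
      rw [qv_smul, map_mul, map_pow, mul_assoc, mul_comm] at h1
      exact Sn.cancel h0 (sn_sq h0 _) ((hu.map (Algebra.norm R)).pow 2) h1
    · exact hA.of_good hy gy (hg _ hc)
  refine sn_descend (S := AdjoinRoot P) h0 ((AdjoinRoot.powerBasis' hP).finrank ▸ hodd)
    (fun y hy => ?_) ha h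
  by_cases gy : Good (Q.map (algebraMap R (AdjoinRoot P))) y
  · exact good y hy gy
  have hv : IsUnit (qv (Q.map (algebraMap R (AdjoinRoot P))) (algebraMap R _ ∘ v0)) := by
    rw [qv_map]; exact h0.map _
  obtain ⟨t, ht⟩ := g0.map (algebraMap R (AdjoinRoot P))
  have red := fun a => bnorm_reduce (S := AdjoinRoot P) (Q := Q) h0 (y := y) a
  set Q' := Q.map (algebraMap R (AdjoinRoot P))
  set v := algebraMap R (AdjoinRoot P) ∘ v0
  have z0 : ∀ x, φ (bv Q' y x) = 0 := fun x => by_contra fun e => gy (good_of_isUnit (un _ e))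
  obtain ⟨a, a1, a2⟩ : ∃ a, IsUnit a ∧ φ (a ^ 2 * qv Q' y + qv Q' v) ≠ 0 := by
    by_contra! hc
    have c1 := hc 1 isUnit_one
    have c2 := hc _ hu
    rw [map_add, map_mul, map_pow] at c1 c2
    rw [map_one] at c1
    rw [hr] at c2
    refine hn 1 (mul_right_cancel₀ (hy.map φ).ne_zero ?_)
    rw [map_one]
    linear_combination c2 - c1
  have u1 : IsUnit (qv Q' (a • y + v)) := un _ (by
    rw [qv_add, qv_smul, bv_smul_left, map_add, map_mul φ a, z0, mul_zero, add_zero]
    exact a2)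
  refine red a u1 (good _ u1 (good_of_isUnit (z := t) (un _ ?_)))
    (good _ (by rw [btrick]; exact (hy.mul hv).mul u1) (good_of_isUnit (z := t) (un _ ?_)))
  · rw [bv_add_left, bv_smul_left, ht, map_add, map_mul, z0, mul_zero, zero_add, map_one]
    exact one_ne_zero
  · rw [bv_sub_left, bv_smul_left, bv_smul_left, ht, map_sub, map_mul, z0, mul_zero, zero_sub,
      mul_one]
    exact neg_ne_zero.2 ((a1.mul hy).map φ).ne_zero

end Pool.Agent.P.MP_c1f06d_ag
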