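import Pool.Agent.P.MP_c1f06d_ag.QSn

open Matrix Polynomial

universe u

namespace Pool.Agent.P.MP_c1f06d_ag

variable {m : ℕ} {A R : Type u} [CommRing A] [CommRing R]

theorem exists_etale_unit (σ : A →+* R) (a : A) (ha : IsUnit (σ a)) :
    ∃ (A' : Type u) (_ : CommRing A') (f : A →+* A') (σ' : A' →+* R),
      f.Etale ∧ σ'.comp f = σ ∧ IsUnit (f a) :=
  ⟨Localization.Away a, inferInstance, algebraMap _ _, IsLocalization.Away.lift a ha,
    RingHom.etale_algebraMap.2 (Algebra.Etale.of_isLocalizationAway a),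
    IsLocalization.Away.lift_comp a ha, IsLocalization.Away.algebraMap_isUnit a⟩

theorem exists_etale_root (σ : A →+* R) (a b c : A) (hc : σ c = 0) (hb : IsUnit (σ b)) :
    ∃ (A' : Type u) (_ : CommRing A') (f : A →+* A') (σ' : A' →+* R) (s : A'),
      f.Etale ∧ σ'.comp f = σ ∧ σ' s = 0 ∧ f a * s ^ 2 + f b * s + f c = 0 := by
  let _ : Algebra A R := σ.toAlgebra
  let P : StandardEtalePair A := ⟨X ^ 2 + (C (-b) * X + C (a * c)),
    monic_X_pow_add (degree_linear_lt (a := -b) (b := a * c)), (2 * X - C b) * X,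
    ⟨X, 0, 1, by simp [← one_add_one_eq_two]; ring⟩⟩
  have hP : P.HasMap (σ b) := by
    refine ⟨?_, ?_⟩
    · simp [P, RingHom.algebraMap_toAlgebra, hc, sq]
    · simpa [P, RingHom.algebraMap_toAlgebra, two_mul] using hb
  obtain ⟨h1, h2⟩ := P.hasMap_X
  simp only [P, map_add, map_pow, map_mul, aeval_X, aeval_C, map_neg] at h1 h2
  obtain ⟨u, hu⟩ := (isUnit_of_mul_isUnit_right h2).exists_right_inv
  refine ⟨P.Ring, inferInstance, algebraMap _ _, (P.lift _ hP).toRingHom,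
    -(algebraMap A _ c * u), RingHom.etale_algebraMap.2 inferInstance,
    (P.lift _ hP).comp_algebraMap, ?_, ?_⟩
  · change P.lift _ hP _ = 0
    rw [map_neg, map_mul, AlgHom.commutes, RingHom.algebraMap_toAlgebra, hc, zero_mul, neg_zero]
  · linear_combination algebraMap A _ c * u ^ 2 * h1 -
      algebraMap A _ c * (P.X * u + 1 - algebraMap A _ b * u) * hu

/-- The vectors `v i` reduce to the standard basis and have the right values on `s`. -/
def equate_good (σ : A →+* R) (Q1 Q2 : Matrix (Fin m) (Fin m) A) (s : Finset (Fin m))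
    (v : Fin m → Fin m → A) : Prop :=
  (∀ i, σ ∘ v i = Pi.single i 1) ∧ (∀ i ∈ s, qv Q2 (v i) = Q1 i i) ∧
    ∀ i ∈ s, ∀ j ∈ s, bv Q2 (v i) (v j) = Q1 i j + Q1 j i

theorem equate_good.map {σ : A →+* R} {Q1 Q2 : Matrix (Fin m) (Fin m) A} {s : Finset (Fin m)}
    {v : Fin m → Fin m → A} (h : equate_good σ Q1 Q2 s v) {A' : Type u} [CommRing A'] {f : A →+* A'}
    {σ' : A' →+* R} (e : σ'.comp f = σ) :
    equate_good σ' (Q1.map f) (Q2.map f) s fun i => f ∘ v i := by
  subst e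
  exact ⟨h.1, fun i hi => by rw [qv_map, h.2.1 i hi]; rfl,
    fun i hi j hj => by rw [bv_map, h.2.2 i hi j hj, map_add]; rfl⟩

theorem equate_step {σ : A →+* R} {Q1 Q2 : Matrix (Fin m) (Fin m) A} (h : Q1.map σ = Q2.map σ)
    {s : Finset (Fin m)} {v : Fin m → Fin m → A} (hv : equate_good σ Q1 Q2 s v) {r : Fin m}
    (hr : r ∉ s) {d : Fin m → Fin m → A} (hd : ∀ i j, bv Q2 (v i) (d j) = if i = j then 1 else 0) :
    ∃ (A' : Type u) (_ : CommRing A') (f : A →+* A') (σ' : A' →+* R) (w : Fin m → Fin m → A'),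
      f.Etale ∧ σ'.comp f = σ ∧ equate_good σ' (Q1.map f) (Q2.map f) (insert r s) w := by
  obtain ⟨y, y1, y2⟩ : ∃ y, σ ∘ y = σ ∘ v r ∧ ∀ i ∈ s, bv Q2 (v i) y = Q1 i r + Q1 r i := by
    refine ⟨v r + ∑ j ∈ s, (Q1 j r + Q1 r j - bv Q2 (v j) (v r)) • d j, funext fun a => ?_,
      fun i hi => ?_⟩
    · have : ∀ j, σ (Q1 j r + Q1 r j - bv Q2 (v j) (v r)) = 0 := fun j => by
        rw [map_sub, ← bv_map, hv.1, hv.1, bv_single, ← h, map_add]
        exact sub_self _
      simp only [Function.comp_apply, Pi.add_apply, Finset.sum_apply, Pi.smul_apply, smul_eq_mul,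
        map_add σ (v r a), map_sum, map_mul, this, zero_mul, Finset.sum_const_zero, add_zero]
    · have : ∀ (c : Fin m → A) (t : Finset (Fin m)), bv Q2 (v i) (∑ j ∈ t, c j • d j) =
          ∑ j ∈ t, c j * bv Q2 (v i) (d j) := fun c t => by
        simp only [bv, mulVec_sum, dotProduct_sum, mulVec_smul, dotProduct_smul, smul_eq_mul]
      rw [bv_add_right, this]
      simp [hd, hi]
  obtain ⟨A', _, f, σ', t, h1, h2, h3, h4⟩ := exists_etale_root σ (qv Q2 (d r)) (bv Q2 y (d r))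
    (qv Q2 y - Q1 r r) (by
      rw [map_sub, ← qv_map, y1, hv.1, qv_single, ← h]
      exact sub_self _) (by
      rw [← bv_map, y1, bv_map, hd, if_pos rfl, map_one]
      exact isUnit_one)
  obtain ⟨g1, g2, g3⟩ := hv.map h2
  have n : ∀ i ∈ s, i ≠ r := fun i hi e => hr (e ▸ hi)
  have k1 : qv (Q2.map f) (f ∘ y + t • f ∘ d r) = Q1.map f r r := by
    rw [qv_add, qv_smul, bv_smul_right, qv_map, qv_map, bv_map, map_apply]
    rw [map_sub] at h4
    linear_combination h4
  have k2 : ∀ i ∈ s, bv (Q2.map f) (f ∘ v i) (f ∘ y + t • f ∘ d r) =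
      Q1.map f i r + Q1.map f r i := fun i hi => by
    rw [bv_add_right, bv_smul_right, bv_map, bv_map, hd, if_neg (n i hi), map_zero, mul_zero,
      add_zero, y2 i hi, map_add]
    rfl
  refine ⟨A', _, f, σ', Function.update (fun i => f ∘ v i) r (f ∘ y + t • f ∘ d r), h1, h2,
    fun i => ?_, fun i hi => ?_, fun i hi j hj => ?_⟩
  · rcases eq_or_ne i r with rfl | e
    · rw [Function.update_self, ← hv.1, ← y1, ← h2]
      funext a
      simp [h3]
    · rw [Function.update_of_ne e, g1]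
  · rcases Finset.mem_insert.1 hi with rfl | hi
    · rw [Function.update_self, k1]
    · rw [Function.update_of_ne (n i hi), g2 i hi]
  · rcases Finset.mem_insert.1 hi with e | hi <;> rcases Finset.mem_insert.1 hj with e' | hj
    · rw [e, e', Function.update_self, bv_self, k1, two_mul]
    · rw [e, Function.update_self, Function.update_of_ne (n j hj), bv_comm, k2 j hj, add_comm]
    · rw [e', Function.update_self, Function.update_of_ne (n i hi), k2 i hi]
    · rw [Function.update_of_ne (n i hi), Function.update_of_ne (n j hj), g3 i hi j hj]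

theorem equate_ind (σ : A →+* R) (Q1 Q2 : Matrix (Fin m) (Fin m) A)
    (h : Q1.map σ = Q2.map σ) (hQ : Unim (Q1.map σ)) (s : Finset (Fin m)) :
    ∃ (A' : Type u) (_ : CommRing A') (f : A →+* A') (σ' : A' →+* R) (w : Fin m → Fin m → A'),
      f.Etale ∧ σ'.comp f = σ ∧ equate_good σ' (Q1.map f) (Q2.map f) s w := by
  induction s using Finset.induction_on with
  | empty =>
    exact ⟨A, _, RingHom.id A, σ, fun i => Pi.single i 1,
      RingHom.Etale.of_bijective Function.bijective_id, rfl,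
      fun i => funext fun a => by simp [Pi.single_apply], by simp, by simp⟩
  | insert r s hr ih =>
    obtain ⟨A₁, _, f₁, σ₁, v, a1, rfl, a3⟩ := ih
    obtain ⟨A₂, _, f₂, σ₂, b1, rfl, b3⟩ := exists_etale_unit σ₁
      (of v * (Q2.map f₁ + (Q2.map f₁)ᵀ)).det (by
        have e : (of v).map σ₁ = 1 := by
          ext i j
          exact (congrFun (a3.1 i) j).trans (by simp [Pi.single_apply, one_apply, eq_comm])
        rw [RingHom.map_det, RingHom.mapMatrix_apply, Matrix.map_mul, e, Matrix.one_mul,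
          ← polar_map]
        exact (h ▸ hQ :))
    rw [RingHom.map_det, RingHom.mapMatrix_apply, Matrix.map_mul, ← polar_map] at b3
    obtain ⟨A₃, _, f₃, σ₃, w, c1, rfl, c3⟩ := equate_step (σ := σ₂) h (a3.map rfl) hr
      (d := fun j => ((of v).map f₂ * ((Q2.map f₁).map f₂ + ((Q2.map f₁).map f₂)ᵀ))⁻¹ᵀ j)
      fun i j => by
        rw [← one_apply, ← mul_nonsing_inv _ b3, Matrix.mul_assoc]
        rfl
    exact ⟨A₃, _, f₃.comp (f₂.comp f₁), σ₃, w, RingHom.Etale.stableUnderComposition _ _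
      (RingHom.Etale.stableUnderComposition _ _ a1 b1) c1, rfl, c3⟩

theorem exists_etale_iso (σ : A →+* R) (Q1 Q2 : Matrix (Fin m) (Fin m) A)
    (h : Q1.map σ = Q2.map σ) (hQ : Unim (Q1.map σ)) :
    ∃ (A' : Type u) (_ : CommRing A') (f : A →+* A') (σ' : A' →+* R),
      f.Etale ∧ σ'.comp f = σ ∧ Iso (Q1.map f) (Q2.map f) := by
  obtain ⟨A', _, f, σ', w, h1, h2, -, h3, h4⟩ := equate_ind σ Q1 Q2 h hQ Finset.univ
  have e : ∀ i j, ((of w)ᵀᵀ * Q2.map f * (of w)ᵀ) i j = w i ⬝ᵥ Q2.map f *ᵥ w j := fun i j => by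
    rw [Matrix.mul_assoc]
    rfl
  refine ⟨A', _, f, σ', h1, h2, (of w)ᵀ, carries_iff.2
    ⟨fun i => (e i i).trans (h3 i (Finset.mem_univ _)), ?_⟩⟩
  ext i j
  rw [Matrix.add_apply, transpose_apply, e, e, ← bv_eq,
    h4 i (Finset.mem_univ _) j (Finset.mem_univ _)]
  rfl

theorem exists_etale_sn (σ : A →+* R) (i : R →+* A) (hi : σ.comp i = RingHom.id R)
    (Q : Matrix (Fin m) (Fin m) R) (hQ : Unim Q) {v0 : Fin m → R} (h0 : IsUnit (qv Q v0))
    (a b : A) (hab : σ a = σ b) (ha : IsUnit (σ a)) :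
    ∃ (A' : Type u) (_ : CommRing A') (f : A →+* A') (σ' : A' →+* R) (ρ : A'),
      f.Etale ∧ σ'.comp f = σ ∧ Sn (Q.map (f.comp i)) ρ ∧ f a = ρ * f b := by
  obtain ⟨A₁, _, f₁, σ₁, a1, rfl, a3⟩ := exists_etale_unit σ b (hab ▸ ha)
  obtain ⟨u, hu⟩ := a3.exists_left_inv
  obtain ⟨z, hz⟩ := hQ.exists_bv_one_of_isUnit h0
  obtain ⟨k, hk⟩ := h0.exists_left_inv
  obtain ⟨A₂, _, f₂, σ₂, t, b1, rfl, -, b4⟩ := exists_etale_root σ₁ (f₁ (i (qv Q z))) 1
    (f₁ (i (qv Q v0)) * (1 - f₁ a * u)) (by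
      have e : σ₁ (f₁ a) = σ₁ (f₁ b) := hab
      rw [map_mul, map_sub, map_mul, e, ← map_mul, mul_comm _ u, hu, sub_self, mul_zero])
    (by rw [map_one]; exact isUnit_one)
  refine ⟨A₂, _, f₂.comp f₁, σ₂, f₂ (f₁ a * u), RingHom.Etale.stableUnderComposition _ _ a1 b1,
    rfl, ?_, ?_⟩
  · let j := (f₂.comp f₁).comp i
    have e := sn_two (Q := Q.map j) (j ∘ v0 + t • j ∘ z) (j k • j ∘ v0)
    have e1 : j k * j (qv Q v0) = 1 := by rw [← map_mul, hk, map_one]
    rw [map_mul f₂, map_sub, map_one] at b4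
    change j _ * _ + _ + j _ * _ = 0 at b4
    rw [qv_add, qv_smul, qv_smul, bv_smul_right, qv_map, qv_map, bv_map, hz, map_one] at e
    refine Eq.mp (congrArg _ ?_) e
    linear_combination j k ^ 2 * j (qv Q v0) * b4 +
      f₂ (f₁ a * u) * (j k * j (qv Q v0) + 1) * e1
  · change f₂ _ = _ * f₂ _
    rw [← map_mul, mul_assoc, hu, mul_one]

end Pool.Agent.P.MP_c1f06d_ag
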