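import Pool.Agent.P.MP_c1f06d_ag.Spread

open Matrix Polynomial

universe u

namespace Pool.Agent.P.MP_c1f06d_ag

open IsLocalRing

theorem fibre_prime_dvd {A : Type*} [CommRing A] [IsDomain A] [UniqueFactorizationMonoid A]
    (N : Ideal A) (hN : N.IsPrime) (x : A) : x ≠ 0 → x ∈ N → ∃ p, Prime p ∧ p ∈ N ∧ p ∣ x := by
  induction x using UniqueFactorizationMonoid.induction_on_prime with
  | h₁ => intro h; exact absurd rfl h
  | h₂ x hx => intro _ h; exact absurd (Ideal.eq_top_of_isUnit_mem N h hx) hN.ne_top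
  | h₃ a p ha hp ih =>
    intro _ h
    rcases hN.mem_or_mem h with h | h
    · exact ⟨p, hp, h, dvd_mul_right _ _⟩
    · obtain ⟨p', h1, h2, h3⟩ := ih ha h
      exact ⟨p', h1, h2, h3.mul_left _⟩

theorem fibre_not_dvd_C {A : Type*} [CommRing A] [IsDomain A] {g G : A[X]} (hg : Prime g)
    (hG : G.Monic) (hd : g ∣ G) {a : A} (ha : a ≠ 0) : ¬ g ∣ C a := by
  intro h
  have h0 : g.natDegree = 0 := by
    have := natDegree_le_of_dvd h (C_ne_zero.2 ha)
    rw [natDegree_C] at this
    omega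
  have hu := hG.isUnit_leadingCoeff_of_dvd hd
  apply hg.not_isUnit
  rw [eq_C_of_natDegree_eq_zero h0]
  rw [leadingCoeff, h0] at hu
  exact hu.map C

theorem fibre_exists_C {A : Type*} [CommRing A] [IsDomain A] {g G : A[X]} (hg : Prime g)
    (hG : G.Monic) (hd : g ∣ G) {F : A[X]} (hF : ¬ g ∣ F) :
    ∃ (a : A) (b : A[X]), a ≠ 0 ∧ g ∣ b * F - C a := by
  have : IsDomain (AdjoinRoot g) := AdjoinRoot.isDomain_of_prime hg
  have hr : IsIntegral A (AdjoinRoot.root g) := by
    refine ⟨G, hG, ?_⟩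
    rw [← aeval_def, AdjoinRoot.aeval_eq]
    exact AdjoinRoot.mk_eq_zero.2 hd
  have hi : IsIntegral A (AdjoinRoot.mk g F) := by
    rw [← AdjoinRoot.aeval_eq]
    exact adjoin_le_integralClosure hr (aeval_mem_adjoin_singleton A _)
  have hne : AdjoinRoot.mk g F ≠ 0 := fun h => hF (AdjoinRoot.mk_eq_zero.1 h)
  obtain ⟨a, ha, c, hc⟩ := hi.isAlgebraic.exists_nonzero_dvd (mem_nonZeroDivisors_of_ne_zero hne)
  obtain ⟨b, rfl⟩ := AdjoinRoot.mk_surjective c
  refine ⟨a, b, ha, AdjoinRoot.mk_eq_zero.1 ?_⟩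
  rw [map_sub, map_mul, AdjoinRoot.mk_C, mul_comm, ← hc, AdjoinRoot.algebraMap_eq, sub_self]

variable {V R : Type*} [CommRing V] [IsLocalRing V] [CommRing R] [IsLocalRing R] {d : ℕ}
  {π : (MvPolynomial (Fin d) V)[X] →+* R} {G : (MvPolynomial (Fin d) V)[X]}

/-- Reduction to the special fibre. -/
noncomputable def fibreRed (V : Type*) [CommRing V] [IsLocalRing V] (d : ℕ) :
    (MvPolynomial (Fin d) V)[X] →+* (MvPolynomial (Fin d) (ResidueField V))[X] :=
  mapRingHom (MvPolynomial.map (residue V))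

theorem fibre_red_surjective : Function.Surjective (fibreRed V d) :=
  Polynomial.map_surjective _ (MvPolynomial.map_surjective _ residue_surjective)

theorem fibre_ker : RingHom.ker (fibreRed V d) =
    (maximalIdeal V).map ((C : _ →+* (MvPolynomial (Fin d) V)[X]).comp MvPolynomial.C) := by
  rw [fibreRed, ker_mapRingHom, MvPolynomial.ker_map, ker_residue, Ideal.map_map]

theorem fibre_exists_factor (h : Pres π G) :
    ∃ (g : (MvPolynomial (Fin d) (ResidueField V))[X]) (H : (MvPolynomial (Fin d) V)[X]),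
      Prime g ∧ fibreRed V d G = g * fibreRed V d H ∧ IsUnit (π H) ∧
      ∀ s, IsUnit (π s) → ¬ g ∣ fibreRed V d s := by
  have hker : RingHom.ker (fibreRed V d) ≤ (maximalIdeal R).comap π := by
    rw [fibre_ker, Ideal.map_le_iff_le_comap]
    intro v hv
    rw [Ideal.mem_comap, Ideal.mem_comap, mem_maximalIdeal, mem_nonunits_iff]
    exact fun hu => (mem_nonunits_iff.1 ((mem_maximalIdeal v).1 hv)) (h.loc v hu)
  have hP : ((maximalIdeal R).comap π).IsPrime := Ideal.comap_isPrime _ _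
  have hN : (((maximalIdeal R).comap π).map (fibreRed V d)).IsPrime :=
    Ideal.map_isPrime_of_surjective fibre_red_surjective hker
  have hmem : ∀ s, fibreRed V d s ∈ ((maximalIdeal R).comap π).map (fibreRed V d) ↔
      ¬ IsUnit (π s) := by
    intro s
    rw [← Ideal.mem_comap, Ideal.comap_map_of_surjective _ fibre_red_surjective,
      ← RingHom.ker_eq_comap_bot, sup_eq_left.2 hker, Ideal.mem_comap, mem_maximalIdeal,
      mem_nonunits_iff]
  have hm : (fibreRed V d G).Monic := h.monic.map _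
  obtain ⟨g, hg, hgN, Hb, hH⟩ := fibre_prime_dvd _ hN (fibreRed V d G) hm.ne_zero
    ((hmem G).2 (by rw [h.lp.map_G]; exact not_isUnit_zero))
  obtain ⟨H, rfl⟩ := fibre_red_surjective Hb
  refine ⟨g, H, hg, hH, ?_, fun s hs hd => ?_⟩
  · by_contra hu
    have h1 := (hmem H).2 hu
    apply (hmem (derivative G)).1 _ h.deriv
    have e : fibreRed V d (derivative G) = derivative (fibreRed V d G) :=
      (derivative_map G _).symm
    rw [e, hH, derivative_mul]
    exact add_mem (Ideal.mul_mem_left _ _ h1) (Ideal.mul_mem_right _ _ hgN)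
  · obtain ⟨c, hc⟩ := hd
    exact (hmem s).1 (by rw [hc]; exact Ideal.mul_mem_right _ _ hgN) hs

/-- The elements `π a / π s` with `g` dividing the reduction of `a`. -/
def fibreIdeal (h : Pres π G) (g : (MvPolynomial (Fin d) (ResidueField V))[X]) : Ideal R where
  carrier := {r | ∃ a s, IsUnit (π s) ∧ r * π s = π a ∧ g ∣ fibreRed V d a}
  zero_mem' := ⟨0, 1, by simp, by simp, by simp⟩
  add_mem' := by
    rintro r r' ⟨a, s, hs, e, hd⟩ ⟨a', s', hs', e', hd'⟩
    refine ⟨a * s' + a' * s, s * s', by rw [map_mul]; exact hs.mul hs', ?_, ?_⟩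
    · rw [map_add, map_mul, map_mul, map_mul, ← e, ← e']; ring
    · rw [map_add, map_mul, map_mul]
      exact dvd_add (hd.mul_right _) (hd'.mul_right _)
  smul_mem' := by
    rintro c r ⟨a, s, hs, e, hd⟩
    obtain ⟨a', s', hs', e'⟩ := h.lp.surj c
    refine ⟨a' * a, s' * s, by rw [map_mul]; exact hs'.mul hs, ?_, ?_⟩
    · rw [map_mul, map_mul, ← e, ← e', smul_eq_mul]; ring
    · rw [map_mul]
      exact hd.mul_left _

theorem Pres.exists_prime (h : Pres π G) :
    ∃ q : Ideal R, q.IsPrime ∧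
      (∀ a : MvPolynomial (Fin d) V, MvPolynomial.map (residue V) a ≠ 0 → π (C a) ∉ q) ∧
      ∀ F, π F ∉ q → ∃ (a : MvPolynomial (Fin d) V) (H b : (MvPolynomial (Fin d) V)[X]),
        MvPolynomial.map (residue V) a ≠ 0 ∧ IsUnit (π H) ∧
        b * F - C a * H ∈ Ideal.span {G} ⊔
          (maximalIdeal V).map ((C : _ →+* (MvPolynomial (Fin d) V)[X]).comp MvPolynomial.C) := by
  obtain ⟨g, H, hg, hH, hu, hs⟩ := fibre_exists_factor h
  have hm : (fibreRed V d G).Monic := h.monic.map _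
  have hgG : g ∣ fibreRed V d G := ⟨_, hH⟩
  have key : ∀ a, π a ∈ fibreIdeal h g ↔ g ∣ fibreRed V d a := by
    intro a
    refine ⟨?_, fun hd => ⟨a, 1, by simp, by simp, hd⟩⟩
    rintro ⟨a', s, hs1, e, hd⟩
    obtain ⟨s', hs', hG⟩ := h.lp.ker (a * s - a') (by rw [map_sub, map_mul, e, sub_self])
    have h1 := hgG.trans (map_dvd (fibreRed V d) hG)
    rw [map_mul, map_sub, map_mul] at h1
    have h2 := (hg.dvd_or_dvd h1).resolve_left (hs s' hs')
    have h3 : g ∣ fibreRed V d a * fibreRed V d s := by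
      have := dvd_add h2 hd
      rwa [sub_add_cancel] at this
    exact (hg.dvd_or_dvd h3).resolve_right (hs s hs1)
  refine ⟨fibreIdeal h g, ⟨?_, ?_⟩, fun a ha hq => ?_, fun F hF => ?_⟩
  · rw [Ideal.ne_top_iff_one]
    intro h1
    exact hs 1 (by simp) ((key 1).1 (by rw [map_one]; exact h1))
  · intro r r' hr
    obtain ⟨a, s, hs1, e⟩ := h.lp.surj r
    obtain ⟨a', s', hs', e'⟩ := h.lp.surj r'
    have h1 : π (a * a') ∈ fibreIdeal h g := by
      have : π (a * a') = r * r' * (π s * π s') := by rw [map_mul, ← e, ← e']; ring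
      rw [this]
      exact Ideal.mul_mem_right _ _ hr
    have h2 := (key _).1 h1
    rw [map_mul] at h2
    rcases hg.dvd_or_dvd h2 with h3 | h3
    · exact Or.inl ⟨a, s, hs1, e, h3⟩
    · exact Or.inr ⟨a', s', hs', e', h3⟩
  · have h1 := (key _).1 hq
    have e : fibreRed V d (C a) = C (MvPolynomial.map (residue V) a) := map_C _
    rw [e] at h1
    exact fibre_not_dvd_C hg hm hgG ha h1
  · obtain ⟨ab, bb, hab, c, hc⟩ := fibre_exists_C hg hm hgG (fun hd => hF ((key F).2 hd))
    obtain ⟨a, rfl⟩ := MvPolynomial.map_surjective (σ := Fin d) _ (residue_surjective (R := V)) ab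
    obtain ⟨b, rfl⟩ := fibre_red_surjective bb
    obtain ⟨c, rfl⟩ := fibre_red_surjective c
    refine ⟨a, H, b * H, hab, hu, ?_⟩
    have e : fibreRed V d (C a) = C (MvPolynomial.map (residue V) a) := map_C _
    have h1 : b * H * F - C a * H - G * c ∈ RingHom.ker (fibreRed V d) := by
      rw [RingHom.mem_ker, map_sub, map_sub, map_mul, map_mul, map_mul, map_mul, e, hH]
      linear_combination fibreRed V d H * hc
    rw [fibre_ker] at h1
    have e2 : b * H * F - C a * H = G * c + (b * H * F - C a * H - G * c) := by ring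
    rw [e2]
    exact Submodule.add_mem_sup (Ideal.mul_mem_right _ _ (Ideal.mem_span_singleton_self G)) h1

end Pool.Agent.P.MP_c1f06d_ag
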