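import Pool.Agent.P.MP_c1f06d_ag.Move5
import Pool.Agent.P.MP_c1f06d_ag.Fibre

open Matrix Polynomial

universe u

namespace Pool.Agent.P.MP_c1f06d_ag

open IsLocalRing

variable {V R : Type u} [CommRing V] [IsLocalRing V] [CommRing R] [IsLocalRing R] {d : ℕ}
  {π : (MvPolynomial (Fin d) V)[X] →+* R} {G : (MvPolynomial (Fin d) V)[X]}

theorem geo_point [Infinite (ResidueField R)] (ι : V →+* R) [IsLocalHom ι]
    (a : MvPolynomial (Fin d) V) (ha : MvPolynomial.map (residue V) a ≠ 0) :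
    ∃ y : Fin d → R, residue R (MvPolynomial.eval₂Hom ι y a) ≠ 0 := by
  by_contra hn
  push Not at hn
  refine ha (MvPolynomial.map_injective _ (ResidueField.map ι).injective
    (MvPolynomial.funext fun x => ?_))
  choose y hy using fun i => residue_surjective (R := R) (x i)
  have e : (residue R).comp (MvPolynomial.eval₂Hom ι y) = (MvPolynomial.eval x).comp
      ((MvPolynomial.map (ResidueField.map ι)).comp (MvPolynomial.map (residue V))) :=
    MvPolynomial.ringHom_ext (fun v => by simp) fun i => by simp [hy]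
  rw [map_zero, map_zero]
  exact (RingHom.congr_fun e a).symm.trans (hn y)

theorem Pres.exists_curve [Infinite (ResidueField R)] (h : Pres π G)
    (a : MvPolynomial (Fin d) V) (ha : MvPolynomial.map (residue V) a ≠ 0)
    (H : (MvPolynomial (Fin d) V)[X]) (hH : IsUnit (π H)) :
    ∃ (A : Type u) (_ : CommRing A) (f : R[X] →+* A) (σ : A →+* R)
      (ψ : (MvPolynomial (Fin d) V)[X] →+* A) (b : R[X]),
      f.Etale ∧ (∀ p, σ (f p) = p.coeff 0) ∧ σ.comp ψ = π ∧ ψ G = 0 ∧ IsUnit (ψ H) ∧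
      (∀ v, ψ (C (MvPolynomial.C v)) = f (C (π (C (MvPolynomial.C v))))) ∧
      ψ (C a) = f b ∧ b.map (residue R) ≠ 0 := by
  let ι : V →+* R := π.comp (C.comp MvPolynomial.C)
  have : IsLocalHom ι := ⟨h.loc⟩
  obtain ⟨y, hy⟩ := geo_point ι a ha
  let μ : MvPolynomial (Fin d) V →+* R[X] := MvPolynomial.eval₂Hom (C.comp ι) fun i =>
    C (π (C (MvPolynomial.X i))) + C (y i - π (C (MvPolynomial.X i))) * X
  have h0 : constantCoeff.comp μ = π.comp C :=
    MvPolynomial.ringHom_ext (fun v => by simp [μ, ι]) fun i => by simp [μ]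
  have h1 : (evalRingHom 1).comp μ = MvPolynomial.eval₂Hom ι y :=
    MvPolynomial.ringHom_ext (fun v => by simp [μ]) fun i => by simp [μ]
  let P : StandardEtalePair R[X] :=
    ⟨G.map μ, h.monic.map μ, derivative (G.map μ) * H.map μ, H.map μ, 0, 1, by simp⟩
  let _ : Algebra R[X] R := constantCoeff.toAlgebra
  have key : ∀ p : (MvPolynomial (Fin d) V)[X], aeval (π X) (p.map μ) = π p := fun p => by
    have e : eval₂RingHom (π.comp C) (π X) = π :=
      Polynomial.ringHom_ext (fun v => by simp) (by simp)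
    rw [aeval_def, eval₂_map, RingHom.algebraMap_toAlgebra, h0]
    exact RingHom.congr_fun e p
  have hm : P.HasMap (π X) := ⟨(key G).trans h.lp.map_G, by
    change IsUnit (aeval (π X) (derivative (G.map μ) * H.map μ))
    rw [map_mul, derivative_map, key, key]
    exact h.deriv.mul hH⟩
  have hX : P.HasMap P.X := StandardEtalePair.hasMap_X
  refine ⟨P.Ring, inferInstance, algebraMap _ _, (P.lift _ hm).toRingHom,
    (aeval P.X).toRingHom.comp (mapRingHom μ), μ a, RingHom.etale_algebraMap.2 inferInstance,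
    fun p => (P.lift _ hm).commutes p, RingHom.ext fun p => ?_, hX.1, ?_, fun v => ?_, ?_,
    fun e => hy ?_⟩
  · change P.lift _ hm (aeval P.X (p.map μ)) = _
    rw [← aeval_algHom_apply, P.lift_X, key]
  · have := hX.2
    rw [show P.g = _ * H.map μ from rfl, map_mul] at this
    exact isUnit_of_mul_isUnit_right this
  · simp [μ, ι]
  · simp
  · rw [← h1, RingHom.comp_apply, coe_evalRingHom, ← eval₂_at_apply, ← eval_map, e, eval_zero]

/-- The geometric principle: a property that holds on an etale neighbourhood of the diagonal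
holds over a monogenic algebra of a good degree that misses the bad locus. -/
theorem Pres.geo_gen (Good : ℕ → Prop) (hGood : ∀ n0, ∃ n, n0 ≤ n ∧ Good n)
    [Infinite (ResidueField R)] (h : Pres π G)
    (W : ∀ (A : Type u) [CommRing A], (R →+* A) → ((MvPolynomial (Fin d) V)[X] →+* A) → Prop)
    (hmap : ∀ (A A' : Type u) [CommRing A] [CommRing A'] (χ : A →+* A') i ψ,
      W A i ψ → W A' (χ.comp i) (χ.comp ψ))
    (hW : ∀ (A : Type u) [CommRing A] (i : R →+* A) (ψ : (MvPolynomial (Fin d) V)[X] →+* A)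
      (σ : A →+* R), σ.comp i = RingHom.id R → σ.comp ψ = π →
      ∃ (A' : Type u) (_ : CommRing A') (f : A →+* A') (σ' : A' →+* R),
        f.Etale ∧ σ'.comp f = σ ∧ W A' (f.comp i) (f.comp ψ))
    (F : (MvPolynomial (Fin d) V)[X]) (a : MvPolynomial (Fin d) V)
    (H b : (MvPolynomial (Fin d) V)[X]) (ha : MvPolynomial.map (residue V) a ≠ 0)
    (hH : IsUnit (π H))
    (hF : b * F - C a * H ∈ Ideal.span {G} ⊔
      (maximalIdeal V).map ((C : _ →+* (MvPolynomial (Fin d) V)[X]).comp MvPolynomial.C)) :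
    ∃ (P : R[X]) (ψ : (MvPolynomial (Fin d) V)[X] →+* AdjoinRoot P), P.Monic ∧ Good P.natDegree ∧
      ψ G = 0 ∧ IsUnit (ψ F) ∧ W (AdjoinRoot P) (AdjoinRoot.of P) ψ := by
  obtain ⟨A, _, f, σ, ψ, b0, hf, hσ, hψ, hG, hu, hv, hb, hb0⟩ := h.exists_curve a ha H hH
  obtain ⟨A', _, f', σ', hf', hσ', hW'⟩ :=
    hW A (f.comp C) ψ σ (RingHom.ext fun r => by simp [hσ]) hψ
  obtain ⟨P, χ, hP, ho, hχ, hb1⟩ := move_etale_gen Good hGood (f'.comp f)
    (RingHom.Etale.stableUnderComposition f f' hf hf') σ'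
    (fun p => (RingHom.congr_fun hσ' (f p)).trans (hσ p)) b0 hb0
  have hG' : χ.comp (f'.comp ψ) G = 0 := by simp [hG]
  have := hP.finite_adjoinRoot
  refine ⟨P, χ.comp (f'.comp ψ), hP, ho, hG', ?_, ?_⟩
  · have hI : Ideal.span {G} ⊔ (maximalIdeal V).map
        ((C : _ →+* (MvPolynomial (Fin d) V)[X]).comp MvPolynomial.C) ≤
        ((maximalIdeal R).map (algebraMap R (AdjoinRoot P))).comap (χ.comp (f'.comp ψ)) := by
      refine sup_le ((Ideal.span_singleton_le_iff_mem _).2 ?_)
        (Ideal.map_le_iff_le_comap.2 fun v hv' => ?_)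
      · rw [Ideal.mem_comap, hG']
        exact zero_mem _
      · change χ (f' (ψ (C (MvPolynomial.C v)))) ∈ (maximalIdeal R).map _
        rw [hv, show χ (f' (f _)) = _ from hχ _]
        exact Ideal.mem_map_of_mem (algebraMap R (AdjoinRoot P)) fun u => hv' (h.loc v u)
    have h1 := Ideal.mem_comap.1 (hI hF)
    rw [map_sub, map_mul, map_mul] at h1
    refine isUnit_of_mul_isUnit_right (isUnit_of_sub_mem_map (IsUnit.mul ?_ ?_) h1)
    · change IsUnit (χ (f' (ψ (C a))))
      rw [hb]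
      exact hb1
    · exact (hu.map f').map χ
  · rw [← show χ.comp (f'.comp (f.comp C)) = AdjoinRoot.of P from RingHom.ext hχ]
    exact hmap _ _ χ _ _ hW'

/-- The same with odd degree. -/
theorem Pres.geo [Infinite (ResidueField R)] (h : Pres π G)
    (W : ∀ (A : Type u) [CommRing A], (R →+* A) → ((MvPolynomial (Fin d) V)[X] →+* A) → Prop)
    (hmap : ∀ (A A' : Type u) [CommRing A] [CommRing A'] (χ : A →+* A') i ψ,
      W A i ψ → W A' (χ.comp i) (χ.comp ψ))
    (hW : ∀ (A : Type u) [CommRing A] (i : R →+* A) (ψ : (MvPolynomial (Fin d) V)[X] →+* A)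
      (σ : A →+* R), σ.comp i = RingHom.id R → σ.comp ψ = π →
      ∃ (A' : Type u) (_ : CommRing A') (f : A →+* A') (σ' : A' →+* R),
        f.Etale ∧ σ'.comp f = σ ∧ W A' (f.comp i) (f.comp ψ))
    (F : (MvPolynomial (Fin d) V)[X]) (a : MvPolynomial (Fin d) V)
    (H b : (MvPolynomial (Fin d) V)[X]) (ha : MvPolynomial.map (residue V) a ≠ 0)
    (hH : IsUnit (π H))
    (hF : b * F - C a * H ∈ Ideal.span {G} ⊔
      (maximalIdeal V).map ((C : _ →+* (MvPolynomial (Fin d) V)[X]).comp MvPolynomial.C)) :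
    ∃ (P : R[X]) (ψ : (MvPolynomial (Fin d) V)[X] →+* AdjoinRoot P), P.Monic ∧ Odd P.natDegree ∧
      ψ G = 0 ∧ IsUnit (ψ F) ∧ W (AdjoinRoot P) (AdjoinRoot.of P) ψ :=
  h.geo_gen Odd exists_odd_ge W hmap hW F a H b ha hH hF

end Pool.Agent.P.MP_c1f06d_ag
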