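import Pool.Agent.P.MP_c1f06d_ag.Spread

open Matrix Polynomial

universe u

namespace Pool.Agent.P.MP_c1f06d_ag

theorem presex_dvd {D S : Type*} [CommRing D] [CommRing S] [Algebra D S]
    (P : StandardEtalePresentation D S) (b : D[X]) (hb : aeval P.x b = 0) :
    ∃ k : ℕ, P.f ∣ P.g ^ k * b := by
  let e := P.equivRing.trans P.P.equivAwayAdjoinRoot
  have hx : e P.x = algebraMap (AdjoinRoot P.f) _ (AdjoinRoot.root P.f) := by
    simp only [e, AlgEquiv.trans_apply, StandardEtalePresentation.equivRing_x]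
    refine P.P.lift_X _ ⟨?_, ?_⟩
    · rw [aeval_algebraMap_apply, AdjoinRoot.aeval_eq, AdjoinRoot.mk_self, map_zero]
    · rw [aeval_algebraMap_apply, AdjoinRoot.aeval_eq]
      exact IsLocalization.Away.algebraMap_isUnit _
  have h1 : aeval (e P.x) b = 0 := by
    have := aeval_algHom_apply e P.x b
    rw [this, hb, map_zero]
  rw [hx, aeval_algebraMap_apply, AdjoinRoot.aeval_eq] at h1
  obtain ⟨⟨_, k, rfl⟩, hk⟩ :=
    (IsLocalization.map_eq_zero_iff (Submonoid.powers (AdjoinRoot.mk P.f P.g)) _ _).1 h1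
  refine ⟨k, ?_⟩
  rw [← AdjoinRoot.mk_eq_zero, map_mul, map_pow]
  exact hk

theorem presex_locPres {D S R : Type*} [CommRing D] [CommRing S] [Algebra D S] [CommRing R]
    (P : StandardEtalePresentation D S) (ρ : S →+* R)
    (hs : ∀ r, ∃ a s : S, IsUnit (ρ s) ∧ r * ρ s = ρ a)
    (hk : ∀ a, ρ a = 0 → ∃ s, IsUnit (ρ s) ∧ s * a = 0) :
    LocPres (ρ.comp (aeval P.x : D[X] →ₐ[D] S).toRingHom) P.f := by
  have hg : IsUnit (ρ (aeval P.x P.g)) := P.hasMap.2.map ρ
  refine ⟨?_, fun r => ?_, fun a ha => ?_⟩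
  · change ρ (aeval P.x P.f) = 0
    rw [P.hasMap.1, map_zero]
  · obtain ⟨a, s, hu, hr⟩ := hs r
    obtain ⟨p, n, hp⟩ := P.exists_mul_aeval_x_g_pow_eq_aeval_x a
    obtain ⟨q, k, hq⟩ := P.exists_mul_aeval_x_g_pow_eq_aeval_x s
    refine ⟨p * P.g ^ k, q * P.g ^ n, ?_, ?_⟩
    · change IsUnit (ρ (aeval P.x (q * P.g ^ n)))
      rw [map_mul, map_pow, ← hq]
      simp only [map_mul, map_pow]
      exact (hu.mul (hg.pow k)).mul (hg.pow n)
    · change r * ρ (aeval P.x (q * P.g ^ n)) = ρ (aeval P.x (p * P.g ^ k))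
      rw [map_mul, map_pow, map_mul (aeval P.x), map_pow (aeval P.x), ← hq, ← hp]
      simp only [map_mul, map_pow]
      rw [← hr]
      ring
  · obtain ⟨s, hu, h0⟩ := hk _ ha
    obtain ⟨q, k, hq⟩ := P.exists_mul_aeval_x_g_pow_eq_aeval_x s
    have h1 : aeval P.x (q * a) = 0 := by
      have h0' : s * aeval P.x a = 0 := h0
      rw [map_mul, ← hq]
      linear_combination (aeval P.x P.g) ^ k * h0'
    obtain ⟨j, hj⟩ := presex_dvd P _ h1
    refine ⟨P.g ^ j * q, ?_, by rwa [mul_assoc]⟩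
    change IsUnit (ρ (aeval P.x (P.g ^ j * q)))
    rw [map_mul, map_pow, ← hq]
    simp only [map_mul, map_pow]
    exact (hg.pow j).mul (hu.mul (hg.pow k))

theorem exists_locPres_of_smooth (V A R : Type u) [CommRing V] [CommRing A] [Algebra V A]
    [Algebra.Smooth V A] (p : Ideal A) [p.IsPrime] [CommRing R] [Algebra A R]
    [IsLocalization.AtPrime R p] :
    ∃ (d : ℕ) (π : (MvPolynomial (Fin d) V)[X] →+* R) (G : (MvPolynomial (Fin d) V)[X]),
      LocPres π G ∧ G.Monic ∧ IsUnit (π (derivative G)) := by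
  obtain ⟨f, hfp, n, _, _, hst⟩ :=
    Algebra.IsSmoothAt.exists_isStandardEtale_mvPolynomial (R := V) (p := p)
  obtain ⟨P⟩ := hst.nonempty_standardEtalePresentation
  have hfu : IsUnit (algebraMap A R f) :=
    IsLocalization.map_units R (⟨f, hfp⟩ : p.primeCompl)
  let ρ : Localization.Away f →+* R := IsLocalization.Away.lift f hfu
  have hρ : ∀ a : A, ρ (algebraMap A _ a) = algebraMap A R a := fun a =>
    IsLocalization.Away.lift_eq f hfu a
  refine ⟨n, ρ.comp (aeval P.x : _ →ₐ[MvPolynomial (Fin n) V] _).toRingHom, P.f,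
    presex_locPres P ρ (fun r => ?_) (fun z hz => ?_), P.monic_f,
    P.hasMap.isUnit_derivative_f.map ρ⟩
  · obtain ⟨⟨a, s⟩, h⟩ := IsLocalization.surj p.primeCompl r
    refine ⟨algebraMap A _ a, algebraMap A _ s.1, ?_, ?_⟩
    · rw [hρ]; exact IsLocalization.map_units R s
    · rw [hρ, hρ]; exact h
  · obtain ⟨⟨a, s⟩, h⟩ := IsLocalization.surj (Submonoid.powers f) z
    have h1 : algebraMap A R a = 0 := by
      rw [← hρ, ← h, map_mul, hz, zero_mul]
    obtain ⟨t, ht⟩ := (IsLocalization.map_eq_zero_iff p.primeCompl R a).1 h1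
    refine ⟨algebraMap A _ t.1 * algebraMap A _ s.1, ?_, ?_⟩
    · rw [map_mul]
      refine IsUnit.mul ?_ ((IsLocalization.map_units _ s).map ρ)
      rw [hρ]; exact IsLocalization.map_units R t
    · have h' : z * algebraMap A (Localization.Away f) s.1 = algebraMap A _ a := h
      rw [mul_assoc, mul_comm _ z, h', ← map_mul, ht, map_zero]

theorem presex_valuationRing {V : Type*} [CommRing V] [IsDomain V] [ValuationRing V]
    (p : Ideal V) [p.IsPrime] : ValuationRing (Localization.AtPrime p) := by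
  have : PreValuationRing (Localization.AtPrime p) := by
    refine ⟨fun a b => ?_⟩
    obtain ⟨⟨a0, s⟩, rfl⟩ := IsLocalization.mk'_surjective p.primeCompl a
    obtain ⟨⟨b0, t⟩, rfl⟩ := IsLocalization.mk'_surjective p.primeCompl b
    obtain ⟨c, hc | hc⟩ := ValuationRing.cond a0 b0
    · refine ⟨IsLocalization.mk' _ (c * s.1) t, Or.inl ?_⟩
      simp only []
      rw [← IsLocalization.mk'_mul, IsLocalization.mk'_eq_iff_eq, ← hc]
      congr 1
      simp only [Submonoid.coe_mul]
      ring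
    · refine ⟨IsLocalization.mk' _ (c * t.1) s, Or.inr ?_⟩
      simp only []
      rw [← IsLocalization.mk'_mul, IsLocalization.mk'_eq_iff_eq, ← hc]
      congr 1
      simp only [Submonoid.coe_mul]
      ring
  exact ⟨⟩

theorem presex_clear {V V' : Type*} [CommRing V] [CommRing V'] [Algebra V V'] (M : Submonoid V)
    [IsLocalization M V'] {d : ℕ} (a' : (MvPolynomial (Fin d) V')[X]) :
    ∃ v ∈ M, ∃ a : (MvPolynomial (Fin d) V)[X],
      (C (MvPolynomial.C v) : (MvPolynomial (Fin d) V)[X]).map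
        (MvPolynomial.map (algebraMap V V')) * a' = a.map (MvPolynomial.map (algebraMap V V')) := by
  set φ : MvPolynomial (Fin d) V →+* MvPolynomial (Fin d) V' :=
    MvPolynomial.map (algebraMap V V') with hφ
  have hmv : ∀ b' : MvPolynomial (Fin d) V', ∃ v ∈ M, ∃ b : MvPolynomial (Fin d) V,
      φ (MvPolynomial.C v) * b' = φ b := by
    intro b'
    induction b' using MvPolynomial.induction_on with
    | C x =>
      obtain ⟨⟨a, s⟩, h⟩ := IsLocalization.surj M x
      refine ⟨s.1, s.2, MvPolynomial.C a, ?_⟩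
      have h' : x * algebraMap V V' s.1 = algebraMap V V' a := h
      rw [hφ, MvPolynomial.map_C, MvPolynomial.map_C, ← map_mul, mul_comm, h']
    | add p q hp hq =>
      obtain ⟨v, hv, b, hb⟩ := hp
      obtain ⟨w, hw, c, hc⟩ := hq
      refine ⟨v * w, M.mul_mem hv hw, MvPolynomial.C w * b + MvPolynomial.C v * c, ?_⟩
      simp only [map_mul, map_add]
      rw [← hb, ← hc]
      ring
    | mul_X p i hp =>
      obtain ⟨v, hv, b, hb⟩ := hp
      refine ⟨v, hv, b * MvPolynomial.X i, ?_⟩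
      rw [map_mul, ← hb, hφ, MvPolynomial.map_X, mul_assoc]
  induction a' using Polynomial.induction_on' with
  | add p q hp hq =>
    obtain ⟨v, hv, b, hb⟩ := hp
    obtain ⟨w, hw, c, hc⟩ := hq
    refine ⟨v * w, M.mul_mem hv hw, C (MvPolynomial.C w) * b + C (MvPolynomial.C v) * c, ?_⟩
    simp only [map_mul, Polynomial.map_mul, Polynomial.map_add]
    rw [← hb, ← hc]
    ring
  | monomial n b' =>
    obtain ⟨v, hv, b, hb⟩ := hmv b'
    refine ⟨v, hv, monomial n b, ?_⟩
    rw [map_C, map_monomial, C_mul_monomial, hb]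

theorem exists_pres_of_locPres {V R : Type u} [CommRing V] [IsDomain V] [ValuationRing V]
    [CommRing R] [IsLocalRing R] {d : ℕ} (π : (MvPolynomial (Fin d) V)[X] →+* R)
    (G : (MvPolynomial (Fin d) V)[X]) (h : LocPres π G) (hG : G.Monic)
    (hG' : IsUnit (π (derivative G))) :
    ∃ (V' : Type u) (_ : CommRing V') (_ : IsDomain V') (_ : ValuationRing V')
      (π' : (MvPolynomial (Fin d) V')[X] →+* R) (G' : (MvPolynomial (Fin d) V')[X]),
      Pres π' G' := by
  let g : V →+* R := π.comp (C.comp MvPolynomial.C)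
  let p0 : Ideal V := (IsLocalRing.maximalIdeal R).comap g
  have hp0 : p0.IsPrime := Ideal.comap_isPrime g _
  have hu : ∀ v : V, v ∉ p0 ↔ IsUnit (g v) := fun v => by
    rw [Ideal.mem_comap, IsLocalRing.mem_maximalIdeal, mem_nonunits_iff, not_not]
  have hg : ∀ y : p0.primeCompl, IsUnit (g y) := fun y => (hu y.1).1 y.2
  let V' := Localization.AtPrime p0
  let l : V' →+* R := IsLocalization.lift hg
  have hl : ∀ v : V, l (algebraMap V V' v) = g v := fun v => IsLocalization.lift_eq hg v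
  let φ : MvPolynomial (Fin d) V →+* MvPolynomial (Fin d) V' := MvPolynomial.map (algebraMap V V')
  let π' : (MvPolynomial (Fin d) V')[X] →+* R :=
    eval₂RingHom (MvPolynomial.eval₂Hom l fun i => π (C (MvPolynomial.X i))) (π X)
  have hc : π'.comp (mapRingHom φ) = π := by
    refine Polynomial.ringHom_ext' (MvPolynomial.ringHom_ext (fun v => ?_) fun i => ?_) ?_
    · simp [π', φ, hl, g]
    · simp [π', φ]
    · simp [π']
  have hc' : ∀ a, π' (a.map φ) = π a := fun a => by
    rw [← hc]; rfl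
  refine ⟨V', inferInstance, inferInstance, presex_valuationRing p0, π', G.map φ,
    ⟨⟨?_, fun r => ?_, fun a' ha' => ?_⟩, hG.map φ, ?_, fun v' hv' => ?_⟩⟩
  · rw [hc', h.map_G]
  · obtain ⟨a, s, hs, hr⟩ := h.surj r
    exact ⟨a.map φ, s.map φ, by rwa [hc'], by rwa [hc', hc']⟩
  · obtain ⟨v, hv, a, ha⟩ := presex_clear p0.primeCompl a'
    have h0 : π a = 0 := by
      rw [← hc', ← ha, map_mul, ha', mul_zero]
    obtain ⟨s, hs, hd⟩ := h.ker a h0
    refine ⟨s.map φ * (C (MvPolynomial.C v) : (MvPolynomial (Fin d) V)[X]).map φ, ?_, ?_⟩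
    · rw [map_mul, hc', hc']
      exact hs.mul (hg ⟨v, hv⟩)
    · rw [mul_assoc, ha, ← Polynomial.map_mul]
      exact Polynomial.map_dvd φ hd
  · rw [derivative_map, hc']
    exact hG'
  · obtain ⟨⟨x, s⟩, rfl⟩ := IsLocalization.mk'_surjective p0.primeCompl v'
    have h1 : IsUnit (l (IsLocalization.mk' V' x s)) := by
      simpa [π'] using hv'
    have h2 : l (IsLocalization.mk' V' x s) * g s.1 = g x := by
      rw [← hl, ← hl, ← map_mul, IsLocalization.mk'_spec]
    have h3 : IsUnit (g x) := h2 ▸ h1.mul (hg s)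
    exact (IsLocalization.AtPrime.isUnit_mk'_iff V' p0 x s).2 ((hu x).2 h3)

end Pool.Agent.P.MP_c1f06d_ag
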