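import Pool.Agent.P.MP_c1f06d_ag.QSn

open Matrix Polynomial

universe u

namespace Pool.Agent.P.MP_c1f06d_ag

open IsLocalRing

/-- The ideal of polynomials with all coefficients in the maximal ideal. -/
noncomputable abbrev mX (R : Type*) [CommRing R] [IsLocalRing R] : Ideal R[X] := (maximalIdeal R).map C

instance mX_isPrime (R : Type*) [CommRing R] [IsLocalRing R] : (mX R).IsPrime :=
  Ideal.isPrime_map_C_of_isPrime

/-- The local ring `R(X)`. -/
abbrev RX (R : Type*) [CommRing R] [IsLocalRing R] := Localization.AtPrime (mX R)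

variable (R : Type*) [CommRing R] [IsLocalRing R]

theorem rx_mem_iff (s : R[X]) : s ∈ mX R ↔ s.map (residue R) = 0 := by
  rw [Ideal.mem_map_C_iff, Polynomial.ext_iff]
  simp only [coeff_map, coeff_zero, residue_eq_zero_iff]

theorem rx_isUnit_iff (s : R[X]) :
    IsUnit (algebraMap R[X] (RX R) s) ↔ s.map (residue R) ≠ 0 := by
  rw [IsLocalization.AtPrime.isUnit_to_map_iff (RX R) (mX R), Ideal.mem_primeCompl_iff, rx_mem_iff]

theorem infinite_residueField_RX : Infinite (ResidueField (RX R)) := by
  refine Infinite.of_injective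
    (fun n : ℕ => residue (RX R) (algebraMap R[X] (RX R) (X ^ n))) fun a b h => ?_
  simp only at h
  rw [← sub_eq_zero, ← map_sub, ← map_sub, residue_eq_zero_iff, mem_maximalIdeal,
    mem_nonunits_iff, rx_isUnit_iff, not_not, Polynomial.map_sub, Polynomial.map_pow,
    Polynomial.map_pow, map_X, sub_eq_zero] at h
  simpa using congrArg natDegree h

theorem faithfullyFlat_RX : Module.FaithfullyFlat R (RX R) := by
  have : Module.Flat R (RX R) := Module.Flat.trans R R[X] (RX R)
  have : IsLocalHom (algebraMap R (RX R)) := ⟨fun a ha => by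
    rw [IsScalarTower.algebraMap_apply R R[X] (RX R), rx_isUnit_iff, Polynomial.algebraMap_apply,
      Algebra.algebraMap_self, RingHom.id_apply, map_C, Ne, C_eq_zero] at ha
    exact (residue_ne_zero_iff_isUnit a).mp ha⟩
  exact Module.FaithfullyFlat.of_flat_of_isLocalHom

theorem isUnit_RX_iff (s : R[X]) : IsUnit (algebraMap R[X] (RX R) s) ↔ s.map (residue R) ≠ 0 :=
  rx_isUnit_iff R s

/-- `R(X)` is again a local ring of a smooth algebra. -/
theorem exists_prime_RX (A : Type*) [CommRing A] (p : Ideal A) [p.IsPrime] [Algebra A R]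
    [IsLocalization.AtPrime R p] :
    ∃ (p' : Ideal A[X]) (_ : p'.IsPrime) (_ : Algebra A[X] (RX R)),
      IsLocalization.AtPrime (RX R) p' := by
  let _ : Algebra A[X] R[X] := Polynomial.algebra A R
  let al : Algebra A[X] (RX R) :=
    ((algebraMap R[X] (RX R)).comp (algebraMap A[X] R[X])).toAlgebra
  have tw := IsScalarTower.of_algebraMap_eq' (R := A[X]) (S := R[X]) (A := RX R) rfl
  have := Polynomial.isLocalization p.primeCompl R
  exact ⟨(mX R).comap (algebraMap A[X] R[X]), inferInstance, al,
    @IsLocalization.isLocalization_isLocalization_atPrime_isLocalization A[X] _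
      (p.primeCompl.map C) R[X] _ _ (RX R) _ al _ tw this (mX R) _ _⟩

theorem exists_irreducible_prime_degree (k : Type*) [Field k] [Finite k] (N : ℕ) :
    ∃ P : k[X], P.Monic ∧ Irreducible P ∧ P.natDegree.Prime ∧ Odd P.natDegree ∧
      N < P.natDegree := by
  obtain ⟨l, hl, lp⟩ := Nat.exists_infinite_primes (N + 3)
  obtain ⟨p, hp⟩ := CharP.exists k
  have : Fact p.Prime := ⟨CharP.char_is_prime k p⟩
  have : NeZero l := ⟨lp.ne_zero⟩
  obtain ⟨x, hx⟩ := Field.exists_primitive_element k (FiniteField.Extension k p l)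
  have hi : IsIntegral k x := IsIntegral.of_finite k x
  have hd : (minpoly k x).natDegree = l := by
    rw [← IntermediateField.adjoin.finrank hi, hx, IntermediateField.finrank_top',
      FiniteField.finrank_extension]
  refine ⟨minpoly k x, minpoly.monic hi, minpoly.irreducible hi, ?_, ?_, ?_⟩ <;> rw [hd]
  · exact lp
  · exact lp.odd_of_ne_two (by omega)
  · omega

theorem exists_adjoinRoot_prime [Finite (ResidueField R)] (s : R[X])
    (hs : s.map (residue R) ≠ 0) :
    ∃ P : R[X], P.Monic ∧ Irreducible (P.map (residue R)) ∧ P.natDegree.Prime ∧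
      Odd P.natDegree ∧ IsUnit (AdjoinRoot.mk P s) := by
  obtain ⟨Q, q1, q2, q3, q4, q5⟩ :=
    exists_irreducible_prime_degree (ResidueField R) (s.map (residue R)).natDegree
  have su : Function.Surjective (Polynomial.map (residue R)) :=
    map_surjective _ residue_surjective
  obtain ⟨P, p1, p2, p3⟩ := lifts_and_natDegree_eq_and_monic (f := residue R) (p := Q)
    ((mem_lifts Q).mpr (su Q)) q1
  refine ⟨P, p3, p1 ▸ q2, p2 ▸ q3, p2 ▸ q4, ?_⟩
  obtain ⟨a, b, hab⟩ : IsCoprime Q (s.map (residue R)) :=
    q2.coprime_iff_not_dvd.mpr fun h => absurd (natDegree_le_of_dvd h hs) (not_le.mpr q5)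
  obtain ⟨a, rfl⟩ := su a
  obtain ⟨b, rfl⟩ := su b
  have := p3.finite_adjoinRoot
  have h1 : a * P + b * s - 1 ∈ mX R := by
    rw [rx_mem_iff, Polynomial.map_sub, Polynomial.map_add, Polynomial.map_mul,
      Polynomial.map_mul, p1, hab, Polynomial.map_one, sub_self]
  have h2 := Ideal.mem_map_of_mem (AdjoinRoot.mk P) h1
  rw [Ideal.map_map, map_sub, map_add, map_mul, map_mul, AdjoinRoot.mk_self, mul_zero, zero_add,
    map_one] at h2
  exact isUnit_of_mul_isUnit_right (isUnit_of_sub_mem_map (R := R) isUnit_one h2)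

end Pool.Agent.P.MP_c1f06d_ag
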