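import Pool.Agent.P.MP_c1f06d_ag.QSn

open Matrix Polynomial

universe u

namespace Pool.Agent.P.MP_c1f06d_ag

theorem valg_coeff {W : Type*} [CommRing W] (p : W[X]) (j i : ℕ) :
    (divX^[j] p).coeff i = p.coeff (i + j) := by
  induction j generalizing i with
  | zero => rfl
  | succ j ih => rw [Function.iterate_succ_apply', coeff_divX, ih, add_right_comm, add_assoc]

theorem valg_step {W K : Type*} [CommRing W] [CommRing K] [Algebra W K] (p : W[X]) (z : K)
    (j : ℕ) : z * aeval z (divX^[j + 1] p) =
      aeval z (divX^[j] p) - algebraMap W K (p.coeff j) := by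
  have h := congrArg (aeval z) (X_mul_divX_add (divX^[j] p))
  rw [map_add, map_mul, aeval_X, aeval_C, valg_coeff, zero_add] at h
  rw [Function.iterate_succ_apply', ← h, add_sub_cancel_right]

theorem isIntegral_tail {W K : Type*} [CommRing W] [Field K] [Algebra W K] (p : W[X]) (z : K)
    (hp : aeval z p = 0) (j : ℕ) : IsIntegral W (aeval z (divX^[j] p)) := by
  by_contra hi
  obtain ⟨V, hV, hO⟩ := Subring.exists_le_valuationSubring_of_isIntegrallyClosedIn
    (R := (integralClosure W K).toSubring) (x := aeval z (divX^[j] p)) hi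
  have ha : ∀ a, algebraMap W K a ∈ V := fun a => hV ((integralClosure W K).algebraMap_mem a)
  refine hO ?_
  by_cases hz : z ∈ V
  · rw [aeval_eq_sum_range]
    exact sum_mem fun i _ => by
      rw [Algebra.smul_def]
      exact mul_mem (ha _) (pow_mem hz i)
  have h0 : z ≠ 0 := fun h => hz (h ▸ V.zero_mem)
  clear hi hO
  induction j with
  | zero => exact hp ▸ V.zero_mem
  | succ j ih =>
    rw [← inv_mul_cancel_left₀ h0 (aeval z _), valg_step]
    exact mul_mem ((V.mem_or_inv_mem z).resolve_left hz) (sub_mem ih (ha _))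

theorem valg_prim {W : Type*} [CommRing W] [IsDomain W] [ValuationRing W] {p : W[X]}
    (hp : p ≠ 0) : ∃ (c : W) (q : W[X]) (j : ℕ), c ≠ 0 ∧ p = C c * q ∧ q.coeff j = 1 := by
  classical
  obtain ⟨j, hj, h⟩ := p.support.exists_max_image (fun i => Ideal.span {p.coeff i})
    (support_nonempty.2 hp)
  obtain ⟨q, hq⟩ := (C_dvd_iff_dvd_coeff (p.coeff j) p).2 fun i => by
    by_cases hi : i ∈ p.support
    · exact Ideal.span_singleton_le_span_singleton.1 (h i hi)
    · rw [notMem_support_iff.1 hi]
      exact dvd_zero _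
  refine ⟨_, q, j, mem_support_iff.1 hj, hq, mul_left_cancel₀ (mem_support_iff.1 hj) ?_⟩
  rw [← coeff_C_mul, ← hq, mul_one]

theorem valuationRing_of_simple {W O : Type*} [CommRing W] [IsDomain W] [ValuationRing W]
    [CommRing O] [IsDomain O] [IsLocalRing O] [Algebra W O] [FaithfulSMul W O] (θ : O) (G : W[X])
    (hG : G.Monic) (h0 : aeval θ G = 0) (h1 : IsUnit (aeval θ (derivative G)))
    (hgen : ∀ r : O, ∃ a s : W[X], aeval θ s ≠ 0 ∧ r * aeval θ s = aeval θ a) :
    ValuationRing O := by
  let K := FractionRing O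
  let L := FractionRing W
  let _ : Algebra L K := FractionRing.liftAlgebra W K
  have inj := IsFractionRing.injective O K
  have hθ : IsIntegral W θ := ⟨G, hG, h0⟩
  set t := algebraMap O K θ with ht
  have htL : IsIntegral L t := (hθ.algebraMap (B := K)).tower_top
  have hev : ∀ a : W[X], aeval t (a.map (algebraMap W L)) = algebraMap O K (aeval θ a) :=
    fun a => by rw [aeval_map_algebraMap, ht, aeval_algebraMap_apply]
  have hu : IsUnit (aeval θ (derivative (minpoly W θ))) := by
    obtain ⟨H, hH⟩ := minpoly.isIntegrallyClosed_dvd hθ h0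
    rw [hH, derivative_mul, map_add, map_mul, map_mul, minpoly.aeval, zero_mul, add_zero] at h1
    exact isUnit_of_mul_isUnit_left h1
  have hmem : ∀ y : K, y ∈ IntermediateField.adjoin L {t} := by
    have h2 : ∀ a : W[X], algebraMap O K (aeval θ a) ∈ IntermediateField.adjoin L {t} :=
      fun a => hev a ▸ IntermediateField.algebra_adjoin_le_adjoin L {t}
        (aeval_mem_adjoin_singleton L t)
    have h3 : ∀ r : O, algebraMap O K r ∈ IntermediateField.adjoin L {t} := fun r => by
      obtain ⟨a, s, hs, e⟩ := hgen r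
      rw [eq_div_of_mul_eq ((map_ne_zero_iff _ inj).2 hs)
        ((map_mul _ _ _).symm.trans (congrArg (algebraMap O K) e))]
      exact div_mem (h2 a) (h2 s)
    intro y
    obtain ⟨a, b, -, rfl⟩ := IsFractionRing.div_surjective O y
    exact div_mem (h3 a) (h3 b)
  have hadj : ∀ y : K, y ∈ Algebra.adjoin L {t} := fun y => by
    rw [← IntermediateField.adjoin_simple_toSubalgebra_of_isAlgebraic htL.isAlgebraic]
    exact hmem y
  have hm := minpoly.isIntegrallyClosed_eq_field_fractions L K hθ
  have hint : ∀ y : K, IsIntegral W y → ∃ o : O, algebraMap O K o = y := fun y hy => by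
    obtain ⟨g, hg, hc⟩ := exists_derivative_mul_eq_and_isIntegral_coeff (R := W)
      (φ := (aeval t : L[X] →ₐ[L] K).restrictScalars W) (f := minpoly L t)
      (fun x => by
        have h := hadj x
        rwa [Algebra.adjoin_singleton_eq_range_aeval] at h)
      (minpoly.monic htL) (fun i => by rw [hm, coeff_map]; exact isIntegral_algebraMap)
      (minpoly.ker_aeval_eq_span_minpoly L t) hy
    obtain ⟨g, rfl⟩ := (mem_lifts g).1 ((lifts_iff_coeff_lifts g).2 fun i =>
      IsIntegrallyClosed.algebraMap_eq_of_integral (hc i))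
    change aeval t _ * y = aeval t _ at hg
    rw [hm, derivative_map, hev, hev] at hg
    obtain ⟨v, hv⟩ := hu.exists_left_inv
    exact ⟨v * aeval θ g, by rw [map_mul, ← hg, ← mul_assoc, ← map_mul, hv, map_one, one_mul]⟩
  refine (ValuationRing.iff_isInteger_or_isInteger O K).2 fun z => ?_
  obtain ⟨p, hp, hz⟩ := (IsFractionRing.isAlgebraic_iff W L K).2
    (IsIntegral.of_mem_of_fg _ htL.fg_adjoin_singleton z (hadj z)).isAlgebraic
  obtain ⟨c, q, j, hc, rfl, hj⟩ := valg_prim hp
  rw [map_mul, aeval_C] at hz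
  have hq := (mul_eq_zero.1 hz).resolve_left
    ((map_ne_zero_iff _ (FaithfulSMul.algebraMap_injective W K)).2 hc)
  choose s hs using fun j => hint _ (isIntegral_tail q z hq j)
  have st : ∀ j, z * algebraMap O K (s (j + 1)) =
      algebraMap O K (s j - algebraMap W O (q.coeff j)) := fun j => by
    rw [map_sub, hs, hs, valg_step, ← IsScalarTower.algebraMap_apply]
  rcases IsLocalRing.isUnit_or_isUnit_one_sub_self (s j) with h | h
  · obtain ⟨v, hv⟩ := h.exists_right_inv
    rcases j with _ | j
    · rw [inj ((hs 0).trans (hq.trans (map_zero _).symm)), zero_mul] at hv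
      exact absurd hv zero_ne_one
    · exact Or.inl ⟨(s j - algebraMap W O (q.coeff j)) * v, by
        rw [map_mul, ← st, mul_assoc, ← map_mul, hv, map_one, mul_one]⟩
  · obtain ⟨v, hv⟩ := h.exists_right_inv
    refine Or.inr ⟨-s (j + 1) * v, eq_inv_of_mul_eq_one_right ?_⟩
    rw [map_mul, map_neg, ← mul_assoc, mul_neg, st, hj, map_one, ← map_neg, neg_sub, ← map_mul, hv,
      map_one]

end Pool.Agent.P.MP_c1f06d_ag
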