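import Pool.Agent.P.MP_c1f06d_ag.Spread
import Pool.Agent.P.MP_c1f06d_ag.ValG

open Matrix Polynomial

universe u

namespace Pool.Agent.P.MP_c1f06d_ag

open IsLocalRing

theorem valo_min {V ι : Type*} [CommRing V] [IsDomain V] [ValuationRing V] (f : ι → V)
    (s : Finset ι) (hs : s.Nonempty) : ∃ i ∈ s, ∀ j ∈ s, f i ∣ f j := by
  classical
  induction hs using Finset.Nonempty.cons_induction with
  | singleton a => exact ⟨a, by simp, by simp⟩
  | cons a s ha hs ih =>
    obtain ⟨i, hi, h⟩ := ih
    rcases ValuationRing.dvd_total (f a) (f i) with h1 | h1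
    · refine ⟨a, by simp, fun j hj => ?_⟩
      rcases Finset.mem_cons.1 hj with rfl | hj
      · exact dvd_rfl
      · exact h1.trans (h j hj)
    · refine ⟨i, by simp [hi], fun j hj => ?_⟩
      rcases Finset.mem_cons.1 hj with rfl | hj
      · exact h1
      · exact h j hj

theorem valo_prim {V : Type*} [CommRing V] [IsDomain V] [ValuationRing V] {d : ℕ}
    (a : MvPolynomial (Fin d) V) (ha : a ≠ 0) :
    ∃ (v : V) (a0 : MvPolynomial (Fin d) V), a = MvPolynomial.C v * a0 ∧
      MvPolynomial.map (residue V) a0 ≠ 0 := by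
  obtain ⟨i, hi, h⟩ := valo_min (fun i => a.coeff i) a.support
    (MvPolynomial.support_nonempty.2 ha)
  have hv : a.coeff i ≠ 0 := MvPolynomial.mem_support_iff.1 hi
  have hd : MvPolynomial.C (a.coeff i) ∣ a := by
    rw [MvPolynomial.C_dvd_iff_dvd_coeff]
    intro j
    by_cases hj : j ∈ a.support
    · exact h j hj
    · rw [MvPolynomial.notMem_support_iff.1 hj]; exact dvd_zero _
  obtain ⟨a0, e⟩ := hd
  refine ⟨a.coeff i, a0, e, fun h0 => ?_⟩
  have h1 : a.coeff i = a.coeff i * a0.coeff i := by
    conv_lhs => rw [e]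
    rw [MvPolynomial.coeff_C_mul]
  have h2 : a0.coeff i = 1 := by
    have := mul_left_cancel₀ hv ((mul_one _).trans h1)
    exact this.symm
  have h3 := congrArg (MvPolynomial.coeff i) h0
  rw [MvPolynomial.coeff_map, h2, map_one] at h3
  simp at h3

theorem valo_gauss {V : Type*} [CommRing V] [IsDomain V] [ValuationRing V] {d : ℕ}
    (P : Ideal (MvPolynomial (Fin d) V)) [P.IsPrime]
    (hP : ∀ a, a ∈ P → MvPolynomial.map (residue V) a = 0) :
    ValuationRing (Localization.AtPrime P) := by
  have key : ∀ w : Localization.AtPrime P, ∃ v : V,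
      Associated w (algebraMap (MvPolynomial (Fin d) V) _ (MvPolynomial.C v)) := by
    intro w
    obtain ⟨⟨a, s⟩, e⟩ := IsLocalization.surj P.primeCompl w
    have hs : IsUnit (algebraMap (MvPolynomial (Fin d) V) (Localization.AtPrime P) s) :=
      IsLocalization.map_units _ s
    have h1 : Associated w (algebraMap (MvPolynomial (Fin d) V) (Localization.AtPrime P) a) := by
      rw [← e]; exact associated_mul_unit_right _ _ hs
    by_cases ha : a = 0
    · exact ⟨0, by simpa [ha] using h1⟩
    · obtain ⟨v, a0, e1, h0⟩ := valo_prim a ha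
      have hu : IsUnit (algebraMap (MvPolynomial (Fin d) V) (Localization.AtPrime P) a0) :=
        IsLocalization.map_units _ (⟨a0, fun hm => h0 (hP _ hm)⟩ : P.primeCompl)
      refine ⟨v, h1.trans ?_⟩
      rw [e1, map_mul]
      exact (associated_mul_unit_right _ _ hu).symm
  have tot : ∀ x y : Localization.AtPrime P, x ∣ y ∨ y ∣ x := by
    intro x y
    obtain ⟨v, hv⟩ := key x
    obtain ⟨w, hw⟩ := key y
    rcases ValuationRing.dvd_total v w with h | h
    · exact Or.inl (hv.dvd.trans ((_root_.map_dvd _ (_root_.map_dvd _ h)).trans hw.symm.dvd))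
    · exact Or.inr (hw.dvd.trans ((_root_.map_dvd _ (_root_.map_dvd _ h)).trans hv.symm.dvd))
  have : PreValuationRing (Localization.AtPrime P) := ⟨fun x y => by
    rcases tot x y with ⟨c, hc⟩ | ⟨c, hc⟩
    · exact ⟨c, Or.inl hc.symm⟩
    · exact ⟨c, Or.inr hc.symm⟩⟩
  exact ValuationRing.mk

variable {V R : Type*} [CommRing V] [IsDomain V] [ValuationRing V] [CommRing R] [IsDomain R]
  [IsLocalRing R] {d : ℕ} {π : (MvPolynomial (Fin d) V)[X] →+* R}
  {G : (MvPolynomial (Fin d) V)[X]}

theorem valo_inj (h : Pres π G) (a : MvPolynomial (Fin d) V) (ha : π (C a) = 0) : a = 0 := by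
  by_contra h0
  obtain ⟨s, hs, hd⟩ := h.lp.ker _ ha
  have h1 : (a • s) %ₘ G = 0 := by
    rw [modByMonic_eq_zero_iff_dvd h.monic, smul_eq_C_mul, mul_comm]; exact hd
  rw [smul_modByMonic, smul_eq_zero] at h1
  have h2 : G ∣ s := (modByMonic_eq_zero_iff_dvd h.monic).1 (h1.resolve_left h0)
  obtain ⟨c, rfl⟩ := h2
  rw [map_mul, h.lp.map_G, zero_mul] at hs
  exact not_isUnit_zero hs

theorem Pres.valuationRing (h : Pres π G) (q : Ideal R) [q.IsPrime]
    (hq : ∀ a : MvPolynomial (Fin d) V, MvPolynomial.map (residue V) a ≠ 0 → π (C a) ∉ q) :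
    ValuationRing (Localization.AtPrime q) := by
  let P : Ideal (MvPolynomial (Fin d) V) :=
    RingHom.ker (MvPolynomial.map (σ := Fin d) (residue V))
  haveI hPp : P.IsPrime := RingHom.ker_isPrime _
  haveI hW : ValuationRing (Localization.AtPrime P) := valo_gauss P fun a ha => ha
  let π' : (MvPolynomial (Fin d) V)[X] →+* Localization.AtPrime q :=
    (algebraMap R (Localization.AtPrime q)).comp π
  have hinjO : Function.Injective (algebraMap R (Localization.AtPrime q)) :=
    IsLocalization.injective _ q.primeCompl_le_nonZeroDivisors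
  have hu : ∀ s : P.primeCompl, IsUnit ((π'.comp C) s) := fun s =>
    IsLocalization.map_units (Localization.AtPrime q) (⟨π (C s.1), hq _ s.2⟩ : q.primeCompl)
  let ψ : Localization.AtPrime P →+* Localization.AtPrime q := IsLocalization.lift hu
  have hψ : ∀ a, ψ (algebraMap _ _ a) = π' (C a) := fun a => IsLocalization.lift_eq hu a
  letI : Algebra (Localization.AtPrime P) (Localization.AtPrime q) := ψ.toAlgebra
  have hinj : Function.Injective ψ := by
    rw [injective_iff_map_eq_zero]
    intro w hw
    obtain ⟨⟨a, s⟩, e⟩ := IsLocalization.surj P.primeCompl w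
    have e1 := congrArg ψ e
    rw [map_mul, hw, zero_mul, hψ] at e1
    have e2 : π (C a) = 0 := hinjO (by rw [map_zero]; exact e1.symm)
    have e3 := valo_inj h a e2
    rw [e3, map_zero] at e
    exact ((IsLocalization.map_units (Localization.AtPrime P) s).mul_left_eq_zero).1 e
  haveI : FaithfulSMul (Localization.AtPrime P) (Localization.AtPrime q) :=
    (faithfulSMul_iff_algebraMap_injective _ _).2 hinj
  have hev : ∀ p : (MvPolynomial (Fin d) V)[X],
      aeval (π' X) (p.map (algebraMap _ (Localization.AtPrime P))) = π' p := by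
    intro p
    have : (aeval (R := Localization.AtPrime P) (π' X)).toRingHom.comp
        (mapRingHom (algebraMap _ (Localization.AtPrime P))) = π' := by
      refine Polynomial.ringHom_ext (fun a => ?_) ?_
      · simp only [RingHom.comp_apply, coe_mapRingHom, map_C, AlgHom.toRingHom_eq_coe,
          RingHom.coe_coe, aeval_C]
        exact hψ a
      · simp
    exact RingHom.congr_fun this p
  refine valuationRing_of_simple (π' X) (G.map (algebraMap _ (Localization.AtPrime P)))
    (h.monic.map _) ?_ ?_ ?_
  · rw [hev]; simp [π', h.lp.map_G]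
  · rw [derivative_map, hev]; exact h.deriv.map (algebraMap R (Localization.AtPrime q))
  · intro r
    obtain ⟨a, s, hs, e⟩ := (h.lp.localization q.primeCompl (Localization.AtPrime q)).surj r
    exact ⟨a.map (algebraMap _ _), s.map (algebraMap _ _), by rw [hev]; exact hs.ne_zero,
      by rw [hev, hev]; exact e⟩

end Pool.Agent.P.MP_c1f06d_ag
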