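import Pool.Agent.P.MP_c1f06d_ag.BNF
import Pool.Agent.P.MP_c1f06d_ag.BNormVal
import Pool.Agent.P.MP_c1f06d_ag.Geo
import Pool.Agent.P.MP_c1f06d_ag.ValO
import Pool.Agent.P.MP_c1f06d_ag.Equate
import Pool.Agent.P.MP_c1f06d_ag.PresEx
import Pool.Agent.P.MP_c1f06d_ag.RX

open Matrix Polynomial

universe u

namespace Pool.Agent.P.MP_c1f06d_ag

open IsLocalRing

theorem bcore_map_map {A B D : Type*} [CommRing A] [CommRing B] [CommRing D] {m : ℕ}
    (Q : Matrix (Fin m) (Fin m) A) (f : A →+* B) (g : B →+* D) :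
    (Q.map f).map g = Q.map (g.comp f) := by
  ext i j; simp

/-- The fraction field of a domain is the fraction field of its localisation at a prime. -/
theorem bcore_frac {R : Type*} (K : Type*) [CommRing R] [IsDomain R] [Field K] [Algebra R K]
    [IsFractionRing R K] (q : Ideal R) [q.IsPrime] :
    ∃ _ : Algebra (Localization.AtPrime q) K, IsFractionRing (Localization.AtPrime q) K ∧
      (algebraMap (Localization.AtPrime q) K).comp (algebraMap R (Localization.AtPrime q)) =
        algebraMap R K := by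
  have hle : q.primeCompl ≤ nonZeroDivisors R := q.primeCompl_le_nonZeroDivisors
  let inst : Algebra (Localization.AtPrime q) K :=
    IsLocalization.localizationAlgebraOfSubmonoidLe _ K q.primeCompl (nonZeroDivisors R) hle
  have : IsScalarTower R (Localization.AtPrime q) K :=
    IsLocalization.localization_isScalarTower_of_submonoid_le _ K q.primeCompl
      (nonZeroDivisors R) hle
  exact ⟨inst, IsFractionRing.isFractionRing_of_isDomain_of_isLocalization q.primeCompl _ K,
    (IsScalarTower.algebraMap_eq R (Localization.AtPrime q) K).symm⟩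

section
variable {V R K : Type u} [CommRing V] [IsDomain V] [ValuationRing V] [CommRing R] [IsDomain R]
  [IsLocalRing R] [Infinite (ResidueField R)] [Field K] [Algebra R K] [IsFractionRing R K] {d : ℕ}
  {π : (MvPolynomial (Fin d) V)[X] →+* R} {G : (MvPolynomial (Fin d) V)[X]} {m : ℕ}

theorem Pres.sn_ext1 (h : Pres π G) {Q : Matrix (Fin m) (Fin m) R} (hQ : Unim Q) (hm : 4 ≤ m)
    {a : R} (ha : IsUnit a) (hs : Sn (ext1 (Q.map (algebraMap R K))) (algebraMap R K a)) :
    Sn (ext1 Q) a := by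
  obtain ⟨q, hqp, hq, hq2⟩ := h.exists_prime
  have := h.valuationRing q hq
  obtain ⟨inst, hfr, hcomp⟩ := bcore_frac K q
  obtain ⟨Q0, s, hs0, e⟩ := h.lp.exists_mat Q
  obtain ⟨a0, t, ht, ea⟩ := h.lp.exists_sq a
  have u0 : Unim (Q0.map π) := e ▸ hQ.smul (hs0.pow 2)
  have i0 : Iso (Q0.map π) Q := e ▸ iso_sq_smul Q s
  have ha0 : IsUnit (π a0) := ea ▸ (ht.pow 2).mul ha
  obtain ⟨v0, h0⟩ := u0.exists_isUnit_qv (by omega)
  have h1 := hQ.semi_ext1.unit
  set j := algebraMap R (Localization.AtPrime q) with hj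
  have sO : Sn (ext1 (Q.map j)) (j a) := by
    refine (hQ.map j).semi_ext1.sn_of_frac (K := K) (by omega) (ha.map j) ?_
    rw [ext1_map, bcore_map_map, hcomp, ← RingHom.comp_apply, hcomp]
    exact hs
  have sO' : Sn ((ext1 Q0).map (j.comp π)) ((j.comp π) a0) := by
    rw [ext1_map, ← bcore_map_map, RingHom.comp_apply, ea, map_mul]
    exact ((sn_sq h0 t).map j).ext1.mul (sO.of_iso ((i0.map j).symm (u0.map j)).ext1)
  obtain ⟨F, hF, hsp⟩ := (h.lp.localization q.primeCompl (Localization.AtPrime q)).spread_sn sO'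
  have hFq : π F ∉ q :=
    (IsLocalization.AtPrime.isUnit_to_map_iff (Localization.AtPrime q) q (π F)).1 hF
  obtain ⟨a', H, b, ha', hH, hb⟩ := hq2 F hFq
  obtain ⟨P, ψ, hP, hodd, hG, hψF, w1, ρ, w2, w3⟩ := h.geo
    (fun A _ i ψ => Iso (Q0.map ψ) ((Q0.map π).map i) ∧
      ∃ ρ, Sn ((Q0.map π).map i) ρ ∧ i (π a0) = ρ * ψ a0)
    (fun A A' _ _ χ i ψ hw => by
      obtain ⟨w1, ρ, w2, w3⟩ := hw
      have h1 := w1.map χ
      have h2 := w2.map χ
      rw [bcore_map_map, bcore_map_map] at h1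
      rw [bcore_map_map] at h2
      exact ⟨h1, χ ρ, h2, by rw [RingHom.comp_apply, w3, map_mul]; rfl⟩)
    (fun A _ i ψ σ hσi hσψ => by
      have k : (Q0.map ψ).map σ = Q0.map π := by rw [bcore_map_map, hσψ]
      have k' : ((Q0.map π).map i).map σ = Q0.map π := by
        rw [bcore_map_map, hσi]; ext; simp
      obtain ⟨A1, _, f1, σ1, e1, c1, w1⟩ := exists_etale_iso σ (Q0.map ψ) ((Q0.map π).map i)
        (k.trans k'.symm) (k ▸ u0)
      have hσi1 : σ1.comp (f1.comp i) = RingHom.id R := by rw [← RingHom.comp_assoc, c1, hσi]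
      have hσψ1 : σ1.comp (f1.comp ψ) = π := by rw [← RingHom.comp_assoc, c1, hσψ]
      have z1 : σ1 ((f1.comp i) (π a0)) = π a0 := by
        rw [← RingHom.comp_apply, hσi1, RingHom.id_apply]
      have z2 : σ1 ((f1.comp ψ) a0) = π a0 := by rw [← RingHom.comp_apply, hσψ1]
      obtain ⟨A2, _, f2, σ2, ρ, e2, c2, w2, w3⟩ := exists_etale_sn σ1 (f1.comp i) hσi1
        (Q0.map π) u0 h0 ((f1.comp i) (π a0)) ((f1.comp ψ) a0) (z1.trans z2.symm) (z1.symm ▸ ha0)
      refine ⟨A2, inferInstance, f2.comp f1, σ2, RingHom.Etale.stableUnderComposition _ _ e1 e2,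
        by rw [← RingHom.comp_assoc, c2, c1], ?_, ρ, w2, w3⟩
      have := w1.map f2
      simp only [bcore_map_map] at this ⊢
      simpa only [RingHom.comp_assoc] using this)
    F a' H b ha' hH hb
  have sD : Sn ((ext1 (Q0.map π)).map (AdjoinRoot.of P)) (AdjoinRoot.of P (π a0)) := by
    have := hsp _ ψ hG hψF
    rw [ext1_map] at this
    rw [w3, ext1_map]
    exact w2.ext1.mul (this.of_iso w1.ext1)
  have sR : Sn (ext1 Q) (π a0) :=
    (u0.semi_ext1.sn_of_adjoinRoot_inf (by omega) hP hodd ha0 sD).of_iso i0.ext1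
  refine Sn.cancel h1 (sn_sq h1 t) (ht.pow 2) ?_
  rwa [mul_comm, ← ea]

/-- The same over an extension ring. -/
theorem Pres.sn_ext1_of_injective (h : Pres π G) {R0 K0 : Type u} [CommRing R0] [Field K0]
    [Algebra R0 K0] [IsFractionRing R0 K0] (f : R0 →+* R) (hf : Function.Injective f)
    {Q : Matrix (Fin m) (Fin m) R0} (hQ : Unim Q) (hm : 4 ≤ m) {a : R0} (ha : IsUnit a)
    (hs : Sn (ext1 (Q.map (algebraMap R0 K0))) (algebraMap R0 K0 a)) :
    Sn (ext1 (Q.map f)) (f a) := by
  obtain ⟨L, _, _, _⟩ : ∃ (L : Type u) (_ : Field L) (_ : Algebra R L), IsFractionRing R L :=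
    ⟨FractionRing R, inferInstance, inferInstance, inferInstance⟩
  have hinj : Function.Injective ((algebraMap R L).comp f) :=
    (IsFractionRing.injective R L).comp hf
  obtain ⟨φ, hφ⟩ : ∃ φ : K0 →+* L, φ.comp (algebraMap R0 K0) = (algebraMap R L).comp f :=
    ⟨IsFractionRing.lift hinj, RingHom.ext fun r => IsFractionRing.lift_algebraMap hinj r⟩
  refine h.sn_ext1 (K := L) (hQ.map f) hm (ha.map f) ?_
  have h1 := hs.map φ
  have h2 : φ (algebraMap R0 K0 a) = algebraMap R L (f a) := RingHom.congr_fun hφ a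
  rw [ext1_map, bcore_map_map, hφ, h2] at h1
  rw [bcore_map_map]
  exact h1

end

theorem bcore_pres (V A : Type u) [CommRing V] [IsDomain V] [ValuationRing V] [CommRing A]
    [Algebra V A] [Algebra.Smooth V A] (p : Ideal A) [p.IsPrime] (R : Type u) [CommRing R]
    [IsLocalRing R] [Algebra A R] [IsLocalization.AtPrime R p] :
    ∃ (V' : Type u) (_ : CommRing V') (_ : IsDomain V') (_ : ValuationRing V') (d : ℕ)
      (π' : (MvPolynomial (Fin d) V')[X] →+* R) (G' : (MvPolynomial (Fin d) V')[X]),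
      Pres π' G' := by
  obtain ⟨d, π, G, h1, h2, h3⟩ := exists_locPres_of_smooth V A R p
  obtain ⟨V', _, _, _, π', G', h⟩ := exists_pres_of_locPres π G h1 h2 h3
  exact ⟨V', _, inferInstance, inferInstance, d, π', G', h⟩

variable (V A : Type u) [CommRing V] [IsDomain V] [ValuationRing V] [CommRing A] [Algebra V A]
  [Algebra.Smooth V A] (p : Ideal A) [p.IsPrime] {R : Type u} [CommRing R] [IsDomain R]
  [Algebra A R] [IsLocalization.AtPrime R p] (K : Type u) [Field K] [Algebra R K]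
  [IsFractionRing R K] {m : ℕ}

include V p in
theorem sn_main_ext1 {Q : Matrix (Fin m) (Fin m) R} (hQ : Unim Q) (hm : 4 ≤ m) {a : R}
    (ha : IsUnit a) (hs : Sn (ext1 (Q.map (algebraMap R K))) (algebraMap R K a)) :
    Sn (ext1 Q) a := by
  have : IsLocalRing R := IsLocalization.AtPrime.isLocalRing R p
  rcases finite_or_infinite (ResidueField R) with hfin | hinf
  · obtain ⟨p', _, _, _⟩ := exists_prime_RX R A p
    have : Algebra.Smooth A A[X] := {}
    have : Algebra.Smooth V A[X] := Algebra.Smooth.comp V A A[X]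
    obtain ⟨V', _, _, _, d, π', G', h⟩ := bcore_pres V A[X] p' (RX R)
    have := infinite_residueField_RX R
    have := faithfullyFlat_RX R
    have i1 := h.sn_ext1_of_injective (algebraMap R (RX R))
      (FaithfulSMul.algebraMap_injective R (RX R)) hQ hm ha hs
    have e : (algebraMap R[X] (RX R)).comp C = algebraMap R (RX R) := by
      rw [IsScalarTower.algebraMap_eq R R[X] (RX R)]; rfl
    rw [← e, ← bcore_map_map, ← ext1_map, RingHom.comp_apply] at i1
    obtain ⟨F, hF, hsp⟩ :=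
      (locPres_of_isLocalization (O := RX R) (mX R).primeCompl).spread_sn i1
    obtain ⟨P, hP, hirr, hpr, hodd, hu⟩ := exists_adjoinRoot_prime R F ((isUnit_RX_iff R F).1 hF)
    have i2 := hsp (AdjoinRoot P) (AdjoinRoot.mk P) (map_zero _) hu
    rw [← ext1_map, bcore_map_map] at i2
    exact hQ.semi_ext1.sn_of_adjoinRoot_prime (by omega) hP hirr hpr hodd ha i2
  · obtain ⟨V', _, _, _, d, π', G', h⟩ := bcore_pres V A p R
    exact h.sn_ext1 hQ hm ha hs

include V p in
theorem Semi.sn_main {Q : Matrix (Fin m) (Fin m) R} {r ρ : Fin m → R} (hQ : Semi Q r ρ)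
    (hm : 5 ≤ m) {a : R} (ha : IsUnit a)
    (hs : Sn (Q.map (algebraMap R K)) (algebraMap R K a)) : Sn Q a := by
  have : IsLocalRing R := IsLocalization.AtPrime.isLocalRing R p
  obtain ⟨n, rfl⟩ : ∃ n, m = n + 1 := ⟨m - 1, by omega⟩
  obtain ⟨Q0, u0, i1, i2⟩ := hQ.exists_ext1
  obtain ⟨c, hc⟩ := hQ.unit.exists_left_inv
  have s1 := hs.of_iso (i2.map (algebraMap R K))
  have e : (qv Q r • ext1 Q0).map (algebraMap R K) =
      algebraMap R K (qv Q r) • ext1 (Q0.map (algebraMap R K)) := by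
    rw [← ext1_map]; ext; simp
  rw [e] at s1
  have s2 := sn_main_ext1 V A p K u0 (by omega) ha (s1.of_smul (u0.map _).semi_ext1.unit)
  rw [← one_smul R (ext1 Q0), ← hc, mul_smul] at s2
  refine (s2.of_smul (v0 := Fin.cons 1 0) ?_).of_iso i1
  rw [qv_smul_mat]
  exact hQ.unit.mul u0.semi_ext1.unit

end Pool.Agent.P.MP_c1f06d_ag
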