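import Pool.Agent.P.MP_c1f06d_ag.QField

open Matrix Polynomial

universe u

namespace Pool.Agent.P.MP_c1f06d_ag

variable {m : ℕ} {O K : Type*} [CommRing O] [IsDomain O] [ValuationRing O] [Field K] [Algebra O K]
  [IsFractionRing O K]

theorem valb_prim {v : Fin m → K} (hv : v ≠ 0) :
    ∃ (k : K) (w : Fin m → O), (∃ i, IsUnit (w i)) ∧ v = k • (algebraMap O K ∘ w) := by
  obtain ⟨j, hj⟩ := Function.ne_iff.1 hv
  obtain ⟨i, -, hi⟩ := Finset.exists_max_image Finset.univ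
    (fun i => ValuationRing.valuation O K (v i)) ⟨j, Finset.mem_univ j⟩
  have h0 : v i ≠ 0 := fun h => hj <| by
    have := hi j (Finset.mem_univ j)
    rw [h, map_zero, le_zero_iff] at this
    exact (Valuation.zero_iff _).1 this
  have h1 : ∀ a, ∃ b : O, algebraMap O K b = v a / v i := fun a =>
    (ValuationRing.mem_integer_iff O K _).1 <| by
      rw [Valuation.mem_integer_iff, map_div₀]
      exact div_le_one_of_le₀ (hi a (Finset.mem_univ a)) zero_le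
  choose w hw using h1
  refine ⟨v i, w, ⟨i, ?_⟩, funext fun a => ?_⟩
  · rw [IsFractionRing.injective O K ((hw i).trans ((div_self h0).trans (map_one _).symm))]
    exact isUnit_one
  · simp [hw, mul_div_cancel₀ _ h0]

theorem valb_unit {a b : O} (ha : ¬IsUnit a) (hb : IsUnit b) : IsUnit (a + b) :=
  (IsLocalRing.isUnit_or_isUnit_of_isUnit_add (a := -a) (b := a + b) (by simpa)).resolve_left
    (by simpa)

theorem valb_move {Q : Matrix (Fin m) (Fin m) O} (hQ : Unim Q) (hm : 5 ≤ m) {z v : Fin m → O}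
    (hz : ∃ i, IsUnit (z i)) (hv : ∃ i, IsUnit (v i)) :
    ∃ v', qv Q v' = qv Q v ∧ IsUnit (bv Q v' z) := by
  by_cases h : IsUnit (bv Q v z)
  · exact ⟨v, rfl, h⟩
  have e : ∀ {x : Fin m → O}, (∃ i, IsUnit (x i)) → IsLocalRing.residue O ∘ x ≠ 0 :=
    fun ⟨i, hi⟩ h => (IsLocalRing.residue_ne_zero_iff_isUnit _).2 hi (congrFun h i)
  obtain ⟨y', h1, h2, h3⟩ := exists_three_ne_zero (hQ.map (IsLocalRing.residue O)) hm (e hz) (e hv)
  obtain ⟨y, rfl⟩ := (IsLocalRing.residue_surjective (R := O)).comp_left y'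
  simp only [qv_map, bv_map, IsLocalRing.residue_ne_zero_iff_isUnit] at h1 h2 h3
  refine ⟨refl Q y v, qv_refl h1 v, ?_⟩
  rw [bv_refl_left, sub_eq_add_neg, bv_comm Q y]
  exact valb_unit h ((h3.mul h1.ringInverse).mul h2).neg

theorem valb_step {Q : Matrix (Fin m) (Fin m) O} (hQ : Unim Q) (hm : 5 ≤ m) {v0 z v : Fin m → O}
    (h0 : IsUnit (qv Q v0)) (hz : ∃ i, IsUnit (z i)) (hv : ∃ i, IsUnit (v i)) :
    ∃ z' s, IsUnit s ∧ Sn Q s ∧ qv Q z * qv Q v * qv Q v0 = qv Q z' * s := by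
  by_cases h1 : IsUnit (qv Q v)
  · exact ⟨z, _, h1.mul h0, sn_two v v0, mul_assoc _ _ _⟩
  by_cases h2 : IsUnit (qv Q z)
  · exact ⟨v, _, h2.mul h0, sn_two z v0, by ring⟩
  obtain ⟨v', e, h⟩ := valb_move hQ hm hz hv
  obtain ⟨c, hc⟩ : IsUnit (qv Q (v' + z)) := by
    rw [qv_add, e, add_assoc]
    exact valb_unit h1 (valb_unit h2 h)
  have hi := c.inv_mul
  refine ⟨qv Q z • v' + qv Q v • z, _, h0.mul c⁻¹.isUnit, ?_, ?_⟩
  · have := sn_two (Q := Q) v0 ((↑c⁻¹ : O) • (v' + z))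
    rwa [qv_smul, ← hc, sq, mul_assoc, hi, mul_one] at this
  · rw [qv_add, e] at hc
    rw [qv_add, qv_smul, qv_smul, bv_smul_left, bv_smul_right, e]
    linear_combination (qv Q z * qv Q v * qv Q v0) * (↑c⁻¹ * hc - hi)

theorem valb_list {Q : Matrix (Fin m) (Fin m) O} (hQ : Unim Q) (hm : 5 ≤ m) {v0 : Fin m → O}
    (h0 : IsUnit (qv Q v0)) (l : List (Fin m → K))
    (hl : (l.map (qv (Q.map (algebraMap O K)))).prod ≠ 0) :
    ∃ z s, IsUnit s ∧ Sn Q s ∧ algebraMap O K (qv Q v0) ^ (l.length + 1) *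
      (l.map (qv (Q.map (algebraMap O K)))).prod =
        qv (Q.map (algebraMap O K)) z * algebraMap O K s := by
  induction l with
  | nil => exact ⟨algebraMap O K ∘ v0, 1, isUnit_one, sn_one, by simp [qv_map]⟩
  | cons v l ih =>
    rw [List.map_cons, List.prod_cons] at hl ⊢
    obtain ⟨z, s, h1, h2, h3⟩ := ih (right_ne_zero_of_mul hl)
    obtain ⟨k, w, hw, rfl⟩ := valb_prim (O := O) (v := z) fun h => by
      rw [h, qv_zero, zero_mul] at h3
      exact mul_ne_zero (pow_ne_zero _ (h0.map _).ne_zero) (right_ne_zero_of_mul hl) h3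
    obtain ⟨k', w', hw', rfl⟩ := valb_prim (O := O) (v := v) fun h => by
      rw [h, qv_zero, zero_mul] at hl
      exact hl rfl
    obtain ⟨z', s', h4, h5, h6⟩ := valb_step hQ hm h0 hw hw'
    refine ⟨(k * k') • (algebraMap O K ∘ z'), s * s', h1.mul h4, h2.mul h5, ?_⟩
    have h7 := congrArg (algebraMap O K) h6
    simp only [qv_smul, qv_map, map_mul, List.length_cons] at h3 h7 ⊢
    linear_combination (k' ^ 2 * algebraMap O K (qv Q w') * algebraMap O K (qv Q v0)) * h3 +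
      (k * k') ^ 2 * algebraMap O K s * h7

theorem valb_rep {Q : Matrix (Fin m) (Fin m) O} (hQ : Unim Q) {w : Fin m → O}
    (hw : ∃ i, IsUnit (w i)) {a e : O} (h : qv Q w = a ^ 2 * e) :
    ∃ z b, IsUnit b ∧ qv Q z = b ^ 2 * e := by
  by_cases ha : IsUnit a
  · exact ⟨w, a, ha, h⟩
  obtain ⟨i, hi⟩ := hw
  obtain ⟨y, hy⟩ := hQ.exists_bv_one hi
  refine ⟨(1 - qv Q y * e * (1 - a) ^ 2) • w + (e * (1 - a ^ 2)) • y,
    a * (qv Q y * e * (1 - a) ^ 2) + 1,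
    valb_unit (fun h => ha (isUnit_of_mul_isUnit_left h)) isUnit_one, ?_⟩
  rw [qv_add, qv_smul, qv_smul, bv_smul_left, bv_smul_right, h, hy]
  ring

theorem sn_of_frac {Q : Matrix (Fin m) (Fin m) O} (hQ : Unim Q) (hm : 5 ≤ m) {a : O}
    (ha : IsUnit a) (h : Sn (Q.map (algebraMap O K)) (algebraMap O K a)) : Sn Q a := by
  obtain ⟨v0, h0⟩ := hQ.exists_isUnit_qv (le_trans (by norm_num) hm)
  obtain ⟨l, ⟨r, hr⟩, hl⟩ := h
  obtain ⟨z, s, ⟨s, rfl⟩, h2, h3⟩ := valb_list hQ hm h0 l (hl ▸ (ha.map _).ne_zero)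
  rw [← hl, hr] at h3
  have he : IsUnit (qv Q v0 ^ (r + r + 1) * a * ↑s⁻¹) := ((h0.pow _).mul ha).mul s⁻¹.isUnit
  have hs : algebraMap O K ↑s * algebraMap O K ↑s⁻¹ = 1 := by rw [← map_mul, s.mul_inv, map_one]
  have h4 : algebraMap O K (qv Q v0 ^ (r + r + 1) * a * ↑s⁻¹) = qv (Q.map (algebraMap O K)) z := by
    rw [map_mul, map_mul, map_pow, h3, mul_assoc, hs, mul_one]
  obtain ⟨k, w, hw, rfl⟩ := valb_prim (O := O) (v := z) fun h => by
    rw [h, qv_zero] at h4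
    exact (he.map _).ne_zero h4
  rw [qv_smul, qv_map] at h4
  obtain ⟨c, hc⟩ : ∃ c : O, qv Q w = c ^ 2 * (qv Q v0 ^ (r + r + 1) * a * ↑s⁻¹) := by
    rcases ValuationRing.isInteger_or_isInteger O k with ⟨b, rfl⟩ | ⟨b, hb⟩
    · rw [← map_pow, ← map_mul] at h4
      rw [IsFractionRing.injective O K h4] at he ⊢
      obtain ⟨u, rfl⟩ := (isUnit_pow_iff two_ne_zero).1 (isUnit_of_mul_isUnit_left he)
      exact ⟨↑u⁻¹, by rw [← mul_assoc, ← mul_pow, u.inv_mul, one_pow, one_mul]⟩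
    · have hk : k ≠ 0 := fun h => (he.map (algebraMap O K)).ne_zero (by rw [h4, h]; ring)
      refine ⟨b, IsFractionRing.injective O K ?_⟩
      rw [map_mul, map_pow, hb, h4, ← mul_assoc, ← mul_pow, inv_mul_cancel₀ hk, one_pow, one_mul]
  obtain ⟨z, b, hb, hz⟩ := valb_rep hQ hw hc
  refine Sn.cancel h0 (sn_sq h0 (qv Q v0 ^ (r + 1) * b)) (((h0.pow _).mul hb).pow 2) ?_
  have h5 := (sn_two (Q := Q) z v0).mul h2
  rwa [hz, show b ^ 2 * (qv Q v0 ^ (r + r + 1) * a * ↑s⁻¹) * qv Q v0 * ↑s =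
    a * (qv Q v0 ^ (r + 1) * b) ^ 2 * (↑s⁻¹ * ↑s) by ring, s.inv_mul, mul_one] at h5

end Pool.Agent.P.MP_c1f06d_ag
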