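import Pool.Agent.P.MP_c1f06d_ag.BDefs
import Pool.Agent.P.MP_c1f06d_ag.ValB

open Matrix Polynomial

universe u

namespace Pool.Agent.P.MP_c1f06d_ag

variable {m : ℕ}

section Field
variable {k : Type*} [Field k] {Q : Matrix (Fin m) (Fin m) k} {r ρ : Fin m → k}

theorem good_iff_field {x : Fin m → k} : Good Q x ↔ ∃ y, bv Q x y ≠ 0 :=
  ⟨fun ⟨z, hz⟩ => ⟨z, hz ▸ one_ne_zero⟩, fun ⟨_, hy⟩ => good_of_isUnit (isUnit_iff_ne_zero.2 hy)⟩

theorem Semi.good_of_qv_eq_zero (h : Semi Q r ρ) {x : Fin m → k} (hx : x ≠ 0)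
    (h0 : qv Q x = 0) : Good Q x := by
  rw [good_iff_field]
  by_contra! hn
  have e := h.eq_smul hn
  rw [e, qv_smul] at h0
  have := (mul_eq_zero.1 h0).resolve_right h.unit.ne_zero
  rw [pow_eq_zero_iff two_ne_zero] at this
  exact hx (by rw [e, this, zero_smul])

theorem Semi.exists_qv_ne_zero_perp (h : Semi Q r ρ) (hm : 5 ≤ m) (a b z : Fin m → k) :
    ∃ y, bv Q y a = 0 ∧ bv Q y b = 0 ∧ qv Q (z + y) ≠ 0 := by
  by_cases h2 : (2 : k) = 0
  · have e : ∀ x, bv Q x r = 0 := fun x => by rw [h.bv_r, h2, zero_mul, zero_mul]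
    by_cases hz : qv Q z = 0
    · exact ⟨r, by rw [bv_comm, e], by rw [bv_comm, e],
        by rw [qv_add, hz, e, zero_add, add_zero]; exact h.unit.ne_zero⟩
    · exact ⟨0, bv_zero_left _ _, bv_zero_left _ _, by rwa [add_zero]⟩
  · refine Pool.Agent.P.MP_c1f06d_ag.exists_qv_ne_zero_perp (unim_of_dual fun i => ?_) hm a b z
    obtain ⟨y, s, e⟩ := h.dual i
    refine ⟨y + (s / (2 * qv Q r)) • r, ?_⟩
    rw [mulVec_add, mulVec_smul, h.perp, smul_smul,
      div_mul_cancel₀ _ (mul_ne_zero h2 h.unit.ne_zero), e]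

theorem Semi.exists_three_ne_zero (h : Semi Q r ρ) (hm : 5 ≤ m) {a b : Fin m → k}
    (ha : Good Q a) (hb : Good Q b) : ∃ z, qv Q z ≠ 0 ∧ bv Q a z ≠ 0 ∧ bv Q b z ≠ 0 := by
  obtain ⟨z, h1, h2⟩ : ∃ z, bv Q a z ≠ 0 ∧ bv Q b z ≠ 0 := by
    obtain ⟨x, hx⟩ := good_iff_field.1 ha
    obtain ⟨y, hy⟩ := good_iff_field.1 hb
    by_contra! h
    have e : bv Q a y = 0 := by_contra fun e => hy (h y e)
    have := h (x + y) (by rwa [bv_add_right, e, add_zero])
    rw [bv_add_right, h x hx, zero_add] at this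
    exact hy this
  obtain ⟨y, h3, h4, h5⟩ := h.exists_qv_ne_zero_perp hm a b z
  exact ⟨z + y, h5, by rwa [bv_add_right, bv_comm Q a y, h3, add_zero],
    by rwa [bv_add_right, bv_comm Q b y, h4, add_zero]⟩

theorem Semi.exists_two_refl_field (hQ : Semi Q r ρ) (hm : 5 ≤ m) {w w' : Fin m → k}
    (hw : Good Q w) (hw' : Good Q w') :
    ∃ z, qv Q z ≠ 0 ∧ qv Q (w - w') * qv Q z + bv Q w z * bv Q w' z ≠ 0 := by
  by_cases h : qv Q (w - w') = 0
  · obtain ⟨z, h1, h2, h3⟩ := hQ.exists_three_ne_zero hm hw hw'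
    exact ⟨z, h1, by rw [h, zero_mul, zero_add]; exact mul_ne_zero h2 h3⟩
  · obtain ⟨z, h1, -, h2⟩ := hQ.exists_qv_ne_zero_perp hm w w 0
    rw [zero_add] at h2
    exact ⟨z, h2, by rw [bv_comm Q w, h1, zero_mul, add_zero]; exact mul_ne_zero h h2⟩

end Field

theorem Semi.exists_two_refl {S : Type*} [CommRing S] [Finite (MaximalSpectrum S)]
    {Q : Matrix (Fin m) (Fin m) S} {r ρ : Fin m → S} (hQ : Semi Q r ρ) (hm : 5 ≤ m)
    {w w' : Fin m → S} (h : qv Q w' = qv Q w) (hw : Good Q w) (hw' : Good Q w') :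
    ∃ z, IsUnit (qv Q z) ∧ IsUnit (qv Q (refl Q z w - w')) := by
  have key : ∀ n : MaximalSpectrum S, ∃ z : Fin m → S ⧸ n.1, ∀ y : Fin m → S,
      Ideal.Quotient.mk n.1 ∘ y = z →
        qv Q y ∉ n.1 ∧ qv Q (w - w') * qv Q y + bv Q w y * bv Q w' y ∉ n.1 := fun n => by
    have := n.2
    let _ := Ideal.Quotient.field n.1
    obtain ⟨z, h1, h2⟩ := (hQ.map (Ideal.Quotient.mk n.1)).exists_two_refl_field hm
      (hw.map _) (hw'.map _)
    refine ⟨z, ?_⟩
    rintro y rfl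
    rw [show Ideal.Quotient.mk n.1 ∘ w - Ideal.Quotient.mk n.1 ∘ w' = Ideal.Quotient.mk n.1 ∘ (w - w')
      from funext fun i => (map_sub (Ideal.Quotient.mk n.1) (w i) (w' i)).symm] at h2
    simp only [qv_map, bv_map, ← map_mul, ← map_add] at h1 h2
    exact ⟨mt Ideal.Quotient.eq_zero_iff_mem.2 h1, mt Ideal.Quotient.eq_zero_iff_mem.2 h2⟩
  choose z hz using key
  choose y hy using fun i => Ideal.pi_quotient_surjective (I := fun n : MaximalSpectrum S => n.1)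
    (fun _ _ => MaximalSpectrum.isCoprime_of_ne) fun n => z n i
  have un : ∀ s : S, (∀ n : MaximalSpectrum S, s ∉ n.1) → IsUnit s := fun s hs => by
    by_contra e
    obtain ⟨n, h1, h2⟩ := exists_max_ideal_of_mem_nonunits e
    exact hs ⟨n, h1⟩ h2
  have hy' := fun n => hz n y (funext fun i => hy i n)
  have u1 := un _ fun n => (hy' n).1
  refine ⟨y, u1, isUnit_of_mul_isUnit_left (y := qv Q y) ?_⟩
  have e : qv Q (refl Q y w - w') * qv Q y = qv Q (w - w') * qv Q y + bv Q w y * bv Q w' y := by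
    rw [qv_sub, qv_sub, qv_refl u1, bv_refl_left, bv_comm Q y w']
    linear_combination bv Q w y * bv Q w' y * Ring.inverse_mul_cancel _ u1
  exact e ▸ un _ fun n => (hy' n).2

theorem Semi.lift_vector {S S' : Type*} [CommRing S] [CommRing S'] (f : S →+* S')
    (hf : Function.Surjective f) [IsLocalHom f] [Finite (MaximalSpectrum S')]
    {Q : Matrix (Fin m) (Fin m) S} {r ρ : Fin m → S} (hQ : Semi Q r ρ) (hm : 5 ≤ m)
    {w : Fin m → S} (hw : Good Q w) {w' : Fin m → S'} (hw' : Good (Q.map f) w')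
    (h : qv (Q.map f) w' = f (qv Q w)) :
    ∃ w1, qv Q w1 = qv Q w ∧ f ∘ w1 = w' := by
  obtain ⟨z, h1, h2⟩ := (hQ.map f).exists_two_refl hm (w := f ∘ w) (w' := w')
    (by rw [h, qv_map]) (hw.map f) hw'
  obtain ⟨z, rfl⟩ := hf.comp_left z
  obtain ⟨y, hy⟩ := hf.comp_left (refl (Q.map f) (f ∘ z) (f ∘ w) - w')
  have u1 : IsUnit (qv Q z) := IsUnit.of_map f _ (qv_map Q f z ▸ h1)
  have u2 : IsUnit (qv Q y) := IsUnit.of_map f _ (by rw [← qv_map, show f ∘ y = _ from hy]; exact h2)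
  refine ⟨refl Q y (refl Q z w), by rw [qv_refl u2, qv_refl u1], ?_⟩
  rw [refl_map f u2, refl_map f u1, show f ∘ y = _ from hy]
  exact refl_sub (by rw [qv_refl h1, h, qv_map]) h2

section Local
variable {T : Type*} [CommRing T] [IsLocalRing T] {Q : Matrix (Fin m) (Fin m) T} {r ρ : Fin m → T}

theorem good_of_residue {x : Fin m → T}
    (h : Good (Q.map (IsLocalRing.residue T)) (IsLocalRing.residue T ∘ x)) : Good Q x := by
  obtain ⟨y, hy⟩ := good_iff_field.1 h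
  obtain ⟨y, rfl⟩ := (IsLocalRing.residue_surjective (R := T)).comp_left y
  rw [bv_map, IsLocalRing.residue_ne_zero_iff_isUnit] at hy
  exact good_of_isUnit hy

theorem Semi.good_of_not_isUnit (h : Semi Q r ρ) {x : Fin m → T} (hx : ∃ i, IsUnit (x i))
    (h0 : ¬IsUnit (qv Q x)) : Good Q x := by
  obtain ⟨i, hi⟩ := hx
  refine good_of_residue ((h.map _).good_of_qv_eq_zero (fun e => ?_) ?_)
  · exact (IsLocalRing.residue_ne_zero_iff_isUnit _).2 hi (congrFun e i)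
  · rw [qv_map]
    exact by_contra fun e => h0 ((IsLocalRing.residue_ne_zero_iff_isUnit _).1 e)

theorem Semi.exists_good (h : Semi Q r ρ) (hm : 2 ≤ m) : ∃ v, IsUnit (qv Q v) ∧ Good Q v := by
  obtain ⟨x, y, hxy⟩ : ∃ x y, IsUnit (bv Q x y) := by
    by_contra! hn
    have e := fun i j => h.sub_mem (IsLocalRing.maximalIdeal T) (x := Pi.single i 1)
      (fun y => hn _ y) j
    let i : Fin m := ⟨0, by omega⟩
    let j : Fin m := ⟨1, by omega⟩
    have hij : i ≠ j := by simp [i, j]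
    have e1 := e i i
    have e2 := e j j
    have e3 := e i j
    have e4 := e j i
    rw [single_dotProduct, one_mul] at e1 e2 e3 e4
    rw [Pi.single_eq_same] at e1 e2
    rw [Pi.single_eq_of_ne hij.symm] at e3
    rw [Pi.single_eq_of_ne hij] at e4
    refine (IsLocalRing.maximalIdeal.isMaximal T).ne_top ((Ideal.eq_top_iff_one _).2 ?_)
    have e5 : (1 : T) = (1 - ρ i * r i) + ρ i * r i * (1 - ρ j * r j) -
        ρ j * r i * (0 - ρ i * r j) := by ring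
    rw [e5]
    exact Ideal.sub_mem _ (Ideal.add_mem _ e1 (Ideal.mul_mem_left _ _ e2))
      (Ideal.mul_mem_left _ _ e3)
  by_cases hx : IsUnit (qv Q x)
  · exact ⟨x, hx, good_of_isUnit hxy⟩
  by_cases hy : IsUnit (qv Q y)
  · exact ⟨y, hy, good_of_isUnit (bv_comm Q x y ▸ hxy)⟩
  have un : ∀ {a b : T}, ¬IsUnit a → IsUnit b → IsUnit (a + b) := fun {a b} ha hb =>
    (IsLocalRing.isUnit_or_isUnit_of_isUnit_add (a := -a) (b := a + b) (by simpa)).resolve_left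
      (by simpa)
  refine ⟨x + y, by rw [qv_add, add_assoc]; exact un hx (un hy hxy), good_of_isUnit (z := y) ?_⟩
  rw [bv_add_left, bv_self, add_comm]
  exact un (fun e => hy (isUnit_of_mul_isUnit_right e)) hxy

end Local

variable {O K : Type*} [CommRing O] [IsDomain O] [ValuationRing O] [Field K] [Algebra O K]
  [IsFractionRing O K] {Q : Matrix (Fin m) (Fin m) O} {r ρ : Fin m → O}

theorem bval_move (hQ : Semi Q r ρ) (hm : 5 ≤ m) {z v : Fin m → O}
    (hz : Good Q z) (hv : Good Q v) : ∃ v', qv Q v' = qv Q v ∧ IsUnit (bv Q v' z) := by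
  by_cases h : IsUnit (bv Q v z)
  · exact ⟨v, rfl, h⟩
  obtain ⟨y', h1, h2, h3⟩ := (hQ.map (IsLocalRing.residue O)).exists_three_ne_zero hm (hz.map _)
    (hv.map _)
  obtain ⟨y, rfl⟩ := (IsLocalRing.residue_surjective (R := O)).comp_left y'
  simp only [qv_map, bv_map, IsLocalRing.residue_ne_zero_iff_isUnit] at h1 h2 h3
  refine ⟨refl Q y v, qv_refl h1 v, ?_⟩
  rw [bv_refl_left, sub_eq_add_neg, bv_comm Q y]
  exact valb_unit h ((h3.mul h1.ringInverse).mul h2).neg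

theorem bval_step (hQ : Semi Q r ρ) (hm : 5 ≤ m) {v0 z v : Fin m → O}
    (h0 : IsUnit (qv Q v0)) (hz : ∃ i, IsUnit (z i)) (hv : ∃ i, IsUnit (v i)) :
    ∃ z' s, IsUnit s ∧ Sn Q s ∧ qv Q z * qv Q v * qv Q v0 = qv Q z' * s := by
  by_cases h1 : IsUnit (qv Q v)
  · exact ⟨z, _, h1.mul h0, sn_two v v0, mul_assoc _ _ _⟩
  by_cases h2 : IsUnit (qv Q z)
  · exact ⟨v, _, h2.mul h0, sn_two z v0, by ring⟩
  obtain ⟨v', e, h⟩ := bval_move hQ hm (hQ.good_of_not_isUnit hz h2) (hQ.good_of_not_isUnit hv h1)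
  obtain ⟨c, hc⟩ : IsUnit (qv Q (v' + z)) := by
    rw [qv_add, e, add_assoc]
    exact valb_unit h1 (valb_unit h2 h)
  have hi := c.inv_mul
  refine ⟨qv Q z • v' + qv Q v • z, _, h0.mul c⁻¹.isUnit, ?_, ?_⟩
  · have := sn_two (Q := Q) v0 ((↑c⁻¹ : O) • (v' + z))
    rwa [qv_smul, ← hc, sq, mul_assoc, hi, mul_one] at this
  · rw [qv_add, e] at hc
    rw [qv_add, qv_smul, qv_smul, bv_smul_left, bv_smul_right, e]
    linear_combination (qv Q z * qv Q v * qv Q v0) * (↑c⁻¹ * hc - hi)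

theorem bval_list (hQ : Semi Q r ρ) (hm : 5 ≤ m) {v0 : Fin m → O}
    (h0 : IsUnit (qv Q v0)) (l : List (Fin m → K))
    (hl : (l.map (qv (Q.map (algebraMap O K)))).prod ≠ 0) :
    ∃ z s, IsUnit s ∧ Sn Q s ∧ algebraMap O K (qv Q v0) ^ (l.length + 1) *
      (l.map (qv (Q.map (algebraMap O K)))).prod =
        qv (Q.map (algebraMap O K)) z * algebraMap O K s := by
  induction l with
  | nil => exact ⟨algebraMap O K ∘ v0, 1, isUnit_one, sn_one, by simp [qv_map]⟩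
  | cons v l ih =>
    rw [List.map_cons, List.prod_cons] at hl ⊢
    obtain ⟨z, s, h1, h2, h3⟩ := ih (right_ne_zero_of_mul hl)
    obtain ⟨k, w, hw, rfl⟩ := valb_prim (O := O) (v := z) fun h => by
      rw [h, qv_zero, zero_mul] at h3
      exact mul_ne_zero (pow_ne_zero _ (h0.map _).ne_zero) (right_ne_zero_of_mul hl) h3
    obtain ⟨k', w', hw', rfl⟩ := valb_prim (O := O) (v := v) fun h => by
      rw [h, qv_zero, zero_mul] at hl
      exact hl rfl
    obtain ⟨z', s', h4, h5, h6⟩ := bval_step hQ hm h0 hw hw'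
    refine ⟨(k * k') • (algebraMap O K ∘ z'), s * s', h1.mul h4, h2.mul h5, ?_⟩
    have h7 := congrArg (algebraMap O K) h6
    simp only [qv_smul, qv_map, map_mul, List.length_cons] at h3 h7 ⊢
    linear_combination (k' ^ 2 * algebraMap O K (qv Q w') * algebraMap O K (qv Q v0)) * h3 +
      (k * k') ^ 2 * algebraMap O K s * h7

theorem bval_rep (hQ : Semi Q r ρ) {w : Fin m → O}
    (hw : ∃ i, IsUnit (w i)) {a e : O} (h : qv Q w = a ^ 2 * e) :
    ∃ z b, IsUnit b ∧ qv Q z = b ^ 2 * e := by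
  by_cases ha : IsUnit a
  · exact ⟨w, a, ha, h⟩
  obtain ⟨y, hy⟩ := hQ.good_of_not_isUnit hw fun hu =>
    ha ((isUnit_pow_iff two_ne_zero).1 (isUnit_of_mul_isUnit_left (h ▸ hu)))
  refine ⟨(1 - qv Q y * e * (1 - a) ^ 2) • w + (e * (1 - a ^ 2)) • y,
    a * (qv Q y * e * (1 - a) ^ 2) + 1,
    valb_unit (fun h => ha (isUnit_of_mul_isUnit_left h)) isUnit_one, ?_⟩
  rw [qv_add, qv_smul, qv_smul, bv_smul_left, bv_smul_right, h, hy]
  ring

theorem Semi.sn_of_frac (hQ : Semi Q r ρ) (hm : 5 ≤ m) {a : O}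
    (ha : IsUnit a) (h : Sn (Q.map (algebraMap O K)) (algebraMap O K a)) : Sn Q a := by
  have h0 := hQ.unit
  generalize r = v0 at h0
  obtain ⟨l, ⟨r, hr⟩, hl⟩ := h
  obtain ⟨z, s, ⟨s, rfl⟩, h2, h3⟩ := bval_list hQ hm h0 l (hl ▸ (ha.map _).ne_zero)
  rw [← hl, hr] at h3
  have he : IsUnit (qv Q v0 ^ (r + r + 1) * a * ↑s⁻¹) := ((h0.pow _).mul ha).mul s⁻¹.isUnit
  have hs : algebraMap O K ↑s * algebraMap O K ↑s⁻¹ = 1 := by rw [← map_mul, s.mul_inv, map_one]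
  have h4 : algebraMap O K (qv Q v0 ^ (r + r + 1) * a * ↑s⁻¹) = qv (Q.map (algebraMap O K)) z := by
    rw [map_mul, map_mul, map_pow, h3, mul_assoc, hs, mul_one]
  obtain ⟨k, w, hw, rfl⟩ := valb_prim (O := O) (v := z) fun h => by
    rw [h, qv_zero] at h4
    exact (he.map _).ne_zero h4
  rw [qv_smul, qv_map] at h4
  obtain ⟨c, hc⟩ : ∃ c : O, qv Q w = c ^ 2 * (qv Q v0 ^ (r + r + 1) * a * ↑s⁻¹) := by
    rcases ValuationRing.isInteger_or_isInteger O k with ⟨b, rfl⟩ | ⟨b, hb⟩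
    · rw [← map_pow, ← map_mul] at h4
      rw [IsFractionRing.injective O K h4] at he ⊢
      obtain ⟨u, rfl⟩ := (isUnit_pow_iff two_ne_zero).1 (isUnit_of_mul_isUnit_left he)
      exact ⟨↑u⁻¹, by rw [← mul_assoc, ← mul_pow, u.inv_mul, one_pow, one_mul]⟩
    · have hk : k ≠ 0 := fun h => (he.map (algebraMap O K)).ne_zero (by rw [h4, h]; ring)
      refine ⟨b, IsFractionRing.injective O K ?_⟩
      rw [map_mul, map_pow, hb, h4, ← mul_assoc, ← mul_pow, inv_mul_cancel₀ hk, one_pow, one_mul]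
  obtain ⟨z, b, hb, hz⟩ := bval_rep hQ hw hc
  refine Sn.cancel h0 (sn_sq h0 (qv Q v0 ^ (r + 1) * b)) (((h0.pow _).mul hb).pow 2) ?_
  have h5 := (sn_two (Q := Q) z v0).mul h2
  rwa [hz, show b ^ 2 * (qv Q v0 ^ (r + r + 1) * a * ↑s⁻¹) * qv Q v0 * ↑s =
    a * (qv Q v0 ^ (r + 1) * b) ^ 2 * (↑s⁻¹ * ↑s) by ring, s.inv_mul, mul_one] at h5

end Pool.Agent.P.MP_c1f06d_ag
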