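import Pool.Agent.P.MP_c1f06d_ag.BTors1

open Matrix Polynomial

universe u

namespace Pool.Agent.P.MP_c1f06d_ag

open CliffordAlgebra IsLocalRing TensorProduct

section
variable {R : Type u} [CommRing R] {m : ℕ} {Q : Matrix (Fin m) (Fin m) R} {r ρ : Fin m → R}
variable {E : Type u} [CommRing E] [Algebra R E]
variable {S : Type u} [CommRing S] [Algebra R S]
variable {K : Type u} [Field K] [Algebra R K]

/-- The cocycle is the coboundary of an even Clifford unit whose norm comes from `R`. -/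
theorem SpinAction.exists_jlift (τ : SpinAction Q E) (hQ : Semi Q r ρ) [IsLocalRing R]
    [IsLocalRing S] [Module.FaithfullyFlat R S] [Infinite (ResidueField S)] (e : E →ₐ[R] S)
    (h : Matrix (Fin (m + 1)) (Fin (m + 1)) S)
    (hc : Carries h ((ext Q ρ).map (algebraMap R S)) ((ext Q ρ).map (algebraMap R S)))
    (hw : h *ᵥ (algebraMap R S ∘ wvec Q r) = algebraMap R S ∘ wvec Q r)
    (hh : ∀ (T : Type u) [CommRing T] [Algebra R T] (a b : S →ₐ[R] T),
      τ.jmat hQ (a.comp e) (b.comp e) * h.map a = h.map b) :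
    ∃ (x : Cl Q S) (h' : Matrix (Fin (m + 1)) (Fin (m + 1)) S) (c : R), IsUnit x ∧
      x ∈ even (formOver Q S) ∧ IndJ Q ρ x h' ∧
      Carries h' ((ext Q ρ).map (algebraMap R S)) ((ext Q ρ).map (algebraMap R S)) ∧ IsUnit c ∧
      reverse x * x = algebraMap S (Cl Q S) (algebraMap R S c) ∧
      ∀ (T : Type u) [CommRing T] [Algebra R T] (a b : S →ₐ[R] T),
        (τ.gam (a.comp e) (b.comp e)).val.val * clMap Q a x = clMap Q b x := by
  have h0 := hQ.unit
  have h0' : IsUnit (qv (ext Q ρ) (Fin.cons 0 r)) := by rwa [qv_ext, zero_mul, zero_add]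
  have hQS : Unim ((ext Q ρ).map (algebraMap R S)) := hQ.unim_ext.map _
  obtain ⟨l, h', hl, hle, hp, hc', hh'⟩ : ∃ (l : List (Fin m → S))
      (h' : Matrix (Fin (m + 1)) (Fin (m + 1)) S),
      (∀ v ∈ l, IsUnit (qv (Q.map (algebraMap R S)) v)) ∧ Even l.length ∧
      h' = rprod Q ρ l ∧
      Carries h' ((ext Q ρ).map (algebraMap R S)) ((ext Q ρ).map (algebraMap R S)) ∧
      ∀ (T : Type u) [CommRing T] [Algebra R T] (a b : S →ₐ[R] T),
        τ.jmat hQ (a.comp e) (b.comp e) * h'.map a = h'.map b := by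
    obtain ⟨l, hl, hp⟩ := hQ.exists_rprod hc hw
    rcases Nat.even_or_odd l.length with he | ho
    · exact ⟨l, h, hl, he, hp, hc, hh⟩
    · refine ⟨l ++ [algebraMap R S ∘ r],
        h * (reflMat (ext Q ρ) (Fin.cons 0 r)).map (algebraMap R S), ?_, ?_, ?_,
        ((carries_reflMat h0').map _).mul hc, ?_⟩
      · intro v hv
        rcases List.mem_append.1 hv with hv | hv
        · exact hl v hv
        · rw [List.mem_singleton.1 hv, qv_map]; exact h0.map _
      · simpa using ho.add_one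
      · rw [hp, reflMat_map _ h0', comp_cons, map_zero]
        simp [rprod]
      · intro T _ _ a b
        rw [map_mul_algHom, map_mul_algHom, map_algebraMap_algHom, map_algebraMap_algHom,
          ← Matrix.mul_assoc, hh]
  have hyi : IndJ Q ρ (vprod Q l) h' := hp ▸ vprod_indJ l hl
  have hyu : IsUnit (vprod Q l) := isUnit_vprod l hl
  have hdet : IsUnit h'.det := hc'.isUnit_det hQS
  have hex : ∀ (T : Type u) [CommRing T] [Algebra R T] (a b : S →ₐ[R] T), ∃ c : T,
      (τ.gam (a.comp e) (b.comp e)).val.val * clMap Q a (vprod Q l) = c • clMap Q b (vprod Q l) := by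
    intro T _ _ a b
    have h1 := (τ.jmat_ind hQ (a.comp e) (b.comp e)).mul (hyi.map a)
    rw [hh'] at h1
    exact IndJ.exists_smul hQ (isUnit_det_mapAlg hdet b) (hyu.map _) h1 (hyi.map b)
  choose c hcs using hex
  obtain ⟨s, hs, hcs'⟩ := h90_one (R := R) (S := S) c
    (fun T T' _ _ _ _ f a b => by
      have h1 := congrArg (clMap Q f) (hcs T a b)
      rw [map_mul, clMap_smul, τ.gam_map', clMap_comp, clMap_comp] at h1
      exact cl_smul_cancel (hyu.map _) (h1.symm.trans (hcs T' (f.comp a) (f.comp b))))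
    (fun T _ _ a => by
      have h1 := hcs T a a
      rw [τ.gam_self] at h1
      refine cl_smul_cancel (Q := Q) (hyu.map (clMap Q a)) ?_
      rw [← h1, one_smul]; exact one_mul _)
    (fun T _ _ a b d => by
      refine cl_smul_cancel (Q := Q) (hyu.map (clMap Q d)) ?_
      rw [← hcs T a d, ← τ.gam_mul (a.comp e) (b.comp e) (d.comp e), mul_comm, mul_smul,
        ← hcs T b d, ← mul_smul_comm, ← hcs T a b, ← mul_assoc]
      rfl)
  have hrel : ∀ (T : Type u) [CommRing T] [Algebra R T] (a b : S →ₐ[R] T),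
      (τ.gam (a.comp e) (b.comp e)).val.val * clMap Q a (s • vprod Q l) =
        clMap Q b (s • vprod Q l) := by
    intro T _ _ a b
    rw [clMap_smul, clMap_smul, mul_smul_comm, hcs, smul_smul, mul_comm, hcs']
  have hN : reverse (s • vprod Q l) * (s • vprod Q l) = algebraMap S (Cl Q S)
      (s ^ 2 * (l.map (qv (Q.map (algebraMap R S)))).prod) := by
    rw [reverse_smul_mul, reverse_vprod_mul, map_mul, Algebra.smul_def]
  obtain ⟨c0, hc0⟩ := desc_base (R := R) (s ^ 2 * (l.map (qv (Q.map (algebraMap R S)))).prod) (by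
    intro T _ _ a b
    apply cl_algebraMap_injective (Q := Q)
    rw [← clMap_algebraMap, ← clMap_algebraMap, ← hN, map_mul, map_mul, clMap_reverse,
      clMap_reverse, ← hrel T a b, reverse_spin_mul])
  refine ⟨s • vprod Q l, h', c0, ?_, ?_, hyi.smul s, hc', ?_, by rw [hN, hc0], hrel⟩
  · rw [Algebra.smul_def]; exact (hs.map _).mul hyu
  · have h1 := vprod_mem_evenOdd (Q := Q) l
    rw [(ZMod.natCast_eq_zero_iff_even).2 hle] at h1
    exact Submodule.smul_mem _ s h1
  · refine IsUnit.of_map (algebraMap R S) _ ?_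
    rw [hc0]; exact (hs.pow 2).mul (isUnit_list_prod hl)

/-- The norm is a spinor norm over `K`. -/
theorem SpinAction.sn_jgeneric (τ : SpinAction Q E) (hQ : Semi Q r ρ) [Infinite K]
    [Nontrivial (K ⊗[R] S)] (e : E →ₐ[R] S) (eK : E →ₐ[R] K) (x : Cl Q S)
    (h : Matrix (Fin (m + 1)) (Fin (m + 1)) S) (c : R) (hx : IsUnit x)
    (he : x ∈ even (formOver Q S)) (hi : IndJ Q ρ x h)
    (hc : Carries h ((ext Q ρ).map (algebraMap R S)) ((ext Q ρ).map (algebraMap R S)))
    (hn : reverse x * x = algebraMap S (Cl Q S) (algebraMap R S c))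
    (hh : ∀ (T : Type u) [CommRing T] [Algebra R T] (a b : S →ₐ[R] T),
      (τ.gam (a.comp e) (b.comp e)).val.val * clMap Q a x = clMap Q b x) :
    Sn (Q.map (algebraMap R K)) (algebraMap R K c) := by
  have hQK : Unim ((ext Q ρ).map (algebraMap R K)) := hQ.unim_ext.map _
  have hinf : Infinite (ResidueField K) :=
    Infinite.of_injective (residue K) (RingHom.injective _)
  obtain ⟨hK, hhK⟩ := τ.descend_jmat hQ e eK h (fun T _ _ a b => by
    have h1 := (τ.jmat_ind hQ (a.comp e) (b.comp e)).mul (hi.map a)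
    rw [hh] at h1
    exact IndJ.unique (hx.map _) h1 (hi.map b))
  set j : K →ₐ[R] K ⊗[R] S := Algebra.TensorProduct.includeLeft with hj
  set i2 : S →ₐ[R] K ⊗[R] S := Algebra.TensorProduct.includeRight with hr
  have hjinj : Function.Injective j := RingHom.injective j.toRingHom
  have hcK : Carries hK ((ext Q ρ).map (algebraMap R K)) ((ext Q ρ).map (algebraMap R K)) := by
    refine Carries.of_mapAlg j hjinj ?_
    rw [hhK]
    exact (hc.mapAlg _).mul (τ.jmat_carries hQ _ _)
  have hwK : hK *ᵥ (algebraMap R K ∘ wvec Q r) = algebraMap R K ∘ wvec Q r := by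
    have a1 := mulVec_map_algHom h (algebraMap R S ∘ wvec Q r) i2
    have a2 := mulVec_map_algHom hK (algebraMap R K ∘ wvec Q r) j
    rw [hQ.ind_fix hx hi, comp_algebraMap_algHom] at a1
    rw [hhK, comp_algebraMap_algHom, ← mulVec_mulVec, ← a1, τ.jmat_fix,
      ← comp_algebraMap_algHom (wvec Q r) j] at a2
    exact funext fun i => hjinj (congrFun a2 i)
  obtain ⟨l, hl, hp⟩ := hQ.exists_rprod hcK hwK
  have hyi : IndJ Q ρ (vprod Q l) hK := hp ▸ vprod_indJ l hl
  have hyu : IsUnit (vprod Q l) := isUnit_vprod l hl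
  have h1 := (τ.jmat_ind hQ (i2.comp e) (j.comp eK)).mul (hi.map i2)
  rw [← hhK] at h1
  obtain ⟨c', hc'⟩ := IndJ.exists_smul hQ (isUnit_det_mapAlg (hcK.isUnit_det hQK) j) (hyu.map _) h1
    (hyi.map j)
  obtain ⟨k, hk⟩ := desc_field c' (fun T _ _ a b hab => by
    have e1 : ∀ a : K ⊗[R] S →ₐ[R] T, a c' • clMap Q (a.comp j) (vprod Q l) =
        (τ.gam ((a.comp i2).comp e) ((a.comp j).comp eK)).val.val * clMap Q (a.comp i2) x := by
      intro a
      have h2 := congrArg (clMap Q a) hc'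
      rw [map_mul, clMap_smul, τ.gam_map', clMap_comp, clMap_comp] at h2
      exact h2.symm
    refine cl_smul_cancel (Q := Q) (hyu.map (clMap Q (a.comp j))) ?_
    rw [e1, hab, e1, ← hh T (a.comp i2) (b.comp i2), ← mul_assoc,
      ← τ.gam_mul ((a.comp i2).comp e) ((b.comp i2).comp e) ((b.comp j).comp eK)]
    rfl)
  have hN : algebraMap R K c = k ^ 2 * (l.map (qv (Q.map (algebraMap R K)))).prod := by
    apply hjinj
    apply cl_algebraMap_injective (Q := Q)
    have h2 := reverse_spin_mul (τ.gam (i2.comp e) (j.comp eK)) (clMap Q i2 x)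
    rw [hc', reverse_smul_mul, ← clMap_reverse, ← clMap_reverse, ← map_mul, ← map_mul, hn,
      reverse_vprod_mul, clMap_algebraMap, clMap_algebraMap, AlgHom.commutes] at h2
    rw [AlgHom.commutes, ← h2, map_mul j, map_pow, hk, map_mul, Algebra.smul_def]
  have hle : Even l.length := by
    by_contra hodd
    have ho : ((l.map fun v => j ∘ v).length : ZMod 2) = 1 := by
      rw [List.length_map]
      exact (ZMod.natCast_eq_one_iff_odd).2 (Nat.not_even_iff_odd.1 hodd)
    have h3 := vprod_mem_evenOdd (Q := Q) (l.map fun v => j ∘ v)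
    rw [ho, ← clMap_vprod] at h3
    have h4 : c' • clMap Q j (vprod Q l) ∈ evenOdd (formOver Q (K ⊗[R] S)) 1 :=
      Submodule.smul_mem _ _ h3
    have h5 : c' • clMap Q j (vprod Q l) ∈ evenOdd (formOver Q (K ⊗[R] S)) 0 := by
      rw [← hc']
      exact (even (formOver Q (K ⊗[R] S))).mul_mem (τ.gam (i2.comp e) (j.comp eK)).2.1
        (clMap_even Q i2 he)
    have h6 := (Submodule.disjoint_def.1 (evenOdd_isCompl _).disjoint) _ h5 h4
    have h7 : IsUnit (c' • clMap Q j (vprod Q l)) := by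
      rw [← hc']; exact (Units.isUnit _).mul (hx.map _)
    have : Nontrivial (Cl Q (K ⊗[R] S)) := (cl_algebraMap_injective (Q := Q)).nontrivial
    rw [h6] at h7
    exact not_isUnit_zero h7
  rw [hN]
  exact (sn_sq (hQ.map (algebraMap R K)).unit k).mul ⟨l, hle, rfl⟩

end

theorem SpinAction.nonempty_of_semi {R K : Type u} [CommRing R] [IsDomain R] [IsLocalRing R]
    [Field K] [Algebra R K] [IsFractionRing R K] {m : ℕ} {Q : Matrix (Fin m) (Fin m) R}
    {r ρ : Fin m → R} (hQ : Semi Q r ρ) (hm : 4 ≤ m)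
    (HA : ∀ Q' : Matrix (Fin (m + 1)) (Fin (m + 1)) R, Unim Q' →
      Iso (Q'.map (algebraMap R K)) ((ext Q ρ).map (algebraMap R K)) → Iso Q' (ext Q ρ))
    (HB : ∀ c : R, IsUnit c → Sn (Q.map (algebraMap R K)) (algebraMap R K c) → Sn Q c)
    {E : Type u} [CommRing E] [Algebra R E] [Module.FaithfullyFlat R E] (τ : SpinAction Q E)
    (hK : Nonempty (E →ₐ[R] K)) : Nonempty (E →ₐ[R] R) := by
  obtain ⟨eK⟩ := hK
  rcases finite_or_infinite K with hfin | hinf
  · have hR : Finite R := Finite.of_injective _ (IsFractionRing.injective R K)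
    have hs : Function.Surjective (algebraMap R K) :=
      IsFractionRing.surjective_iff_isField.2 (Finite.isField_of_domain R)
    exact ⟨(AlgEquiv.ofBijective (Algebra.ofId R K)
      ⟨IsFractionRing.injective R K, hs⟩).symm.toAlgHom.comp eK⟩
  obtain ⟨S, _, _, _, hff, hinfS, ⟨e⟩⟩ := exists_local_cover R E
  have hnt : Nontrivial (K ⊗[R] S) := inferInstance
  obtain ⟨h, hc, hw, hh⟩ := τ.exists_jframe hQ hm HA e eK
  obtain ⟨x, h', c, hx, hxe, hxi, hc', hcu, hn, hrel⟩ := τ.exists_jlift hQ e h hc hw hh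
  obtain ⟨l, hle, hl⟩ := HB c hcu (τ.sn_jgeneric hQ e eK x h' c hx hxe hxi hc' hn hrel)
  set L : List (Fin m → S) := l.map fun v => algebraMap R S ∘ v with hL
  have hprod : (L.map (qv (Q.map (algebraMap R S)))).prod = algebraMap R S c := by
    rw [hl, hL, map_list_prod, List.map_map, List.map_map]
    congr 1
    exact List.map_congr_left fun v _ => qv_map Q _ v
  have hLu : ∀ v ∈ L, IsUnit (qv (Q.map (algebraMap R S)) v) := by
    intro v hv
    have h1 : IsUnit (L.map (qv (Q.map (algebraMap R S)))).prod := hprod ▸ hcu.map _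
    exact List.prod_isUnit_iff.1 h1 _ (List.mem_map_of_mem hv)
  obtain ⟨cu, rfl⟩ := hcu
  set y : Cl Q S := algebraMap R S (↑cu⁻¹ : R) • (x * vprod Q L) with hy
  have hyu : IsUnit y := by
    rw [hy, Algebra.smul_def]
    exact (((Units.isUnit _).map _).map _).mul (hx.mul (isUnit_vprod L hLu))
  have hyn : reverse y * y = 1 := by
    rw [hy, reverse_smul_mul, reverse.map_mul, mul_assoc, ← mul_assoc (reverse x), hn,
      ← Algebra.smul_def, mul_smul_comm, reverse_vprod_mul, hprod, Algebra.smul_def,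
      Algebra.smul_def, ← map_mul, ← map_mul, ← map_pow, ← map_mul, ← map_mul]
    rw [show (↑cu⁻¹ : R) ^ 2 * (↑cu * ↑cu) = (↑cu⁻¹ * ↑cu) ^ 2 by ring, Units.inv_mul]
    simp
  have hye : y ∈ even (formOver Q S) := by
    have h1 := vprod_mem_evenOdd (Q := Q) L
    rw [hL, List.length_map, (ZMod.natCast_eq_zero_iff_even).2 hle] at h1
    exact Subalgebra.smul_mem _ (Subalgebra.mul_mem _ hxe h1) _
  have hyi : IndJ Q ρ y (h' * rprod Q ρ L) :=
    (hxi.mul (vprod_indJ L hLu)).smul _
  have hys : hyu.unit ∈ Spin Q S :=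
    hQ.mem_spin ((carries_rprod hLu).mul hc') hye hyn hyi
  have hyrel : ∀ (T : Type u) [CommRing T] [Algebra R T] (a b : S →ₐ[R] T),
      (τ.gam (a.comp e) (b.comp e)).val.val * clMap Q a y = clMap Q b y := by
    intro T _ _ a b
    have e1 : ∀ a : S →ₐ[R] T, clMap Q a y = algebraMap R T (↑cu⁻¹ : R) •
        (clMap Q a x * vprod Q (l.map fun v => algebraMap R T ∘ v)) := by
      intro a
      rw [hy, clMap_smul, map_mul, clMap_vprod, AlgHom.commutes, hL, List.map_map]
      congr 4
      funext v i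
      simp
    rw [e1, e1, mul_smul_comm, ← mul_assoc, hrel]
  let k : Spin Q S := ⟨hyu.unit, hys⟩
  have hpt : ∀ (T : Type u) [CommRing T] [Algebra R T] (a b : S →ₐ[R] T),
      a.comp (τ.act S k⁻¹ e) = b.comp (τ.act S k⁻¹ e) := by
    intro T _ _ a b
    obtain ⟨ka, hka⟩ := exists_spin_map' a k⁻¹
    obtain ⟨kb, hkb⟩ := exists_spin_map' b k⁻¹
    have hinv : (k⁻¹).val.val * y = 1 := hyu.val_inv_mul
    have hk : kb * τ.gam (a.comp e) (b.comp e) = ka := by
      apply Subtype.ext
      apply Units.ext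
      apply (hyu.map (clMap Q a)).mul_right_cancel
      change kb.val.val * (τ.gam (a.comp e) (b.comp e)).val.val * _ = _
      rw [mul_assoc, hyrel, ← hka, ← hkb, ← map_mul, ← map_mul, hinv, map_one, map_one]
    rw [τ.natural S T a _ (isBaseChangeMap_clMap Q a) _ ka e hka,
      τ.natural S T b _ (isBaseChangeMap_clMap Q b) _ kb e hkb, ← hk, τ.act_mul, τ.act_gam]
  exact exists_algHom_of_eq (τ.act S k⁻¹ e) fun z =>
    DFunLike.congr_fun (hpt (S ⊗[R] S) Algebra.TensorProduct.includeLeft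
      Algebra.TensorProduct.includeRight) z

end Pool.Agent.P.MP_c1f06d_ag
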