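import Pool.Agent.P.MP_c1f06d_ag.Main
import Pool.Agent.P.MP_c1f06d_ag.BTors2
import Pool.Agent.P.MP_c1f06d_ag.BCore

open Matrix Polynomial

universe u

namespace Pool.Agent.P.MP_c1f06d_ag

theorem spin_main_smooth (V : Type u) [CommRing V] [IsDomain V] [ValuationRing V]
    (A : Type u) [CommRing A] [Algebra V A] [Algebra.Smooth V A] (p : Ideal A) [p.IsPrime]
    (R : Type u) [CommRing R] [IsDomain R] [Algebra A R] [IsLocalization.AtPrime R p]
    (K : Type u) [Field K] [Algebra R K] [IsFractionRing R K]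
    (m : ℕ) (hm : 5 ≤ m) (Q : Matrix (Fin m) (Fin m) R)
    (hQ : ∀ (k : Type u) [Field k] (f : R →+* k) (x : Fin m → k),
      x ⬝ᵥ Q.map f *ᵥ x = 0 → (Q.map f + (Q.map f)ᵀ) *ᵥ x = 0 → x = 0)
    (E : Type u) [CommRing E] [Algebra R E] [Module.FaithfullyFlat R E] (τ : SpinAction Q E)
    (hK : Nonempty (E →ₐ[R] K)) : Nonempty (E →ₐ[R] R) := by
  have : IsLocalRing R := IsLocalization.AtPrime.isLocalRing R p
  rcases unim_or_semi Q hQ with h | ⟨r, ρ, h⟩
  · exact spin_main V A p R K m hm Q h E τ hK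
  · exact SpinAction.nonempty_of_semi h (by omega)
      (fun Q' hQ' hi => iso_main V A p K hQ' h.unim_ext hi)
      (fun c hc hs => h.sn_main V A p K hm hc hs) τ hK

/-- A unimodular form has a smooth quadric, so the statement contains the unimodular case. -/
theorem smooth_of_unim {R : Type u} [CommRing R] {m : ℕ} (Q : Matrix (Fin m) (Fin m) R)
    (hQ : IsUnit (Q + Qᵀ).det) (k : Type u) [Field k] (f : R →+* k) (x : Fin m → k)
    (h : (Q.map f + (Q.map f)ᵀ) *ᵥ x = 0) : x = 0 :=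
  (Unim.map hQ f).eq_zero fun y => by rw [bv_comm, bv, h, dotProduct_zero]

/-- The sum of a line with unit value and a unimodular form has a smooth quadric, also when two is
not a unit. -/
theorem smooth_of_semi {R : Type u} [CommRing R] {m : ℕ} {Q : Matrix (Fin m) (Fin m) R}
    {r ρ : Fin m → R} (hQ : Semi Q r ρ) (k : Type u) [Field k] (f : R →+* k) (x : Fin m → k)
    (h0 : x ⬝ᵥ Q.map f *ᵥ x = 0) (h : (Q.map f + (Q.map f)ᵀ) *ᵥ x = 0) : x = 0 := by
  by_contra hx
  obtain ⟨y, hy⟩ := (hQ.map f).good_of_qv_eq_zero hx h0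
  rw [bv_comm, bv, h, dotProduct_zero] at hy
  exact zero_ne_one hy

end Pool.Agent.P.MP_c1f06d_ag
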