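import Pool.Agent.P.MP_c1f06d_ag.BField

open Matrix Polynomial

universe u

namespace Pool.Agent.P.MP_c1f06d_ag

variable {T : Type*} [CommRing T] {m n : ℕ}

theorem bnf_qv (Q : Matrix (Fin m) (Fin m) T) (G : Matrix (Fin m) (Fin n) T) (u : Fin n → T) :
    qv Q (G *ᵥ u) = qv (Gᵀ * Q * G) u := by
  unfold qv
  rw [← mulVec_mulVec, ← mulVec_mulVec, dotProduct_mulVec u Gᵀ, vecMul_transpose]

theorem bnf_bv (Q : Matrix (Fin m) (Fin m) T) (G : Matrix (Fin m) (Fin n) T) (u v : Fin n → T) :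
    bv Q (G *ᵥ u) (G *ᵥ v) = bv (Gᵀ * Q * G) u v := by
  have h := bnf_qv Q G (u + v)
  rw [mulVec_add, qv_add, qv_add, bnf_qv, bnf_qv] at h
  exact add_left_cancel h

theorem bv_smul_mat (Q : Matrix (Fin m) (Fin m) T) (a : T) (u v : Fin m → T) :
    bv (a • Q) u v = a * bv Q u v := by
  unfold bv
  rw [transpose_smul, ← smul_add, smul_mulVec, dotProduct_smul, smul_eq_mul]

theorem unim_of_bv {Q : Matrix (Fin m) (Fin m) T} (h : ∀ i, ∃ y, ∀ x, bv Q x y = x i) : Unim Q :=
  unim_of_dual fun i => by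
    obtain ⟨y, hy⟩ := h i
    refine ⟨y, funext fun j => ?_⟩
    have := hy (Pi.single j 1)
    rw [bv, single_dotProduct, one_mul] at this
    rw [this, Pi.single_apply, Pi.single_apply]
    simp [eq_comm]

theorem Sn.of_smul {Q : Matrix (Fin m) (Fin m) T} {v0 : Fin m → T} (h0 : IsUnit (qv Q v0))
    {a c : T} (h : Sn (a • Q) c) : Sn Q c := by
  obtain ⟨l, ⟨k, hk⟩, rfl⟩ := h
  have e : ∀ l : List (Fin m → T),
      (l.map (qv (a • Q))).prod = a ^ l.length * (l.map (qv Q)).prod := fun l => by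
    induction l with
    | nil => simp
    | cons x l ih =>
      rw [List.map_cons, List.map_cons, List.prod_cons, List.prod_cons, ih, qv_smul_mat,
        List.length_cons]
      ring
  rw [e, hk, ← mul_two, pow_mul]
  exact (sn_sq h0 _).mul ⟨l, ⟨k, hk⟩, rfl⟩

/-- Normal form. -/
theorem Semi.exists_ext1 [IsLocalRing T] {Q : Matrix (Fin (n + 1)) (Fin (n + 1)) T}
    {r ρ : Fin (n + 1) → T} (h : Semi Q r ρ) :
    ∃ Q0 : Matrix (Fin n) (Fin n) T, Unim Q0 ∧ Iso (qv Q r • ext1 Q0) Q ∧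
      Iso Q (qv Q r • ext1 Q0) := by
  obtain ⟨j, b, hb⟩ : ∃ j b, b * ρ j = 1 := by
    by_contra! hn
    have : r ⬝ᵥ ρ ∈ IsLocalRing.maximalIdeal T :=
      Ideal.sum_mem _ fun i _ => Ideal.mul_mem_left _ _ fun hu =>
        let ⟨b, hb⟩ := hu.exists_left_inv; hn i b hb
    rw [h.one] at this
    exact this isUnit_one
  obtain ⟨c, hc⟩ := h.unit.exists_left_inv
  let G : Matrix (Fin (n + 1)) (Fin n) T :=
    Matrix.of (Fin.insertNth j (fun i => -b * ρ (j.succAbove i)) fun k => Pi.single k 1)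
  have G1 : ∀ u k, (G *ᵥ u) (j.succAbove k) = u k := fun u k => by
    simp [G, mulVec]
  have G2 : ∀ u, (G *ᵥ u) j = -b * ∑ i, u i * ρ (j.succAbove i) := fun u => by
    simp only [G, mulVec, dotProduct, of_apply, Fin.insertNth_apply_same, Finset.mul_sum]
    exact Finset.sum_congr rfl fun i _ => by ring
  have G3 : ∀ u, (G *ᵥ u) ⬝ᵥ ρ = 0 := fun u => by
    rw [dotProduct, Fin.sum_univ_succAbove _ j, G2]
    simp only [G1]
    linear_combination (-∑ i, u i * ρ (j.succAbove i)) * hb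
  have G4 : ∀ x : Fin (n + 1) → T,
      G *ᵥ (fun k => (x - (x ⬝ᵥ ρ) • r) (j.succAbove k)) = x - (x ⬝ᵥ ρ) • r := fun x => by
    have e : (x - (x ⬝ᵥ ρ) • r) ⬝ᵥ ρ = 0 := by
      rw [sub_dotProduct, smul_dotProduct, h.one, smul_eq_mul, mul_one, sub_self]
    generalize x - (x ⬝ᵥ ρ) • r = y at e
    funext i
    refine Fin.succAboveCases j ?_ (fun k => G1 _ k) i
    rw [dotProduct, Fin.sum_univ_succAbove _ j] at e
    rw [G2]
    linear_combination (-b) * e + y j * hb
  have G5 : ∀ u, bv Q (G *ᵥ u) r = 0 := fun u => by rw [h.bv_r, G3, mul_zero]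
  have key : ∀ (s : T) (u : Fin n → T),
      qv Q (s • r + G *ᵥ u) = qv (qv Q r • ext1 (c • (Gᵀ * Q * G))) (Fin.cons s u) := fun s u => by
    rw [qv_add, qv_smul, bv_smul_left, bv_comm, G5, qv_smul_mat, qv_ext1, qv_smul_mat, bnf_qv]
    linear_combination (-qv (Gᵀ * Q * G) u) * hc
  refine ⟨c • (Gᵀ * Q * G), unim_of_bv fun i => ?_, ?_, ?_⟩
  · obtain ⟨y, s, e⟩ := h.exists_dual (Pi.single (j.succAbove i) 1)
    refine ⟨qv Q r • fun k => (y - (y ⬝ᵥ ρ) • r) (j.succAbove k), fun u => ?_⟩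
    have e1 := e (G *ᵥ u)
    rw [dotProduct_single, mul_one, G1, G3, mul_zero, add_zero] at e1
    rw [bv_smul_mat, bv_smul_right, ← bnf_bv, G4, bv_sub_right, bv_smul_right, G5, ← e1]
    linear_combination u i * hc
  · refine iso_of_linearMap
      { toFun := fun x => x 0 • r + G *ᵥ Fin.tail x
        map_add' := fun x y => by
          rw [show Fin.tail (x + y) = Fin.tail x + Fin.tail y from rfl, mulVec_add, Pi.add_apply,
            add_smul]
          abel
        map_smul' := fun a x => by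
          rw [show Fin.tail (a • x) = a • Fin.tail x from rfl, mulVec_smul, Pi.smul_apply,
            smul_add, smul_assoc]
          rfl } fun x => ?_
    change qv Q (x 0 • r + G *ᵥ Fin.tail x) = _
    rw [key, Fin.cons_self_tail]
  · refine iso_of_linearMap
      { toFun := fun x => Fin.cons (x ⬝ᵥ ρ) fun k => (x - (x ⬝ᵥ ρ) • r) (j.succAbove k)
        map_add' := fun x y => funext fun i => by
          refine Fin.cases ?_ (fun i => ?_) i
          · simp
          · simp only [Fin.cons_succ, Pi.add_apply, Pi.sub_apply, Pi.smul_apply, add_dotProduct,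
              smul_eq_mul]
            ring
        map_smul' := fun a x => funext fun i => by
          refine Fin.cases ?_ (fun i => ?_) i
          · simp
          · simp only [Fin.cons_succ, Pi.sub_apply, Pi.smul_apply, smul_dotProduct,
              smul_eq_mul, RingHom.id_apply]
            ring } fun x => ?_
    change qv _ (Fin.cons (x ⬝ᵥ ρ) fun k => (x - (x ⬝ᵥ ρ) • r) (j.succAbove k)) = _
    rw [← key, G4, add_sub_cancel]

/-- A form with smooth quadric over the residue field is unimodular or splits off a line. -/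
theorem unim_or_semi {R : Type u} [CommRing R] [IsLocalRing R] (Q : Matrix (Fin m) (Fin m) R)
    (h : ∀ (k : Type u) [Field k] (f : R →+* k) (x : Fin m → k),
      x ⬝ᵥ Q.map f *ᵥ x = 0 → (Q.map f + (Q.map f)ᵀ) *ᵥ x = 0 → x = 0) :
    Unim Q ∨ ∃ r ρ, Semi Q r ρ := by
  by_cases hu : Unim Q
  · exact .inl hu
  right
  set k := IsLocalRing.ResidueField R
  set ν := IsLocalRing.residue R
  have hb : ∀ {S : Type u} [CommRing S] (Z : Matrix (Fin m) (Fin m) S) (x : Fin m → S),
      (Z + Zᵀ) *ᵥ x = 0 ↔ ∀ y, bv Z y x = 0 := fun Z x =>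
    ⟨fun e y => by rw [bv, e, dotProduct_zero], fun e => funext fun i => by
      simpa [bv] using e (Pi.single i 1)⟩
  obtain ⟨x, hx, hx0⟩ : ∃ x : Fin m → k, x ≠ 0 ∧ (Q.map ν + (Q.map ν)ᵀ) *ᵥ x = 0 :=
    Matrix.exists_mulVec_eq_zero_iff.2 (by_contra fun e =>
      hu (Unim.of_map ν (isUnit_iff_ne_zero.2 e)))
  obtain ⟨j, hj⟩ := Function.ne_iff.1 hx
  have line : ∀ y : Fin m → k, (Q.map ν + (Q.map ν)ᵀ) *ᵥ y = 0 → y j = 0 → y = 0 := by
    intro y hy hyj
    let φ := algebraMap k (AlgebraicClosure k)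
    have qx : qv (Q.map ν) x ≠ 0 := fun e => hx (h k ν x e hx0)
    obtain ⟨t, ht⟩ := IsAlgClosed.exists_pow_nat_eq
      (φ (-(qv (Q.map ν) y) / qv (Q.map ν) x)) two_pos
    have e0 : (Q.map ν).map φ = Q.map (φ.comp ν) := by ext; simp
    have e1 : ∀ z : Fin m → k, (Q.map ν + (Q.map ν)ᵀ) *ᵥ z = 0 →
        (Q.map (φ.comp ν) + (Q.map (φ.comp ν))ᵀ) *ᵥ (φ ∘ z) = 0 := fun z hz => funext fun i => by
      rw [← e0, polar_map, ← RingHom.map_mulVec, hz]
      simp
    have e2 := h _ (φ.comp ν) (t • (φ ∘ x) + φ ∘ y) (by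
      change qv _ _ = 0
      rw [qv_add, qv_smul, (hb _ _).1 (e1 y hy), ← e0, qv_map, qv_map, ht, ← map_mul,
        div_mul_cancel₀ _ qx, map_neg]
      ring) (by rw [mulVec_add, mulVec_smul, e1 x hx0, e1 y hy, smul_zero, add_zero])
    have e3 := congrFun e2 j
    simp only [Pi.add_apply, Pi.smul_apply, Function.comp_apply, hyj, map_zero, add_zero,
      smul_eq_mul, Pi.zero_apply, mul_eq_zero] at e3
    rw [e3.resolve_right fun e => hj (φ.injective (e.trans (map_zero φ).symm)), zero_smul,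
      zero_add] at e2
    exact funext fun i => φ.injective ((congrFun e2 i).trans (map_zero φ).symm)
  have U : Unim (ext Q (Pi.single j 1)) := by
    refine Unim.of_map ν (isUnit_iff_ne_zero.2 fun e => ?_)
    obtain ⟨z, hz, hz0⟩ := Matrix.exists_mulVec_eq_zero_iff.2 e
    have e1 : ∀ y, bv ((ext Q (Pi.single j 1)).map ν) y z = 0 := fun y => by
      rw [bv, hz0, dotProduct_zero]
    have e2 : (ν ∘ (Pi.single j 1 : Fin m → R) : Fin m → k) = Pi.single j 1 := funext fun i => by
      simp [Pi.single_apply, apply_ite ν]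
    rw [ext_map, e2, ← Fin.cons_self_tail z] at e1
    have a1 := e1 (Fin.cons 0 x)
    rw [bv_ext, bv_comm, (hb _ _).1 hx0, dotProduct_single, dotProduct_single] at a1
    have a2 : z 0 = 0 := (mul_eq_zero.1 (by simpa using a1)).resolve_right hj
    have a3 := e1 (Fin.cons 1 0)
    rw [bv_ext, bv_zero_left, a2, dotProduct_single] at a3
    have a4 := line (Fin.tail z) ((hb _ _).2 fun y => by
      have := e1 (Fin.cons 0 y)
      rw [bv_ext, a2] at this
      simpa using this) (by simpa using a3)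
    exact hz (by rw [← Fin.cons_self_tail z, a2, a4]; exact Fin.cons_self_tail 0)
  obtain ⟨w, hw⟩ := U.exists_bv_eq 0
  rw [← Fin.cons_self_tail w] at hw
  generalize w 0 = s, Fin.tail w = r at hw
  have w1 : r ⬝ᵥ Pi.single j 1 = 1 := by
    have := hw (Fin.cons 1 0)
    rw [bv_ext, bv_zero_left] at this
    simpa using this
  have w2 : ∀ v, s * (v ⬝ᵥ Pi.single j 1) + bv Q v r = 0 := fun v => by
    have := hw (Fin.cons 0 v)
    rw [bv_ext] at this
    simpa using this
  have w3 : s = -(2 * qv Q r) := by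
    have := w2 r
    rw [w1, bv_self] at this
    linear_combination this
  have perp : (Q + Qᵀ) *ᵥ r = (2 * qv Q r) • Pi.single j 1 := funext fun i => by
    have := w2 (Pi.single i 1)
    rw [bv, single_dotProduct, single_dotProduct, w3] at this
    rw [Pi.smul_apply, smul_eq_mul]
    linear_combination this
  refine ⟨r, Pi.single j 1, ?_, w1, perp, fun i => ?_⟩
  · rw [← IsLocalRing.residue_ne_zero_iff_isUnit, ← qv_map]
    intro e
    have e1 : (Q.map ν + (Q.map ν)ᵀ) *ᵥ (ν ∘ r) = 0 := funext fun i => by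
      rw [polar_map, ← RingHom.map_mulVec, perp, Pi.smul_apply, smul_eq_mul, map_mul, map_mul,
        ← qv_map, e]
      simp
    have e2 := congrFun (h k ν (ν ∘ r) e e1) j
    rw [dotProduct_single, mul_one] at w1
    rw [Function.comp_apply, w1, map_one] at e2
    exact one_ne_zero e2
  · obtain ⟨y, hy⟩ := U.exists_bv_eq i.succ
    rw [← Fin.cons_self_tail y] at hy
    refine ⟨Fin.tail y, y 0, funext fun a => ?_⟩
    have := hy (Fin.cons 0 (Pi.single a 1))
    rw [bv_ext, bv, single_dotProduct, single_dotProduct, Fin.cons_succ] at this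
    rw [Pi.add_apply, Pi.smul_apply, smul_eq_mul, Pi.single_comm i (1 : R) a]
    linear_combination this

end Pool.Agent.P.MP_c1f06d_ag
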