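import Pool.Agent.P.MP_c1f06d_ag.Avoid

open Matrix Polynomial

universe u

namespace Pool.Agent.P.MP_c1f06d_ag

open IsLocalRing TensorProduct

variable {R S : Type*} [CommRing R] [CommRing S] [Algebra R S]

theorem adjoin_eq_top_of_span [Module.Finite R S] (a : S)
    (h : ∀ x : S, x ⊗ₜ[R] (1 : S) - (1 : S) ⊗ₜ[R] x ∈
      Ideal.span {a ⊗ₜ[R] (1 : S) - (1 : S) ⊗ₜ[R] a}) :
    Algebra.adjoin R {a} = ⊤ := by
  set R' := Algebra.adjoin R {a} with hR'
  have hfin : Module.Finite R' S := Module.Finite.of_restrictScalars_finite R R' S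
  let φ : S ⊗[R] S →ₐ[R] S ⊗[R'] S :=
    Algebra.TensorProduct.lift
      ((Algebra.TensorProduct.includeLeft : S →ₐ[R'] S ⊗[R'] S).restrictScalars R)
      ((Algebra.TensorProduct.includeRight : S →ₐ[R'] S ⊗[R'] S).restrictScalars R)
      (fun _ _ => Commute.all _ _)
  have hφ : ∀ x y : S, φ (x ⊗ₜ[R] y) = x ⊗ₜ[R'] y := by
    intro x y
    simp [φ]
  have ha : a ⊗ₜ[R'] (1 : S) = (1 : S) ⊗ₜ[R'] a := by
    have hmem : a ∈ R' := Algebra.self_mem_adjoin_singleton R a
    have h1 : a = (⟨a, hmem⟩ : R') • (1 : S) := by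
      simp [Algebra.smul_def]
    calc a ⊗ₜ[R'] (1 : S) = ((⟨a, hmem⟩ : R') • (1 : S)) ⊗ₜ[R'] (1 : S) := by rw [← h1]
      _ = (1 : S) ⊗ₜ[R'] ((⟨a, hmem⟩ : R') • (1 : S)) := TensorProduct.smul_tmul _ _ _
      _ = (1 : S) ⊗ₜ[R'] a := by rw [← h1]
  have hepi : Algebra.IsEpi R' S := by
    rw [Algebra.isEpi_iff_forall_one_tmul_eq]
    intro x
    obtain ⟨d, hd⟩ := Ideal.mem_span_singleton'.mp (h x)
    have h2 := congrArg φ hd
    rw [map_mul, map_sub, map_sub, hφ, hφ, hφ, hφ, ha, sub_self, mul_zero] at h2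
    exact (sub_eq_zero.mp h2.symm).symm
  have hsurj := Algebra.isEpi_iff_surjective_algebraMap_of_finite.mp hepi
  rw [eq_top_iff]
  intro x _
  obtain ⟨y, hy⟩ := hsurj x
  rw [← hy]
  exact y.2

theorem gen_mem_of_adjoin (s : Set S) (hs : Algebra.adjoin R s = ⊤) (J : Ideal (S ⊗[R] S))
    (hJ : ∀ x ∈ s, x ⊗ₜ[R] (1 : S) - (1 : S) ⊗ₜ[R] x ∈ J) (x : S) :
    x ⊗ₜ[R] (1 : S) - (1 : S) ⊗ₜ[R] x ∈ J := by
  have hx : x ∈ Algebra.adjoin R s := by rw [hs]; trivial
  induction hx using Algebra.adjoin_induction with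
  | mem x hx => exact hJ x hx
  | algebraMap r =>
    have : (algebraMap R S r) ⊗ₜ[R] (1 : S) = (1 : S) ⊗ₜ[R] (algebraMap R S r) := by
      rw [Algebra.algebraMap_eq_smul_one, TensorProduct.smul_tmul]
    rw [this, sub_self]
    exact J.zero_mem
  | add x y _ _ hx hy =>
    have : (x + y) ⊗ₜ[R] (1 : S) - (1 : S) ⊗ₜ[R] (x + y) =
        (x ⊗ₜ[R] (1 : S) - (1 : S) ⊗ₜ[R] x) + (y ⊗ₜ[R] (1 : S) - (1 : S) ⊗ₜ[R] y) := by
      rw [TensorProduct.add_tmul, TensorProduct.tmul_add]; abel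
    rw [this]
    exact J.add_mem hx hy
  | mul x y _ _ hx hy =>
    have : (x * y) ⊗ₜ[R] (1 : S) - (1 : S) ⊗ₜ[R] (x * y) =
        (x ⊗ₜ[R] (1 : S)) * (y ⊗ₜ[R] (1 : S) - (1 : S) ⊗ₜ[R] y) +
          ((1 : S) ⊗ₜ[R] y) * (x ⊗ₜ[R] (1 : S) - (1 : S) ⊗ₜ[R] x) := by
      simp only [mul_sub, Algebra.TensorProduct.tmul_mul_tmul, mul_one, one_mul, mul_comm y x]
      abel
    rw [this]
    exact J.add_mem (J.mul_mem_left _ hy) (J.mul_mem_left _ hx)

theorem gen_D_smul (c : R) (x : S) :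
    (algebraMap R S c * x) ⊗ₜ[R] (1 : S) - (1 : S) ⊗ₜ[R] (algebraMap R S c * x) =
      algebraMap R (S ⊗[R] S) c * (x ⊗ₜ[R] (1 : S) - (1 : S) ⊗ₜ[R] x) := by
  rw [← Algebra.smul_def, ← Algebra.smul_def, smul_sub, TensorProduct.smul_tmul',
    TensorProduct.tmul_smul, TensorProduct.smul_tmul']

theorem eventually_adjoin_eq_top [IsLocalRing R] [Module.Finite R S] (f : S[X]) (j : ℕ)
    (hj : Algebra.adjoin R {f.coeff j} = ⊤) :
    ∀ᶠ c in Gen R, Algebra.adjoin R {f.eval (algebraMap R S c)} = ⊤ := by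
  classical
  set t := f.coeff j with ht
  have hall : ∀ x : S, x ⊗ₜ[R] (1 : S) - (1 : S) ⊗ₜ[R] x ∈
      Ideal.span {t ⊗ₜ[R] (1 : S) - (1 : S) ⊗ₜ[R] t} :=
    gen_mem_of_adjoin {t} hj _ (by
      intro x hx
      rw [Set.mem_singleton_iff.mp hx]
      exact Ideal.mem_span_singleton_self _)
  have hd : ∀ i : ℕ, ∃ d : S ⊗[R] S,
      d * (t ⊗ₜ[R] (1 : S) - (1 : S) ⊗ₜ[R] t) =
        (f.coeff i) ⊗ₜ[R] (1 : S) - (1 : S) ⊗ₜ[R] (f.coeff i) ∧ (i = j → d = 1) := by
    intro i
    by_cases hij : i = j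
    · exact ⟨1, by rw [hij, one_mul], fun _ => rfl⟩
    · obtain ⟨d, hd⟩ := Ideal.mem_span_singleton'.mp (hall (f.coeff i))
      exact ⟨d, hd, fun h => absurd h hij⟩
  choose d hd1 hd2 using hd
  set N := max (f.natDegree + 1) (j + 1) with hN
  let p : (S ⊗[R] S)[X] := ∑ i ∈ Finset.range N, monomial i (d i)
  have hpj : p.coeff j = 1 := by
    simp only [p, finsetSum_coeff, coeff_monomial]
    rw [Finset.sum_ite_eq' (Finset.range N) j d, if_pos (by
      rw [Finset.mem_range]; omega)]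
    exact hd2 j rfl
  have hunit := eventually_isUnit (R := R) p j (by rw [hpj]; exact isUnit_one)
  filter_upwards [hunit] with c hc
  apply adjoin_eq_top_of_span
  have hkey : (f.eval (algebraMap R S c)) ⊗ₜ[R] (1 : S) -
      (1 : S) ⊗ₜ[R] (f.eval (algebraMap R S c)) =
      p.eval (algebraMap R (S ⊗[R] S) c) * (t ⊗ₜ[R] (1 : S) - (1 : S) ⊗ₜ[R] t) := by
    rw [eval_eq_sum_range' (n := N) (by omega), TensorProduct.sum_tmul, TensorProduct.tmul_sum,
      ← Finset.sum_sub_distrib]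
    simp only [p, eval_finsetSum, eval_monomial, Finset.sum_mul]
    refine Finset.sum_congr rfl fun i _ => ?_
    rw [mul_comm (f.coeff i), ← map_pow, gen_D_smul, ← hd1 i, map_pow]
    ring
  refine gen_mem_of_adjoin {t} hj _ ?_
  intro x hx
  rw [Set.mem_singleton_iff.mp hx, hkey]
  obtain ⟨v, hv⟩ := hc.exists_left_inv
  refine Ideal.mem_span_singleton'.mpr ⟨v, ?_⟩
  rw [← mul_assoc, hv, one_mul]

theorem gen_aevalAeval_eq {T : Type*} [CommRing T] [Algebra R T] (x y : T) (G : R[X][X]) :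
    aevalAeval x y G = (G.map (aeval x : R[X] →ₐ[R] T).toRingHom).eval y := by
  induction G using Polynomial.induction_on' with
  | add p q hp hq => rw [map_add, Polynomial.map_add, eval_add, hp, hq]
  | monomial n a =>
    rw [← C_mul_X_pow_eq_monomial, map_mul, map_pow, aevalAeval_C]
    simp

theorem gen_map_aevalAeval {T : Type*} [CommRing T] [Algebra R T] (φ : S →ₐ[R] T) (x y : S)
    (G : R[X][X]) : φ (aevalAeval x y G) = aevalAeval (φ x) (φ y) G := by
  induction G using Polynomial.induction_on' with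
  | add p q hp hq => rw [map_add, map_add, map_add, hp, hq]
  | monomial n a =>
    rw [← C_mul_X_pow_eq_monomial, map_mul, map_mul, map_mul, map_pow, map_pow, map_pow,
      aevalAeval_C, aevalAeval_C, aeval_algHom_apply]
    simp

theorem gen_diff {T : Type*} [CommRing T] [Algebra R T] (t1 t2 y1 y2 : T) (G : R[X][X]) :
    ∃ al k : T, aevalAeval t1 y1 G - aevalAeval t2 y2 G =
      al * (t1 - t2) + (aevalAeval t1 y1 (derivative G) - k * (y1 - y2)) * (y1 - y2) := by
  obtain ⟨k, hk⟩ := binomExpansion (G.map (aeval t1 : R[X] →ₐ[R] T).toRingHom) y1 (y2 - y1)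
  have h1 : aevalAeval t1 y2 G - aevalAeval t2 y2 G =
      ((Bivariate.swap G).map (aeval y2 : R[X] →ₐ[R] T).toRingHom).eval t1 -
        ((Bivariate.swap G).map (aeval y2 : R[X] →ₐ[R] T).toRingHom).eval t2 := by
    rw [← gen_aevalAeval_eq, ← gen_aevalAeval_eq, Bivariate.aevalAeval_swap,
      Bivariate.aevalAeval_swap]
  obtain ⟨al, hal⟩ := sub_dvd_eval_sub t1 t2
    ((Bivariate.swap G).map (aeval y2 : R[X] →ₐ[R] T).toRingHom)
  rw [← h1] at hal
  rw [add_sub_cancel, derivative_map, ← gen_aevalAeval_eq, ← gen_aevalAeval_eq,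
    ← gen_aevalAeval_eq] at hk
  refine ⟨al, k, ?_⟩
  linear_combination hal - hk

theorem exists_generator [IsLocalRing R] [Infinite (ResidueField R)] [Module.Finite R S]
    (t y : S) (hgen : Algebra.adjoin R {t, y} = ⊤) (G : R[X][X]) (hG : aevalAeval t y G = 0)
    (hG' : IsUnit (aevalAeval t y (derivative G))) : ∃ a : S, Algebra.adjoin R {a} = ⊤ := by
  classical
  let iL : S →ₐ[R] S ⊗[R] S := Algebra.TensorProduct.includeLeft
  let iR : S →ₐ[R] S ⊗[R] S := Algebra.TensorProduct.includeRight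
  obtain ⟨al, k, hk⟩ := gen_diff (R := R) (iL t) (iR t) (iL y) (iR y) G
  rw [← gen_map_aevalAeval, ← gen_map_aevalAeval, ← gen_map_aevalAeval, hG, map_zero, map_zero,
    sub_self] at hk
  have hu : IsUnit (iL (aevalAeval t y (derivative G))) := hG'.map iL
  generalize iL (aevalAeval t y (derivative G)) = g at hk hu
  set dt := iL t - iR t with hdt
  set dy := iL y - iR y with hdy
  set be := g - k * dy with hbe
  let p : MaximalSpectrum (S ⊗[R] S) → (S ⊗[R] S)[X] := fun n =>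
    if dt ∈ n.asIdeal ∧ dy ∈ n.asIdeal then C be - X * C al else C dt + X * C dy
  have hp : ∀ n, ∃ i, (p n).coeff i ∉ n.asIdeal := by
    intro n
    by_cases hn : dt ∈ n.asIdeal ∧ dy ∈ n.asIdeal
    · refine ⟨0, ?_⟩
      simp only [p, if_pos hn, coeff_sub, coeff_C_zero, coeff_X_mul_zero, sub_zero]
      intro hb
      have hg : g ∈ n.asIdeal := by
        have : g = be + k * dy := by rw [hbe]; ring
        rw [this]
        exact n.asIdeal.add_mem hb (n.asIdeal.mul_mem_left _ hn.2)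
      exact n.isMaximal.ne_top (Ideal.eq_top_of_isUnit_mem _ hg hu)
    · by_cases h1 : dt ∈ n.asIdeal
      · refine ⟨1, ?_⟩
        have h2 : dy ∉ n.asIdeal := fun h2 => hn ⟨h1, h2⟩
        simpa [p, if_neg hn, coeff_C] using h2
      · refine ⟨0, ?_⟩
        simpa [p, if_neg hn] using h1
  have := gen_neBot (R := R)
  obtain ⟨c, hc⟩ := (eventually_notMem (R := R) p hp).exists
  set c' := algebraMap R (S ⊗[R] S) c with hc'
  refine ⟨t + algebraMap R S c * y, adjoin_eq_top_of_span _ ?_⟩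
  have hD : (t + algebraMap R S c * y) ⊗ₜ[R] (1 : S) -
      (1 : S) ⊗ₜ[R] (t + algebraMap R S c * y) = dt + c' * dy := by
    have h1 := gen_D_smul (R := R) c y
    rw [TensorProduct.add_tmul, TensorProduct.tmul_add]
    have h2 : dt = t ⊗ₜ[R] (1 : S) - (1 : S) ⊗ₜ[R] t := rfl
    have h3 : dy = y ⊗ₜ[R] (1 : S) - (1 : S) ⊗ₜ[R] y := rfl
    rw [h2, h3, hc', ← h1]
    abel
  rw [hD]
  have htop : Ideal.span {dt + c' * dy, be - c' * al} = ⊤ := by
    by_contra hne
    obtain ⟨n, hn, hle⟩ := Ideal.exists_le_maximal _ hne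
    have h1 : dt + c' * dy ∈ n := hle (Ideal.subset_span (by simp))
    have h2 : be - c' * al ∈ n := hle (Ideal.subset_span (by simp))
    have h3 := hc ⟨n, hn⟩
    by_cases hn' : dt ∈ n ∧ dy ∈ n
    · apply h3
      simp only [p, if_pos hn', eval_sub, eval_C, eval_mul, eval_X]
      exact h2
    · apply h3
      simp only [p, if_neg hn', eval_add, eval_C, eval_mul, eval_X]
      exact h1
  have hone : (1 : S ⊗[R] S) ∈ Ideal.span {dt + c' * dy, be - c' * al} := by
    rw [htop]; trivial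
  obtain ⟨u, v, huv⟩ := Ideal.mem_span_pair.mp hone
  have hdy' : dy ∈ Ideal.span {dt + c' * dy} := by
    refine Ideal.mem_span_singleton'.mpr ⟨u * dy - v * al, ?_⟩
    linear_combination dy * huv + v * hk
  have hdt' : dt ∈ Ideal.span {dt + c' * dy} := by
    have : dt = (dt + c' * dy) - c' * dy := by ring
    rw [this]
    refine Ideal.sub_mem _ ?_ (Ideal.mul_mem_left _ _ ?_)
    · rw [← this]; exact Ideal.mem_span_singleton_self _
    · rw [← this]; exact hdy'
  refine gen_mem_of_adjoin {t, y} hgen _ ?_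
  intro x hx
  rcases hx with rfl | hx
  · exact hdt'
  · rw [Set.mem_singleton_iff.mp hx]; exact hdy'

theorem exists_adjoinRoot_equiv [Nontrivial R] [Module.Free R S] [Module.Finite R S] (a : S)
    (ha : Algebra.adjoin R {a} = ⊤) :
    ∃ (P : R[X]) (e : AdjoinRoot P ≃ₐ[R] S), P.Monic ∧ P.natDegree = Module.finrank R S ∧
      e (AdjoinRoot.root P) = a ∧
      Algebra.norm R a = (-1) ^ Module.finrank R S * P.coeff 0 := by
  set P := (Algebra.lmul R S a).charpoly with hP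
  have hm : P.Monic := LinearMap.charpoly_monic _
  have hdeg : P.natDegree = Module.finrank R S := LinearMap.charpoly_natDegree _
  have hroot : aeval a P = 0 := Algebra.aeval_self_charpoly_lmul a
  have := hm.free_adjoinRoot
  have := hm.finite_adjoinRoot
  let φ : AdjoinRoot P →ₐ[R] S := AdjoinRoot.liftAlgHom _ (Algebra.ofId R S) a hroot
  have hbij : Function.Bijective φ := by
    refine OrzechProperty.bijective_of_surjective_of_finrank_le φ.toLinearMap (fun s => ?_) ?_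
    · rw [Algebra.adjoin_singleton_eq_range_aeval, AlgHom.range_eq_top] at ha
      rcases ha s with ⟨q, hq⟩
      exact ⟨AdjoinRoot.mk P q,
        (AdjoinRoot.liftAlgHom_mk P (Algebra.ofId R S) a hroot q).trans hq⟩
    · exact ((finrank_quotient_span_eq_natDegree' hm).trans hdeg).le
  refine ⟨P, AlgEquiv.ofBijective φ hbij, hm, hdeg,
    AdjoinRoot.liftAlgHom_root P (Algebra.ofId R S) a hroot, ?_⟩
  rw [Algebra.norm_apply]
  exact LinearMap.det_eq_sign_charpoly_coeff _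

end Pool.Agent.P.MP_c1f06d_ag
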