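import Pool.Agent.P.MP_c1f06d_ag.NormInd
import Pool.Agent.P.MP_c1f06d_ag.Gen

open Matrix Polynomial

universe u

namespace Pool.Agent.P.MP_c1f06d_ag

open IsLocalRing

variable {m : ℕ} {R : Type*} [CommRing R] [IsLocalRing R] {Q : Matrix (Fin m) (Fin m) R}

section
variable {S : Type*} [CommRing S] [Algebra R S] [Module.Free R S] [Module.Finite R S]

theorem sn_norm_of_generator (hQ : Unim Q) (hm : 5 ≤ m) {v0 : Fin m → R} (h0 : IsUnit (qv Q v0))
    {y : Fin m → S} (hy : IsUnit (qv (Q.map (algebraMap R S)) y))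
    (hgen : Algebra.adjoin R {qv (Q.map (algebraMap R S)) y} = ⊤) :
    Sn Q (Algebra.norm R (qv (Q.map (algebraMap R S)) y) * qv Q v0 ^ Module.finrank R S) := by
  obtain ⟨P, e, hP, hd, hr, hN⟩ := exists_adjoinRoot_equiv _ hgen
  obtain ⟨b, hb⟩ := hy.exists_left_inv
  let φ : R[X] →+* S := (e : AdjoinRoot P →+* S).comp (AdjoinRoot.mk P)
  have hs : Function.Surjective φ := e.surjective.comp AdjoinRoot.mk_surjective
  choose w hw using fun i => hs ((b • y) i)
  have h1 : (Q.map C).map φ = Q.map (algebraMap R S) := by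
    ext i j
    exact e.commutes _
  have h2 := qv_map (Q.map C) φ w
  rw [h1, show φ ∘ w = b • y from funext hw, qv_smul] at h2
  rw [hN, ← hd]
  refine sn_of_dvd hQ hm h0 _ P hP rfl w (AdjoinRoot.mk_eq_zero.1 (e.injective ?_))
  rw [map_zero]
  change φ _ = 0
  rw [map_sub, map_mul, map_one, ← h2, show φ X = _ from hr]
  linear_combination (b * qv (Q.map (algebraMap R S)) y + 1) * hb

theorem sn_norm_inf [Infinite (ResidueField R)] (hQ : Unim Q) (hm : 5 ≤ m) {v0 : Fin m → R}
    (h0 : IsUnit (qv Q v0)) {θ : S} (hθ : Algebra.adjoin R {θ} = ⊤) {y : Fin m → S}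
    (hy : IsUnit (qv (Q.map (algebraMap R S)) y)) :
    Sn Q (Algebra.norm R (qv (Q.map (algebraMap R S)) y) * qv Q v0 ^ Module.finrank R S) := by
  have := gen_neBot (R := R)
  obtain ⟨z1, hz1⟩ := (hQ.map (algebraMap R S)).exists_bv_one_of_isUnit hy
  have key := fun y hy hg => sn_norm_of_generator (S := S) (y := y) hQ hm h0 hy hg
  set Q' := Q.map (algebraMap R S)
  have hz : bv Q' y (θ • z1) = θ := by rw [bv_smul_right, hz1, mul_one]
  generalize θ • z1 = z at hz
  obtain ⟨b, hb⟩ := hy.exists_right_inv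
  have hv : ∀ α β : S, qv Q' (α • y + β • z) = α ^ 2 * qv Q' y + β ^ 2 * qv Q' z + α * (β * θ) :=
    fun α β => by rw [qv_add, qv_smul, qv_smul, bv_smul_left, bv_smul_right, hz]
  let f : S[X] := C (qv Q' y) + C θ * X + C (qv Q' z) * X ^ 2
  have f0 : f.coeff 0 = qv Q' y := by simp [f]
  have f1 : f.coeff 1 = θ := by simp [f]
  have fe : ∀ e : S, f.eval e = qv Q' ((1 : S) • y + e • z) := fun e => by
    rw [hv]
    simp only [f, eval_add, eval_mul, eval_C, eval_X, eval_pow]
    ring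
  have hE := (eventually_isUnit (R := R) f 0 (f0 ▸ hy)).and
    (eventually_adjoin_eq_top (R := R) f 1 (f1 ▸ hθ))
  obtain ⟨e, u1, g1⟩ := hE.exists
  set e1 := algebraMap R S e
  obtain ⟨e', ⟨u2, g2⟩, g3⟩ := (hE.and (eventually_adjoin_eq_top (R := R)
    (C (f.eval e1 * b) * f) 0 (by
      rwa [coeff_C_mul, f0, mul_assoc, mul_comm b, hb, mul_one]))).exists
  set e2 := algebraMap R S e'
  have h3 : f.eval e1 * b * f.eval e2 =
      qv Q' ((1 - e1 * e2 * qv Q' z * b) • y + (e1 + e2 + e1 * e2 * θ * b) • z) := by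
    rw [fe, fe, hv, hv, hv]
    linear_combination (qv Q' y + θ * (e1 + e2) + (e1 + e2) ^ 2 * qv Q' z -
      (e1 * e2) ^ 2 * qv Q' z ^ 2 * b) * hb
  have u3 := (u1.mul (IsUnit.of_mul_eq_one_right _ hb)).mul u2
  rw [eval_mul, eval_C, h3] at g3
  have h4 : qv Q' y * (f.eval e1 * b * f.eval e2) = f.eval e1 * f.eval e2 := by
    linear_combination f.eval e1 * f.eval e2 * hb
  rw [h3] at u3 h4
  rw [fe] at u1 u2 g1 g2
  refine Sn.cancel h0 (key _ u3 g3) ((u3.map (Algebra.norm R)).mul (h0.pow _)) ?_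
  have h5 := (key _ u1 g1).mul (key _ u2 g2)
  rw [mul_mul_mul_comm, ← map_mul] at h5 ⊢
  rwa [h4, fe, fe]

theorem sn_descend {v0 : Fin m → R} (h0 : IsUnit (qv Q v0)) (hodd : Odd (Module.finrank R S))
    (hval : ∀ y : Fin m → S, IsUnit (qv (Q.map (algebraMap R S)) y) →
      Sn Q (Algebra.norm R (qv (Q.map (algebraMap R S)) y) * qv Q v0 ^ Module.finrank R S))
    {a : R} (ha : IsUnit a) (h : Sn (Q.map (algebraMap R S)) (algebraMap R S a)) : Sn Q a := by
  obtain ⟨l, ⟨r, hr⟩, hl⟩ := h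
  have key : ∀ l : List (Fin m → S), IsUnit (l.map (qv (Q.map (algebraMap R S)))).prod →
      Sn Q (Algebra.norm R (l.map (qv (Q.map (algebraMap R S)))).prod *
        (qv Q v0 ^ Module.finrank R S) ^ l.length) := fun l => by
    induction l with
    | nil => exact fun _ => by simpa using sn_one (Q := Q)
    | cons y l ih =>
      intro hu
      rw [List.map_cons, List.prod_cons] at hu ⊢
      rw [map_mul, List.length_cons, pow_succ', mul_mul_mul_comm]
      exact (hval y (isUnit_of_mul_isUnit_left hu)).mul (ih (isUnit_of_mul_isUnit_right hu))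
  have h1 := key l (hl ▸ ha.map _)
  rw [← hl, Algebra.norm_algebraMap, hr, ← mul_two, pow_mul] at h1
  exact Sn.of_odd_pow h0 ha hodd (Sn.cancel h0 (sn_sq h0 _) (((h0.pow _).pow _).pow _) h1)

end

theorem sn_of_adjoinRoot_inf [Infinite (ResidueField R)] (hQ : Unim Q) (hm : 5 ≤ m) {P : R[X]}
    (hP : P.Monic) (hodd : Odd P.natDegree) {a : R} (ha : IsUnit a)
    (h : Sn (Q.map (AdjoinRoot.of P)) (AdjoinRoot.of P a)) : Sn Q a := by
  obtain ⟨v0, h0⟩ := hQ.exists_isUnit_qv (by omega)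
  have := Module.Free.of_basis (AdjoinRoot.powerBasis' hP).basis
  have := Module.Finite.of_basis (AdjoinRoot.powerBasis' hP).basis
  exact sn_descend (S := AdjoinRoot P) h0 ((AdjoinRoot.powerBasis' hP).finrank ▸ hodd)
    (fun _ hy => sn_norm_inf hQ hm h0 AdjoinRoot.adjoinRoot_eq_top hy) ha h

theorem sn_of_adjoinRoot_prime (hQ : Unim Q) (hm : 5 ≤ m) {P : R[X]} (hP : P.Monic)
    (hirr : Irreducible (P.map (residue R))) (hp : P.natDegree.Prime) (hodd : Odd P.natDegree)
    {a : R} (ha : IsUnit a) (h : Sn (Q.map (AdjoinRoot.of P)) (AdjoinRoot.of P a)) : Sn Q a := by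
  obtain ⟨v0, h0⟩ := hQ.exists_isUnit_qv (by omega)
  have := Module.Free.of_basis (AdjoinRoot.powerBasis' hP).basis
  have := Module.Finite.of_basis (AdjoinRoot.powerBasis' hP).basis
  have := Fact.mk hirr
  set B := P.map (residue R) with hB
  have hd : B.natDegree = P.natDegree := hP.natDegree_map _
  have h3 : 2 < B.natDegree := hd ▸ lt_of_le_of_ne hp.two_le fun e => by
    rw [← e] at hodd
    exact absurd hodd (by decide)
  let φ : AdjoinRoot P →+* AdjoinRoot B :=
    AdjoinRoot.lift ((AdjoinRoot.of B).comp (residue R)) (AdjoinRoot.root B)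
      (by rw [← eval₂_map]; exact AdjoinRoot.eval₂_root _)
  have hφ : ∀ r, φ (AdjoinRoot.mk P r) = AdjoinRoot.mk B (r.map (residue R)) := fun r => by
    rw [AdjoinRoot.lift_mk, ← eval₂_map, ← AdjoinRoot.aeval_eq]
    rfl
  have hm' := map_surjective (residue R) residue_surjective
  have hs : Function.Surjective φ := fun x => by
    obtain ⟨r, rfl⟩ := AdjoinRoot.mk_surjective x
    obtain ⟨r, rfl⟩ := hm' r
    exact ⟨_, hφ r⟩
  have hk : ∀ x, φ x = 0 → x ∈ (maximalIdeal R).map (algebraMap R (AdjoinRoot P)) := fun x hx => by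
    obtain ⟨r, rfl⟩ := AdjoinRoot.mk_surjective x
    obtain ⟨t, ht⟩ := AdjoinRoot.mk_eq_zero.1 ((hφ r).symm.trans hx)
    obtain ⟨t, rfl⟩ := hm' t
    have h1 : r - P * t ∈ RingHom.ker (mapRingHom (residue R)) := by
      rw [RingHom.mem_ker, coe_mapRingHom, Polynomial.map_sub, Polynomial.map_mul, ht, sub_self]
    rw [ker_mapRingHom, ker_residue] at h1
    have h2 := Ideal.mem_map_of_mem (AdjoinRoot.mk P) h1
    rwa [Ideal.map_map, map_sub, map_mul, AdjoinRoot.mk_self, zero_mul, sub_zero] at h2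
  have hg : ∀ x, φ x ∉ (⊥ : Subalgebra (ResidueField R) (AdjoinRoot B)) →
      Algebra.adjoin R {x} = ⊤ := fun x hx => by
    have := Subalgebra.isSimpleOrder_of_finrank_prime (ResidueField R) (AdjoinRoot B)
      (by rwa [(AdjoinRoot.powerBasis hirr.ne_zero).finrank, AdjoinRoot.powerBasis_dim, hd])
    have h1 := (eq_bot_or_eq_top (Algebra.adjoin (ResidueField R) {φ x})).resolve_left
      fun e => hx (e ▸ Algebra.self_mem_adjoin_singleton _ _)
    rw [← Algebra.toSubmodule_eq_top, eq_top_iff]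
    refine Submodule.le_of_le_smul_of_le_jacobson_bot Module.Finite.fg_top
      (maximalIdeal_le_jacobson ⊥) fun s _ => ?_
    have h2 : φ s ∈ Algebra.adjoin (ResidueField R) {φ x} := h1 ▸ trivial
    rw [Algebra.adjoin_singleton_eq_range_aeval] at h2
    obtain ⟨p, hp⟩ := h2
    obtain ⟨p, rfl⟩ := hm' p
    rw [← add_sub_cancel (aeval x p) s, Ideal.smul_top_eq_map]
    refine Submodule.add_mem_sup (aeval_mem_adjoin_singleton R x) (hk _ ?_)
    rw [map_sub, ← hp, aeval_def, hom_eval₂, sub_eq_zero]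
    change eval₂ _ _ _ = _
    rw [eval₂_map]
    exact congrArg (fun f => eval₂ f (φ x) p) (AdjoinRoot.lift_comp_of _).symm
  have hr : φ (AdjoinRoot.root P) = AdjoinRoot.root B := AdjoinRoot.lift_root _
  have hn : ∀ c, AdjoinRoot.root B ^ 2 ≠ algebraMap (ResidueField R) _ c := fun c e => by
    have h1 : B ∣ X ^ 2 - C c := AdjoinRoot.mk_eq_zero.1 (by
      rw [map_sub, map_pow, sub_eq_zero]
      exact e)
    have h2 := natDegree_le_of_dvd h1 (X_pow_sub_C_ne_zero two_pos c)
    rw [natDegree_X_pow_sub_C] at h2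
    omega
  have hu : IsUnit (AdjoinRoot.root P) := by
    obtain ⟨x, hx⟩ := hs (AdjoinRoot.root B)⁻¹
    refine isUnit_of_mul_isUnit_left (y := x) (isUnit_of_sub_mem_map (R := R) isUnit_one (hk _ ?_))
    rw [map_sub, map_mul, hr, hx, map_one, mul_inv_cancel₀, sub_self]
    exact fun e => hn 0 (by rw [e, map_zero, zero_pow two_ne_zero])
  refine sn_descend (S := AdjoinRoot P) h0 ((AdjoinRoot.powerBasis' hP).finrank ▸ hodd)
    (fun y hy => ?_) ha h
  by_cases hc : φ (qv (Q.map (algebraMap R (AdjoinRoot P))) y) ∈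
      (⊥ : Subalgebra (ResidueField R) (AdjoinRoot B))
  · obtain ⟨c, hc⟩ := Algebra.mem_bot.1 hc
    have h1 := sn_norm_of_generator hQ hm h0 (y := AdjoinRoot.root P • y)
      (by rw [qv_smul]; exact (hu.pow 2).mul hy) (hg _ fun e => by
        obtain ⟨c', e⟩ := Algebra.mem_bot.1 e
        rw [qv_smul, map_mul, map_pow, hr, ← hc] at e
        refine hn (c' / c) ?_
        rw [map_div₀, e, mul_div_cancel_right₀ _ (hc ▸ (hy.map φ).ne_zero)])
    rw [qv_smul, map_mul, map_pow, mul_assoc, mul_comm] at h1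
    exact Sn.cancel h0 (sn_sq h0 _) ((hu.map (Algebra.norm R)).pow 2) h1
  · exact sn_norm_of_generator hQ hm h0 hy (hg _ hc)

end Pool.Agent.P.MP_c1f06d_ag
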