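import Pool.Agent.P.MP_c1f06d_ag.BTop
import Pool.Agent.P.MP_c1f06d_ag.NormVal

open Matrix Polynomial

universe u

namespace Pool.Agent.P.MP_c1f06d_ag

open IsLocalRing

variable {m : ℕ} {R : Type*} [CommRing R] [IsLocalRing R] {Q : Matrix (Fin m) (Fin m) R}
  {r ρ : Fin m → R}

theorem Semi.exists_top_isUnit (hQ : Semi Q r ρ) (hm : 5 ≤ m) {P : R[X]} (hP : P.Monic) {n : ℕ}
    (hn : P.natDegree = n + 1) (w : Fin m → R[X]) (hw : IsCoprime (qv (Q.map C) w) P)
    (hg : Good ((Q.map C).map (AdjoinRoot.mk P)) (AdjoinRoot.mk P ∘ w)) :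
    ∃ w' : Fin m → R[X], (∀ i, (w' i).natDegree ≤ n) ∧
      P ∣ qv (Q.map C) w' - qv (Q.map C) w ∧ (IsUnit (qv Q fun i => (w' i).coeff n)) ∧
      (n = 0 ∨ Infinite (ResidueField R) ∨
        ∃ x : Fin m → R, (bv (Q.map C) w' (C ∘ x) - 1).map (residue R) = 0) := by
  have red := normind_red hP
  set ν := IsLocalRing.residue R
  obtain ⟨f, hf, sur, loc⟩ := red
  have hP' : (P.map ν).Monic := hP.map ν
  have hn' : (P.map ν).natDegree = n + 1 := by rw [hP.natDegree_map, hn]
  have : Module.Finite (IsLocalRing.ResidueField R) (AdjoinRoot (P.map ν)) :=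
    (AdjoinRoot.powerBasis' hP').finite
  have := finite_maximalSpectrum (IsLocalRing.ResidueField R) (AdjoinRoot (P.map ν))
  have e1 : (Q.map ν).map C = (Q.map C).map (mapRingHom ν) := by
    ext1 i j
    simp
  have e2 : qv ((Q.map ν).map C) (mapRingHom ν ∘ w) = (qv (Q.map C) w).map ν := by
    rw [e1, qv_map]
    rfl
  have e3 : ((Q.map C).map (AdjoinRoot.mk P)).map f =
      ((Q.map ν).map C).map (AdjoinRoot.mk (P.map ν)) := by
    ext1 i j
    simp only [Matrix.map_apply, hf, map_C]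
  have hg' : Good (((Q.map ν).map C).map (AdjoinRoot.mk (P.map ν)))
      (AdjoinRoot.mk (P.map ν) ∘ (mapRingHom ν ∘ w)) := by
    have := hg.map f
    rwa [e3, show f ∘ (AdjoinRoot.mk P ∘ w) = AdjoinRoot.mk (P.map ν) ∘ (mapRingHom ν ∘ w) from
      funext fun i => hf _] at this
  have hw' : IsCoprime (qv ((Q.map ν).map C) (mapRingHom ν ∘ w)) (P.map ν) := by
    rw [e2]; exact hw.map (mapRingHom ν)
  obtain ⟨v, v1, v2, v3, v4, v5⟩ : ∃ v : Fin m → (ResidueField R)[X],
      (∀ i, (v i).natDegree ≤ n) ∧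
      P.map ν ∣ qv ((Q.map ν).map C) v - qv ((Q.map ν).map C) (mapRingHom ν ∘ w) ∧
      qv (Q.map ν) (fun i => (v i).coeff n) ≠ 0 ∧
      Good (((Q.map ν).map C).map (AdjoinRoot.mk (P.map ν))) (AdjoinRoot.mk (P.map ν) ∘ v) ∧
      (n = 0 ∨ Infinite (ResidueField R) ∨ ∃ x, bv ((Q.map ν).map C) v (C ∘ x) = 1) := by
    generalize mapRingHom ν ∘ w = w0 at hg' hw'
    rcases n with _ | n
    · have e : AdjoinRoot.mk (P.map ν) ∘ (fun i => w0 i %ₘ P.map ν) = AdjoinRoot.mk (P.map ν) ∘ w0 :=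
        funext fun i => AdjoinRoot.mk_eq_mk.2 (dvd_modByMonic_sub _ _)
      have h1 : P.map ν ∣ qv ((Q.map ν).map C) (fun i => w0 i %ₘ P.map ν) -
          qv ((Q.map ν).map C) w0 := by
        rw [← AdjoinRoot.mk_eq_mk, ← qv_map, ← qv_map, e]
      refine ⟨_, fun i => top_lt hP' hn' _, h1, fun h0 => top_ne hn' hw' ?_, by rwa [e], .inl rfl⟩
      rw [show (fun i => w0 i %ₘ P.map ν) = C ∘ fun i => (w0 i %ₘ P.map ν).coeff 0 from
        funext fun i => eq_C_of_natDegree_le_zero (top_lt hP' hn' _), qv_map, h0, map_zero,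
        zero_sub] at h1
      exact dvd_neg.1 h1
    by_cases h : ∃ x, x ≠ 0 ∧ qv (Q.map ν) x = 0
    · obtain ⟨x, h1, h2⟩ := h
      obtain ⟨v, a1, a2, a3, a4⟩ := (hQ.map ν).top_iso hm h1 h2 hP' hn'
        (qv ((Q.map ν).map C) w0)
      exact ⟨v, a1, a2, a3, Good.map ⟨_, a4⟩ _, .inr (.inr ⟨x, a4⟩)⟩
    · have : Infinite (ResidueField R) := not_finite_iff_infinite.1 fun _ =>
        h (exists_isotropic_of_finite (Q.map ν) (by omega))
      obtain ⟨v, a1, a2, a3, a4⟩ := btop_aniso (by omega)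
        (fun x hx => by_contra fun h0 => h ⟨x, h0, hx⟩) hP' hn' w0 hg'
      exact ⟨v, a1, a2, a3, a4, .inr (.inl this)⟩
  obtain ⟨w1, a1, a2⟩ := ((hQ.map C).map (AdjoinRoot.mk P)).lift_vector f sur hm hg
    (w' := AdjoinRoot.mk (P.map ν) ∘ v) (by rwa [e3]) (by
      rw [e3, qv_map, qv_map, hf, ← e2]
      exact AdjoinRoot.mk_eq_mk.2 v2)
  have P1 : P ≠ 1 := fun e => by simp [e] at hn
  have : ∀ i, ∃ p : R[X], p.natDegree ≤ n ∧ AdjoinRoot.mk P p = w1 i := fun i => by
    obtain ⟨p, e⟩ := AdjoinRoot.mk_surjective (w1 i)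
    refine ⟨p %ₘ P, by have := natDegree_modByMonic_lt p hP P1; omega, ?_⟩
    rw [← e, AdjoinRoot.mk_eq_mk]
    exact ⟨-(p /ₘ P), by linear_combination modByMonic_add_div p P⟩
  choose z z1 z2 using this
  have z3 : AdjoinRoot.mk P ∘ z = w1 := funext z2
  have z4 : ∀ i, (z i).map ν = v i := fun i => by
    have g : AdjoinRoot.mk (P.map ν) ((z i).map ν) = AdjoinRoot.mk _ (v i) := by
      rw [← hf, z2]
      exact congrFun a2 i
    refine sub_eq_zero.1 (eq_zero_of_dvd_of_natDegree_lt (AdjoinRoot.mk_eq_mk.1 g) ?_)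
    have := natDegree_sub_le_of_le (natDegree_map_le.trans (z1 i) : ((z i).map ν).natDegree ≤ n)
      (v1 i)
    omega
  refine ⟨z, z1, AdjoinRoot.mk_eq_mk.1 (by rw [← qv_map, ← qv_map, z3, a1]), ?_, ?_⟩
  · rw [← IsLocalRing.residue_ne_zero_iff_isUnit, ← qv_map]
    have : (ν ∘ fun i => (z i).coeff n) = fun i => (v i).coeff n := funext fun i => by
      rw [← z4, coeff_map]
      rfl
    rwa [this]
  · rcases v5 with h | h | ⟨x, hx⟩
    · exact .inl h
    · exact .inr (.inl h)
    obtain ⟨x, rfl⟩ := (IsLocalRing.residue_surjective (R := R)).comp_left x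
    refine .inr (.inr ⟨x, ?_⟩)
    have e4 := bv_map (Q.map C) (mapRingHom ν) z (C ∘ x)
    rw [← e1, show mapRingHom ν ∘ z = v from funext z4,
      show mapRingHom ν ∘ (C ∘ x) = C ∘ (ν ∘ x) from funext fun i => map_C _] at e4
    rw [Polynomial.map_sub, Polynomial.map_one, sub_eq_zero]
    exact e4.symm.trans hx

/-- The norm principle in degree `n` for vectors that pair to one. -/
def NormA (Q : Matrix (Fin m) (Fin m) R) (v0 : Fin m → R) (n : ℕ) : Prop :=
  ∀ P : R[X], P.Monic → P.natDegree = n → ∀ w : Fin m → R[X],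
    Good ((Q.map C).map (AdjoinRoot.mk P)) (AdjoinRoot.mk P ∘ w) →
    P ∣ X * qv (Q.map C) w - 1 → Sn Q ((-1) ^ n * P.coeff 0 * qv Q v0 ^ n)

theorem btrick {S : Type*} [CommRing S] (Q : Matrix (Fin m) (Fin m) S) (y v : Fin m → S) (a : S) :
    qv Q ((a * bv Q y v + qv Q v) • y - (a * qv Q y) • v) = qv Q y * qv Q v * qv Q (a • y + v) := by
  rw [qv_sub, qv_add, qv_smul, qv_smul, qv_smul, bv_smul_left, bv_smul_left, bv_smul_right]
  ring

section
variable {S : Type*} [CommRing S] [Algebra R S] [Module.Finite R S]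

theorem btrick_eventually {Q : Matrix (Fin m) (Fin m) S} {y v : Fin m → S}
    (hy : IsUnit (qv Q y)) (hv : IsUnit (qv Q v)) (hg : Good Q v) :
    ∀ᶠ c in Gen R, IsUnit (qv Q (algebraMap R S c • y + v)) ∧ Good Q (algebraMap R S c • y + v) ∧
      Good Q ((algebraMap R S c * bv Q y v + qv Q v) • y - (algebraMap R S c * qv Q y) • v) := by
  obtain ⟨t, ht⟩ := hg
  have h1 := eventually_isUnit (R := R) (C (qv Q v) + C (bv Q y v) * X + C (qv Q y) * X ^ 2) 0
    (by simpa using hv)
  have h2 := eventually_isUnit (R := R) (C (1 : S) + C (bv Q y t) * X) 0 (by simp)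
  have h3 := eventually_notMem (R := R) (T := S)
    (fun _ => C (qv Q v * bv Q y t) + C (bv Q y v * bv Q y t - qv Q y) * X) fun n => by
      by_cases h : bv Q y t ∈ n.asIdeal
      · refine ⟨1, fun e => n.isMaximal.ne_top (n.asIdeal.eq_top_of_isUnit_mem ?_ hy)⟩
        rw [coeff_add, coeff_C_mul, coeff_X_one, coeff_C, if_neg one_ne_zero, zero_add,
          mul_one] at e
        simpa using n.asIdeal.sub_mem (n.asIdeal.mul_mem_left (bv Q y v) h) e
      · refine ⟨0, fun e => ?_⟩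
        rw [coeff_add, coeff_C_mul, coeff_X_zero, coeff_C_zero, mul_zero, add_zero] at e
        exact (n.isMaximal.isPrime.mem_or_mem e).elim
          (fun e => n.isMaximal.ne_top (n.asIdeal.eq_top_of_isUnit_mem e hv)) h
  refine ((h1.and h2).and h3).mono fun c ⟨⟨a1, a2⟩, a3⟩ =>
    ⟨(congrArg IsUnit ?_).mpr a1, good_of_isUnit (z := t) ((congrArg IsUnit ?_).mpr a2),
      good_of_isUnit (z := t) ?_⟩
  · rw [qv_add, qv_smul, bv_smul_left]
    simp only [eval_add, eval_mul, eval_C, eval_X, eval_pow]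
    ring
  · rw [bv_add_left, bv_smul_left, ht]
    simp only [eval_add, eval_mul, eval_C, eval_X]
    ring
  · by_contra hu
    obtain ⟨n, hn, hmem⟩ := exists_max_ideal_of_mem_nonunits (mem_nonunits_iff.2 hu)
    refine a3 ⟨n, hn⟩ ((congrArg (· ∈ n) ?_).mpr hmem)
    rw [bv_sub_left, bv_smul_left, bv_smul_left, ht]
    simp only [eval_add, eval_mul, eval_C, eval_X]
    ring

variable [Module.Free R S]

theorem NormA.of_good {v0 : Fin m → R} (hA : NormA Q v0 (Module.finrank R S))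
    {y : Fin m → S} (hy : IsUnit (qv (Q.map (algebraMap R S)) y))
    (hg : Good (Q.map (algebraMap R S)) y)
    (hgen : Algebra.adjoin R {qv (Q.map (algebraMap R S)) y} = ⊤) :
    Sn Q (Algebra.norm R (qv (Q.map (algebraMap R S)) y) * qv Q v0 ^ Module.finrank R S) := by
  obtain ⟨P, e, hP, hd, hr, hN⟩ := exists_adjoinRoot_equiv _ hgen
  obtain ⟨b, hb⟩ := hy.exists_left_inv
  let φ : R[X] →+* S := (e : AdjoinRoot P →+* S).comp (AdjoinRoot.mk P)
  have hs : Function.Surjective φ := e.surjective.comp AdjoinRoot.mk_surjective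
  choose w hw using fun i => hs ((b • y) i)
  have h1 : (Q.map C).map φ = Q.map (algebraMap R S) := by
    ext i j
    exact e.commutes _
  have h2 := qv_map (Q.map C) φ w
  rw [h1, show φ ∘ w = b • y from funext hw, qv_smul] at h2
  rw [hN]
  refine hA P hP hd w ?_ (AdjoinRoot.mk_eq_zero.1 (e.injective ?_))
  · have g := (hg.smul (IsUnit.of_mul_eq_one _ hb)).map (e.symm : S →+* AdjoinRoot P)
    have e1 : (Q.map (algebraMap R S)).map (e.symm : S →+* AdjoinRoot P) =
        (Q.map C).map (AdjoinRoot.mk P) := by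
      ext i j
      exact e.symm.commutes _
    have e2 : (e.symm : S →+* AdjoinRoot P) ∘ (b • y) = AdjoinRoot.mk P ∘ w := funext fun i => by
      change e.symm ((b • y) i) = _
      rw [← hw i]
      exact e.symm_apply_apply _
    rwa [e1, e2] at g
  rw [map_zero]
  change φ _ = 0
  rw [map_sub, map_mul, map_one, ← h2, show φ X = _ from hr]
  linear_combination (b * qv (Q.map (algebraMap R S)) y + 1) * hb

theorem NormA.of_generator [Infinite (ResidueField R)] {v0 : Fin m → R} (h0 : IsUnit (qv Q v0))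
    (g0 : Good Q v0) (hA : NormA Q v0 (Module.finrank R S))
    {y : Fin m → S} (hy : IsUnit (qv (Q.map (algebraMap R S)) y))
    (hgen : Algebra.adjoin R {qv (Q.map (algebraMap R S)) y} = ⊤) :
    Sn Q (Algebra.norm R (qv (Q.map (algebraMap R S)) y) * qv Q v0 ^ Module.finrank R S) := by
  have := gen_neBot (R := R)
  have key := fun y hy hg hgen => hA.of_good (S := S) (y := y) hy hg hgen
  have hv := qv_map Q (algebraMap R S) v0
  have g1 := g0.map (algebraMap R S)
  set Q' := Q.map (algebraMap R S)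
  set v := algebraMap R S ∘ v0
  have hu : IsUnit (qv Q' v) := hv ▸ h0.map _
  let f : S[X] := C (qv Q' v) + C (bv Q' y v) * X + C (qv Q' y) * X ^ 2
  have f0 : f.coeff 0 = qv Q' v := by simp [f]
  have f2 : f.coeff 2 = qv Q' y := by simp [f, coeff_X, coeff_C]
  have fe : ∀ e : S, f.eval e = qv Q' (e • y + v) := fun e => by
    rw [qv_add, qv_smul, bv_smul_left]
    simp only [f, eval_add, eval_mul, eval_C, eval_X, eval_pow]
    ring
  have gen0 : Algebra.adjoin R {(C (qv Q' y * qv Q' v) * f).coeff 0} = ⊤ := by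
    obtain ⟨b, hb⟩ := h0.exists_left_inv
    rw [coeff_C_mul, f0, eq_top_iff, ← hgen, Algebra.adjoin_le_iff, Set.singleton_subset_iff]
    have e : qv Q' y = (b * b) • (qv Q' y * qv Q' v * qv Q' v) := by
      have hb' := congrArg (algebraMap R S) hb
      rw [map_mul, map_one] at hb'
      rw [Algebra.smul_def, map_mul, hv]
      linear_combination (-qv Q' y * (1 + algebraMap R S b * algebraMap R S (qv Q v0))) * hb'
    have := (Algebra.adjoin R {qv Q' y * qv Q' v * qv Q' v}).smul_mem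
      (Algebra.self_mem_adjoin_singleton R _) (b * b)
    rwa [← e] at this
  obtain ⟨c, ⟨⟨u1, a1, a2⟩, b1⟩, b2⟩ := (((btrick_eventually (R := R) hy hu g1).and
    (eventually_adjoin_eq_top (R := R) f 2 (f2 ▸ hgen))).and
    (eventually_adjoin_eq_top (R := R) _ 0 gen0)).exists
  rw [eval_mul, eval_C, fe, ← btrick] at b2
  rw [fe] at b1
  have s2 := key _ (by rw [btrick]; exact (hy.mul hu).mul u1) a2 b2
  refine Sn.cancel h0 (key _ u1 a1 b1) ((u1.map (Algebra.norm R)).mul (h0.pow _)) ?_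
  rw [btrick, map_mul, map_mul, hv, Algebra.norm_algebraMap, mul_assoc] at s2
  exact s2

end

theorem Semi.normA (hQ : Semi Q r ρ) (hm : 5 ≤ m) {v0 : Fin m → R} (h0 : IsUnit (qv Q v0))
    (g0 : Good Q v0) (n : ℕ) : NormA Q v0 n := by
  induction n with
  | zero =>
    intro P hP hn w _ _
    rw [hP.natDegree_eq_zero.1 hn]
    simpa using sn_one
  | succ n ih =>
    intro P hP hn w hgood hw
    obtain ⟨g, hg⟩ := hw
    obtain ⟨z, z1, ⟨g', hg'⟩, ⟨u, hu⟩, hcase⟩ := hQ.exists_top_isUnit hm hP hn w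
      ⟨X, -g, by linear_combination hg⟩ hgood
    obtain ⟨t1, t2⟩ := normind_top (Q := Q) z z1
    obtain ⟨h, hh⟩ : P ∣ X * qv (Q.map C) z - 1 := ⟨g + X * g', by linear_combination hg + X * hg'⟩
    have d1 : (P * h).natDegree ≤ n + 1 + n := by
      rw [← hh]
      have := natDegree_sub_le_of_le (natDegree_mul_le_of_le natDegree_X_le t1)
        (natDegree_one (R := R)).le
      omega
    have d2 : h.natDegree ≤ n := by
      by_cases e : h = 0
      · simp [e]
      · rw [hP.natDegree_mul' e] at d1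
        omega
    have d3 : h.coeff n = u := by
      have a := coeff_mul_add_eq_of_natDegree_le hn.le d2
      rw [← hh, show n + 1 + n = n + n + 1 by ring, coeff_sub, coeff_X_mul, t2, ← hu,
        coeff_one, if_neg (by omega), sub_zero, ← hn, hP.coeff_natDegree, one_mul] at a
      exact a.symm
    have d4 : (C (↑u⁻¹ : R) * h).coeff n = 1 := by rw [coeff_C_mul, d3, Units.inv_mul]
    have d5 : (C (↑u⁻¹ : R) * h).natDegree ≤ n := (natDegree_C_mul_le _ _).trans d2
    have i1 : Sn Q ((-1) ^ n * (C (↑u⁻¹ : R) * h).coeff 0 * qv Q v0 ^ n) := by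
      have m1 := monic_of_natDegree_le_of_coeff_eq_one n d5 d4
      have m2 := natDegree_eq_of_le_of_coeff_ne_zero d5 (by rw [d4]; exact one_ne_zero)
      have m3 : C (↑u⁻¹ : R) * h ∣ X * qv (Q.map C) z - 1 := ⟨C (↑u : R) * P, by
        rw [hh, mul_mul_mul_comm, ← C_mul, Units.inv_mul, C_1, one_mul, mul_comm]⟩
      generalize C (↑u⁻¹ : R) * h = H at m1 m2 m3
      have := Module.Free.of_basis (AdjoinRoot.powerBasis' m1).basis
      have := Module.Finite.of_basis (AdjoinRoot.powerBasis' m1).basis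
      rcases hcase with rfl | hinf | ⟨x, hx⟩
      · rw [m1.natDegree_eq_zero.1 m2]
        simpa using sn_one
      · have rk : Module.finrank R (AdjoinRoot H) = n := by
          rw [(AdjoinRoot.powerBasis' m1).finrank, ← m2]; rfl
        have e1 : AdjoinRoot.root H * qv (Q.map (algebraMap R (AdjoinRoot H)))
            (AdjoinRoot.mk H ∘ z) = 1 := by
          have := AdjoinRoot.mk_eq_zero.2 m3
          rw [map_sub, map_mul, map_one, sub_eq_zero, ← qv_map] at this
          exact this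
        have e2 : qv (Q.map (algebraMap R (AdjoinRoot H)))
            (AdjoinRoot.root H • (AdjoinRoot.mk H ∘ z)) = AdjoinRoot.root H := by
          rw [qv_smul, sq, mul_assoc, e1, mul_one]
        have s1 := NormA.of_generator (S := AdjoinRoot H) h0 g0 (rk ▸ ih)
          (y := AdjoinRoot.root H • (AdjoinRoot.mk H ∘ z))
          (by rw [e2]; exact IsUnit.of_mul_eq_one _ e1)
          (by rw [e2]; exact AdjoinRoot.adjoinRoot_eq_top)
        obtain ⟨P', e, p1, p2, p3, p4⟩ := exists_adjoinRoot_equiv (R := R) (AdjoinRoot.root H)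
          AdjoinRoot.adjoinRoot_eq_top
        have p5 : H ∣ P' := by
          rw [← AdjoinRoot.mk_eq_zero, ← AdjoinRoot.aeval_eq, ← p3, aeval_algHom_apply,
            AdjoinRoot.aeval_eq, AdjoinRoot.mk_self, map_zero]
        rw [e2, p4, rk, eq_of_monic_of_dvd_of_natDegree_le m1 p1 p5 (by omega)] at s1
        exact s1
      · refine ih H m1 m2 z (good_of_isUnit (z := AdjoinRoot.mk H ∘ (C ∘ x)) ?_) m3
        rw [bv_map]
        refine isUnit_of_sub_mem_map (R := R) isUnit_one ?_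
        have h1 : bv (Q.map C) z (C ∘ x) - 1 ∈ (maximalIdeal R).map (C : R →+* R[X]) :=
          Ideal.mem_map_C_iff.2 fun n => (residue_eq_zero_iff _).1 (by
            rw [← coeff_map, hx, coeff_zero])
        have h2 := Ideal.mem_map_of_mem (AdjoinRoot.mk H) h1
        rw [Ideal.map_map, map_sub, map_one] at h2
        exact h2
    have c0 : P.coeff 0 * h.coeff 0 = -1 := by
      rw [← mul_coeff_zero, ← hh]
      simp
    have hu0 : IsUnit (h.coeff 0) :=
      IsUnit.of_mul_eq_one_right (-P.coeff 0) (by linear_combination -c0)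
    rw [coeff_C_mul] at i1
    have i2 := i1.mul (hu ▸ sn_two (Q := Q) (fun i => (z i).coeff n) v0)
    refine Sn.cancel h0 i2 (((((isUnit_one.neg).pow n).mul ((u⁻¹).isUnit.mul hu0)).mul
      (h0.pow n)).mul (u.isUnit.mul h0)) ?_
    have e : (-1) ^ (n + 1) * P.coeff 0 * qv Q v0 ^ (n + 1) *
        ((-1) ^ n * (↑u⁻¹ * h.coeff 0) * qv Q v0 ^ n * (↑u * qv Q v0)) =
        -(-1) ^ (2 * n) * (P.coeff 0 * h.coeff 0) * (↑u⁻¹ * ↑u) * (qv Q v0 ^ (n + 1)) ^ 2 := by
      rw [two_mul, pow_add (-1 : R) n n, pow_succ (-1 : R)]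
      generalize (-1 : R) ^ n = s
      ring
    rw [e, c0, Units.inv_mul]
    simpa using sn_sq h0 (qv Q v0 ^ (n + 1))

end Pool.Agent.P.MP_c1f06d_ag
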