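import Pool.Agent.P.MP_c1f06d_ag.BField
import Pool.Agent.P.MP_c1f06d_ag.Top

open Matrix Polynomial

universe u

namespace Pool.Agent.P.MP_c1f06d_ag

variable {m : ℕ} {k : Type*} [Field k] {Q : Matrix (Fin m) (Fin m) k} {r ρ : Fin m → k}

theorem Semi.top_iso (hQ : Semi Q r ρ) (hm : 5 ≤ m) {x : Fin m → k} (hx : x ≠ 0)
    (hx0 : qv Q x = 0) {P : k[X]} (hP : P.Monic) {n : ℕ} (hn : P.natDegree = n + 2) (c : k[X]) :
    ∃ w' : Fin m → k[X], (∀ i, (w' i).natDegree ≤ n + 1) ∧ P ∣ qv (Q.map C) w' - c ∧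
      qv Q (fun i => (w' i).coeff (n + 1)) ≠ 0 ∧ bv (Q.map C) w' (C ∘ x) = 1 := by
  obtain ⟨g, hg⟩ := hQ.good_of_qv_eq_zero hx hx0
  obtain ⟨f, f1, f2⟩ : ∃ f, qv Q f = 0 ∧ bv Q x f = 1 := ⟨g - qv Q g • x,
    by rw [qv_sub, qv_smul, bv_smul_right, bv_comm, hg, hx0]; ring,
    by rw [bv_sub_right, bv_smul_right, bv_self, hg, hx0]; ring⟩
  obtain ⟨v, v1, v2, v3⟩ := hQ.exists_qv_ne_zero_perp hm x f 0
  rw [zero_add] at v3
  obtain ⟨a, ha⟩ : ∃ a, a = (c - (X ^ (n + 1)) ^ 2 * C (qv Q v)) %ₘ P := ⟨_, rfl⟩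
  have h1 : a.natDegree ≤ n + 1 := ha ▸ top_lt hP hn _
  refine ⟨a • (C ∘ x) + C ∘ f + (X ^ (n + 1) : k[X]) • (C ∘ v), fun j => ?_, ?_, ?_, ?_⟩
  · refine natDegree_add_le_of_degree_le (natDegree_add_le_of_degree_le
      ((natDegree_mul_C_le a _).trans h1) (by simp))
      ((natDegree_mul_C_le (X ^ (n + 1)) _).trans (natDegree_X_pow_le _))
  · rw [qv_add, qv_add, bv_add_left, qv_smul, qv_smul, bv_smul_left, bv_smul_left, bv_smul_right,
      bv_smul_right, qv_map, qv_map, qv_map, bv_map, bv_map, bv_map, hx0, f1, f2, bv_comm Q x, v1,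
      bv_comm Q f, v2]
    have := dvd_modByMonic_sub (c - (X ^ (n + 1)) ^ 2 * C (qv Q v)) P
    rw [← ha] at this
    refine this.trans (dvd_of_eq ?_)
    simp only [map_zero, map_one]
    ring
  · have : (fun j => ((a • (C ∘ x) + C ∘ f + (X ^ (n + 1) : k[X]) • (C ∘ v)) j).coeff (n + 1)) =
        a.coeff (n + 1) • x + v := funext fun j => by simp
    rw [this, qv_add, qv_smul, bv_smul_left, bv_comm, v1, hx0]
    simpa using v3
  · rw [bv_add_left, bv_add_left, bv_smul_left, bv_smul_left, bv_map, bv_map, bv_map, bv_self, hx0,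
      bv_comm Q f, f2, v1]
    simp

section
variable {S : Type*} [CommRing S] [Algebra k S]

theorem btop_key [Infinite k] [Module.Finite k S] (l : S →ₗ[k] k) {R : Matrix (Fin m) (Fin m) S}
    {w y v : Fin m → S} (hw : Good R w)
    (h : ∀ u, qv R u = qv R w → Good R u → ∀ i, l (u i) = 0) {c : k} (hc : c ≠ 0)
    (hy : qv R y = algebraMap k S c) {i : Fin m} (hi : y i = 0) : l (bv R w y * v i) = 0 := by
  obtain ⟨N, n1, D', n2⟩ := top_norm (k := k)
    (D := C (qv R y) + C (bv R y v) * X + C (qv R v) * X ^ 2)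
    (by simpa [hy] using (isUnit_iff_ne_zero.2 hc).map (algebraMap k S))
  have hl : ∀ a s, a * l s = l (algebraMap k S a * s) := fun a s => by
    rw [← Algebra.smul_def, map_smul, smul_eq_mul]
  obtain ⟨F, hF⟩ := top_poly l ((C (bv R w y) + C (bv R w v) * X) * D' * C (v i))
  have h1 : ∀ e, qv R (y + algebraMap k S e • v) * D'.eval (algebraMap k S e) =
      algebraMap k S (N.eval e) := fun e => by
    have := congrArg (eval (algebraMap k S e)) n2
    rw [eval_map, eval₂_at_apply] at this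
    rw [this, qv_add, qv_smul, bv_smul_right]
    simp only [eval_mul, eval_add, eval_C, eval_X, eval_pow]
    ring
  have h2 : F * (X * N) = 0 := Polynomial.funext fun e => by
    rw [eval_mul, eval_mul, eval_X, eval_zero]
    rcases eq_or_ne (N.eval e) 0 with h0 | h0
    · rw [h0, mul_zero, mul_zero]
    have h3 : IsUnit (qv R (y + algebraMap k S e • v)) :=
      isUnit_of_mul_isUnit_left (h1 e ▸ (isUnit_iff_ne_zero.2 h0).map _)
    have h4 := h _ (qv_refl h3 w) (hw.refl h3) i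
    have h5 := congrArg (Ring.inverse (qv R (y + algebraMap k S e • v)) * ·) (h1 e)
    simp only [← mul_assoc, Ring.inverse_mul_cancel _ h3, one_mul] at h5
    simp only [refl, Pi.sub_apply, map_sub, h w rfl hw, zero_sub, neg_eq_zero, Pi.smul_apply,
      Pi.add_apply, hi, zero_add, smul_eq_mul, bv_add_right, bv_smul_right] at h4
    have h6 : F.eval e * e = N.eval e * 0 := by
      rw [← h4, hF, mul_comm, hl, hl]
      simp only [eval_mul, eval_add, eval_C, eval_X, h5]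
      exact congrArg l (by ring)
    rw [← mul_assoc, h6, mul_zero, zero_mul]
  have h3 := hF 0
  have h4 := h1 0
  rw [(mul_eq_zero.1 h2).resolve_right (mul_ne_zero X_ne_zero fun h0 => n1 (by simp [h0]))] at h3
  rw [map_zero, zero_smul, add_zero, hy, ← coeff_zero_eq_eval_zero N] at h4
  refine (mul_eq_zero.1 (?_ : N.coeff 0 * _ = 0)).resolve_left n1
  rw [← mul_zero c, ← eval_zero (x := (0 : k)), h3, hl, hl, ← h4]
  simp only [map_zero, eval_mul, eval_add, eval_C, eval_X]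
  exact congrArg l (by ring)

end

theorem btop_aniso [Infinite k] (hm : 2 ≤ m)
    (han : ∀ x, qv Q x = 0 → x = 0) {P : k[X]} (hP : P.Monic) {n : ℕ} (hn : P.natDegree = n + 1)
    (w : Fin m → k[X]) (hw : Good ((Q.map C).map (AdjoinRoot.mk P)) (AdjoinRoot.mk P ∘ w)) :
    ∃ w' : Fin m → k[X], (∀ i, (w' i).natDegree ≤ n) ∧
      P ∣ qv (Q.map C) w' - qv (Q.map C) w ∧ qv Q (fun i => (w' i).coeff n) ≠ 0 ∧
      Good ((Q.map C).map (AdjoinRoot.mk P)) (AdjoinRoot.mk P ∘ w') := by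
  by_contra h
  have := hP.finite_adjoinRoot
  have := Fin.nontrivial_iff_two_le.2 hm
  let l : AdjoinRoot P →ₗ[k] k := (lcoeff k n).comp (AdjoinRoot.modByMonicHom hP)
  have h0 : ∀ s, (AdjoinRoot.modByMonicHom hP s).natDegree ≤ n := fun s => by
    obtain ⟨a, rfl⟩ := AdjoinRoot.mk_surjective s
    exact top_lt hP hn a
  have h1 : ∀ u, qv ((Q.map C).map (AdjoinRoot.mk P)) u =
      qv ((Q.map C).map (AdjoinRoot.mk P)) (AdjoinRoot.mk P ∘ w) →
      Good ((Q.map C).map (AdjoinRoot.mk P)) u → ∀ i, l (u i) = 0 := by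
    intro u hu hg
    have e : AdjoinRoot.mk P ∘ (fun i => AdjoinRoot.modByMonicHom hP (u i)) = u :=
      funext fun i => AdjoinRoot.mk_leftInverse hP (u i)
    refine congrFun (han _ (by_contra fun hne =>
      h ⟨fun i => AdjoinRoot.modByMonicHom hP (u i), fun i => h0 _, ?_, hne, by rwa [e]⟩))
    rw [← AdjoinRoot.mk_eq_mk, ← qv_map, ← qv_map, ← hu, e]
  have h2 : ∀ b : AdjoinRoot P, (∀ s, l (b * s) = 0) → b = 0 := fun b hb => by
    obtain ⟨a, ha⟩ : ∃ a, a = AdjoinRoot.modByMonicHom hP b := ⟨_, rfl⟩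
    have h3 : a.natDegree ≤ n := ha ▸ h0 b
    have h4 : AdjoinRoot.mk P a = b := ha ▸ AdjoinRoot.mk_leftInverse hP b
    have h5 := hb (AdjoinRoot.mk P (X ^ (n - a.natDegree)))
    rw [← h4, ← map_mul] at h5
    change ((a * X ^ (n - a.natDegree)) %ₘ P).coeff n = 0 at h5
    rw [(modByMonic_eq_self_iff hP).2 (degree_lt_degree (natDegree_mul_le.trans_lt
      (by rw [natDegree_X_pow]; omega))), coeff_mul_X_pow', if_pos (Nat.sub_le _ _),
      Nat.sub_sub_self h3] at h5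
    rw [← h4, leadingCoeff_eq_zero.1 h5, map_zero]
  have h3 : ∀ j, bv ((Q.map C).map (AdjoinRoot.mk P)) (AdjoinRoot.mk P ∘ w) (Pi.single j 1) = 0 :=
    fun j => h2 _ fun s => by
      obtain ⟨i, hi⟩ := exists_ne j
      exact btop_key l hw h1 (v := fun _ => s) (c := Q j j)
        (fun h0 => by simpa using congrFun (han _ ((qv_single Q j).trans h0)) j)
        (qv_single _ j) (Pi.single_eq_of_ne hi _)
  obtain ⟨y, hy⟩ := hw
  simp only [bv, dotProduct_mulVec, dotProduct_single, mul_one] at h3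
  rw [bv, dotProduct_mulVec, funext h3] at hy
  have h5 : (0 : AdjoinRoot P) = 1 := (zero_dotProduct y).symm.trans hy
  have h6 : P ∣ 1 := AdjoinRoot.mk_eq_zero.1 (by rw [map_one, ← h5])
  have := natDegree_eq_zero_of_isUnit (isUnit_of_dvd_one h6)
  omega

end Pool.Agent.P.MP_c1f06d_ag
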