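import Pool.Agent.P.MP_c1f06d_ag.Avoid

open Matrix Polynomial

universe u

namespace Pool.Agent.P.MP_c1f06d_ag

open IsLocalRing

variable {T : Type*} [CommRing T] [IsLocalRing T] [Infinite (ResidueField T)] {m : ℕ}
  {Q : Matrix (Fin m) (Fin m) T}

omit [Infinite (ResidueField T)] in
theorem cd_gen {a b c : T} (d e : T) (h : IsUnit a ∨ IsUnit b ∨ IsUnit c) :
    ∀ᶠ x in Gen T, IsUnit (a + b * x + c * x ^ 2 + d * x ^ 3 + e * x ^ 4) := by
  have key : ∀ i, IsUnit ((C a + C b * X + C c * X ^ 2 + C d * X ^ 3 + C e * X ^ 4).coeff i) →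
      ∀ᶠ x in Gen T, IsUnit (a + b * x + c * x ^ 2 + d * x ^ 3 + e * x ^ 4) := fun i hi => by
    simpa using eventually_isUnit (R := T) _ i hi
  rcases h with h | h | h
  · exact key 0 (by simpa using h)
  · exact key 1 (by simpa [coeff_X, coeff_C] using h)
  · exact key 2 (by simpa [coeff_X, coeff_C] using h)

theorem cd_step {h : Matrix (Fin m) (Fin m) T} (hh : Carries h Q Q) {y d0 d : Fin m → T}
    (h0 : IsUnit (qv Q d0)) (hd : bv Q y d = 1) :
    ∃ l : List (Fin m → T), (∀ v ∈ l, IsUnit (qv Q v)) ∧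
      (l.map (reflMat Q)).prod *ᵥ h *ᵥ y = y ∧ ∀ w, h *ᵥ w = w → bv Q w d0 = 0 → bv Q w d = 0 →
        (l.map (reflMat Q)).prod *ᵥ w = w := by
  have ho : ∀ w, h *ᵥ w = w → bv Q w (h *ᵥ y) = bv Q w y := fun w hw => by
    rw [← hh.bv w y, hw]
  by_cases hu : IsUnit (qv Q (h *ᵥ y - y))
  · refine ⟨[h *ᵥ y - y], by simpa using hu, ?_, fun w hw _ _ => ?_⟩
    · simpa [-mulVec_mulVec, reflMat_mulVec] using refl_sub (hh y) hu
    · simpa [reflMat_mulVec] using refl_of_bv_eq_zero (by rw [bv_sub_right, ho w hw, sub_self])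
  have := gen_neBot (R := T)
  obtain ⟨e, e0, e1, e2⟩ := ((cd_gen (b := bv Q d0 d) (c := qv Q d + bv Q d0 (h *ᵥ d))
    (bv Q d (h *ᵥ d)) (qv Q (h *ᵥ d)) (.inl h0)).and
    ((cd_gen (a := bv Q y d0) (c := bv Q y (h *ᵥ d)) 0 0 (.inr (.inl isUnit_one))).and
    (cd_gen (a := bv Q (h *ᵥ y) d0) (b := bv Q (h *ᵥ y) d) 0 0
      (.inr (.inr isUnit_one))))).exists
  obtain ⟨z, hz⟩ : ∃ z, z = d0 + e • d + e ^ 2 • h *ᵥ d := ⟨_, rfl⟩
  have hb : ∀ w, bv Q w z = bv Q w d0 + e * bv Q w d + e ^ 2 * bv Q w (h *ᵥ d) := fun w => by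
    rw [hz, bv_add_right, bv_add_right, bv_smul_right, bv_smul_right]
  have z0 : IsUnit (qv Q z) := by
    refine (congrArg IsUnit ?_).mpr e0
    simp only [hz, qv_add, qv_smul, bv_add_left, bv_smul_left, bv_smul_right]
    ring
  have z1 : IsUnit (bv Q y z) := by
    refine (congrArg IsUnit ?_).mpr e1
    rw [hb, hd]
    ring
  have z2 : IsUnit (bv Q (h *ᵥ y) z) := by
    refine (congrArg IsUnit ?_).mpr e2
    rw [hb, hh.bv, hd]
    ring
  have hq : qv Q (refl Q z (h *ᵥ y)) = qv Q y := by rw [qv_refl z0, hh]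
  have z3 : IsUnit (qv Q (refl Q z (h *ᵥ y) - y)) := by
    have e : qv Q (refl Q z (h *ᵥ y) - y) =
        qv Q (h *ᵥ y - y) + bv Q (h *ᵥ y) z * Ring.inverse (qv Q z) * bv Q y z := by
      rw [qv_sub, qv_sub, hq, hh, bv_refl_left, bv_comm Q z y]
      ring
    have u := (z2.mul z0.ringInverse).mul z1
    rw [← add_sub_cancel_left (qv Q (h *ᵥ y - y)) (_ * _ * _), ← e, sub_eq_add_neg] at u
    exact (isUnit_or_isUnit_of_isUnit_add u).resolve_right fun h => hu (by simpa using h)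
  refine ⟨[refl Q z (h *ᵥ y) - y, z], by simpa using ⟨z3, z0⟩, ?_, fun w hw w0 w1 => ?_⟩
  · simpa [← mulVec_mulVec, reflMat_mulVec] using refl_sub hq z3
  · have w2 : bv Q w z = 0 := by
      rw [hb, w0, w1, ← hw, hh.bv, w1]
      ring
    have w3 : bv Q w (refl Q z (h *ᵥ y) - y) = 0 := by
      rw [bv_sub_right, bv_comm, bv_refl_left, bv_comm Q z, w2, bv_comm, ho w hw]
      ring
    simp [← mulVec_mulVec, reflMat_mulVec, refl_of_bv_eq_zero w2, refl_of_bv_eq_zero w3]

omit [IsLocalRing T] [Infinite (ResidueField T)] in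
theorem cd_list {l : List (Fin m → T)} (hl : ∀ v ∈ l, IsUnit (qv Q v)) :
    Carries (l.map (reflMat Q)).prod Q Q ∧
      (l.reverse.map (reflMat Q)).prod * (l.map (reflMat Q)).prod = 1 := by
  induction l with
  | nil => simpa using carries_one
  | cons a l ih =>
    obtain ⟨h1, h2⟩ := ih fun v hv => hl v (List.mem_cons_of_mem a hv)
    have ha := hl a List.mem_cons_self
    refine ⟨h1.mul (carries_reflMat ha), ?_⟩
    simp only [List.reverse_cons, List.map_append, List.prod_append, List.map_cons, List.prod_cons,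
      List.map_nil, List.prod_nil, mul_one]
    rw [mul_assoc, ← mul_assoc (reflMat Q a), reflMat_mul_self ha, one_mul, h2]

/-- Every isometry is a product of reflections. -/
theorem cartan_dieudonne (hQ : Unim Q) {g : Matrix (Fin m) (Fin m) T} (hg : Carries g Q Q) :
    ∃ l : List (Fin m → T), (∀ v ∈ l, IsUnit (qv Q v)) ∧ g = (l.map (reflMat Q)).prod := by
  rcases Nat.eq_zero_or_pos m with rfl | hm
  · exact ⟨[], by simp, Subsingleton.elim _ _⟩
  obtain ⟨d0, h0⟩ := hQ.exists_isUnit_qv hm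
  obtain ⟨j0, u, hu⟩ : ∃ j, IsUnit (d0 j) := by
    by_contra hn
    exact (qv_mem_span Q d0 (maximalIdeal T) fun i hi => hn ⟨i, hi⟩) h0
  choose v hv using fun i => hQ.exists_dual
    (if i = j0 then Pi.single j0 (↑u⁻¹ : T) else Pi.single i 1 - Pi.single j0 (d0 i * ↑u⁻¹))
  have v0 : ∀ i, bv Q (v i) d0 = if i = j0 then 1 else 0 := fun i => by
    rw [bv_comm, hv]
    split_ifs <;> simp [← hu, mul_comm (d0 i)]
  have v1 : ∀ i k, k ≠ j0 → bv Q (v i) (Pi.single k 1) = if i = k then 1 else 0 := by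
    intro i k hk
    rw [bv_comm, hv]
    split_ifs with h1 h2 <;> simp_all [eq_comm]
  have ins : ∀ (s : Finset (Fin m)) i, j0 ∉ s → i ∉ s → (∃ l : List (Fin m → T),
      (∀ v ∈ l, IsUnit (qv Q v)) ∧ ∀ j ∈ s, ((l.map (reflMat Q)).prod * g) *ᵥ v j = v j) →
      ∃ l : List (Fin m → T), (∀ v ∈ l, IsUnit (qv Q v)) ∧
        ∀ j ∈ insert i s, ((l.map (reflMat Q)).prod * g) *ᵥ v j = v j := by
    rintro s i hj hi ⟨l, hl, hs⟩
    obtain ⟨l', a1, a2, a3⟩ := cd_step (hg.mul (cd_list hl).1) (y := v i)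
      (d := if i = j0 then d0 else Pi.single i 1) h0 (by split_ifs with h <;> simp [v0, v1, h])
    refine ⟨l' ++ l, fun v hv => (List.mem_append.1 hv).elim (a1 v) (hl v), fun j hj' => ?_⟩
    rw [List.map_append, List.prod_append, mul_assoc, ← mulVec_mulVec]
    rcases Finset.mem_insert.1 hj' with rfl | hj'
    · exact a2
    have b1 : j ≠ j0 := fun e => hj (e ▸ hj')
    have b2 : j ≠ i := fun e => hi (e ▸ hj')
    rw [hs j hj']
    exact a3 _ (hs j hj') (by simp [v0, b1]) (by split_ifs with h <;> simp [v0, v1, h, b1, b2])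
  have all : ∀ s : Finset (Fin m), j0 ∉ s → ∃ l : List (Fin m → T),
      (∀ v ∈ l, IsUnit (qv Q v)) ∧ ∀ j ∈ s, ((l.map (reflMat Q)).prod * g) *ᵥ v j = v j := by
    intro s
    induction s using Finset.induction_on with
    | empty => exact fun _ => ⟨[], by simp, by simp⟩
    | insert i s hi ih =>
      exact fun h => ins s i (fun e => h (Finset.mem_insert_of_mem e)) hi
        (ih fun e => h (Finset.mem_insert_of_mem e))
  obtain ⟨l, hl, hs⟩ := ins (Finset.univ.erase j0) j0 (by simp) (by simp) (all _ (by simp))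
  refine ⟨l.reverse, by simpa using hl, ?_⟩
  have e : (l.map (reflMat Q)).prod * g = 1 := by
    refine Matrix.toLin'.injective (LinearMap.ext fun x => ?_)
    have c : ∀ i, bv Q (((l.map (reflMat Q)).prod * g) *ᵥ x - x) (v i) = 0 := fun i => by
      rw [bv_sub_left, ← (hg.mul (cd_list hl).1).bv x, hs i (by simp), sub_self]
    rw [toLin'_apply, toLin'_apply, one_mulVec, ← sub_eq_zero]
    generalize ((l.map (reflMat Q)).prod * g) *ᵥ x - x = w at c
    have c0 : w j0 = 0 := by simpa [hv] using c j0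
    funext i
    by_cases h : i = j0
    · exact h ▸ c0
    · simpa [hv, h, c0] using c i
  rw [← one_mul g, ← (cd_list hl).2, mul_assoc, e, mul_one]

end Pool.Agent.P.MP_c1f06d_ag
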