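import Pool.Agent.P.MP_c1f06d_ag.Tors2
import Pool.Agent.P.MP_c1f06d_ag.CD

open Matrix Polynomial

universe u

namespace Pool.Agent.P.MP_c1f06d_ag

open CliffordAlgebra IsLocalRing TensorProduct

variable {R : Type u} [CommRing R] {m : ℕ} {Q : Matrix (Fin m) (Fin m) R}
variable {E : Type u} [CommRing E] [Algebra R E]
variable {S : Type u} [CommRing S] [Algebra R S]
variable {K : Type u} [Field K] [Algebra R K]

theorem h90_one [IsLocalRing S] [Module.Flat R S]
    (g : ∀ (T : Type u) [CommRing T] [Algebra R T], (S →ₐ[R] T) → (S →ₐ[R] T) → T)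
    (hnat : ∀ (T T' : Type u) [CommRing T] [Algebra R T] [CommRing T'] [Algebra R T']
      (f : T →ₐ[R] T') (a b : S →ₐ[R] T), f (g T a b) = g T' (f.comp a) (f.comp b))
    (hone : ∀ (T : Type u) [CommRing T] [Algebra R T] (a : S →ₐ[R] T), g T a a = 1)
    (hmul : ∀ (T : Type u) [CommRing T] [Algebra R T] (a b c : S →ₐ[R] T),
      g T b c * g T a b = g T a c) :
    ∃ s : S, IsUnit s ∧ ∀ (T : Type u) [CommRing T] [Algebra R T] (a b : S →ₐ[R] T),
      g T a b * a s = b s := by
  obtain ⟨h, h1, h2⟩ := h90 (R := R) (S := S) (n := 1)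
    (fun T _ _ a b => Matrix.of fun _ _ => g T a b)
    (fun T T' _ _ _ _ f a b => by ext i j; simp [hnat])
    (fun T _ _ a => by ext i j; rw [Subsingleton.elim i j]; simp [hone])
    (fun T _ _ a b c => by ext i j; simp [Matrix.mul_apply, hmul])
  refine ⟨h 0 0, by simpa using h1, fun T _ _ a b => ?_⟩
  simpa [Matrix.mul_apply] using congrFun (congrFun (h2 T a b) 0) 0

section
variable {T T' : Type u} [CommRing T] [Algebra R T] [CommRing T'] [Algebra R T']

theorem clMap_smul (f : T →ₐ[R] T') (c : T) (x : Cl Q T) :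
    clMap Q f (c • x) = f c • clMap Q f x := by
  rw [Algebra.smul_def, Algebra.smul_def, map_mul, clMap_algebraMap]

theorem cl_smul_cancel {x : Cl Q T} (hx : IsUnit x) {c c' : T} (h : c • x = c' • x) : c = c' := by
  rw [Algebra.smul_def, Algebra.smul_def] at h
  exact cl_algebraMap_injective (hx.mul_right_cancel h)

theorem spin_reverse_mul (x : Spin Q T) : reverse x.val.val * x.val.val = 1 := by
  have h : x.val.val * reverse x.val.val = 1 := x.2.2.1
  rw [← Units.inv_eq_of_mul_eq_one_right h, Units.inv_mul]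

theorem reverse_spin_mul (x : Spin Q T) (y : Cl Q T) :
    reverse (x.val.val * y) * (x.val.val * y) = reverse y * y := by
  rw [reverse.map_mul, mul_assoc, ← mul_assoc (reverse x.val.val), spin_reverse_mul, one_mul]

theorem reverse_smul_mul (c : T) (y : Cl Q T) :
    reverse (c • y) * (c • y) = c ^ 2 • (reverse y * y) := by
  rw [map_smul, smul_mul_smul_comm, pow_two]

theorem isUnit_det_mapAlg {h : Matrix (Fin m) (Fin m) T} (hh : IsUnit h.det) (f : T →ₐ[R] T') :
    IsUnit (h.map f).det := by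
  have := hh.map f
  rwa [AlgHom.map_det] at this

theorem isUnit_list_prod {l : List (Fin m → T)} {Q1 : Matrix (Fin m) (Fin m) T}
    (hl : ∀ v ∈ l, IsUnit (qv Q1 v)) : IsUnit (l.map (qv Q1)).prod :=
  List.prod_isUnit fun a ha => by
    obtain ⟨v, hv, rfl⟩ := List.mem_map.1 ha
    exact hl v hv

end

/-- The cocycle is the coboundary of an even Clifford unit whose norm comes from `R`. -/
theorem SpinAction.exists_lift (τ : SpinAction Q E) (hQ : Unim Q) (hm : 1 ≤ m) [IsLocalRing R]
    [IsLocalRing S] [Module.FaithfullyFlat R S] [Infinite (ResidueField S)] (e : E →ₐ[R] S)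
    (h : Matrix (Fin m) (Fin m) S)
    (hc : Carries h (Q.map (algebraMap R S)) (Q.map (algebraMap R S)))
    (hh : ∀ (T : Type u) [CommRing T] [Algebra R T] (a b : S →ₐ[R] T),
      τ.gmat (a.comp e) (b.comp e) * h.map a = h.map b) :
    ∃ (x : Cl Q S) (h' : Matrix (Fin m) (Fin m) S) (c : R), IsUnit x ∧
      x ∈ even (formOver Q S) ∧ Ind Q x h' ∧
      Carries h' (Q.map (algebraMap R S)) (Q.map (algebraMap R S)) ∧ IsUnit c ∧
      reverse x * x = algebraMap S (Cl Q S) (algebraMap R S c) ∧
      ∀ (T : Type u) [CommRing T] [Algebra R T] (a b : S →ₐ[R] T),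
        (τ.gam (a.comp e) (b.comp e)).val.val * clMap Q a x = clMap Q b x := by
  obtain ⟨v0, h0⟩ := hQ.exists_isUnit_qv hm
  have hQS : Unim (Q.map (algebraMap R S)) := hQ.map _
  obtain ⟨l, h', hl, hle, hp, hc', hh'⟩ : ∃ (l : List (Fin m → S)) (h' : Matrix (Fin m) (Fin m) S),
      (∀ v ∈ l, IsUnit (qv (Q.map (algebraMap R S)) v)) ∧ Even l.length ∧
      h' = (l.map (reflMat (Q.map (algebraMap R S)))).prod ∧
      Carries h' (Q.map (algebraMap R S)) (Q.map (algebraMap R S)) ∧
      ∀ (T : Type u) [CommRing T] [Algebra R T] (a b : S →ₐ[R] T),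
        τ.gmat (a.comp e) (b.comp e) * h'.map a = h'.map b := by
    obtain ⟨l, hl, hp⟩ := cartan_dieudonne hQS hc
    rcases Nat.even_or_odd l.length with he | ho
    · exact ⟨l, h, hl, he, hp, hc, hh⟩
    · refine ⟨l ++ [algebraMap R S ∘ v0], h * (reflMat Q v0).map (algebraMap R S), ?_, ?_, ?_,
        ((carries_reflMat h0).map _).mul hc, ?_⟩
      · intro v hv
        rcases List.mem_append.1 hv with hv | hv
        · exact hl v hv
        · rw [List.mem_singleton.1 hv, qv_map]; exact h0.map _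
      · simpa using ho.add_one
      · rw [List.map_append, List.prod_append, ← hp, reflMat_map _ h0]; simp
      · intro T _ _ a b
        rw [map_mul_algHom, map_mul_algHom, map_algebraMap_algHom, map_algebraMap_algHom,
          ← Matrix.mul_assoc, hh]
  have hyi : Ind Q (vprod Q l) h' := hp ▸ vprod_ind l hl
  have hyu : IsUnit (vprod Q l) := isUnit_vprod l hl
  have hdet : IsUnit h'.det := hc'.isUnit_det hQS
  have hex : ∀ (T : Type u) [CommRing T] [Algebra R T] (a b : S →ₐ[R] T), ∃ c : T,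
      (τ.gam (a.comp e) (b.comp e)).val.val * clMap Q a (vprod Q l) = c • clMap Q b (vprod Q l) := by
    intro T _ _ a b
    have h1 := (τ.gmat_ind (a.comp e) (b.comp e)).mul (hyi.map a)
    rw [hh'] at h1
    exact Ind.exists_smul hQ (isUnit_det_mapAlg hdet b) (hyu.map _) h1 (hyi.map b)
  choose c hcs using hex
  obtain ⟨s, hs, hcs'⟩ := h90_one (R := R) (S := S) c
    (fun T T' _ _ _ _ f a b => by
      have h1 := congrArg (clMap Q f) (hcs T a b)
      rw [map_mul, clMap_smul, τ.gam_map hQ, clMap_comp, clMap_comp] at h1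
      exact cl_smul_cancel (hyu.map _) (h1.symm.trans (hcs T' (f.comp a) (f.comp b))))
    (fun T _ _ a => by
      have h1 := hcs T a a
      rw [τ.gam_self] at h1
      refine cl_smul_cancel (Q := Q) (hyu.map (clMap Q a)) ?_
      rw [← h1, one_smul]; exact one_mul _)
    (fun T _ _ a b d => by
      refine cl_smul_cancel (Q := Q) (hyu.map (clMap Q d)) ?_
      rw [← hcs T a d, ← τ.gam_mul (a.comp e) (b.comp e) (d.comp e), mul_comm, mul_smul,
        ← hcs T b d, ← mul_smul_comm, ← hcs T a b, ← mul_assoc]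
      rfl)
  have hrel : ∀ (T : Type u) [CommRing T] [Algebra R T] (a b : S →ₐ[R] T),
      (τ.gam (a.comp e) (b.comp e)).val.val * clMap Q a (s • vprod Q l) =
        clMap Q b (s • vprod Q l) := by
    intro T _ _ a b
    rw [clMap_smul, clMap_smul, mul_smul_comm, hcs, smul_smul, mul_comm, hcs']
  have hN : reverse (s • vprod Q l) * (s • vprod Q l) = algebraMap S (Cl Q S)
      (s ^ 2 * (l.map (qv (Q.map (algebraMap R S)))).prod) := by
    rw [reverse_smul_mul, reverse_vprod_mul, map_mul, Algebra.smul_def]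
  obtain ⟨c0, hc0⟩ := desc_base (R := R) (s ^ 2 * (l.map (qv (Q.map (algebraMap R S)))).prod) (by
    intro T _ _ a b
    apply cl_algebraMap_injective (Q := Q)
    rw [← clMap_algebraMap, ← clMap_algebraMap, ← hN, map_mul, map_mul, clMap_reverse,
      clMap_reverse, ← hrel T a b, reverse_spin_mul])
  refine ⟨s • vprod Q l, h', c0, ?_, ?_, hyi.smul s, hc', ?_, by rw [hN, hc0], hrel⟩
  · rw [Algebra.smul_def]; exact (hs.map _).mul hyu
  · have h1 := vprod_mem_evenOdd (Q := Q) l
    rw [(ZMod.natCast_eq_zero_iff_even).2 hle] at h1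
    exact Submodule.smul_mem _ s h1
  · refine IsUnit.of_map (algebraMap R S) _ ?_
    rw [hc0]; exact (hs.pow 2).mul (isUnit_list_prod hl)

/-- The norm is a spinor norm over `K`. -/
theorem SpinAction.sn_generic (τ : SpinAction Q E) (hQ : Unim Q) [Infinite K]
    [Nontrivial (K ⊗[R] S)] (e : E →ₐ[R] S) (eK : E →ₐ[R] K) (x : Cl Q S)
    (h : Matrix (Fin m) (Fin m) S) (c : R) (hm : 1 ≤ m) (hx : IsUnit x)
    (he : x ∈ even (formOver Q S)) (hi : Ind Q x h)
    (hc : Carries h (Q.map (algebraMap R S)) (Q.map (algebraMap R S)))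
    (hn : reverse x * x = algebraMap S (Cl Q S) (algebraMap R S c))
    (hh : ∀ (T : Type u) [CommRing T] [Algebra R T] (a b : S →ₐ[R] T),
      (τ.gam (a.comp e) (b.comp e)).val.val * clMap Q a x = clMap Q b x) :
    Sn (Q.map (algebraMap R K)) (algebraMap R K c) := by
  have hQK : Unim (Q.map (algebraMap R K)) := hQ.map _
  have hinf : Infinite (ResidueField K) :=
    Infinite.of_injective (residue K) (RingHom.injective _)
  obtain ⟨hK, hhK⟩ := τ.descend_mat hQ e eK h (fun T _ _ a b => by
    have h1 := (τ.gmat_ind (a.comp e) (b.comp e)).mul (hi.map a)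
    rw [hh] at h1
    exact Ind.unique (hx.map _) h1 (hi.map b))
  set j : K →ₐ[R] K ⊗[R] S := Algebra.TensorProduct.includeLeft with hj
  set r : S →ₐ[R] K ⊗[R] S := Algebra.TensorProduct.includeRight with hr
  have hjinj : Function.Injective j := RingHom.injective j.toRingHom
  have hcK : Carries hK (Q.map (algebraMap R K)) (Q.map (algebraMap R K)) := by
    refine Carries.of_mapAlg j hjinj ?_
    rw [hhK]
    exact (hc.mapAlg _).mul (τ.gmat_carries _ _)
  obtain ⟨l, hl, hp⟩ := cartan_dieudonne hQK hcK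
  have hyi : Ind Q (vprod Q l) hK := hp ▸ vprod_ind l hl
  have hyu : IsUnit (vprod Q l) := isUnit_vprod l hl
  have h1 := (τ.gmat_ind (r.comp e) (j.comp eK)).mul (hi.map r)
  rw [← hhK] at h1
  obtain ⟨c', hc'⟩ := Ind.exists_smul hQ (isUnit_det_mapAlg (hcK.isUnit_det hQK) j) (hyu.map _) h1
    (hyi.map j)
  obtain ⟨k, hk⟩ := desc_field c' (fun T _ _ a b hab => by
    have e1 : ∀ a : K ⊗[R] S →ₐ[R] T, a c' • clMap Q (a.comp j) (vprod Q l) =
        (τ.gam ((a.comp r).comp e) ((a.comp j).comp eK)).val.val * clMap Q (a.comp r) x := by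
      intro a
      have h2 := congrArg (clMap Q a) hc'
      rw [map_mul, clMap_smul, τ.gam_map hQ, clMap_comp, clMap_comp] at h2
      exact h2.symm
    refine cl_smul_cancel (Q := Q) (hyu.map (clMap Q (a.comp j))) ?_
    rw [e1, hab, e1, ← hh T (a.comp r) (b.comp r), ← mul_assoc,
      ← τ.gam_mul ((a.comp r).comp e) ((b.comp r).comp e) ((b.comp j).comp eK)]
    rfl)
  have hN : algebraMap R K c = k ^ 2 * (l.map (qv (Q.map (algebraMap R K)))).prod := by
    apply hjinj
    apply cl_algebraMap_injective (Q := Q)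
    have h2 := reverse_spin_mul (τ.gam (r.comp e) (j.comp eK)) (clMap Q r x)
    rw [hc', reverse_smul_mul, ← clMap_reverse, ← clMap_reverse, ← map_mul, ← map_mul, hn,
      reverse_vprod_mul, clMap_algebraMap, clMap_algebraMap, AlgHom.commutes] at h2
    rw [AlgHom.commutes, ← h2, map_mul j, map_pow, hk, map_mul, Algebra.smul_def]
  have hle : Even l.length := by
    by_contra hodd
    have ho : ((l.map fun v => j ∘ v).length : ZMod 2) = 1 := by
      rw [List.length_map]
      exact (ZMod.natCast_eq_one_iff_odd).2 (Nat.not_even_iff_odd.1 hodd)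
    have h3 := vprod_mem_evenOdd (Q := Q) (l.map fun v => j ∘ v)
    rw [ho, ← clMap_vprod] at h3
    have h4 : c' • clMap Q j (vprod Q l) ∈ evenOdd (formOver Q (K ⊗[R] S)) 1 :=
      Submodule.smul_mem _ _ h3
    have h5 : c' • clMap Q j (vprod Q l) ∈ evenOdd (formOver Q (K ⊗[R] S)) 0 := by
      rw [← hc']
      exact (even (formOver Q (K ⊗[R] S))).mul_mem (τ.gam (r.comp e) (j.comp eK)).2.1
        (clMap_even Q r he)
    have h6 := (Submodule.disjoint_def.1 (evenOdd_isCompl _).disjoint) _ h5 h4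
    have h7 : IsUnit (c' • clMap Q j (vprod Q l)) := by
      rw [← hc']; exact (Units.isUnit _).mul (hx.map _)
    have : Nontrivial (Cl Q (K ⊗[R] S)) := (cl_algebraMap_injective (Q := Q)).nontrivial
    rw [h6] at h7
    exact not_isUnit_zero h7
  obtain ⟨v0, h0⟩ := hQK.exists_isUnit_qv hm
  rw [hN]
  exact (sn_sq h0 k).mul ⟨l, hle, rfl⟩

end Pool.Agent.P.MP_c1f06d_ag
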