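import Pool.Agent.P.MP_c1f06d_ag.BCliff
import Pool.Agent.P.MP_c1f06d_ag.BCD
import Pool.Agent.P.MP_c1f06d_ag.Tors3

open Matrix Polynomial

universe u

namespace Pool.Agent.P.MP_c1f06d_ag

open CliffordAlgebra IsLocalRing TensorProduct

variable {R : Type u} [CommRing R] {m : ℕ} {Q : Matrix (Fin m) (Fin m) R} {r ρ : Fin m → R}
variable {E : Type u} [CommRing E] [Algebra R E]
variable {T T' : Type u} [CommRing T] [Algebra R T] [CommRing T'] [Algebra R T']

/-- `x` induces `g` on the extended module. -/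
def IndJ (Q : Matrix (Fin m) (Fin m) R) (ρ : Fin m → R) {T : Type u} [CommRing T] [Algebra R T]
    (x : Cl Q T) (g : Matrix (Fin (m + 1)) (Fin (m + 1)) T) : Prop :=
  Ind (ext Q ρ) (jmap Q ρ T x) g

theorem indJ_one : IndJ Q ρ (1 : Cl Q T) 1 := by
  rw [IndJ, map_one]; exact ind_one

theorem IndJ.mul {x y : Cl Q T} {h k : Matrix (Fin (m + 1)) (Fin (m + 1)) T} (hx : IndJ Q ρ x h)
    (hy : IndJ Q ρ y k) : IndJ Q ρ (x * y) (h * k) := by
  rw [IndJ, map_mul]; exact Ind.mul hx hy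

theorem IndJ.smul {x : Cl Q T} {h : Matrix (Fin (m + 1)) (Fin (m + 1)) T} (hx : IndJ Q ρ x h)
    (c : T) : IndJ Q ρ (c • x) h := by
  rw [IndJ, map_smul]; exact Ind.smul hx c

theorem IndJ.map {x : Cl Q T} {h : Matrix (Fin (m + 1)) (Fin (m + 1)) T} (hx : IndJ Q ρ x h)
    (f : T →ₐ[R] T') : IndJ Q ρ (clMap Q f x) (h.map f) := by
  rw [IndJ, jmap_clMap]; exact Ind.map hx f

theorem IndJ.unique {x : Cl Q T} {h k : Matrix (Fin (m + 1)) (Fin (m + 1)) T} (hu : IsUnit x)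
    (hx : IndJ Q ρ x h) (hk : IndJ Q ρ x k) : h = k :=
  Ind.unique (hu.map (jmap Q ρ T)) hx hk

theorem IndJ.exists_smul (hQ : Semi Q r ρ) {x y : Cl Q T}
    {h : Matrix (Fin (m + 1)) (Fin (m + 1)) T} (hh : IsUnit h.det) (hu : IsUnit y)
    (hx : IndJ Q ρ x h) (hy : IndJ Q ρ y h) : ∃ c : T, x = c • y := by
  obtain ⟨c, hc⟩ := Ind.exists_smul hQ.unim_ext hh (hu.map (jmap Q ρ T)) hx hy
  exact ⟨c, jmap_injective (ρ := ρ) (by rw [map_smul, hc])⟩

theorem qv_ext_cons0 (v : Fin m → T) :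
    qv ((ext Q ρ).map (algebraMap R T)) (Fin.cons 0 v) = qv (Q.map (algebraMap R T)) v := by
  rw [ext_map, qv_ext, zero_mul, zero_add]

/-- The product of the reflections of the extended module in a list of vectors. -/
noncomputable def rprod (Q : Matrix (Fin m) (Fin m) R) (ρ : Fin m → R) {T : Type u} [CommRing T]
    [Algebra R T] (l : List (Fin m → T)) : Matrix (Fin (m + 1)) (Fin (m + 1)) T :=
  ((l.map fun v => (Fin.cons 0 v : Fin (m + 1) → T)).map
    (reflMat ((ext Q ρ).map (algebraMap R T)))).prod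

theorem rprod_aux {l : List (Fin m → T)} (hl : ∀ v ∈ l, IsUnit (qv (Q.map (algebraMap R T)) v)) :
    ∀ v ∈ l.map fun v => (Fin.cons 0 v : Fin (m + 1) → T),
      IsUnit (qv ((ext Q ρ).map (algebraMap R T)) v) := fun v hv => by
  obtain ⟨x, hx, rfl⟩ := List.mem_map.1 hv
  rw [qv_ext_cons0]
  exact hl x hx

theorem vprod_indJ (l : List (Fin m → T)) (hl : ∀ v ∈ l, IsUnit (qv (Q.map (algebraMap R T)) v)) :
    IndJ Q ρ (vprod Q l) (rprod Q ρ l) := by
  rw [IndJ, jmap_vprod]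
  exact vprod_ind _ (rprod_aux hl)

theorem carries_rprod {l : List (Fin m → T)}
    (hl : ∀ v ∈ l, IsUnit (qv (Q.map (algebraMap R T)) v)) :
    Carries (rprod Q ρ l) ((ext Q ρ).map (algebraMap R T)) ((ext Q ρ).map (algebraMap R T)) := by
  have := rprod_aux (ρ := ρ) hl
  unfold rprod
  generalize l.map (fun v => (Fin.cons 0 v : Fin (m + 1) → T)) = L at this
  induction L with
  | nil => simpa using carries_one
  | cons a L ih =>
    rw [List.map_cons, List.prod_cons]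
    exact (ih fun v hv => this v (List.mem_cons_of_mem a hv)).mul
      (carries_reflMat (this a List.mem_cons_self))

theorem Semi.exists_rprod [IsLocalRing T] [Infinite (ResidueField T)] (hQ : Semi Q r ρ)
    {g : Matrix (Fin (m + 1)) (Fin (m + 1)) T}
    (hg : Carries g ((ext Q ρ).map (algebraMap R T)) ((ext Q ρ).map (algebraMap R T)))
    (hw : g *ᵥ (algebraMap R T ∘ wvec Q r) = algebraMap R T ∘ wvec Q r) :
    ∃ l : List (Fin m → T), (∀ v ∈ l, IsUnit (qv (Q.map (algebraMap R T)) v)) ∧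
      g = rprod Q ρ l := by
  rw [ext_map] at hg
  rw [wvec_map] at hw
  unfold rprod
  rw [ext_map]
  exact (hQ.map _).cartan_dieudonne hg hw

variable (τ : SpinAction Q E)

/-- The matrix, on the extended module, of the element that moves `e` to `e'`. -/
noncomputable def SpinAction.jmat (hQ : Semi Q r ρ) (e e' : E →ₐ[R] T) :
    Matrix (Fin (m + 1)) (Fin (m + 1)) T :=
  (hQ.spin_ind (τ.gam e e')).choose

theorem SpinAction.gam_map' (f : T →ₐ[R] T') (e e' : E →ₐ[R] T) :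
    clMap Q f (τ.gam e e').val.val = (τ.gam (f.comp e) (f.comp e')).val.val := by
  obtain ⟨x', hx'⟩ := exists_spin_map' f (τ.gam e e')
  have h := τ.natural T T' f _ (isBaseChangeMap_clMap Q f) _ x' e hx'
  rw [τ.act_gam] at h
  rw [hx', τ.gam_eq h.symm]

variable (hQ : Semi Q r ρ)

theorem SpinAction.jmat_ind (e e' : E →ₐ[R] T) :
    IndJ Q ρ (τ.gam e e').val.val (τ.jmat hQ e e') :=
  (hQ.spin_ind (τ.gam e e')).choose_spec.1

theorem SpinAction.jmat_carries (e e' : E →ₐ[R] T) :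
    Carries (τ.jmat hQ e e') ((ext Q ρ).map (algebraMap R T)) ((ext Q ρ).map (algebraMap R T)) :=
  (hQ.spin_ind (τ.gam e e')).choose_spec.2

theorem SpinAction.jmat_fix (e e' : E →ₐ[R] T) :
    τ.jmat hQ e e' *ᵥ (algebraMap R T ∘ wvec Q r) = algebraMap R T ∘ wvec Q r :=
  hQ.ind_fix (Units.isUnit _) (τ.jmat_ind hQ e e')

theorem SpinAction.jmat_self (e : E →ₐ[R] T) : τ.jmat hQ e e = 1 := by
  have h := τ.jmat_ind hQ e e
  rw [τ.gam_self] at h
  exact IndJ.unique isUnit_one h indJ_one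

theorem SpinAction.jmat_mul (e e' e'' : E →ₐ[R] T) :
    τ.jmat hQ e' e'' * τ.jmat hQ e e' = τ.jmat hQ e e'' := by
  have h := (τ.jmat_ind hQ e' e'').mul (τ.jmat_ind hQ e e')
  have h2 := τ.jmat_ind hQ e e''
  rw [← τ.gam_mul e e' e''] at h2
  exact IndJ.unique (Units.isUnit _) h h2

theorem SpinAction.jmat_map (f : T →ₐ[R] T') (e e' : E →ₐ[R] T) :
    (τ.jmat hQ e e').map f = τ.jmat hQ (f.comp e) (f.comp e') := by
  have h := (τ.jmat_ind hQ e e').map f
  rw [τ.gam_map'] at h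
  exact IndJ.unique (Units.isUnit _) h (τ.jmat_ind hQ _ _)

variable {S : Type u} [CommRing S] [Algebra R S]
variable {K : Type u} [Field K] [Algebra R K]

theorem SpinAction.descend_jmat [Nontrivial (K ⊗[R] S)]
    (e : E →ₐ[R] S) (eK : E →ₐ[R] K) (h : Matrix (Fin (m + 1)) (Fin (m + 1)) S)
    (hh : ∀ (T : Type u) [CommRing T] [Algebra R T] (a b : S →ₐ[R] T),
      τ.jmat hQ (a.comp e) (b.comp e) * h.map a = h.map b) :
    ∃ hK : Matrix (Fin (m + 1)) (Fin (m + 1)) K,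
      hK.map (Algebra.TensorProduct.includeLeft : K →ₐ[R] K ⊗[R] S) =
        τ.jmat hQ ((Algebra.TensorProduct.includeRight : S →ₐ[R] K ⊗[R] S).comp e)
          ((Algebra.TensorProduct.includeLeft : K →ₐ[R] K ⊗[R] S).comp eK) *
        h.map (Algebra.TensorProduct.includeRight : S →ₐ[R] K ⊗[R] S) := by
  set j : K →ₐ[R] K ⊗[R] S := Algebra.TensorProduct.includeLeft with hj
  set i2 : S →ₐ[R] K ⊗[R] S := Algebra.TensorProduct.includeRight with hr
  have key : ∀ i k, ∃ c, j c = (τ.jmat hQ (i2.comp e) (j.comp eK) * h.map i2) i k := by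
    intro i k
    refine desc_field _ fun T _ _ a b hab => ?_
    have e1 : ∀ a : K ⊗[R] S →ₐ[R] T, (τ.jmat hQ (i2.comp e) (j.comp eK) * h.map i2).map a =
        τ.jmat hQ ((a.comp i2).comp e) ((a.comp j).comp eK) * h.map (a.comp i2) := by
      intro a
      rw [map_mul_algHom, τ.jmat_map hQ, map_map_algHom]; rfl
    have e2 : (τ.jmat hQ (i2.comp e) (j.comp eK) * h.map i2).map a =
        (τ.jmat hQ (i2.comp e) (j.comp eK) * h.map i2).map b := by
      rw [e1, e1, ← hh T (a.comp i2) (b.comp i2), ← Matrix.mul_assoc, τ.jmat_mul, hab]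
    exact congrFun (congrFun e2 i) k
  choose c hc using key
  exact ⟨Matrix.of c, Matrix.ext fun i k => hc i k⟩

theorem mulVec_map_algHom {n : ℕ} (g : Matrix (Fin n) (Fin n) T) (x : Fin n → T) (a : T →ₐ[R] T') :
    a ∘ (g *ᵥ x) = g.map a *ᵥ (a ∘ x) :=
  funext fun i => RingHom.map_mulVec a.toRingHom g x i

theorem comp_algebraMap_algHom {n : ℕ} (x : Fin n → R) (a : T →ₐ[R] T') :
    a ∘ (algebraMap R T ∘ x) = algebraMap R T' ∘ x :=
  funext fun i => a.commutes (x i)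

/-- The cocycle is the coboundary of an isometry over `S` that fixes `wvec`. -/
theorem SpinAction.exists_jframe (hm : 4 ≤ m) [IsLocalRing R] [IsLocalRing S]
    [Module.FaithfullyFlat R S] [Nontrivial (K ⊗[R] S)]
    (HA : ∀ Q' : Matrix (Fin (m + 1)) (Fin (m + 1)) R, Unim Q' →
      Iso (Q'.map (algebraMap R K)) ((ext Q ρ).map (algebraMap R K)) → Iso Q' (ext Q ρ))
    (e : E →ₐ[R] S) (eK : E →ₐ[R] K) :
    ∃ h : Matrix (Fin (m + 1)) (Fin (m + 1)) S,
      Carries h ((ext Q ρ).map (algebraMap R S)) ((ext Q ρ).map (algebraMap R S)) ∧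
      h *ᵥ (algebraMap R S ∘ wvec Q r) = algebraMap R S ∘ wvec Q r ∧
      ∀ (T : Type u) [CommRing T] [Algebra R T] (a b : S →ₐ[R] T),
        τ.jmat hQ (a.comp e) (b.comp e) * h.map a = h.map b := by
  have hU0 := hQ.unim_ext
  obtain ⟨h, hdet, hh⟩ := h90 (R := R) (S := S) (n := m + 1)
    (fun T _ _ a b => τ.jmat hQ (a.comp e) (b.comp e))
    (fun T T' _ _ _ _ f a b => τ.jmat_map hQ f _ _) (fun T _ _ a => τ.jmat_self hQ _)
    (fun T _ _ a b c => τ.jmat_mul hQ _ _ _)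
  obtain ⟨Q', hQ'⟩ := desc_form (R := R) (hᵀ * (ext Q ρ).map (algebraMap R S) * h) (by
    intro T _ _ a b x
    have e1 : ∀ a : S →ₐ[R] T, qv ((hᵀ * (ext Q ρ).map (algebraMap R S) * h).map a) x =
        qv ((ext Q ρ).map (algebraMap R T)) (h.map a *ᵥ x) := by
      intro a
      rw [qv_mulVec, map_mul_algHom, map_mul_algHom, map_algebraMap_algHom, transpose_map]
    rw [e1, e1, ← hh T a b, ← mulVec_mulVec, τ.jmat_carries])
  have hc : Carries h (Q'.map (algebraMap R S)) ((ext Q ρ).map (algebraMap R S)) := fun x => by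
    rw [qv_mulVec, hQ']
  have hloc := isLocalHom_of_faithfullyFlat (R := R) (S := S)
  have hU : Unim Q' := Unim.of_map (algebraMap R S) (hc.unim hdet (hU0.map _))
  obtain ⟨hK, hhK⟩ := τ.descend_jmat hQ e eK h hh
  have hcK : Carries hK (Q'.map (algebraMap R K)) ((ext Q ρ).map (algebraMap R K)) := by
    refine Carries.of_mapAlg (Algebra.TensorProduct.includeLeft : K →ₐ[R] K ⊗[R] S)
      (RingHom.injective (Algebra.TensorProduct.includeLeft : K →ₐ[R] K ⊗[R] S).toRingHom) ?_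
    rw [hhK]
    exact (hc.mapAlg _).mul (τ.jmat_carries hQ _ _)
  obtain ⟨g, hg⟩ := HA Q' hU ⟨hK, hcK⟩
  obtain ⟨h1, hc1, hh1⟩ : ∃ h1 : Matrix (Fin (m + 1)) (Fin (m + 1)) S,
      Carries h1 ((ext Q ρ).map (algebraMap R S)) ((ext Q ρ).map (algebraMap R S)) ∧
      ∀ (T : Type u) [CommRing T] [Algebra R T] (a b : S →ₐ[R] T),
        τ.jmat hQ (a.comp e) (b.comp e) * h1.map a = h1.map b := by
    refine ⟨h * g⁻¹.map (algebraMap R S), ((hg.inv (hg.isUnit_det hU)).map _).mul hc, ?_⟩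
    intro T _ _ a b
    rw [map_mul_algHom, map_mul_algHom, map_algebraMap_algHom, map_algebraMap_algHom,
      ← Matrix.mul_assoc, hh]
  have hd1 : IsUnit h1.det := hc1.isUnit_det (hU0.map _)
  have e0 : h1 *ᵥ (h1⁻¹ *ᵥ (algebraMap R S ∘ wvec Q r)) = algebraMap R S ∘ wvec Q r := by
    rw [mulVec_mulVec, mul_nonsing_inv _ hd1, one_mulVec]
  generalize h1⁻¹ *ᵥ (algebraMap R S ∘ wvec Q r) = y at e0
  have inv : ∀ i, ∃ c, algebraMap R S c = y i := fun i => desc_base _ fun T _ _ a b => by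
    have e1 : ∀ a : S →ₐ[R] T, h1.map a *ᵥ (a ∘ y) = algebraMap R T ∘ wvec Q r := fun a => by
      rw [← mulVec_map_algHom, e0, comp_algebraMap_algHom]
    have e2 : h1.map b *ᵥ (a ∘ y) = h1.map b *ᵥ (b ∘ y) := by
      rw [e1 b, ← hh1 T a b, ← mulVec_mulVec, e1 a, τ.jmat_fix]
    have e3 := congrArg (fun v => (h1.map b)⁻¹ *ᵥ v) e2
    simp only [mulVec_mulVec, nonsing_inv_mul _ (isUnit_det_mapAlg hd1 b), one_mulVec] at e3
    exact congrFun e3 i
  choose w' hw' using inv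
  obtain rfl : algebraMap R S ∘ w' = y := funext hw'
  have hq : qv (ext Q ρ) w' = qv (ext Q ρ) (wvec Q r) :=
    FaithfulSMul.algebraMap_injective R S (by rw [← qv_map, ← qv_map, ← hc1, e0])
  have hu : IsUnit (qv (ext Q ρ) (wvec Q r)) := by rw [hQ.qv_wvec]; exact hQ.unit.neg
  obtain ⟨z, z1, z2⟩ := exists_two_refl hU0 (by omega) hq hu
  have z3 : (reflMat (ext Q ρ) (refl (ext Q ρ) z (wvec Q r) - w') * reflMat (ext Q ρ) z) *ᵥ
      wvec Q r = w' := by
    rw [← mulVec_mulVec, reflMat_mulVec, reflMat_mulVec]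
    exact refl_sub (by rw [qv_refl z1, hq]) z2
  have z4 := (carries_reflMat z1).mul (carries_reflMat z2)
  generalize reflMat (ext Q ρ) (refl (ext Q ρ) z (wvec Q r) - w') * reflMat (ext Q ρ) z = σ
    at z3 z4
  refine ⟨h1 * σ.map (algebraMap R S), (z4.map _).mul hc1, ?_, fun T _ _ a b => ?_⟩
  · have e1 : σ.map (algebraMap R S) *ᵥ (algebraMap R S ∘ wvec Q r) = algebraMap R S ∘ w' :=
      funext fun i => by rw [← RingHom.map_mulVec, z3]; rfl
    rw [← mulVec_mulVec, e1, e0]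
  · rw [map_mul_algHom, map_mul_algHom, map_algebraMap_algHom, map_algebraMap_algHom,
      ← Matrix.mul_assoc, hh1]

end Pool.Agent.P.MP_c1f06d_ag
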