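import Pool.Agent.P.MP_c1f06d_ag.Defs

open Matrix CliffordAlgebra

universe u

namespace Pool.Agent.P.MP_c1f06d_ag

variable {R : Type u} [CommRing R] {m : ℕ}

theorem formOver_apply (Q : Matrix (Fin m) (Fin m) R) (T : Type u) [CommRing T] [Algebra R T]
    (x : Fin m → T) : formOver Q T x = x ⬝ᵥ Q.map (algebraMap R T) *ᵥ x := by
  simp [formOver, Matrix.toQuadraticForm', toLinearMap₂'_apply']

variable {T T' : Type u} [CommRing T] [Algebra R T] [CommRing T'] [Algebra R T']

theorem formOver_map (Q : Matrix (Fin m) (Fin m) R) (f : T →ₐ[R] T') (x : Fin m → T) :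
    formOver Q T' (f ∘ x) = f (formOver Q T x) := by
  simp [formOver_apply, dotProduct, mulVec, map_sum]

/-- The scalars of `T` acting on the Clifford algebra over `T'` through `f`. -/
noncomputable def clScalar (Q : Matrix (Fin m) (Fin m) R) (f : T →ₐ[R] T') : T →+* Cl Q T' :=
  (algebraMap T' (Cl Q T')).comp f.toRingHom

theorem clScalar_comm (Q : Matrix (Fin m) (Fin m) R) (f : T →ₐ[R] T') (c : T) (x : Cl Q T') :
    clScalar Q f c * x = x * clScalar Q f c :=
  Algebra.commutes (f c) x

/-- The Clifford algebra over `T'` as a `T`-algebra through `f`. -/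
@[reducible] noncomputable def clAlg (Q : Matrix (Fin m) (Fin m) R) (f : T →ₐ[R] T') :
    Algebra T (Cl Q T') :=
  (clScalar Q f).toAlgebra' (clScalar_comm Q f)

/-- The vector `f ∘ v` in the Clifford algebra over `T'`. -/
noncomputable def clVec (Q : Matrix (Fin m) (Fin m) R) (f : T →ₐ[R] T') (v : Fin m → T) :
    Cl Q T' :=
  ι (formOver Q T') (f ∘ v)

theorem clVec_add (Q : Matrix (Fin m) (Fin m) R) (f : T →ₐ[R] T') (v w : Fin m → T) :
    clVec Q f (v + w) = clVec Q f v + clVec Q f w := by
  unfold clVec; rw [← map_add]; congr 1; funext i; simp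

theorem clVec_smul (Q : Matrix (Fin m) (Fin m) R) (f : T →ₐ[R] T') (c : T) (v : Fin m → T) :
    clVec Q f (c • v) = clScalar Q f c * clVec Q f v := by
  have : (f ∘ (c • v) : Fin m → T') = f c • (f ∘ v) := by funext i; simp
  unfold clVec; rw [this, map_smul, Algebra.smul_def]; rfl

theorem clVec_sq (Q : Matrix (Fin m) (Fin m) R) (f : T →ₐ[R] T') (v : Fin m → T) :
    clVec Q f v * clVec Q f v = clScalar Q f (formOver Q T v) := by
  unfold clVec; rw [ι_sq_scalar, formOver_map]; rfl

/-- `clVec` as a `T`-linear map. -/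
noncomputable def clLin (Q : Matrix (Fin m) (Fin m) R) (f : T →ₐ[R] T') :
    letI := clAlg Q f
    (Fin m → T) →ₗ[T] Cl Q T' :=
  letI := clAlg Q f
  { toFun := clVec Q f, map_add' := clVec_add Q f, map_smul' := clVec_smul Q f }

/-- Base change of Clifford algebras along an `R`-algebra map `f`: the ring map that is `f` on
scalars and `f` on the coordinates of vectors. -/
noncomputable def clMap (Q : Matrix (Fin m) (Fin m) R) (f : T →ₐ[R] T') : Cl Q T →+* Cl Q T' :=
  letI := clAlg Q f
  (CliffordAlgebra.lift (formOver Q T) ⟨clLin Q f, clVec_sq Q f⟩).toRingHom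

theorem clMap_ι (Q : Matrix (Fin m) (Fin m) R) (f : T →ₐ[R] T') (v : Fin m → T) :
    clMap Q f (ι (formOver Q T) v) = ι (formOver Q T') (f ∘ v) := by
  let _ := clAlg Q f
  exact CliffordAlgebra.lift_ι_apply _ _ v

theorem clMap_algebraMap (Q : Matrix (Fin m) (Fin m) R) (f : T →ₐ[R] T') (c : T) :
    clMap Q f (algebraMap T _ c) = algebraMap T' _ (f c) := by
  let _ := clAlg Q f
  exact AlgHom.commutes _ c

theorem clMap_reverse (Q : Matrix (Fin m) (Fin m) R) (f : T →ₐ[R] T') (x : Cl Q T) :
    clMap Q f (reverse x) = reverse (clMap Q f x) := by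
  induction x using CliffordAlgebra.induction with
  | algebraMap r => rw [reverse.commutes, clMap_algebraMap, reverse.commutes]
  | ι v => rw [reverse_ι, clMap_ι, reverse_ι]
  | mul a b ha hb => rw [reverse.map_mul, map_mul, map_mul, reverse.map_mul, ha, hb]
  | add a b ha hb => rw [map_add, map_add, map_add, map_add, ha, hb]

theorem clMap_even (Q : Matrix (Fin m) (Fin m) R) (f : T →ₐ[R] T') {x : Cl Q T}
    (hx : x ∈ even (formOver Q T)) : clMap Q f x ∈ even (formOver Q T') := by
  induction x, hx using CliffordAlgebra.even_induction with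
  | algebraMap r => rw [clMap_algebraMap]; exact Subalgebra.algebraMap_mem _ _
  | add x y _ _ hx hy => rw [map_add]; exact add_mem hx hy
  | ι_mul_ι_mul a b x _ hx =>
    rw [map_mul, map_mul, clMap_ι, clMap_ι]
    exact mul_mem (ι_mul_ι_mem_evenOdd_zero _ _ _) hx

theorem isBaseChangeMap_clMap (Q : Matrix (Fin m) (Fin m) R) (f : T →ₐ[R] T') :
    IsBaseChangeMap Q f (clMap Q f) :=
  ⟨clMap_algebraMap Q f, clMap_ι Q f⟩

end Pool.Agent.P.MP_c1f06d_ag
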