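import Pool.Agent.P.MP_c1f06d_ag.QBasic

open Matrix

namespace Pool.Agent.P.MP_c1f06d_ag

variable {T T' : Type*} [CommRing T] [CommRing T'] {m : ℕ}
variable {Q Q' : Matrix (Fin m) (Fin m) T}

theorem sn_one : Sn Q 1 := ⟨[], by simp, by simp⟩

theorem Sn.mul {a b : T} (ha : Sn Q a) (hb : Sn Q b) : Sn Q (a * b) := by
  obtain ⟨l, hl, rfl⟩ := ha
  obtain ⟨l', hl', rfl⟩ := hb
  exact ⟨l ++ l', by simpa using hl.add hl', by simp⟩

theorem sn_two (x y : Fin m → T) : Sn Q (qv Q x * qv Q y) := ⟨[x, y], by simp, by simp⟩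

theorem Sn.pow {a : T} (ha : Sn Q a) (k : ℕ) : Sn Q (a ^ k) := by
  induction k with
  | zero => simpa using sn_one
  | succ k ih => rw [pow_succ]; exact ih.mul ha

/-- Squares lie in `Sn` as soon as some value is a unit. -/
theorem sn_sq {v0 : Fin m → T} (h0 : IsUnit (qv Q v0)) (a : T) : Sn Q (a ^ 2) := by
  obtain ⟨u, hu⟩ := h0
  have h := sn_two (Q := Q) (a • v0) ((↑u⁻¹ : T) • v0)
  rw [qv_smul, qv_smul, ← hu] at h
  have e : a ^ 2 * ↑u * ((↑u⁻¹ : T) ^ 2 * ↑u) = a ^ 2 * (↑u * ↑u⁻¹) ^ 2 := by ring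
  rwa [e, Units.mul_inv, one_pow, mul_one] at h

/-- Cancel a unit of `Sn`. -/
theorem Sn.cancel {v0 : Fin m → T} (h0 : IsUnit (qv Q v0)) {a b : T} (hb : Sn Q b)
    (hu : IsUnit b) (hab : Sn Q (a * b)) : Sn Q a := by
  obtain ⟨u, rfl⟩ := hu
  have h := (hab.mul hb).mul (sn_sq h0 (↑u⁻¹ : T))
  have e : a * ↑u * ↑u * (↑u⁻¹ : T) ^ 2 = a * (↑u * ↑u⁻¹) ^ 2 := by ring
  rwa [e, Units.mul_inv, one_pow, mul_one] at h

/-- An odd power of a unit in `Sn` gives the unit. -/
theorem Sn.of_odd_pow {v0 : Fin m → T} (h0 : IsUnit (qv Q v0)) {a : T} (hu : IsUnit a) {n : ℕ}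
    (hn : Odd n) (h : Sn Q (a ^ n)) : Sn Q a := by
  obtain ⟨k, rfl⟩ := hn
  refine Sn.cancel h0 (sn_sq h0 (a ^ k)) ((hu.pow k).pow 2) ?_
  rwa [show a * (a ^ k) ^ 2 = a ^ (2 * k + 1) by ring]

theorem Sn.map {a : T} (ha : Sn Q a) (f : T →+* T') : Sn (Q.map f) (f a) := by
  obtain ⟨l, hl, rfl⟩ := ha
  refine ⟨l.map (fun x => f ∘ x), by simpa using hl, ?_⟩
  rw [map_list_prod, List.map_map, List.map_map]
  congr 1
  exact List.map_congr_left fun x _ => (qv_map Q f x).symm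

theorem Sn.of_iso {a : T} (ha : Sn Q a) (h : Iso Q Q') : Sn Q' a := by
  obtain ⟨l, hl, rfl⟩ := ha
  obtain ⟨g, hg⟩ := h
  refine ⟨l.map (fun x => g *ᵥ x), by simpa using hl, ?_⟩
  rw [List.map_map]
  congr 1
  exact List.map_congr_left fun x _ => (hg x).symm

theorem iso_sq_smul (Q : Matrix (Fin m) (Fin m) T) (a : T) : Iso (a ^ 2 • Q) Q :=
  ⟨a • 1, fun x => by rw [smul_mulVec, one_mulVec, qv_smul, qv_smul_mat]⟩

theorem Unim.smul (h : Unim Q) {a : T} (ha : IsUnit a) : Unim (a • Q) := by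
  unfold Unim at *
  rw [transpose_smul, ← smul_add, det_smul]
  exact (ha.pow _).mul h

/-- Every linear form is represented by the polar form. -/
theorem Unim.exists_dual (h : Unim Q) (a : Fin m → T) : ∃ y, ∀ x, bv Q x y = x ⬝ᵥ a :=
  ⟨(Q + Qᵀ)⁻¹ *ᵥ a, fun x => by
    unfold bv; rw [mulVec_mulVec, mul_nonsing_inv _ h, one_mulVec]⟩

theorem Unim.exists_bv_eq (h : Unim Q) (i : Fin m) : ∃ y, ∀ x, bv Q x y = x i := by
  obtain ⟨y, hy⟩ := h.exists_dual (Pi.single i 1)
  exact ⟨y, fun x => by rw [hy]; simp⟩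

theorem Unim.eq_zero (h : Unim Q) {x : Fin m → T} (hx : ∀ y, bv Q x y = 0) : x = 0 := by
  funext i
  obtain ⟨y, hy⟩ := h.exists_bv_eq i
  rw [← hy x, hx]; rfl

/-- A vector with a unit coordinate pairs to one with some vector. -/
theorem Unim.exists_bv_one (h : Unim Q) {x : Fin m → T} {i : Fin m} (hx : IsUnit (x i)) :
    ∃ y, bv Q x y = 1 := by
  obtain ⟨y, hy⟩ := h.exists_bv_eq i
  obtain ⟨u, hu⟩ := hx
  exact ⟨(↑u⁻¹ : T) • y, by rw [bv_smul_right, hy, ← hu, Units.inv_mul]⟩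

theorem qv_mem_span (Q : Matrix (Fin m) (Fin m) T) (x : Fin m → T) (I : Ideal T)
    (hx : ∀ i, x i ∈ I) : qv Q x ∈ I := by
  unfold qv dotProduct
  exact I.sum_mem fun i _ => I.mul_mem_right _ (hx i)

/-- A vector with unit value pairs to one with some vector. -/
theorem Unim.exists_bv_one_of_isUnit (h : Unim Q) {x : Fin m → T} (hx : IsUnit (qv Q x)) :
    ∃ y, bv Q x y = 1 := by
  obtain ⟨u, hu⟩ := hx
  obtain ⟨y, hy⟩ := h.exists_dual (Q *ᵥ x)
  exact ⟨(↑u⁻¹ : T) • y, by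
    rw [bv_smul_right, hy]; change _ * qv Q x = 1; rw [← hu, Units.inv_mul]⟩

theorem Unim.exists_isUnit_qv [IsLocalRing T] (h : Unim Q) (hm : 1 ≤ m) :
    ∃ v, IsUnit (qv Q v) := by
  by_contra hne
  push Not at hne
  have hm' : ∀ v, qv Q v ∈ IsLocalRing.maximalIdeal T := fun v => hne v
  obtain ⟨y, hy⟩ := h.exists_bv_one (x := Pi.single ⟨0, hm⟩ 1) (i := ⟨0, hm⟩) (by simp)
  have e := qv_add Q (Pi.single ⟨0, hm⟩ 1) y
  rw [hy] at e
  have : (1 : T) ∈ IsLocalRing.maximalIdeal T := by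
    have := Ideal.sub_mem _ (Ideal.sub_mem _ (hm' (Pi.single ⟨0, hm⟩ 1 + y))
      (hm' (Pi.single ⟨0, hm⟩ 1))) (hm' y)
    rwa [e, show ∀ a b : T, a + b + 1 - a - b = 1 from fun a b => by ring] at this
  exact (IsLocalRing.maximalIdeal.isMaximal T).ne_top ((Ideal.eq_top_iff_one _).2 this)

theorem qv_refl {z : Fin m → T} (hz : IsUnit (qv Q z)) (w : Fin m → T) :
    qv Q (refl Q z w) = qv Q w := by
  unfold refl
  rw [qv_sub, qv_smul, bv_smul_right]
  have h := Ring.inverse_mul_cancel _ hz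
  linear_combination (bv Q w z) ^ 2 * Ring.inverse (qv Q z) * h

theorem map_ringInverse (f : T →+* T') {a : T} (ha : IsUnit a) :
    f (Ring.inverse a) = Ring.inverse (f a) := by
  have h := congrArg f (Ring.inverse_mul_cancel _ ha)
  rw [map_mul, map_one] at h
  have h2 := Ring.inverse_mul_cancel _ (ha.map f)
  linear_combination (Ring.inverse (f a)) * h - f (Ring.inverse a) * h2

theorem refl_map (f : T →+* T') {z : Fin m → T} (hz : IsUnit (qv Q z)) (w : Fin m → T) :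
    f ∘ refl Q z w = refl (Q.map f) (f ∘ z) (f ∘ w) := by
  funext i
  simp only [refl, Function.comp_apply, Pi.sub_apply, Pi.smul_apply, smul_eq_mul, map_sub, map_mul,
    bv_map, qv_map, map_ringInverse f hz]

/-- The reflection in `w - w'` sends `w` to `w'`. -/
theorem refl_sub {w w' : Fin m → T} (h : qv Q w = qv Q w') (hu : IsUnit (qv Q (w - w'))) :
    refl Q (w - w') w = w' := by
  have e : bv Q w (w - w') = qv Q (w - w') := by
    rw [bv_sub_right, bv_self, qv_sub, ← h]; ring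
  unfold refl
  rw [e, Ring.mul_inverse_cancel _ hu, one_smul, sub_sub_cancel]

theorem refl_of_bv_eq_zero {z w : Fin m → T} (h : bv Q w z = 0) : refl Q z w = w := by
  unfold refl; rw [h, zero_mul, zero_smul, sub_zero]

theorem bv_refl_left (z w v : Fin m → T) :
    bv Q (refl Q z w) v = bv Q w v - bv Q w z * Ring.inverse (qv Q z) * bv Q z v := by
  unfold refl; rw [bv_sub_left, bv_smul_left]

/-- The matrix of a reflection. -/
noncomputable def reflMat (Q : Matrix (Fin m) (Fin m) T) (z : Fin m → T) :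
    Matrix (Fin m) (Fin m) T :=
  1 - Ring.inverse (qv Q z) • vecMulVec z ((Q + Qᵀ) *ᵥ z)

theorem reflMat_mulVec (z w : Fin m → T) : reflMat Q z *ᵥ w = refl Q z w := by
  unfold reflMat refl
  rw [sub_mulVec, one_mulVec, smul_mulVec, vecMulVec_mulVec]
  funext i
  simp only [Pi.sub_apply, Pi.smul_apply, smul_eq_mul, MulOpposite.smul_eq_mul_unop,
    MulOpposite.unop_op, bv, dotProduct_comm ((Q + Qᵀ) *ᵥ z) w]
  ring

theorem carries_reflMat {z : Fin m → T} (hz : IsUnit (qv Q z)) : Carries (reflMat Q z) Q Q :=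
  fun x => by rw [reflMat_mulVec, qv_refl hz]

theorem refl_refl {z : Fin m → T} (hz : IsUnit (qv Q z)) (w : Fin m → T) :
    refl Q z (refl Q z w) = w := by
  have h := Ring.inverse_mul_cancel _ hz
  have e : bv Q (refl Q z w) z = -bv Q w z := by
    rw [bv_refl_left, bv_self]; linear_combination (-2 * bv Q w z) * h
  rw [refl, e, refl]
  funext i
  simp only [Pi.sub_apply, Pi.smul_apply, smul_eq_mul]
  ring

theorem reflMat_mul_self {z : Fin m → T} (hz : IsUnit (qv Q z)) :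
    reflMat Q z * reflMat Q z = 1 := by
  apply Matrix.toLin'.injective
  ext1 w
  apply LinearMap.ext
  intro c
  simp only [LinearMap.comp_apply, toLin'_apply, ← mulVec_mulVec, reflMat_mulVec, refl_refl hz,
    one_mulVec]

theorem reflMat_map (f : T →+* T') {z : Fin m → T} (hz : IsUnit (qv Q z)) :
    (reflMat Q z).map f = reflMat (Q.map f) (f ∘ z) := by
  ext i j
  have e : f (((Q + Qᵀ) *ᵥ z) j) = ((Q.map f + (Q.map f)ᵀ) *ᵥ (f ∘ z)) j := by
    rw [polar_map]; exact RingHom.map_mulVec f _ z j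
  simp only [reflMat, Matrix.map_apply, Matrix.sub_apply, Matrix.smul_apply, vecMulVec_apply,
    smul_eq_mul, _root_.map_sub,
    _root_.map_mul, qv_map, map_ringInverse f hz, e, Function.comp_apply, Matrix.one_apply]
  split_ifs <;> simp

theorem Carries.of_map {g : Matrix (Fin m) (Fin m) T} (f : T →+* T') (hf : Function.Injective f)
    (h : Carries (g.map f) (Q.map f) (Q'.map f)) : Carries g Q Q' := by
  rw [carries_iff] at h ⊢
  have e : (g.map f)ᵀ * Q'.map f * g.map f = (gᵀ * Q' * g).map f := by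
    rw [Matrix.map_mul, Matrix.map_mul, transpose_map]
  rw [e, polar_map, polar_map] at h
  exact ⟨fun i => hf (h.1 i), Matrix.map_injective hf h.2⟩

/-- In a finite algebra over a local ring, units are detected modulo the maximal ideal. -/
theorem isUnit_of_sub_mem_map {R S : Type*} [CommRing R] [IsLocalRing R] [CommRing S]
    [Algebra R S] [Module.Finite R S] {x y : S} (hy : IsUnit y)
    (h : x - y ∈ (IsLocalRing.maximalIdeal R).map (algebraMap R S)) : IsUnit x := by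
  by_contra hx
  obtain ⟨n, hn, hxn⟩ := exists_max_ideal_of_mem_nonunits hx
  have h1 : n.comap (algebraMap R S) = IsLocalRing.maximalIdeal R :=
    IsLocalRing.eq_maximalIdeal (Ideal.isMaximal_comap_of_isIntegral_of_isMaximal n)
  have h2 : x - y ∈ n := Ideal.map_le_iff_le_comap.2 h1.ge h
  have h3 : y ∈ n := by simpa using n.sub_mem hxn h2
  exact hn.ne_top (n.eq_top_of_isUnit_mem h3 hy)

end Pool.Agent.P.MP_c1f06d_ag
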