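import Pool.Agent.P.MP_c1f06d_ag.ClMap
import Pool.Agent.P.MP_c1f06d_ag.QSn

open Matrix Polynomial

universe u

namespace Pool.Agent.P.MP_c1f06d_ag

open CliffordAlgebra

variable {R : Type u} [CommRing R] {m : ℕ} {Q : Matrix (Fin m) (Fin m) R}
variable {T T' T'' : Type u} [CommRing T] [Algebra R T] [CommRing T'] [Algebra R T']
  [CommRing T''] [Algebra R T'']

theorem formOver_eq_qv (x : Fin m → T) : formOver Q T x = qv (Q.map (algebraMap R T)) x :=
  formOver_apply Q T x

theorem cl_algebraMap_injective : Function.Injective (algebraMap T (Cl Q T)) := by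
  have h : LinearMap.BilinMap.toQuadraticMap
      (-(Matrix.toLinearMap₂' T (Q.map (algebraMap R T)))) =
        (0 : QuadraticForm T (Fin m → T)) - formOver Q T := by
    ext x
    simp [formOver_apply, toLinearMap₂'_apply']
  intro a b hab
  have h2 := congrArg (changeForm h) hab
  rw [changeForm_algebraMap, changeForm_algebraMap] at h2
  exact (ExteriorAlgebra.algebraMap_leftInverse (R := T) (Fin m → T)).injective h2

theorem cl_ι_injective : Function.Injective (ι (formOver Q T)) := by
  intro v w h
  funext i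
  have h2 := congrArg (contractLeft (Q := formOver Q T) (LinearMap.proj i)) h
  rw [contractLeft_ι, contractLeft_ι] at h2
  exact cl_algebraMap_injective h2

theorem clMap_involute (f : T →ₐ[R] T') (x : Cl Q T) :
    clMap Q f (involute x) = involute (clMap Q f x) := by
  induction x using CliffordAlgebra.induction with
  | algebraMap r => rw [AlgHom.commutes, clMap_algebraMap, AlgHom.commutes]
  | ι v => rw [involute_ι, map_neg, clMap_ι, involute_ι]
  | mul a b ha hb => rw [map_mul, map_mul, map_mul, map_mul, ha, hb]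
  | add a b ha hb => rw [map_add, map_add, map_add, map_add, ha, hb]

theorem clMap_comp (f : T →ₐ[R] T') (g : T' →ₐ[R] T'') (x : Cl Q T) :
    clMap Q g (clMap Q f x) = clMap Q (g.comp f) x := by
  induction x using CliffordAlgebra.induction with
  | algebraMap r => rw [clMap_algebraMap, clMap_algebraMap, clMap_algebraMap]; rfl
  | ι v => rw [clMap_ι, clMap_ι, clMap_ι]; rfl
  | mul a b ha hb => rw [map_mul, map_mul, map_mul, ha, hb]
  | add a b ha hb => rw [map_add, map_add, map_add, ha, hb]

/-- `x` induces the matrix `h` by twisted conjugation. -/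
def Ind (Q : Matrix (Fin m) (Fin m) R) {T : Type u} [CommRing T] [Algebra R T] (x : Cl Q T)
    (h : Matrix (Fin m) (Fin m) T) : Prop :=
  ∀ v, involute x * ι (formOver Q T) v = ι (formOver Q T) (h *ᵥ v) * x

theorem ind_one : Ind Q (1 : Cl Q T) 1 := by
  intro v
  rw [map_one, one_mul, one_mulVec, mul_one]

theorem Ind.mul {x y : Cl Q T} {h k : Matrix (Fin m) (Fin m) T} (hx : Ind Q x h)
    (hy : Ind Q y k) : Ind Q (x * y) (h * k) := by
  intro v
  rw [map_mul, mul_assoc, hy, ← mul_assoc, hx, mul_assoc, mulVec_mulVec]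

theorem Ind.smul {x : Cl Q T} {h : Matrix (Fin m) (Fin m) T} (hx : Ind Q x h) (c : T) :
    Ind Q (c • x) h := by
  intro v
  rw [map_smul, smul_mul_assoc, hx, mul_smul_comm]

theorem cliff_polar (x y : Fin m → T) :
    QuadraticMap.polar (formOver Q T) x y = bv (Q.map (algebraMap R T)) x y := by
  rw [QuadraticMap.polar, formOver_eq_qv, formOver_eq_qv, formOver_eq_qv, qv_add]; ring

theorem ind_ι {z : Fin m → T} (hz : IsUnit (qv (Q.map (algebraMap R T)) z)) :
    Ind Q (ι (formOver Q T) z) (reflMat (Q.map (algebraMap R T)) z) := by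
  intro v
  have h1 := ι_mul_ι_add_swap (Q := formOver Q T) v z
  rw [cliff_polar] at h1
  have h2 := Ring.inverse_mul_cancel _ hz
  rw [involute_ι, reflMat_mulVec, refl, map_sub, map_smul, sub_mul, smul_mul_assoc, ι_sq_scalar,
    formOver_eq_qv, Algebra.smul_def, ← map_mul (algebraMap T _), mul_assoc, h2, mul_one, ← h1]
  noncomm_ring

theorem cliff_sum_single (v : Fin m → T) :
    (∑ i, v i • Pi.single i (1 : T) : Fin m → T) = v := by
  funext j; simp [Finset.sum_apply, Pi.single_apply]

theorem Ind.map {x : Cl Q T} {h : Matrix (Fin m) (Fin m) T} (hx : Ind Q x h) (f : T →ₐ[R] T') :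
    Ind Q (clMap Q f x) (h.map f) := by
  intro v
  have key : ∀ i, involute (clMap Q f x) * ι (formOver Q T') (Pi.single i 1) =
      ι (formOver Q T') (h.map f *ᵥ Pi.single i 1) * clMap Q f x := by
    intro i
    have e : (f ∘ (Pi.single i 1 : Fin m → T) : Fin m → T') = Pi.single i 1 := by
      funext j
      by_cases hj : j = i
      · subst hj; simp
      · simp [Pi.single_eq_of_ne hj]
    have e2 : (f ∘ (h *ᵥ Pi.single i 1) : Fin m → T') = h.map f *ᵥ Pi.single i 1 := by
      funext j; simp
    have h1 := congrArg (clMap Q f) (hx (Pi.single i 1))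
    rwa [map_mul, map_mul, clMap_involute, clMap_ι, clMap_ι, e, e2] at h1
  rw [← cliff_sum_single v]
  simp only [map_sum, map_smul, Finset.mul_sum, mul_smul_comm, key, mulVec_sum, mulVec_smul,
    Finset.sum_mul, smul_mul_assoc]

theorem Ind.unique {x : Cl Q T} {h k : Matrix (Fin m) (Fin m) T} (hu : IsUnit x) (hx : Ind Q x h)
    (hk : Ind Q x k) : h = k := by
  have key : ∀ v, h *ᵥ v = k *ᵥ v := fun v =>
    cl_ι_injective (Q := Q) (hu.mul_right_cancel ((hx v).symm.trans (hk v)))
  ext i j
  simpa using congrFun (key (Pi.single j 1)) i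

theorem cliff_comm {M : Type*} [AddCommGroup M] [Module T M] (q : QuadraticForm T M) (v : M)
    (x : CliffordAlgebra q) :
    ι q v * x - involute x * ι q v = contractLeft (Q := q) (q.polarBilin v) x := by
  induction x using CliffordAlgebra.left_induction with
  | algebraMap r =>
    rw [AlgHom.commutes, contractLeft_algebraMap, Algebra.commutes, sub_self]
  | add a b ha hb =>
    rw [map_add, map_add, ← ha, ← hb]; noncomm_ring
  | ι_mul b a hb =>
    rw [contractLeft_ι_mul, ← hb, map_mul, involute_ι, QuadraticMap.polarBilin_apply_apply,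
      Algebra.smul_def, ← ι_mul_ι_add_swap]
    noncomm_ring

/-- The subalgebra generated by the basis vectors with index in `s`. -/
noncomputable def cliffSub (Q : Matrix (Fin m) (Fin m) R) (T : Type u) [CommRing T] [Algebra R T]
    (s : Finset (Fin m)) : Subalgebra T (Cl Q T) :=
  Algebra.adjoin T ((fun j => ι (formOver Q T) (Pi.single j 1)) '' (s : Set (Fin m)))

theorem cliff_gen {s : Finset (Fin m)} {j : Fin m} (hj : j ∈ s) :
    ι (formOver Q T) (Pi.single j 1) ∈ cliffSub Q T s :=
  Algebra.subset_adjoin ⟨j, hj, rfl⟩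

theorem cliff_univ (x : Cl Q T) : x ∈ cliffSub Q T Finset.univ := by
  induction x using CliffordAlgebra.induction with
  | algebraMap r => exact Subalgebra.algebraMap_mem _ _
  | ι v =>
    rw [← cliff_sum_single v, map_sum]
    refine Subalgebra.sum_mem _ fun i _ => ?_
    rw [map_smul]
    exact Subalgebra.smul_mem _ (cliff_gen (Finset.mem_univ i)) _
  | mul a b ha hb => exact mul_mem ha hb
  | add a b ha hb => exact add_mem ha hb

theorem cliff_kill {s : Finset (Fin m)} {i : Fin m} (hi : i ∉ s) {x : Cl Q T}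
    (hx : x ∈ cliffSub Q T s) :
    contractLeft (Q := formOver Q T) (LinearMap.proj i) x = 0 := by
  have key : ∀ y, contractLeft (Q := formOver Q T) (LinearMap.proj i) y = 0 →
      contractLeft (Q := formOver Q T) (LinearMap.proj i) (x * y) = 0 := by
    induction hx using Algebra.adjoin_induction with
    | mem z hz =>
      obtain ⟨j, hj, rfl⟩ := hz
      intro y hy
      have hij : i ≠ j := fun h => hi (h ▸ hj)
      rw [contractLeft_ι_mul, hy]
      simp [Pi.single_eq_of_ne hij]
    | algebraMap r => intro y hy; rw [contractLeft_algebraMap_mul, hy, mul_zero]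
    | add a b _ _ ha hb => intro y hy; rw [add_mul, map_add, ha y hy, hb y hy, add_zero]
    | mul a b _ _ ha hb => intro y hy; rw [mul_assoc]; exact ha _ (hb y hy)
  simpa using key 1 (contractLeft_one _ _)

theorem cliff_split (i : Fin m) (s : Finset (Fin m)) {x : Cl Q T}
    (hx : x ∈ cliffSub Q T (insert i s)) :
    ∃ a ∈ cliffSub Q T s, ∃ b ∈ cliffSub Q T s,
      x = a + ι (formOver Q T) (Pi.single i 1) * b := by
  have key : ∀ a ∈ cliffSub Q T s, ∀ b ∈ cliffSub Q T s,
      ∃ a' ∈ cliffSub Q T s, ∃ b' ∈ cliffSub Q T s,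
        x * (a + ι (formOver Q T) (Pi.single i 1) * b) =
          a' + ι (formOver Q T) (Pi.single i 1) * b' := by
    induction hx using Algebra.adjoin_induction with
    | mem z hz =>
      obtain ⟨j, hj, rfl⟩ := hz
      intro a ha b hb
      rcases Finset.mem_insert.1 (Finset.mem_coe.1 hj) with rfl | hj
      · refine ⟨algebraMap T _ (formOver Q T (Pi.single j 1)) * b,
          mul_mem (Subalgebra.algebraMap_mem _ _) hb, a, ha, ?_⟩
        rw [← ι_sq_scalar]; noncomm_ring
      · refine ⟨ι (formOver Q T) (Pi.single j 1) * a +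
            algebraMap T _ (QuadraticMap.polar (formOver Q T) (Pi.single j 1) (Pi.single i 1)) * b,
          add_mem (mul_mem (cliff_gen hj) ha) (mul_mem (Subalgebra.algebraMap_mem _ _) hb),
          -(ι (formOver Q T) (Pi.single j 1) * b), neg_mem (mul_mem (cliff_gen hj) hb), ?_⟩
        rw [← ι_mul_ι_add_swap]; noncomm_ring
    | algebraMap r =>
      intro a ha b hb
      refine ⟨algebraMap T _ r * a, mul_mem (Subalgebra.algebraMap_mem _ _) ha,
        algebraMap T _ r * b, mul_mem (Subalgebra.algebraMap_mem _ _) hb, ?_⟩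
      rw [mul_add, ← mul_assoc, Algebra.commutes r (ι (formOver Q T) (Pi.single i 1)), mul_assoc]
    | add y z _ _ hy hz =>
      intro a ha b hb
      obtain ⟨a1, ha1, b1, hb1, e1⟩ := hy a ha b hb
      obtain ⟨a2, ha2, b2, hb2, e2⟩ := hz a ha b hb
      refine ⟨a1 + a2, add_mem ha1 ha2, b1 + b2, add_mem hb1 hb2, ?_⟩
      rw [add_mul, e1, e2]; noncomm_ring
    | mul y z _ _ hy hz =>
      intro a ha b hb
      obtain ⟨a2, ha2, b2, hb2, e2⟩ := hz a ha b hb
      rw [mul_assoc, e2]
      exact hy a2 ha2 b2 hb2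
  simpa using key 1 (one_mem _) 0 (zero_mem _)

/-- An element that induces the identity is a scalar. -/
theorem Ind.exists_scalar (hQ : Unim Q) {x : Cl Q T} (hx : Ind Q x 1) :
    ∃ c, x = algebraMap T (Cl Q T) c := by
  have h0 : ∀ i, contractLeft (Q := formOver Q T) (LinearMap.proj i) x = 0 := by
    intro i
    obtain ⟨y, hy⟩ := (hQ.map (algebraMap R T)).exists_bv_eq i
    have e : (formOver Q T).polarBilin y = LinearMap.proj i := by
      apply LinearMap.ext
      intro w
      rw [QuadraticMap.polarBilin_apply_apply, cliff_polar, bv_comm, hy]; rfl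
    have h1 := cliff_comm (formOver Q T) y x
    rw [hx, one_mulVec, sub_self, e] at h1
    exact h1.symm
  have key : ∀ s : Finset (Fin m), x ∈ cliffSub Q T s → ∃ c, x = algebraMap T (Cl Q T) c := by
    intro s
    induction s using Finset.induction_on with
    | empty =>
      intro hx
      rw [cliffSub, Finset.coe_empty, Set.image_empty, Algebra.adjoin_empty, Algebra.mem_bot] at hx
      obtain ⟨c, hc⟩ := hx
      exact ⟨c, hc.symm⟩
    | insert i s hi ih =>
      intro hx
      obtain ⟨a, ha, b, hb, e⟩ := cliff_split i s hx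
      have h1 := h0 i
      rw [e, map_add, cliff_kill hi ha, contractLeft_ι_mul, cliff_kill hi hb] at h1
      have h2 : b = 0 := by simpa using h1
      apply ih
      rw [e, h2, mul_zero, add_zero]
      exact ha
  exact key Finset.univ (cliff_univ x)

/-- Two elements that induce the same isometry differ by a scalar. -/
theorem Ind.exists_smul (hQ : Unim Q) {x y : Cl Q T} {h : Matrix (Fin m) (Fin m) T}
    (hh : IsUnit h.det) (hu : IsUnit y) (hx : Ind Q x h) (hy : Ind Q y h) : ∃ c : T, x = c • y := by
  obtain ⟨u, rfl⟩ := hu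
  have h1 : Ind Q ((u⁻¹).val * x) 1 := by
    intro v
    have e : involute (u⁻¹).val * involute u.val = 1 := by
      rw [← map_mul, Units.inv_mul, map_one]
    have e2 : ι (formOver Q T) (h *ᵥ v) = involute u.val * ι (formOver Q T) v * (u⁻¹).val := by
      rw [hy, Units.mul_inv_cancel_right]
    rw [map_mul, mul_assoc, hx, e2, one_mulVec, ← mul_assoc, ← mul_assoc, ← mul_assoc, e, one_mul,
      mul_assoc]
  obtain ⟨c, hc⟩ := h1.exists_scalar hQ
  refine ⟨c, ?_⟩
  rw [Algebra.smul_def, Algebra.commutes, ← hc, Units.mul_inv_cancel_left]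

theorem spin_ind (x : Spin Q T) : ∃ h : Matrix (Fin m) (Fin m) T, Ind Q x.val.val h ∧
    Carries h (Q.map (algebraMap R T)) (Q.map (algebraMap R T)) := by
  obtain ⟨x, h1, h2, h3, h4⟩ := x
  have h5 := h3
  choose w hw using h5
  unfold Conj vec at hw
  have hc : ∀ {a b : Fin m → T},
      ι (formOver Q T) a * x.val = ι (formOver Q T) b * x.val → a = b := fun h =>
    cl_ι_injective (Q := Q) (x.isUnit.mul_right_cancel h)
  let g : (Fin m → T) →ₗ[T] (Fin m → T) :=
    { toFun := w
      map_add' := fun a b => hc (by rw [← hw, map_add, map_add, add_mul, mul_add, hw, hw])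
      map_smul' := fun c a => hc (by
        rw [← hw, map_smul, RingHom.id_apply, map_smul, smul_mul_assoc, mul_smul_comm, hw]) }
  refine ⟨LinearMap.toMatrix' g, fun v => ?_, fun v => ?_⟩
  · rw [LinearMap.toMatrix'_mulVec, involute_eq_of_mem_even h1]
    exact hw v
  · rw [LinearMap.toMatrix'_mulVec, ← formOver_eq_qv, ← formOver_eq_qv]
    apply cl_algebraMap_injective (Q := Q)
    apply x.isUnit.mul_right_cancel
    change algebraMap T _ (formOver Q T (w v)) * x.val = _
    rw [← ι_sq_scalar, mul_assoc, ← hw, ← mul_assoc, ← hw, mul_assoc, ι_sq_scalar,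
      Algebra.commutes]

theorem mem_spin {x : (Cl Q T)ˣ} {h : Matrix (Fin m) (Fin m) T} (hh : IsUnit h.det)
    (he : x.val ∈ even (formOver Q T)) (hn : reverse x.val * x.val = 1) (hx : Ind Q x.val h) :
    x ∈ Spin Q T := by
  have hi : involute x.val = x.val := involute_eq_of_mem_even he
  have e : (x⁻¹).val = reverse x.val := Units.inv_eq_of_mul_eq_one_left hn
  refine ⟨he, by rw [← e, Units.mul_inv], fun v => ⟨h *ᵥ v, by rw [Conj, vec, vec, ← hx, hi]⟩,
    fun w => ⟨h⁻¹ *ᵥ w, ?_⟩⟩
  have h1 := hx (h⁻¹ *ᵥ w)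
  rwa [hi, mulVec_mulVec, mul_nonsing_inv _ hh, one_mulVec] at h1

theorem exists_spin_map (hQ : Unim Q) (f : T →ₐ[R] T') (x : Spin Q T) :
    ∃ x' : Spin Q T', clMap Q f x.val.val = x'.val.val := by
  obtain ⟨h, h1, h2⟩ := spin_ind x
  have hd : IsUnit h.det := h2.isUnit_det (hQ.map _)
  have hd' : IsUnit (h.map f).det := by
    have := hd.map f.toRingHom
    rwa [RingHom.map_det] at this
  have e : (x.val⁻¹).val = reverse x.val.val := Units.inv_eq_of_mul_eq_one_right x.2.2.1
  refine ⟨⟨Units.map (clMap Q f).toMonoidHom x.val,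
    mem_spin hd' (clMap_even Q f x.2.1) ?_ (h1.map f)⟩, rfl⟩
  change reverse (clMap Q f x.val.val) * clMap Q f x.val.val = 1
  rw [← clMap_reverse, ← map_mul, ← e, Units.inv_mul, map_one]

/-- The product of a list of vectors. -/
noncomputable def vprod (Q : Matrix (Fin m) (Fin m) R) {T : Type u} [CommRing T] [Algebra R T]
    (l : List (Fin m → T)) : Cl Q T :=
  (l.map (ι (formOver Q T))).prod

theorem cliff_nil : vprod Q ([] : List (Fin m → T)) = 1 := rfl

theorem cliff_cons (a : Fin m → T) (l : List (Fin m → T)) :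
    vprod Q (a :: l) = ι (formOver Q T) a * vprod Q l := by
  rw [vprod, List.map_cons, List.prod_cons]; rfl

theorem vprod_ind (l : List (Fin m → T)) (hl : ∀ v ∈ l, IsUnit (qv (Q.map (algebraMap R T)) v)) :
    Ind Q (vprod Q l) (l.map (reflMat (Q.map (algebraMap R T)))).prod := by
  induction l with
  | nil => exact ind_one
  | cons a l ih =>
    rw [cliff_cons, List.map_cons, List.prod_cons]
    exact (ind_ι (hl a List.mem_cons_self)).mul (ih fun v hv => hl v (List.mem_cons_of_mem _ hv))

theorem reverse_vprod_mul (l : List (Fin m → T)) :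
    reverse (vprod Q l) * vprod Q l =
      algebraMap T (Cl Q T) (l.map (qv (Q.map (algebraMap R T)))).prod := by
  induction l with
  | nil => simp [cliff_nil]
  | cons a l ih =>
    rw [cliff_cons, reverse.map_mul, reverse_ι, mul_assoc, ← mul_assoc (ι (formOver Q T) a),
      ι_sq_scalar, ← mul_assoc, ← Algebra.commutes, mul_assoc, ih, ← map_mul, List.map_cons,
      List.prod_cons, formOver_eq_qv]

theorem vprod_mul_reverse (l : List (Fin m → T)) :
    vprod Q l * reverse (vprod Q l) =
      algebraMap T (Cl Q T) (l.map (qv (Q.map (algebraMap R T)))).prod := by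
  induction l with
  | nil => simp [cliff_nil]
  | cons a l ih =>
    rw [cliff_cons, reverse.map_mul, reverse_ι, mul_assoc, ← mul_assoc (vprod Q l), ih,
      Algebra.commutes, ← mul_assoc, ι_sq_scalar, ← map_mul, List.map_cons,
      List.prod_cons, formOver_eq_qv]

theorem isUnit_vprod (l : List (Fin m → T))
    (hl : ∀ v ∈ l, IsUnit (qv (Q.map (algebraMap R T)) v)) : IsUnit (vprod Q l) := by
  induction l with
  | nil => exact isUnit_one
  | cons a l ih =>
    rw [cliff_cons]
    refine IsUnit.mul ?_ (ih fun v hv => hl v (List.mem_cons_of_mem _ hv))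
    have h1 : IsUnit (ι (formOver Q T) a * ι (formOver Q T) a) := by
      rw [ι_sq_scalar, formOver_eq_qv]
      exact (hl a List.mem_cons_self).map _
    exact (isUnit_mul_self_iff).1 h1

theorem vprod_mem_evenOdd (l : List (Fin m → T)) :
    vprod Q l ∈ evenOdd (formOver Q T) (l.length : ZMod 2) := by
  induction l with
  | nil =>
    rw [cliff_nil, List.length_nil, Nat.cast_zero]
    exact one_le_evenOdd_zero _ (Submodule.one_le.1 le_rfl)
  | cons a l ih =>
    rw [cliff_cons, List.length_cons, Nat.cast_succ, add_comm]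
    exact evenOdd_mul_le _ _ _ (Submodule.mul_mem_mul (ι_mem_evenOdd_one _ a) ih)

theorem clMap_vprod (f : T →ₐ[R] T') (l : List (Fin m → T)) :
    clMap Q f (vprod Q l) = vprod Q (l.map fun v => f ∘ v) := by
  induction l with
  | nil => rw [cliff_nil, map_one, List.map_nil, cliff_nil]
  | cons a l ih => rw [cliff_cons, map_mul, clMap_ι, ih, List.map_cons, cliff_cons]

end Pool.Agent.P.MP_c1f06d_ag
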