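import Pool.Agent.P.MP_c1f06d_ag.CoreInf
import Pool.Agent.P.MP_c1f06d_ag.PresEx
import Pool.Agent.P.MP_c1f06d_ag.RX

open Matrix Polynomial

universe u

namespace Pool.Agent.P.MP_c1f06d_ag

open IsLocalRing

variable (V A : Type u) [CommRing V] [IsDomain V] [ValuationRing V] [CommRing A] [Algebra V A]
  [Algebra.Smooth V A] (p : Ideal A) [p.IsPrime] {R : Type u} [CommRing R] [IsDomain R]
  [Algebra A R] [IsLocalization.AtPrime R p] (K : Type u) [Field K] [Algebra R K]
  [IsFractionRing R K] {m : ℕ}

theorem exists_pres (V A : Type u) [CommRing V] [IsDomain V] [ValuationRing V] [CommRing A]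
    [Algebra V A] [Algebra.Smooth V A] (p : Ideal A) [p.IsPrime] (R : Type u) [CommRing R]
    [IsLocalRing R] [Algebra A R] [IsLocalization.AtPrime R p] :
    ∃ (V' : Type u) (_ : CommRing V') (_ : IsDomain V') (_ : ValuationRing V') (d : ℕ)
      (π : (MvPolynomial (Fin d) V')[X] →+* R) (G : (MvPolynomial (Fin d) V')[X]), Pres π G := by
  obtain ⟨d, π, G, h1, h2, h3⟩ := exists_locPres_of_smooth V A R p
  obtain ⟨V', _, _, _, π', G', h⟩ := exists_pres_of_locPres π G h1 h2 h3
  exact ⟨V', inferInstance, inferInstance, inferInstance, d, π', G', h⟩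

theorem exists_pres_RX (V A : Type u) [CommRing V] [IsDomain V] [ValuationRing V] [CommRing A]
    [Algebra V A] [Algebra.Smooth V A] (p : Ideal A) [p.IsPrime] (R : Type u) [CommRing R]
    [IsLocalRing R] [Algebra A R] [IsLocalization.AtPrime R p] :
    ∃ (V' : Type u) (_ : CommRing V') (_ : IsDomain V') (_ : ValuationRing V') (d : ℕ)
      (π : (MvPolynomial (Fin d) V')[X] →+* RX R) (G : (MvPolynomial (Fin d) V')[X]),
      Pres π G := by
  obtain ⟨p', _, _, _⟩ := exists_prime_RX R A p
  have h1 : Algebra.Smooth A A[X] := ⟨inferInstance, inferInstance⟩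
  have h2 : Algebra.Smooth V A[X] := Algebra.Smooth.comp V A A[X]
  exact exists_pres V A[X] p' (RX R)

theorem exists_frac {R R1 : Type u} (K : Type u) [CommRing R] [CommRing R1] [IsDomain R1] [Field K]
    [Algebra R K] [IsFractionRing R K] (φ : R →+* R1) (hφ : Function.Injective φ) :
    ∃ (K1 : Type u) (_ : Field K1) (_ : Algebra R1 K1) (_ : IsFractionRing R1 K1) (j : K →+* K1),
      j.comp (algebraMap R K) = (algebraMap R1 K1).comp φ := by
  have hinj : Function.Injective ((algebraMap R1 (FractionRing R1)).comp φ) :=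
    (IsFractionRing.injective R1 (FractionRing R1)).comp hφ
  refine ⟨FractionRing R1, inferInstance, inferInstance, inferInstance,
    IsFractionRing.lift (K := K) hinj, ?_⟩
  ext x
  rw [RingHom.comp_apply, IsFractionRing.lift_algebraMap]

theorem exists_frac_RX (R K : Type u) [CommRing R] [IsDomain R] [IsLocalRing R] [Field K]
    [Algebra R K] [IsFractionRing R K] :
    ∃ (K1 : Type u) (_ : Field K1) (_ : Algebra (RX R) K1) (_ : IsFractionRing (RX R) K1)
      (j : K →+* K1), j.comp (algebraMap R K) =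
        (algebraMap (RX R) K1).comp ((algebraMap R[X] (RX R)).comp C) :=
  exists_frac K _
    ((IsLocalization.injective (RX R) (mX R).primeCompl_le_nonZeroDivisors).comp C_injective)

include V p in
theorem iso_main {Q Q' : Matrix (Fin m) (Fin m) R} (hQ : Unim Q) (hQ' : Unim Q')
    (hi : Iso (Q.map (algebraMap R K)) (Q'.map (algebraMap R K))) : Iso Q Q' := by
  have : IsLocalRing R := IsLocalization.AtPrime.isLocalRing R p
  rcases finite_or_infinite (ResidueField R) with hfin | hinf
  · obtain ⟨V', _, _, _, d, π, G, h⟩ := exists_pres_RX V A p R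
    obtain ⟨K1, _, _, _, j, hj⟩ := exists_frac_RX R K
    have := infinite_residueField_RX R
    have h1 : Iso ((Q.map C).map (algebraMap R[X] (RX R)))
        ((Q'.map C).map (algebraMap R[X] (RX R))) := by
      refine h.iso_inf (K := K1) ((hQ.map _).map _) ((hQ'.map _).map _) ?_
      have h2 := hi.map j
      rw [map_comp_ringHom, map_comp_ringHom, hj] at h2
      exact h2
    obtain ⟨F, hF, hsp⟩ := (locPres_of_isLocalization (O := RX R) (mX R).primeCompl).spread_iso h1
    obtain ⟨P, hP, -, -, hodd, hu⟩ := exists_adjoinRoot_prime R F ((isUnit_RX_iff R F).1 hF)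
    exact iso_of_adjoinRoot hQ hQ' hP hodd (hsp _ (AdjoinRoot.mk P) (map_zero _) hu)
  · obtain ⟨V', _, _, _, d, π, G, h⟩ := exists_pres V A p R
    exact h.iso_inf hQ hQ' hi

include V p in
theorem sn_main {Q : Matrix (Fin m) (Fin m) R} (hQ : Unim Q) (hm : 5 ≤ m) {a : R} (ha : IsUnit a)
    (hs : Sn (Q.map (algebraMap R K)) (algebraMap R K a)) : Sn Q a := by
  have : IsLocalRing R := IsLocalization.AtPrime.isLocalRing R p
  rcases finite_or_infinite (ResidueField R) with hfin | hinf
  · obtain ⟨V', _, _, _, d, π, G, h⟩ := exists_pres_RX V A p R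
    obtain ⟨K1, _, _, _, j, hj⟩ := exists_frac_RX R K
    have := infinite_residueField_RX R
    have h1 : Sn ((Q.map C).map (algebraMap R[X] (RX R))) (algebraMap R[X] (RX R) (C a)) := by
      refine h.sn_inf (K := K1) ((hQ.map _).map _) hm ((ha.map _).map _) ?_
      have h2 := hs.map j
      have h3 := DFunLike.congr_fun hj a
      rw [RingHom.comp_apply] at h3
      rw [map_comp_ringHom, hj, h3] at h2
      exact h2
    obtain ⟨F, hF, hsp⟩ := (locPres_of_isLocalization (O := RX R) (mX R).primeCompl).spread_sn h1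
    obtain ⟨P, hP, hirr, hp, hodd, hu⟩ := exists_adjoinRoot_prime R F ((isUnit_RX_iff R F).1 hF)
    exact sn_of_adjoinRoot_prime hQ hm hP hirr hp hodd ha
      (hsp _ (AdjoinRoot.mk P) (map_zero _) hu)
  · obtain ⟨V', _, _, _, d, π, G, h⟩ := exists_pres V A p R
    exact h.sn_inf hQ hm ha hs

end Pool.Agent.P.MP_c1f06d_ag
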