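import Pool.Agent.P.MP_c1f06d_ag.Witt

open Matrix Polynomial

universe u

namespace Pool.Agent.P.MP_c1f06d_ag

variable {m : ℕ} {R : Type*} [CommRing R] [IsLocalRing R] {Q Q' : Matrix (Fin m) (Fin m) R}

omit [IsLocalRing R] in
/-- The transfer of a form along a linear functional. -/
theorem trans_form {S : Type*} [CommRing S] [Algebra R S] (lam : S →ₗ[R] R)
    (A : Matrix (Fin m) (Fin m) S) :
    ∃ φ : QuadraticForm R (Fin m → S), (∀ x, φ x = lam (qv A x)) ∧
      ∀ x y, QuadraticMap.polar φ x y = lam (bv A x y) := by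
  have hs : ∀ (a : R) (z : S), lam (algebraMap R S a * z) = a * lam z := fun a z => by
    rw [← Algebra.smul_def, map_smul, smul_eq_mul]
  refine ⟨⟨fun x => lam (qv A x), fun a x => ?_,
    ⟨LinearMap.mk₂ R (fun x y => lam (bv A x y)) (fun x y z => ?_) (fun a x y => ?_)
      (fun x y z => ?_) (fun a x y => ?_), fun x y => ?_⟩⟩, fun x => rfl, fun x y => ?_⟩
  · rw [← algebraMap_smul S a x, qv_smul, ← map_pow, hs, smul_eq_mul, sq]
  · rw [bv_add_left, map_add]
  · rw [← algebraMap_smul S a x, bv_smul_left, hs, smul_eq_mul]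
  · rw [bv_add_right, map_add]
  · rw [← algebraMap_smul S a y, bv_smul_right, hs, smul_eq_mul]
  · rw [qv_add, map_add, map_add, LinearMap.mk₂_apply]
  · change lam (qv A (x + y)) - lam (qv A x) - lam (qv A y) = _
    rw [qv_add, map_add, map_add]; ring

omit [IsLocalRing R] in
/-- A dual basis defined over the base ring. -/
theorem trans_dual {S : Type*} [CommRing S] (f : R →+* S) (hQ : Unim Q) :
    ∃ d : Fin m → Fin m → R, ∀ (i : Fin m) (y : Fin m → S), bv (Q.map f) y (f ∘ d i) = y i := by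
  refine ⟨fun i => (Q + Qᵀ)⁻¹ *ᵥ Pi.single i 1, fun i y => ?_⟩
  have e : (Q + Qᵀ).map f *ᵥ (f ∘ ((Q + Qᵀ)⁻¹ *ᵥ Pi.single i 1)) = Pi.single i 1 := by
    funext l
    rw [← RingHom.map_mulVec, mulVec_mulVec, mul_nonsing_inv _ hQ, one_mulVec]
    by_cases h : l = i
    · subst h; simp
    · simp [h]
  unfold bv
  rw [polar_map, e]
  simp

/-- The abstract transfer argument. -/
theorem trans_core {S : Type*} [CommRing S] [Algebra R S] (lam c : S →ₗ[R] R) (t : S) (k : ℕ)
    (s : Fin k → S) (h0 : ∀ a, a < 2 * k → lam (t ^ a) = 0) (h1 : lam (t ^ (2 * k)) = 1)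
    (hs : ∀ i j : Fin k, lam (t ^ (i : ℕ) * s j) = if i = j then 1 else 0)
    (hc : ∀ y z : S, (∀ j : Fin k, lam (t ^ (j : ℕ) * y) = 0) →
      (∀ j : Fin k, lam (t ^ (j : ℕ) * z) = 0) → lam (y * z) = c y * c z)
    (hQ : Unim Q) (hQ' : Unim Q')
    (h : Iso (Q.map (algebraMap R S)) (Q'.map (algebraMap R S))) : Iso Q Q' := by
  obtain ⟨g, hg⟩ := h
  obtain ⟨φ, hφ, hφp⟩ := trans_form lam (Q'.map (algebraMap R S))
  obtain ⟨d, hd⟩ := trans_dual (algebraMap R S) hQ
  obtain ⟨d', hd'⟩ := trans_dual (algebraMap R S) hQ'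
  have hl : ∀ (z : S) (a : R), lam (z * algebraMap R S a) = a * lam z := fun z a => by
    rw [mul_comm, ← Algebra.smul_def, map_smul, smul_eq_mul]
  have hq : ∀ (A : Matrix (Fin m) (Fin m) R) (x : Fin m → R) (a : ℕ),
      lam (qv (A.map (algebraMap R S)) (t ^ a • (algebraMap R S ∘ x))) =
        qv A x * lam (t ^ (2 * a)) := fun A x a => by
    rw [qv_smul, qv_map, hl, ← pow_mul, mul_comm a 2]
  have hb : ∀ (A : Matrix (Fin m) (Fin m) R) (x y : Fin m → R) (a b : ℕ), a + b < 2 * k →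
      lam (bv (A.map (algebraMap R S)) (t ^ a • (algebraMap R S ∘ x))
        (t ^ b • (algebraMap R S ∘ y))) = 0 := fun A x y a b hab => by
    rw [bv_smul_left, bv_smul_right, bv_map, ← mul_assoc, ← pow_add, hl, h0 _ hab, mul_zero]
  have hf : ∀ (A : Matrix (Fin m) (Fin m) R) (D : Fin m → Fin m → R),
      (∀ (i : Fin m) (y : Fin m → S),
        bv (A.map (algebraMap R S)) y (algebraMap R S ∘ D i) = y i) →
      ∀ p r : Fin m × Fin k,
      lam (bv (A.map (algebraMap R S)) (t ^ (p.2 : ℕ) • (algebraMap R S ∘ D p.1))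
        (s r.2 • Pi.single r.1 1)) = if p = r then 1 else 0 := fun A D hD p r => by
    rw [bv_smul_left, bv_smul_right, bv_comm, hD]
    obtain ⟨p1, p2⟩ := p
    obtain ⟨r1, r2⟩ := r
    by_cases e : p1 = r1
    · subst e
      simp [hs]
    · simp [e]
  obtain ⟨σ, hσ, hσe⟩ := frames_conj (ι := Fin m × Fin k) φ
    (fun p => g *ᵥ (t ^ (p.2 : ℕ) • (algebraMap R S ∘ d p.1)))
    (fun p => g *ᵥ (s p.2 • Pi.single p.1 1))
    (fun p => t ^ (p.2 : ℕ) • (algebraMap R S ∘ d' p.1))
    (fun p => s p.2 • Pi.single p.1 1)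
    (fun p => by rw [hφ, hg, hq, h0 _ (by have := p.2.2; omega), mul_zero])
    (fun p r => by rw [hφp, hg.bv, hb _ _ _ _ _ (by have := p.2.2; have := r.2.2; omega)])
    (fun p r => by rw [hφp, hg.bv, hf _ _ hd])
    (fun p => by rw [hφ, hq, h0 _ (by have := p.2.2; omega), mul_zero])
    (fun p r => by rw [hφp, hb _ _ _ _ _ (by have := p.2.2; have := r.2.2; omega)])
    (fun p r => by rw [hφp, hf _ _ hd'])
  have hσp : ∀ x y, QuadraticMap.polar φ (σ x) (σ y) = QuadraticMap.polar φ x y := fun x y => by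
    unfold QuadraticMap.polar
    rw [← map_add σ, hσ, hσ, hσ]
  refine iso_of_linearMap (c.compLeft (Fin m) ∘ₗ σ ∘ₗ (Matrix.mulVecLin g).restrictScalars R ∘ₗ
    (LinearMap.lsmul S (Fin m → S) (t ^ k)).restrictScalars R ∘ₗ
    (Algebra.linearMap R S).compLeft (Fin m)) fun x => ?_
  change qv Q' (c ∘ σ (g *ᵥ (t ^ k • (algebraMap R S ∘ x)))) = _
  have hy : ∀ (i : Fin m) (j : Fin k),
      lam (t ^ (j : ℕ) * σ (g *ᵥ (t ^ k • (algebraMap R S ∘ x))) i) = 0 := fun i j => by
    have e := hσp (g *ᵥ (t ^ k • (algebraMap R S ∘ x)))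
      (g *ᵥ (t ^ (j : ℕ) • (algebraMap R S ∘ d i)))
    rw [hσe (i, j), hφp, hφp, hg.bv, hb _ _ _ _ _ (by have := j.2; omega), bv_smul_right,
      hd'] at e
    exact e
  have e := hσ (g *ᵥ (t ^ k • (algebraMap R S ∘ x)))
  rw [hφ, hφ, hg, hq, h1, mul_one] at e
  rw [← e]
  generalize σ (g *ᵥ (t ^ k • (algebraMap R S ∘ x))) = y at hy
  unfold qv dotProduct mulVec dotProduct
  rw [map_sum]
  refine Finset.sum_congr rfl fun i _ => ?_
  rw [Finset.mul_sum, Finset.mul_sum, map_sum]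
  refine Finset.sum_congr rfl fun j _ => ?_
  change c (y i) * (Q' i j * c (y j)) = lam (y i * (algebraMap R S (Q' i j) * y j))
  rw [mul_comm (algebraMap R S _), ← mul_assoc (y i), hl, hc _ _ (hy i) (hy j)]
  ring

theorem iso_of_adjoinRoot (hQ : Unim Q) (hQ' : Unim Q') {P : R[X]} (hP : P.Monic)
    (hodd : Odd P.natDegree)
    (h : Iso (Q.map (AdjoinRoot.of P)) (Q'.map (AdjoinRoot.of P))) : Iso Q Q' := by
  obtain ⟨k, hk⟩ := hodd
  have hdeg : P.degree = ((2 * k + 1 : ℕ) : WithBot ℕ) := by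
    rw [degree_eq_natDegree hP.ne_zero, hk]
  obtain ⟨lam, hlam⟩ : ∃ lam : AdjoinRoot P →ₗ[R] R, ∀ p : R[X], p.natDegree ≤ 2 * k →
      lam (AdjoinRoot.mk P p) = p.coeff (2 * k) := by
    refine ⟨lcoeff R (2 * k) ∘ₗ AdjoinRoot.modByMonicHom hP, fun p hp => ?_⟩
    rw [LinearMap.comp_apply, AdjoinRoot.modByMonicHom_mk, lcoeff_apply,
      (modByMonic_eq_self_iff hP).2]
    rw [hdeg]
    exact degree_le_natDegree.trans_lt (by exact_mod_cast Nat.lt_succ_of_le hp)
  have hX : ∀ (a : ℕ) (p : R[X]), AdjoinRoot.root P ^ a * AdjoinRoot.mk P p =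
      AdjoinRoot.mk P (X ^ a * p) := fun a p => by
    rw [map_mul, map_pow, AdjoinRoot.mk_X]
  have hXd : ∀ (a b : ℕ) (p : R[X]), p.natDegree ≤ b → a + b ≤ 2 * k →
      (X ^ a * p).natDegree ≤ 2 * k := fun a b p hp hab =>
    (natDegree_mul_le_of_le (natDegree_X_pow_le a) hp).trans hab
  have hpow : ∀ a, a ≤ 2 * k → lam (AdjoinRoot.root P ^ a) = if 2 * k = a then 1 else 0 :=
    fun a ha => by
      rw [← AdjoinRoot.mk_X, ← map_pow, hlam _ ((natDegree_X_pow_le a).trans ha), coeff_X_pow]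
  have hlow : ∀ y : AdjoinRoot P, (∀ j : Fin k, lam (AdjoinRoot.root P ^ (j : ℕ) * y) = 0) →
      ∃ p : R[X], p.natDegree ≤ k ∧ AdjoinRoot.mk P p = y := fun y hy => by
    obtain ⟨p, hp, rfl⟩ : ∃ p : R[X], p.natDegree ≤ 2 * k ∧ AdjoinRoot.mk P p = y := by
      refine ⟨AdjoinRoot.modByMonicHom hP y, ?_, AdjoinRoot.mk_leftInverse hP y⟩
      induction y using AdjoinRoot.induction_on with
      | ih p =>
        rw [AdjoinRoot.modByMonicHom_mk]
        have hne : P ≠ 1 := fun e => by rw [e, natDegree_one] at hk; omega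
        have := natDegree_modByMonic_lt p hP hne
        omega
    have key : ∀ j, j ≤ k → p.natDegree ≤ 2 * k - j := by
      intro j
      induction j with
      | zero => intro _; simpa using hp
      | succ j ih =>
        intro hj
        have h1 := ih (by omega)
        have h2 := hy ⟨j, by omega⟩
        rw [hX, hlam _ (hXd _ _ _ h1 (by simp only; omega)), coeff_X_pow_mul',
          if_pos (by simp only; omega)] at h2
        have h3 := natDegree_le_pred h1 h2
        omega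
    exact ⟨p, (key k le_rfl).trans (by omega), rfl⟩
  refine trans_core lam (lam ∘ₗ LinearMap.mulLeft R (AdjoinRoot.root P ^ k)) (AdjoinRoot.root P) k
    (fun j => AdjoinRoot.mk P (P /ₘ X ^ ((j : ℕ) + 1))) (fun a ha => ?_) ?_ (fun i j => ?_)
    (fun y z hy hz => ?_) hQ hQ' h
  · rw [hpow a ha.le, if_neg ha.ne']
  · rw [hpow _ le_rfl, if_pos rfl]
  · have hi := i.2
    have hj := j.2
    have hm : (X ^ ((j : ℕ) + 1) : R[X]).Monic := monic_X_pow _
    have hA : (P /ₘ X ^ ((j : ℕ) + 1)).natDegree = 2 * k - j := by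
      rw [natDegree_divByMonic _ hm, natDegree_X_pow, hk]; omega
    have hB : (P %ₘ X ^ ((j : ℕ) + 1)).natDegree ≤ j := by
      have hne : (X ^ ((j : ℕ) + 1) : R[X]) ≠ 1 := fun e => by
        have := congrArg natDegree e
        rw [natDegree_X_pow, natDegree_one] at this
        omega
      have := natDegree_modByMonic_lt P hm hne
      rw [natDegree_X_pow] at this
      omega
    have hAB := modByMonic_add_div P (X ^ ((j : ℕ) + 1))
    generalize P /ₘ X ^ ((j : ℕ) + 1) = A at hA hAB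
    generalize P %ₘ X ^ ((j : ℕ) + 1) = B at hB hAB
    rw [hX]
    rcases Nat.lt_or_ge (j : ℕ) i with hij | hij
    · obtain ⟨l, hl⟩ : ∃ l, (i : ℕ) = l + (j + 1) := ⟨i - (j + 1), by omega⟩
      have e : AdjoinRoot.mk P (X ^ (i : ℕ) * A) = AdjoinRoot.mk P (X ^ l * (-B)) := by
        rw [AdjoinRoot.mk_eq_mk]
        refine ⟨X ^ l, ?_⟩
        rw [hl, pow_add, ← hAB]
        ring
      have hB' : (-B).natDegree ≤ j := by rwa [natDegree_neg]
      rw [e, hlam _ (hXd _ _ _ hB' (by omega)), if_neg (fun e' => by rw [e'] at hij; omega)]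
      exact coeff_eq_zero_of_natDegree_lt
        ((natDegree_mul_le_of_le (natDegree_X_pow_le l) hB').trans_lt (by omega))
    · rw [hlam _ (hXd _ _ _ hA.le (by omega)), coeff_X_pow_mul', if_pos (by omega)]
      by_cases e : i = j
      · subst e
        rw [if_pos rfl]
        have h1 : P.coeff (2 * k + 1) = 1 := by rw [← hk]; exact hP.coeff_natDegree
        rw [← hAB, coeff_add, coeff_eq_zero_of_natDegree_lt (hB.trans_lt (by omega)), zero_add,
          coeff_X_pow_mul', if_pos (by omega)] at h1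
        rw [← h1]
        congr 1
        omega
      · rw [if_neg e]
        have : (i : ℕ) ≠ j := fun e' => e (Fin.ext e')
        exact coeff_eq_zero_of_natDegree_lt (by omega)
  · obtain ⟨p, hp, rfl⟩ := hlow y hy
    obtain ⟨q, hq, rfl⟩ := hlow z hz
    have hc : ∀ r : R[X], r.natDegree ≤ k →
        (lam ∘ₗ LinearMap.mulLeft R (AdjoinRoot.root P ^ k)) (AdjoinRoot.mk P r) = r.coeff k :=
      fun r hr => by
        rw [LinearMap.comp_apply, LinearMap.mulLeft_apply, hX,
          hlam _ (hXd _ _ _ hr (by omega)), two_mul, coeff_X_pow_mul]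
    rw [hc p hp, hc q hq, ← map_mul,
      hlam _ ((natDegree_mul_le_of_le hp hq).trans (by omega)), two_mul,
      coeff_mul_add_eq_of_natDegree_le hp hq]

end Pool.Agent.P.MP_c1f06d_ag
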