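import Pool.Agent.P.MP_c1f06d_ag.Witt

open Matrix Polynomial

universe u

namespace Pool.Agent.P.MP_c1f06d_ag

variable {m : ℕ} {O K : Type*} [CommRing O] [IsDomain O] [ValuationRing O] [Field K] [Algebra O K]
  [IsFractionRing O K]

theorem exists_lattice (g : Matrix (Fin m) (Fin m) K) :
    ∃ (X1 X2 : Matrix (Fin m) (Fin m) O) (ρ : Fin m → Fin m ⊕ Fin m),
      (fromRows X1 X2).submatrix ρ id = 1 ∧ X2.map (algebraMap O K) = g * X1.map (algebraMap O K) ∧
      (X1.map (algebraMap O K)).det ≠ 0 := by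
  let X : Matrix (Fin m ⊕ Fin m) (Fin m) K := fromRows 1 g
  let v := ValuationRing.valuation O K
  obtain ⟨ρ, -, hρ⟩ := Finset.exists_max_image Finset.univ
    (fun r : Fin m → Fin m ⊕ Fin m => v (X.submatrix r id).det) Finset.univ_nonempty
  set A := X.submatrix ρ id with hA
  have h0 : A.det ≠ 0 := fun h => by
    have h1 := hρ Sum.inl (Finset.mem_univ _)
    rw [h, map_zero, show X.submatrix Sum.inl id = 1 from rfl, det_one, map_one] at h1
    exact not_lt.2 h1 zero_lt_one
  have hu : IsUnit A.det := h0.isUnit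
  have h2 : ∀ a j, ∃ o : O, algebraMap O K o = (X * A⁻¹) a j := fun a j => by
    rw [← ValuationRing.mem_integer_iff, Valuation.mem_integer_iff]
    have h3 := congrFun (det_smul_inv_vecMul_eq_cramer_transpose A (X a) hu) j
    have h4 : A.updateRow j (X a) = X.submatrix (Function.update ρ j a) id := by
      ext i l
      by_cases h : i = j <;> simp [h, hA, updateRow_apply]
    have h5 := hρ (Function.update ρ j a) (Finset.mem_univ _)
    rw [cramer_transpose_apply, h4] at h3
    rw [← h3, Pi.smul_apply, smul_eq_mul, map_mul] at h5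
    exact (mul_le_iff_le_one_right (zero_lt_iff.2 ((map_ne_zero v).2 h0))).1 h5
  choose Y hY using h2
  have h6 : (Matrix.of fun a => Y (Sum.inl a)).map (algebraMap O K) = A⁻¹ := by
    ext a j
    simp [hY, X, fromRows_mul]
  refine ⟨Matrix.of fun a => Y (Sum.inl a), Matrix.of fun a => Y (Sum.inr a), ρ, ?_, ?_, ?_⟩
  · ext i j
    apply IsFractionRing.injective O K
    have h7 : (fromRows (Matrix.of fun a => Y (Sum.inl a)) (Matrix.of fun a => Y (Sum.inr a)))
        (ρ i) j = Y (ρ i) j := by cases ρ i <;> rfl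
    rw [submatrix_apply, id, h7, hY,
      show (X * A⁻¹) (ρ i) j = (A * A⁻¹) i j from rfl, mul_nonsing_inv _ hu]
    simp [one_apply]
  · rw [h6]
    ext a j
    simp [hY, X, fromRows_mul]
  · rw [h6]
    exact (isUnit_nonsing_inv_det _ hu).ne_zero

theorem vala_form {T : Type*} [CommRing T] (Q Q' : Matrix (Fin m) (Fin m) T) :
    ∃ φ : QuadraticForm T ((Fin m → T) × (Fin m → T) × (Fin m → T)),
      (∀ w, φ w = qv Q w.1 - qv Q' w.2.1 + qv Q' w.2.2) ∧ ∀ v w, QuadraticMap.polar φ v w =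
        bv Q v.1 w.1 - bv Q' v.2.1 w.2.1 + bv Q' v.2.2 w.2.2 := by
  have h : ∀ w : (Fin m → T) × (Fin m → T) × (Fin m → T), (Q.toQuadraticForm'.prod
      ((-Q'.toQuadraticForm').prod Q'.toQuadraticForm')) w =
        qv Q w.1 - qv Q' w.2.1 + qv Q' w.2.2 := fun w => by
    simp only [QuadraticMap.prod_apply, _root_.neg_apply, Matrix.toQuadraticForm',
      LinearMap.BilinMap.toQuadraticMap_apply, toLinearMap₂'_apply', qv]
    ring
  refine ⟨_, h, fun v w => ?_⟩
  simp only [QuadraticMap.polar, h, Prod.fst_add, Prod.snd_add, qv_add]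
  ring

theorem iso_of_frac {Q Q' : Matrix (Fin m) (Fin m) O} (hQ : Unim Q) (hQ' : Unim Q')
    (h : Iso (Q.map (algebraMap O K)) (Q'.map (algebraMap O K))) : Iso Q Q' := by
  obtain ⟨g, hg⟩ := h
  obtain ⟨X1, X2, ρ, h1, h2, h3⟩ := exists_lattice (O := O) g
  obtain ⟨φ, hφ, hB⟩ := vala_form Q Q'
  choose d hd using hQ.exists_bv_eq
  choose d' hd' using hQ'.exists_bv_eq
  have inj := IsFractionRing.injective O K
  have hc : ∀ (A : Matrix (Fin m) (Fin m) O) (x : Fin m → O), algebraMap O K ∘ (A *ᵥ x) =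
      A.map (algebraMap O K) *ᵥ (algebraMap O K ∘ x) := fun A x =>
    funext fun i => RingHom.map_mulVec _ A x i
  have h4 : ∀ x, algebraMap O K ∘ (X2 *ᵥ x) = g *ᵥ (algebraMap O K ∘ (X1 *ᵥ x)) := fun x => by
    rw [hc, hc, h2, mulVec_mulVec]
  obtain ⟨σ, hσ, he⟩ := frames_conj φ (fun j => (0, Pi.single j 1, Pi.single j 1))
    (fun j => (0, 0, d' j)) (fun j => (X1 *ᵥ Pi.single j 1, X2 *ᵥ Pi.single j 1, 0))
    (fun j => Sum.elim (fun a => (d a, 0, 0)) (fun a => (0, -d' a, 0)) (ρ j))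
    (fun i => by simp [hφ, qv_zero]) (fun i j => by simp [hB, bv_zero_left])
    (fun i j => by simp [hB, bv_zero_right, hd', Pi.single_apply, eq_comm])
    (fun i => inj (by simp only [hφ, map_add, map_sub, ← qv_map, h4, hg _]; simp [qv_zero]))
    (fun i j => inj (by
      simp only [hB, map_sub, bv_zero_left, ← bv_map, h4, hg.bv, sub_self, add_zero]
      simp))
    (fun i j => by
      have h5 := congrFun (congrFun h1 j) i
      rw [submatrix_apply, one_apply] at h5
      cases hj : ρ j <;>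
        simpa [hB, bv_zero_right, bv_zero_left, bv_neg_right, hd, hd', hj, eq_comm] using h5)
  refine iso_of_linearMap ((LinearMap.snd O _ _).comp ((LinearMap.snd O _ _).comp
    (σ.comp (LinearMap.inl O _ _)))) fun x => ?_
  change qv Q' (σ (x, 0)).2.2 = _
  have h6 := hσ (x, 0)
  have h7 : ∀ j, bv Q (σ (x, 0)).1 (X1 *ᵥ Pi.single j 1) =
      bv Q' (σ (x, 0)).2.1 (X2 *ᵥ Pi.single j 1) := fun j => by
    have h8 : QuadraticMap.polar φ (σ (x, 0)) (σ (0, Pi.single j 1, Pi.single j 1)) =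
        QuadraticMap.polar φ (x, 0) (0, Pi.single j 1, Pi.single j 1) := by
      simp only [QuadraticMap.polar, ← map_add, hσ]
    rw [he, hB, hB] at h8
    simpa [bv_zero_left, bv_zero_right, sub_eq_zero] using h8
  generalize σ (x, 0) = y at h6 h7 ⊢
  have hu : IsUnit (X2.map (algebraMap O K)).det := by
    rw [h2, det_mul]
    exact (hg.isUnit_det (hQ.map _)).mul h3.isUnit
  have h9 : g *ᵥ (algebraMap O K ∘ y.1) - algebraMap O K ∘ y.2.1 = 0 := by
    refine (hQ'.map (algebraMap O K)).eq_zero fun z => ?_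
    have hz : z = ∑ j, ((X2.map (algebraMap O K))⁻¹ *ᵥ z) j •
        algebraMap O K ∘ (X2 *ᵥ Pi.single j 1) := by
      nth_rewrite 1 [← one_mulVec z, ← mul_nonsing_inv _ hu, ← mulVec_mulVec]
      ext i
      simp [mulVec, dotProduct, mul_comm]
    rw [hz, bv, mulVec_sum, dotProduct_sum]
    refine Finset.sum_eq_zero fun j _ => ?_
    change bv _ _ _ = 0
    rw [bv_smul_right, bv_sub_left, bv_map, ← h7, h4, hg.bv, bv_map, sub_self, mul_zero]
  have h10 : qv Q y.1 = qv Q' y.2.1 :=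
    inj (by rw [← qv_map, ← qv_map, ← sub_eq_zero.1 h9, hg])
  rw [hφ, hφ, h10] at h6
  simpa [qv_zero] using h6

end Pool.Agent.P.MP_c1f06d_ag
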