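import Pool.Agent.P.MP_c1f06d_ag.Geo
import Pool.Agent.P.MP_c1f06d_ag.ValO
import Pool.Agent.P.MP_c1f06d_ag.ValA
import Pool.Agent.P.MP_c1f06d_ag.ValB
import Pool.Agent.P.MP_c1f06d_ag.Equate
import Pool.Agent.P.MP_c1f06d_ag.Trans
import Pool.Agent.P.MP_c1f06d_ag.NormVal

open Matrix Polynomial

universe u

namespace Pool.Agent.P.MP_c1f06d_ag

open IsLocalRing

variable {V R K : Type u} [CommRing V] [IsDomain V] [ValuationRing V] [CommRing R] [IsDomain R]
  [IsLocalRing R] [Infinite (ResidueField R)] [Field K] [Algebra R K] [IsFractionRing R K] {d : ℕ}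
  {π : (MvPolynomial (Fin d) V)[X] →+* R} {G : (MvPolynomial (Fin d) V)[X]} {m : ℕ}

theorem map_comp_ringHom {A B D : Type*} [CommRing A] [CommRing B] [CommRing D]
    (M : Matrix (Fin m) (Fin m) A) (f : A →+* B) (g : B →+* D) :
    (M.map f).map g = M.map (g.comp f) := rfl

omit [Infinite (ResidueField R)] in
/-- The valuation ring at the generic point of the special fibre. -/
theorem Pres.exists_valuationRing (h : Pres π G) (K : Type u) [Field K] [Algebra R K]
    [IsFractionRing R K] :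
    ∃ (O : Type u) (_ : CommRing O) (_ : IsDomain O) (_ : ValuationRing O) (_ : Algebra R O)
      (_ : Algebra O K) (_ : IsScalarTower R O K) (_ : IsFractionRing O K),
      LocPres ((algebraMap R O).comp π) G ∧ ∀ F, IsUnit (algebraMap R O (π F)) →
        ∃ (a : MvPolynomial (Fin d) V) (H b : (MvPolynomial (Fin d) V)[X]),
        MvPolynomial.map (residue V) a ≠ 0 ∧ IsUnit (π H) ∧
        b * F - C a * H ∈ Ideal.span {G} ⊔
          (maximalIdeal V).map ((C : _ →+* (MvPolynomial (Fin d) V)[X]).comp MvPolynomial.C) := by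
  obtain ⟨q, hqp, hq, hF⟩ := h.exists_prime
  let _ : Algebra (Localization.AtPrime q) K :=
    IsLocalization.localizationAlgebraOfSubmonoidLe _ K q.primeCompl (nonZeroDivisors R)
      q.primeCompl_le_nonZeroDivisors
  have htower : IsScalarTower R (Localization.AtPrime q) K :=
    IsLocalization.localization_isScalarTower_of_submonoid_le _ K q.primeCompl (nonZeroDivisors R)
      q.primeCompl_le_nonZeroDivisors
  refine ⟨Localization.AtPrime q, inferInstance, inferInstance, h.valuationRing q hq, inferInstance,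
    inferInstance, htower,
    IsFractionRing.isFractionRing_of_isDomain_of_isLocalization q.primeCompl _ K,
    h.lp.localization q.primeCompl _, fun F hu => hF F ?_⟩
  exact (IsLocalization.AtPrime.isUnit_to_map_iff _ q _).1 hu

theorem Pres.iso_inf (h : Pres π G) {Q Q' : Matrix (Fin m) (Fin m) R} (hQ : Unim Q)
    (hQ' : Unim Q') (hi : Iso (Q.map (algebraMap R K)) (Q'.map (algebraMap R K))) : Iso Q Q' := by
  obtain ⟨O, _, _, _, _, _, _, _, hlp, hF⟩ := h.exists_valuationRing K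
  obtain ⟨Q0, s, hs, e⟩ := h.lp.exists_mat Q
  obtain ⟨Q0', s', hs', e'⟩ := h.lp.exists_mat Q'
  have hU : Unim (Q0.map π) := e ▸ hQ.smul (hs.pow 2)
  have hU' : Unim (Q0'.map π) := e' ▸ hQ'.smul (hs'.pow 2)
  have i1 : Iso (Q0.map π) Q := e ▸ iso_sq_smul Q s
  have i2 : Iso (Q0'.map π) Q' := e' ▸ iso_sq_smul Q' s'
  have hO : Iso ((Q0.map π).map (algebraMap R O)) ((Q0'.map π).map (algebraMap R O)) := by
    refine iso_of_frac (K := K) (hU.map _) (hU'.map _) ?_
    rw [map_comp_ringHom (Q0.map π), map_comp_ringHom (Q0'.map π), ← IsScalarTower.algebraMap_eq]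
    exact ((i1.map _).trans hi).trans ((i2.symm hU').map _)
  obtain ⟨F, hFu, hsp⟩ := hlp.spread_iso (Q := Q0) (Q' := Q0') hO
  obtain ⟨a, H, b, ha, hH, hab⟩ := hF F hFu
  obtain ⟨P, ψ, hP, hodd, hG, hψF, hW1, hW2⟩ := h.geo
    (fun A _ i ψ => Iso ((Q0.map π).map i) (Q0.map ψ) ∧ Iso (Q0'.map ψ) ((Q0'.map π).map i))
    (fun A A' _ _ χ i ψ hw => ⟨hw.1.map χ, hw.2.map χ⟩)
    (fun A _ i ψ σ hi hψ => by
      have k1 : ∀ M : Matrix (Fin m) (Fin m) (MvPolynomial (Fin d) V)[X],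
          ((M.map π).map i).map σ = M.map π := fun M => by
        rw [map_comp_ringHom (M.map π), hi]; rfl
      have k2 : ∀ M : Matrix (Fin m) (Fin m) (MvPolynomial (Fin d) V)[X],
          (M.map ψ).map σ = M.map π := fun M => by rw [map_comp_ringHom, hψ]
      obtain ⟨A1, _, f1, σ1, he1, hσ1, hi1⟩ := exists_etale_iso σ ((Q0.map π).map i) (Q0.map ψ)
        (by rw [k1, k2]) (by rw [k1]; exact hU)
      obtain ⟨A2, _, f2, σ2, he2, hσ2, hi2⟩ := exists_etale_iso σ1 ((Q0'.map ψ).map f1)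
        (((Q0'.map π).map i).map f1)
        (by rw [map_comp_ringHom (Q0'.map ψ), map_comp_ringHom ((Q0'.map π).map i), hσ1, k1, k2])
        (by rw [map_comp_ringHom (Q0'.map ψ), hσ1, k2]; exact hU')
      exact ⟨A2, inferInstance, f2.comp f1, σ2, RingHom.Etale.stableUnderComposition _ _ he1 he2,
        by rw [← RingHom.comp_assoc, hσ2, hσ1], hi1.map f2, hi2⟩)
    F a H b ha hH hab
  have hS := (hW1.trans (hsp _ ψ hG hψF)).trans hW2
  exact ((i1.symm hU).trans (iso_of_adjoinRoot hU hU' hP hodd hS)).trans i2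

theorem Pres.sn_inf (h : Pres π G) {Q : Matrix (Fin m) (Fin m) R} (hQ : Unim Q) (hm : 5 ≤ m)
    {a : R} (ha : IsUnit a) (hs : Sn (Q.map (algebraMap R K)) (algebraMap R K a)) : Sn Q a := by
  obtain ⟨O, _, _, _, _, _, _, _, hlp, hF⟩ := h.exists_valuationRing K
  obtain ⟨Q0, s, hs0, e⟩ := h.lp.exists_mat Q
  obtain ⟨a0, t, ht, ea⟩ := h.lp.exists_sq a
  have hU : Unim (Q0.map π) := e ▸ hQ.smul (hs0.pow 2)
  have i1 : Iso (Q0.map π) Q := e ▸ iso_sq_smul Q s
  have hau : IsUnit (π a0) := ea ▸ (ht.pow 2).mul ha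
  obtain ⟨v0, h0⟩ := hU.exists_isUnit_qv (by omega)
  have hO : Sn ((Q0.map π).map (algebraMap R O)) (algebraMap R O (π a0)) := by
    refine sn_of_frac (K := K) (hU.map _) hm (hau.map _) ?_
    rw [map_comp_ringHom (Q0.map π), ← IsScalarTower.algebraMap_eq,
      ← IsScalarTower.algebraMap_apply, ea, map_mul]
    exact ((sn_sq h0 t).map _).mul (hs.of_iso ((i1.symm hU).map _))
  obtain ⟨F, hFu, hsp⟩ := hlp.spread_sn (Q := Q0) (a := a0) hO
  obtain ⟨a', H, b, ha', hH, hab⟩ := hF F hFu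
  obtain ⟨P, ψ, hP, hodd, hG, hψF, hW1, ρ, hρ, hW2⟩ := h.geo
    (fun A _ i ψ => Iso (Q0.map ψ) ((Q0.map π).map i) ∧
      ∃ ρ, Sn ((Q0.map π).map i) ρ ∧ i (π a0) = ρ * ψ a0)
    (fun A A' _ _ χ i ψ hw => by
      obtain ⟨h1, ρ, h2, h3⟩ := hw
      exact ⟨h1.map χ, χ ρ, h2.map χ, by simpa using congrArg χ h3⟩)
    (fun A _ i ψ σ hi hψ => by
      have k1 : ((Q0.map π).map i).map σ = Q0.map π := by
        rw [map_comp_ringHom (Q0.map π), hi]; rfl
      have k2 : (Q0.map ψ).map σ = Q0.map π := by rw [map_comp_ringHom, hψ]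
      obtain ⟨A1, _, f1, σ1, he1, hσ1, hi1⟩ := exists_etale_iso σ (Q0.map ψ) ((Q0.map π).map i)
        (by rw [k1, k2]) (by rw [k2]; exact hU)
      have k3 : σ1 (f1 (i (π a0))) = π a0 := by
        change ((σ1.comp f1).comp i) _ = _
        rw [hσ1, hi]; rfl
      have k4 : σ1 (f1 (ψ a0)) = π a0 := by
        change ((σ1.comp f1).comp ψ) _ = _
        rw [hσ1, hψ]
      obtain ⟨A2, _, f2, σ2, ρ, he2, hσ2, hρ, hρ'⟩ := exists_etale_sn σ1 (f1.comp i)
        (by rw [← RingHom.comp_assoc, hσ1, hi]) (Q0.map π) hU h0 (f1 (i (π a0))) (f1 (ψ a0))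
        (by rw [k3, k4]) (by rw [k3]; exact hau)
      exact ⟨A2, inferInstance, f2.comp f1, σ2, RingHom.Etale.stableUnderComposition _ _ he1 he2,
        by rw [← RingHom.comp_assoc, hσ2, hσ1], hi1.map f2, ρ, hρ, hρ'⟩)
    F a' H b ha' hH hab
  have hS : Sn ((Q0.map π).map (AdjoinRoot.of P)) (AdjoinRoot.of P (π a0)) := by
    rw [hW2]; exact hρ.mul ((hsp _ ψ hG hψF).of_iso hW1)
  have hR := (sn_of_adjoinRoot_inf hU hm hP hodd hau hS).of_iso i1
  obtain ⟨v1, h1⟩ := hQ.exists_isUnit_qv (by omega)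
  refine Sn.cancel h1 (sn_sq h1 t) (ht.pow 2) ?_
  rwa [mul_comm, ← ea]

end Pool.Agent.P.MP_c1f06d_ag
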