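import Pool.Agent.P.MP_c1f06d_ag.Stmt

open Matrix CliffordAlgebra

universe u

namespace Pool.Agent.P.MP_c1f06d_ag

variable {R : Type u} [CommRing R] {m : ℕ}

variable {T T' : Type u} [CommRing T] [Algebra R T] [CommRing T'] [Algebra R T']

/-- `x v = w x` in the Clifford algebra, for vectors `v` and `w`. -/
def Conj (Q : Matrix (Fin m) (Fin m) R) (x : Cl Q T) (v w : Fin m → T) : Prop :=
  x * vec Q T v = vec Q T w * x

/-- `x` is even, `x * reverse x = 1` and `x V x⁻¹ = V`, where `V = T ^ m` is the module of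
vectors. -/
def IsSpin (Q : Matrix (Fin m) (Fin m) R) (x : Cl Q T) : Prop :=
  x ∈ even (formOver Q T) ∧ x * reverse x = 1 ∧ (∀ v, ∃ w, Conj Q x v w) ∧ ∀ w, ∃ v, Conj Q x v w

theorem isSpin_one (Q : Matrix (Fin m) (Fin m) R) : IsSpin Q (1 : (Cl Q T)ˣ).val :=
  ⟨one_mem _, by simp, fun v => ⟨v, by simp [Conj]⟩, fun v => ⟨v, by simp [Conj]⟩⟩

theorem isSpin_mul (Q : Matrix (Fin m) (Fin m) R) {x y : (Cl Q T)ˣ} (hx : IsSpin Q x.val)
    (hy : IsSpin Q y.val) : IsSpin Q (x * y).val := by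
  obtain ⟨h1, h2, h3, h4⟩ := hx
  obtain ⟨k1, k2, k3, k4⟩ := hy
  unfold Conj at h3 h4 k3 k4
  refine ⟨mul_mem h1 k1, ?_, fun v => ?_, fun w => ?_⟩
  · rw [Units.val_mul, reverse.map_mul, mul_assoc, ← mul_assoc y.val, k2, one_mul, h2]
  · obtain ⟨w, hw⟩ := k3 v
    obtain ⟨z, hz⟩ := h3 w
    exact ⟨z, by rw [Conj, Units.val_mul, mul_assoc, hw, ← mul_assoc, hz, mul_assoc]⟩
  · obtain ⟨z, hz⟩ := h4 w
    obtain ⟨v, hv⟩ := k4 z
    exact ⟨v, by rw [Conj, Units.val_mul, mul_assoc, hv, ← mul_assoc, hz, mul_assoc]⟩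

theorem isSpin_inv (Q : Matrix (Fin m) (Fin m) R) {x : (Cl Q T)ˣ} (hx : IsSpin Q x.val) :
    IsSpin Q (x⁻¹).val := by
  obtain ⟨h1, h2, h3, h4⟩ := hx
  unfold Conj at h3 h4
  have e : (x⁻¹).val = reverse x.val := Units.inv_eq_of_mul_eq_one_right h2
  refine ⟨?_, ?_, fun v => ?_, fun w => ?_⟩
  · rw [e]; exact (reverse_mem_evenOdd_iff _).2 h1
  · rw [e, reverse_reverse, ← e, Units.inv_mul]
  · obtain ⟨w, hw⟩ := h4 v
    exact ⟨w, by
      rw [Conj, Units.inv_mul_eq_iff_eq_mul, ← mul_assoc, hw, Units.mul_inv_cancel_right]⟩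
  · obtain ⟨v, hv⟩ := h3 w
    exact ⟨v, by
      rw [Conj, Units.inv_mul_eq_iff_eq_mul, ← mul_assoc, hv, Units.mul_inv_cancel_right]⟩

/-- The group `Spin(q)(T)`. -/
def Spin (Q : Matrix (Fin m) (Fin m) R) (T : Type u) [CommRing T] [Algebra R T] :
    Subgroup (Cl Q T)ˣ where
  carrier := {x | IsSpin Q x.val}
  one_mem' := isSpin_one Q
  mul_mem' := isSpin_mul Q
  inv_mem' := isSpin_inv Q

/-- A family of maps `Spin(q)(T) × E(T) → E(T)`, one for every `R`-algebra `T`. -/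
def ActFamily (Q : Matrix (Fin m) (Fin m) R) (E : Type u) [CommRing E] [Algebra R E] :
    Type (u + 1) :=
  ∀ (T : Type u) [CommRing T] [Algebra R T], Spin Q T → (E →ₐ[R] T) → (E →ₐ[R] T)

variable {Q : Matrix (Fin m) (Fin m) R} {E : Type u} [CommRing E] [Algebra R E]

/-- The unit acts trivially. -/
def ActOne (act : ActFamily Q E) : Prop :=
  ∀ (T : Type u) [CommRing T] [Algebra R T] (e : E →ₐ[R] T), act T 1 e = e

/-- Products act by composition. -/
def ActMul (act : ActFamily Q E) : Prop :=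
  ∀ (T : Type u) [CommRing T] [Algebra R T] (x y : Spin Q T) (e : E →ₐ[R] T),
    act T (x * y) e = act T x (act T y e)

/-- The action commutes with maps of `R`-algebras and the induced maps of Clifford algebras. -/
def ActNatural (act : ActFamily Q E) : Prop :=
  ∀ (T T' : Type u) [CommRing T] [Algebra R T] [CommRing T'] [Algebra R T']
    (f : T →ₐ[R] T') (φ : Cl Q T →+* Cl Q T'), IsBaseChangeMap Q f φ →
    ∀ (x : Spin Q T) (x' : Spin Q T') (e : E →ₐ[R] T),
      φ x.val.val = x'.val.val → f.comp (act T x e) = act T' x' (f.comp e)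

/-- Exactly one group element moves a given point to a given point. -/
def ActTorsor (act : ActFamily Q E) : Prop :=
  ∀ (T : Type u) [CommRing T] [Algebra R T] (e e' : E →ₐ[R] T), ∃! x : Spin Q T, act T x e = e'

/-- `E` with a simply transitive action of `Spin(q)(T)` on the points `E(T)` for every `R`-algebra
`T`, compatible with maps of `R`-algebras. -/
structure SpinAction (Q : Matrix (Fin m) (Fin m) R) (E : Type u) [CommRing E] [Algebra R E] where
  act : ActFamily Q E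
  act_one : ActOne act
  act_mul : ActMul act
  natural : ActNatural act
  simply_transitive : ActTorsor act

/-- A point of the subgroup as a point of the functor. -/
def toPt (x : Spin Q T) : SpinPt Q T :=
  ⟨x.val.val, x.2.1, ⟨x.2.2.1, by
    have h : x.val.val * reverse x.val.val = 1 := x.2.2.1
    rw [← Units.inv_eq_of_mul_eq_one_right h, Units.inv_mul]⟩, x.2.2.2.1, x.2.2.2.2⟩

/-- A point of the functor as a point of the subgroup. -/
noncomputable def ofPt (x : SpinPt Q T) : Spin Q T :=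
  ⟨⟨x.val, reverse x.val, x.inSpin.2.1.1, x.inSpin.2.1.2⟩,
    x.inSpin.1, x.inSpin.2.1.1, x.inSpin.2.2.1, x.inSpin.2.2.2⟩

theorem IsSpinTorsor.nonempty_spinAction (h : IsSpinTorsor Q E) : Nonempty (SpinAction Q E) := by
  obtain ⟨-, act, h1, h2, h3⟩ := h
  refine ⟨⟨fun T _ _ x e => act T (toPt x) e, fun T _ _ e => (h1 T e).1 _ rfl,
    fun T _ _ x y e => (h1 T e).2 _ _ _ rfl,
    fun T T' _ _ _ _ f φ hφ x x' e hx => h2 T T' f φ hφ _ _ e hx, fun T _ _ e e' => ?_⟩⟩
  obtain ⟨x, hx, hu⟩ := h3 T e e'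
  refine ⟨ofPt x, hx, fun y hy => ?_⟩
  have := hu _ hy
  subst this
  exact Subtype.ext (Units.ext rfl)

end Pool.Agent.P.MP_c1f06d_ag
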