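import Pool.Agent.P.MP_c1f06d_ag.Spread

open Matrix Polynomial

universe u

namespace Pool.Agent.P.MP_c1f06d_ag

theorem isIntegrallyClosed_mvPolynomial (V : Type*) [CommRing V] [IsDomain V]
    [IsIntegrallyClosed V] (d : ℕ) : IsIntegrallyClosed (MvPolynomial (Fin d) V) := by
  induction d with
  | zero => exact IsIntegrallyClosed.of_equiv (MvPolynomial.isEmptyRingEquiv V (Fin 0)).symm
  | succ d ih =>
    exact IsIntegrallyClosed.of_equiv (MvPolynomial.finSuccEquiv V d).symm.toRingEquiv

/-- A monic polynomial with a simple root in a local ring has a prime factor with unit cofactor. -/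
theorem exists_prime_factor {D R : Type*} [CommRing D] [IsDomain D] [IsIntegrallyClosed D]
    [CommRing R] [IsLocalRing R] (π : D[X] →+* R) (n : ℕ) :
    ∀ G : D[X], G.natDegree = n → G.Monic → π G = 0 → IsUnit (π (derivative G)) →
      ∃ G1 H : D[X], Prime G1 ∧ G = G1 * H ∧ π G1 = 0 ∧ IsUnit (π H) := by
  induction n using Nat.strong_induction_on with
  | _ n ih =>
    intro G hn hG h0 h1
    by_cases hirr : Irreducible G
    · refine ⟨G, 1, ?_, (mul_one G).symm, h0, by simp⟩
      have h2 := (hG.irreducible_iff_irreducible_map_fraction_map (K := FractionRing D)).1 hirr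
      refine ⟨hG.ne_zero, hirr.not_isUnit, fun a b hab => ?_⟩
      have h3 := Polynomial.map_dvd (algebraMap D (FractionRing D)) hab
      rw [Polynomial.map_mul] at h3
      simpa only [map_dvd_map _ (IsFractionRing.injective D (FractionRing D)) hG] using
        h2.prime.dvd_or_dvd h3
    have hG1 : G ≠ 1 := by
      rintro rfl
      rw [map_one] at h0
      exact one_ne_zero h0
    rw [irreducible_of_monic hG hG1] at hirr
    push Not at hirr
    obtain ⟨f, g, hf, hg, hfg, hf1, hg1⟩ := hirr
    have hdeg : f.natDegree + g.natDegree = n := by rw [← hn, ← hfg, hf.natDegree_mul hg]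
    have hfp : 0 < f.natDegree := hf.natDegree_pos.2 hf1
    have hgp : 0 < g.natDegree := hg.natDegree_pos.2 hg1
    rw [← hfg, map_mul] at h0
    rw [← hfg, derivative_mul, map_add, map_mul, map_mul] at h1
    rcases IsLocalRing.isUnit_or_isUnit_of_isUnit_add h1 with h | h
    · have hu : IsUnit (π g) := isUnit_of_mul_isUnit_right h
      obtain ⟨G1, H, hp, e, e0, hH⟩ := ih f.natDegree (by omega) f rfl hf
        (hu.mul_left_eq_zero.1 h0) (isUnit_of_mul_isUnit_left h)
      exact ⟨G1, H * g, hp, by rw [← hfg, ← mul_assoc, ← e], e0, by rw [map_mul]; exact hH.mul hu⟩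
    · have hu : IsUnit (π f) := isUnit_of_mul_isUnit_left h
      obtain ⟨G1, H, hp, e, e0, hH⟩ := ih g.natDegree (by omega) g rfl hg
        (hu.mul_right_eq_zero.1 h0) (isUnit_of_mul_isUnit_right h)
      exact ⟨G1, H * f, hp, by rw [← hfg, ← mul_assoc, ← e, mul_comm], e0,
        by rw [map_mul]; exact hH.mul hu⟩

theorem Pres.isDomain {V R : Type*} [CommRing V] [IsDomain V] [ValuationRing V] [CommRing R]
    [IsLocalRing R] {d : ℕ} {π : (MvPolynomial (Fin d) V)[X] →+* R}
    {G : (MvPolynomial (Fin d) V)[X]} (h : Pres π G) : IsDomain R := by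
  have := isIntegrallyClosed_mvPolynomial V d
  obtain ⟨G1, H, hp, e, e0, -⟩ := exists_prime_factor π _ G rfl h.monic h.lp.map_G h.deriv
  have key : ∀ a, G1 ∣ a → π a = 0 := by
    rintro a ⟨c, rfl⟩
    rw [map_mul, e0, zero_mul]
  have : NoZeroDivisors R := by
    refine ⟨fun {x y} hxy => ?_⟩
    obtain ⟨a, s, hs, ha⟩ := h.lp.surj x
    obtain ⟨b, t, ht, hb⟩ := h.lp.surj y
    obtain ⟨w, hw, hd⟩ := h.lp.ker (a * b) (by
      rw [map_mul, ← ha, ← hb]; linear_combination (π s * π t) * hxy)
    rcases hp.dvd_or_dvd ((Dvd.intro _ e.symm).trans hd) with h1 | h1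
    · rw [key w h1] at hw
      exact absurd hw not_isUnit_zero
    rcases hp.dvd_or_dvd h1 with h2 | h2
    · left; rw [key a h2] at ha; exact hs.mul_left_eq_zero.1 ha
    · right; rw [key b h2] at hb; exact ht.mul_left_eq_zero.1 hb
  exact NoZeroDivisors.to_isDomain R

end Pool.Agent.P.MP_c1f06d_ag
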