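import Pool.Agent.P.MP_c1f06d_ag.QSn

open Matrix Polynomial

universe u

namespace Pool.Agent.P.MP_c1f06d_ag

open TensorProduct

variable {R : Type u} [CommRing R]

/-- Descent of elements. -/
theorem mem_range_of_includeLeft_eq {S : Type*} [CommRing S] [Algebra R S]
    [Module.FaithfullyFlat R S] (x : S) (h : x ⊗ₜ[R] (1 : S) = (1 : S) ⊗ₜ[R] x) :
    ∃ r, algebraMap R S r = x :=
  (Algebra.IsEffective.of_faithfullyFlat R S x).1 (by
    rw [Algebra.TensorProduct.includeLeftSubRight_apply, h, sub_self])

/-- Descent of points. -/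
theorem exists_algHom_of_eq {S E : Type*} [CommRing S] [Algebra R S] [Module.FaithfullyFlat R S]
    [CommRing E] [Algebra R E] (e : E →ₐ[R] S)
    (h : ∀ x, e x ⊗ₜ[R] (1 : S) = (1 : S) ⊗ₜ[R] e x) : Nonempty (E →ₐ[R] R) := by
  have hi : Function.Injective (algebraMap R S) := FaithfulSMul.algebraMap_injective R S
  choose r hr using fun x => mem_range_of_includeLeft_eq (R := R) (e x) (h x)
  exact ⟨{ toFun := r
           map_one' := hi (by rw [hr, map_one, map_one])
           map_mul' := fun x y => hi (by rw [map_mul, hr, hr, hr, map_mul])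
           map_zero' := hi (by rw [hr, map_zero, map_zero])
           map_add' := fun x y => hi (by rw [map_add, hr, hr, hr, map_add])
           commutes' := fun c => hi (by rw [hr, AlgHom.commutes]; rfl) }⟩

/-- A spanning set of `S ^ n` over a local ring contains the rows of an invertible matrix. -/
theorem h90_rows {S : Type*} [CommRing S] [IsLocalRing S] {n : ℕ} (M : Set (Fin n → S))
    (hM : ∀ x, x ∈ Submodule.span S M) :
    ∃ A : Matrix (Fin n) (Fin n) S, IsUnit A.det ∧ ∀ i, A i ∈ M := by
  by_contra hc
  have key : ∀ s : Finset (Fin n), ∀ A : Matrix (Fin n) (Fin n) S, (∀ i, i ∉ s → A i ∈ M) →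
      A.det ∈ IsLocalRing.maximalIdeal S := by
    intro s
    induction s using Finset.induction_on with
    | empty =>
      intro A hA
      by_contra hu
      exact hc ⟨A, IsLocalRing.notMem_maximalIdeal.1 hu, fun i => hA i (Finset.notMem_empty i)⟩
    | insert i s hi ih =>
      intro A hA
      have : ∀ x ∈ Submodule.span S M, (A.updateRow i x).det ∈ IsLocalRing.maximalIdeal S := by
        intro x hx
        induction hx using Submodule.span_induction with
        | mem x hx =>
          refine ih _ fun j hj => ?_
          by_cases hji : j = i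
          · subst hji
            rw [updateRow_self]
            exact hx
          · rw [updateRow_ne hji]
            exact hA j (by simp [hji, hj])
        | zero =>
          rw [det_eq_zero_of_row_eq_zero i (fun j => by simp)]
          exact zero_mem _
        | add x y _ _ hx hy =>
          rw [det_updateRow_add]
          exact add_mem hx hy
        | smul a x _ hx =>
          rw [det_updateRow_smul]
          exact Ideal.mul_mem_left _ _ hx
      simpa using this (A i) (hM _)
  have := key Finset.univ 1 (fun i hi => absurd (Finset.mem_univ i) hi)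
  rw [det_one] at this
  exact IsLocalRing.notMem_maximalIdeal.2 isUnit_one this

/-- The linear map whose kernel is the module of descended vectors. -/
noncomputable def h90d {S : Type*} [CommRing S] [Algebra R S] {n : ℕ}
    (G : Matrix (Fin n) (Fin n) (S ⊗[R] S)) : (Fin n → S) →ₗ[R] (Fin n → S ⊗[R] S) where
  toFun x := G *ᵥ (fun i => x i ⊗ₜ[R] (1 : S)) - fun i => (1 : S) ⊗ₜ[R] x i
  map_add' x y := by
    funext i
    simp only [Pi.sub_apply, Pi.add_apply, mulVec, dotProduct, add_tmul, tmul_add, mul_add,
      Finset.sum_add_distrib]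
    ring
  map_smul' c x := by
    funext i
    simp only [Pi.sub_apply, Pi.smul_apply, mulVec, dotProduct, RingHom.id_apply, smul_sub,
      Finset.smul_sum, tmul_smul, ← smul_tmul', mul_smul_comm]

theorem h90d_apply {S : Type*} [CommRing S] [Algebra R S] {n : ℕ}
    (G : Matrix (Fin n) (Fin n) (S ⊗[R] S)) (x : Fin n → S) (i : Fin n) :
    h90d G x i = ∑ j, G i j * (x j ⊗ₜ[R] (1 : S)) - (1 : S) ⊗ₜ[R] x i := rfl

theorem h90_lTensor {S : Type*} [CommRing S] [Algebra R S] {n : ℕ}
    (G : Matrix (Fin n) (Fin n) (S ⊗[R] S)) (ξ : S ⊗[R] (Fin n → S)) (i : Fin n) :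
    piRightHom R R S (fun _ : Fin n => S ⊗[R] S) ((h90d G).lTensor S ξ) i =
      ∑ j, ((1 : S) ⊗ₜ[R] G i j) *
          Algebra.TensorProduct.map (AlgHom.id R S)
            (Algebra.TensorProduct.includeLeft : S →ₐ[R] S ⊗[R] S)
            (piRightHom R R S (fun _ : Fin n => S) ξ j) -
        Algebra.TensorProduct.map (AlgHom.id R S)
          (Algebra.TensorProduct.includeRight : S →ₐ[R] S ⊗[R] S)
          (piRightHom R R S (fun _ : Fin n => S) ξ i) := by
  induction ξ using TensorProduct.induction_on with
  | zero => simp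
  | tmul s y =>
    simp only [LinearMap.lTensor_tmul, piRightHom_tmul, h90d_apply, tmul_sub, tmul_sum,
      Algebra.TensorProduct.map_tmul, AlgHom.id_apply, Algebra.TensorProduct.includeLeft_apply,
      Algebra.TensorProduct.includeRight_apply, Algebra.TensorProduct.tmul_mul_tmul, one_mul]
  | add a b ha hb =>
    simp only [map_add, Pi.add_apply, ha, hb, mul_add, Finset.sum_add_distrib]
    ring

theorem h90_mem_span {S : Type*} [CommRing S] [Algebra R S] {n : ℕ}
    (M : Submodule R (Fin n → S)) (η : S ⊗[R] M) :
    (fun i => Algebra.TensorProduct.lmul' R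
      (piRightHom R R S (fun _ : Fin n => S) (M.subtype.lTensor S η) i)) ∈
      Submodule.span S (M : Set (Fin n → S)) := by
  induction η using TensorProduct.induction_on with
  | zero =>
    simp only [map_zero, Pi.zero_apply]
    exact zero_mem _
  | tmul s y =>
    have : (fun i => Algebra.TensorProduct.lmul' R
        (piRightHom R R S (fun _ : Fin n => S) (M.subtype.lTensor S (s ⊗ₜ[R] y)) i)) =
        s • (y : Fin n → S) := by
      funext i
      simp
    rw [this]
    exact Submodule.smul_mem _ _ (Submodule.subset_span y.2)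
  | add a b ha hb =>
    simp only [map_add, Pi.add_apply]
    exact add_mem ha hb

/-- Matrix cocycles for a flat local algebra are coboundaries. -/
theorem h90 {S : Type u} [CommRing S] [IsLocalRing S] [Algebra R S] [Module.Flat R S] {n : ℕ}
    (g : ∀ (T : Type u) [CommRing T] [Algebra R T],
      (S →ₐ[R] T) → (S →ₐ[R] T) → Matrix (Fin n) (Fin n) T)
    (hnat : ∀ (T T' : Type u) [CommRing T] [Algebra R T] [CommRing T'] [Algebra R T']
      (f : T →ₐ[R] T') (a b : S →ₐ[R] T), (g T a b).map f = g T' (f.comp a) (f.comp b))
    (hone : ∀ (T : Type u) [CommRing T] [Algebra R T] (a : S →ₐ[R] T), g T a a = 1)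
    (hmul : ∀ (T : Type u) [CommRing T] [Algebra R T] (a b c : S →ₐ[R] T),
      g T b c * g T a b = g T a c) :
    ∃ h : Matrix (Fin n) (Fin n) S, IsUnit h.det ∧
      ∀ (T : Type u) [CommRing T] [Algebra R T] (a b : S →ₐ[R] T),
        g T a b * h.map a = h.map b := by
  set il : S →ₐ[R] S ⊗[R] S := Algebra.TensorProduct.includeLeft with hil
  set ir : S →ₐ[R] S ⊗[R] S := Algebra.TensorProduct.includeRight with hir
  set G := g (S ⊗[R] S) il ir with hG
  have hspan : ∀ x, x ∈ Submodule.span S (LinearMap.ker (h90d G) : Set (Fin n → S)) := by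
    intro x
    obtain ⟨ξ, hξ⟩ := (piRight R R S (fun _ : Fin n => S)).surjective (G *ᵥ fun i => il (x i))
    rw [piRight_apply] at hξ
    have h0 : (h90d G).lTensor S ξ = 0 := by
      apply (piRight R R S (fun _ : Fin n => S ⊗[R] S)).injective
      rw [map_zero, piRight_apply]
      funext i
      rw [h90_lTensor, hξ]
      set p12 := Algebra.TensorProduct.map (AlgHom.id R S) il with hp12
      set p13 := Algebra.TensorProduct.map (AlgHom.id R S) ir with hp13
      set p23 : S ⊗[R] S →ₐ[R] S ⊗[R] (S ⊗[R] S) := Algebra.TensorProduct.includeRight with hp23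
      have e1 : p13.comp il = p12.comp il := by
        rw [hp12, hp13, hil, Algebra.TensorProduct.map_comp_includeLeft,
          Algebra.TensorProduct.map_comp_includeLeft]
      have e2 : p23.comp il = p12.comp ir := by
        rw [hp12, hir, Algebra.TensorProduct.map_comp_includeRight]
      have e3 : p23.comp ir = p13.comp ir := by
        rw [hp13, hir, Algebra.TensorProduct.map_comp_includeRight]
      have hc : G.map p23 * G.map p12 = G.map p13 := by
        rw [hG, hnat, hnat, hnat, e1, e2, e3, hmul]
      have hx : ∀ k, p13 (il (x k)) = p12 (il (x k)) := fun k => AlgHom.congr_fun e1 (x k)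
      have hc' : ∀ k, p13 (G i k) = ∑ j, ((1 : S) ⊗ₜ[R] G i j) * p12 (G j k) := fun k =>
        (congrFun (congrFun hc i) k).symm
      simp only [mulVec, dotProduct, map_sum, map_mul, hx, hc', Finset.mul_sum, Finset.sum_mul,
        Pi.zero_apply, mul_assoc]
      rw [Finset.sum_comm, sub_self]
    obtain ⟨η, hη⟩ :=
      (Module.Flat.lTensor_exact S (LinearMap.exact_subtype_ker_map (h90d G)) ξ).1 h0
    have h1 := h90_mem_span (LinearMap.ker (h90d G)) η
    rw [hη, hξ] at h1
    have h2 : G.map (Algebra.TensorProduct.lmul' R : S ⊗[R] S →ₐ[R] S) = 1 := by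
      rw [hG, hnat, hil, hir, Algebra.TensorProduct.lmul'_comp_includeLeft,
        Algebra.TensorProduct.lmul'_comp_includeRight, hone]
    have h3 : (fun i => Algebra.TensorProduct.lmul' R ((G *ᵥ fun i => il (x i)) i)) = x := by
      funext i
      have h4 : ∀ j, Algebra.TensorProduct.lmul' R (G i j) = (1 : Matrix (Fin n) (Fin n) S) i j :=
        fun j => congrFun (congrFun h2 i) j
      have h5 : ∀ j, Algebra.TensorProduct.lmul' R (il (x j)) = x j := fun j => by simp [hil]
      simp only [mulVec, dotProduct, map_sum, map_mul, h4, h5]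
      exact congrFun (one_mulVec x) i
    rwa [h3] at h1
  obtain ⟨A, hA, hM⟩ := h90_rows _ hspan
  refine ⟨Aᵀ, by rwa [det_transpose], fun T _ _ a b => ?_⟩
  have h6 : g T a b = G.map (Algebra.TensorProduct.productMap a b) := by
    rw [hG, hnat, hil, hir, Algebra.TensorProduct.productMap_left,
      Algebra.TensorProduct.productMap_right]
  ext i k
  have h7 : h90d G (A k) i = 0 := congrFun (LinearMap.mem_ker.1 (hM k)) i
  rw [h90d_apply, sub_eq_zero] at h7
  have h8 := congrArg (Algebra.TensorProduct.productMap a b) h7
  simp only [map_sum, map_mul, Algebra.TensorProduct.productMap_left_apply,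
    Algebra.TensorProduct.productMap_right_apply] at h8
  rw [h6, mul_apply]
  simpa only [map_apply, transpose_apply] using h8

end Pool.Agent.P.MP_c1f06d_ag
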