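import Pool.Agent.P.MP_c1f06d_ag.Tors4
import Pool.Agent.P.MP_c1f06d_ag.Core

open Matrix Polynomial

universe u

namespace Pool.Agent.P.MP_c1f06d_ag

theorem spin_main (V : Type u) [CommRing V] [IsDomain V] [ValuationRing V]
    (A : Type u) [CommRing A] [Algebra V A] [Algebra.Smooth V A] (p : Ideal A) [p.IsPrime]
    (R : Type u) [CommRing R] [IsDomain R] [Algebra A R] [IsLocalization.AtPrime R p]
    (K : Type u) [Field K] [Algebra R K] [IsFractionRing R K]
    (m : ℕ) (hm : 5 ≤ m) (Q : Matrix (Fin m) (Fin m) R) (hQ : IsUnit (Q + Qᵀ).det)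
    (E : Type u) [CommRing E] [Algebra R E] [Module.FaithfullyFlat R E] (τ : SpinAction Q E)
    (hK : Nonempty (E →ₐ[R] K)) : Nonempty (E →ₐ[R] R) := by
  have : IsLocalRing R := IsLocalization.AtPrime.isLocalRing R p
  exact SpinAction.nonempty_of_generic hQ (by omega)
    (fun Q' hQ' hi => iso_main V A p K hQ' hQ hi) (fun c hc hs => sn_main V A p K hQ hm hc hs) τ hK

end Pool.Agent.P.MP_c1f06d_ag
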