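import Pool.Agent.P.MP_c1f06d_ag.QSn

open Matrix Polynomial

universe u

namespace Pool.Agent.P.MP_c1f06d_ag

variable {R : Type*} [CommRing R]

theorem move1_xi [Nontrivial R] (G : R[X][X]) (hG : G.Monic)
    (h0 : (G.coeff 0).coeff 0 = 0) (h1 : IsUnit ((G.coeff 1).coeff 0)) (j : ℕ) :
    ∃ ξ : R[X][X], (∀ i, G.natDegree ≤ i → ξ.coeff i = 0) ∧ (ξ.coeff 0).coeff 0 = 1 ∧
      ∃ a b, X ^ j * ξ = a * G + b * C X ^ j := by
  obtain ⟨c, hc⟩ := h1.exists_left_inv
  let ev : R[X][X] →+* R := constantCoeff.comp constantCoeff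
  have hev : ∀ p, ev p = (p.coeff 0).coeff 0 := fun _ => rfl
  have hu : ev (C (C c) * divX G) = 1 := by
    rw [map_mul, hev, hev, coeff_C_zero, coeff_C_zero, coeff_divX]
    exact hc
  have e1 := X_mul_divX_add G
  have e2 := X_mul_divX_add (G.coeff 0)
  rw [h0, C_0, add_zero] at e2
  rw [← e2, C_mul] at e1
  obtain ⟨k, hk⟩ := sub_dvd_pow_sub_pow (X * (C (C c) * divX G))
    (-(C (C c) * C (divX (G.coeff 0))) * C X) j
  refine ⟨(C (C c) * divX G) ^ j %ₘ G, fun i hi => coeff_eq_zero_of_degree_lt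
    ((degree_modByMonic_lt _ hG).trans_le (degree_le_natDegree.trans (by exact_mod_cast hi))), ?_,
    C (C c) * k - X ^ j * ((C (C c) * divX G) ^ j /ₘ G),
    (-(C (C c) * C (divX (G.coeff 0)))) ^ j, ?_⟩
  · rw [← hev, modByMonic_eq_sub_mul_div, map_sub, map_pow, hu, map_mul, hev G, h0]
    simp
  · rw [modByMonic_eq_sub_mul_div]
    rw [mul_pow, mul_pow _ (C (X : R[X]))] at hk
    linear_combination hk + C (C c) * k * e1

theorem exists_moving_poly_noeth [IsNoetherianRing R] (G : R[X][X]) (hG : G.Monic)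
    (h0 : (G.coeff 0).coeff 0 = 0) (h1 : IsUnit ((G.coeff 1).coeff 0)) (M : ℕ) :
    ∃ n0, ∀ n, n0 ≤ n → ∃ p : R[X][X],
      (∀ i j, (p.coeff i).coeff j ≠ 0 → i < G.natDegree ∧ j + M < n) ∧
      (p.coeff 0).coeff 0 = 1 ∧ X ^ n * p ∈ Ideal.span {G, C (X ^ n)} := by
  rcases subsingleton_or_nontrivial R with hR | hR
  · exact ⟨0, fun n _ => ⟨0, fun i j h => absurd (Subsingleton.elim _ _) h,
      Subsingleton.elim _ _, by simp⟩⟩
  choose ξ hξ1 hξ2 hξ3 using move1_xi G hG h0 h1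
  let v : ℕ → Fin G.natDegree → Fin M → R := fun j i e =>
    if (e : ℕ) < j then ((ξ j).coeff i).coeff (j - 1 - e) else 0
  obtain ⟨n1, hn1⟩ := monotone_stabilizes_iff_noetherian.2
    (inferInstance : IsNoetherian R (Fin G.natDegree → Fin M → R))
    ⟨fun n => Submodule.span R (v '' Set.Iic n), fun a b hab =>
      Submodule.span_mono (Set.image_mono (Set.Iic_subset_Iic.2 hab))⟩
  refine ⟨n1 + M + 1, fun n hn => ?_⟩
  have hI : ∀ j ≤ n, X ^ n * (C (X ^ (n - j)) * ξ j) ∈ Ideal.span {G, C (X ^ n)} := by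
    intro j hj
    obtain ⟨a, b, h⟩ := hξ3 j
    obtain ⟨d, rfl⟩ := Nat.exists_eq_add_of_le hj
    refine Ideal.mem_span_pair.2 ⟨X ^ d * C X ^ d * a, X ^ d * b, ?_⟩
    rw [Nat.add_sub_cancel_left, C_pow, C_pow]
    linear_combination -(X ^ d * C X ^ d) * h
  have key : ∀ w ∈ Submodule.span R (v '' Set.Iic n1), ∃ s : R[X][X],
      (∀ i, G.natDegree ≤ i → s.coeff i = 0) ∧ (s.coeff 0).coeff 0 = 0 ∧
      X ^ n * s ∈ Ideal.span {G, C (X ^ n)} ∧
      ∀ (i : Fin G.natDegree) (e : Fin M), (s.coeff i).coeff (n - 1 - e) = w i e := by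
    intro w hw
    induction hw using Submodule.span_induction with
    | mem w hw =>
      obtain ⟨j, hj, rfl⟩ := hw
      have hj' : j ≤ n1 := hj
      refine ⟨C (X ^ (n - j)) * ξ j, fun i hi => by rw [coeff_C_mul, hξ1 j i hi, mul_zero], ?_,
        hI j (by omega), fun i e => ?_⟩
      · rw [coeff_C_mul, coeff_X_pow_mul', if_neg (by omega)]
      · have he := e.2
        rw [coeff_C_mul, coeff_X_pow_mul']
        by_cases h : (e : ℕ) < j
        · rw [if_pos (by omega), show n - 1 - e - (n - j) = j - 1 - e by omega]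
          exact (if_pos h).symm
        · rw [if_neg (by omega)]
          exact (if_neg h).symm
    | zero => exact ⟨0, by simp, by simp, by simp, by simp⟩
    | add w w' _ _ h h' =>
      obtain ⟨s, a1, a2, a3, a4⟩ := h
      obtain ⟨s', b1, b2, b3, b4⟩ := h'
      exact ⟨s + s', fun i hi => by simp [a1 i hi, b1 i hi], by simp [a2, b2],
        mul_add (X ^ n) s s' ▸ add_mem a3 b3, fun i e => by simp [a4, b4]⟩
    | smul a w _ h =>
      obtain ⟨s, a1, a2, a3, a4⟩ := h
      exact ⟨C (C a) * s, fun i hi => by simp [a1 i hi], by simp [a2],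
        mul_left_comm (C (C a)) (X ^ n) s ▸ Ideal.mul_mem_left _ _ a3, fun i e => by simp [a4]⟩
  have hv : v n ∈ Submodule.span R (v '' Set.Iic n1) :=
    (hn1 n (by omega)).ge (Submodule.subset_span ⟨n, Set.self_mem_Iic, rfl⟩)
  obtain ⟨s, a1, a2, a3, a4⟩ := key _ hv
  have hn0 := hI n le_rfl
  rw [Nat.sub_self, pow_zero, C_1, one_mul] at hn0
  let q := ξ n - s
  have hq1 : ∀ i, G.natDegree ≤ i → q.coeff i = 0 := fun i hi => by simp [q, hξ1 n i hi, a1 i hi]
  have hq2 : ∀ i j, j < n → n ≤ j + M → (q.coeff i).coeff j = 0 := by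
    intro i j h2 h3
    rcases le_or_gt G.natDegree i with hi | hi
    · rw [hq1 i hi, coeff_zero]
    · have h4 := a4 ⟨i, hi⟩ ⟨n - 1 - j, by omega⟩
      simp only [v] at h4
      rw [if_pos (by omega), show n - 1 - (n - 1 - j) = j by omega] at h4
      simp [q, h4]
  let p : R[X][X] := ∑ i ∈ Finset.range G.natDegree, monomial i
    (∑ j ∈ Finset.range (n - M), monomial j ((q.coeff i).coeff j))
  have hp : ∀ i j, (p.coeff i).coeff j =
      if i < G.natDegree ∧ j + M < n then (q.coeff i).coeff j else 0 := by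
    intro i j
    by_cases hi : i < G.natDegree <;>
      simp [p, coeff_monomial, hi, Nat.lt_sub_iff_add_lt]
  have hp' : ∀ i j, j < n → (p.coeff i).coeff j = (q.coeff i).coeff j := by
    intro i j hj
    rw [hp]
    split_ifs with h
    · rfl
    · rcases le_or_gt G.natDegree i with hi | hi
      · rw [hq1 i hi, coeff_zero]
      · exact (hq2 i j hj (by omega)).symm
  obtain ⟨b, hb⟩ : C (X ^ n) ∣ p - q := (C_dvd_iff_dvd_coeff _ _).2 fun i =>
    X_pow_dvd_iff.2 fun j hj => by rw [coeff_sub, coeff_sub, hp' i j hj, sub_self]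
  refine ⟨p, fun i j h => ?_, ?_, ?_⟩
  · rw [hp] at h
    by_contra h2
    exact h (if_neg h2)
  · rw [hp' 0 0 (by omega)]
    simp [q, hξ2, a2]
  · rw [show X ^ n * p = X ^ n * ξ n - X ^ n * s + X ^ n * b * C (X ^ n) by
      simp only [q] at hb; linear_combination X ^ n * hb]
    exact add_mem (sub_mem hn0 a3) (Ideal.mul_mem_left _ _ (Ideal.subset_span (by simp)))

theorem exists_moving_poly (G : R[X][X]) (hG : G.Monic)
    (h0 : (G.coeff 0).coeff 0 = 0) (h1 : IsUnit ((G.coeff 1).coeff 0)) (M : ℕ) :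
    ∃ n0, ∀ n, n0 ≤ n → ∃ p : R[X][X],
      (∀ i j, (p.coeff i).coeff j ≠ 0 → i < G.natDegree ∧ j + M < n) ∧
      (p.coeff 0).coeff 0 = 1 ∧ X ^ n * p ∈ Ideal.span {G, C (X ^ n)} := by
  obtain ⟨c, hc⟩ := h1.exists_left_inv
  let s : Set R := insert c (⋃ i ∈ G.support, ((G.coeff i).coeffs : Set R))
  have hs : s.Finite :=
    (G.support.finite_toSet.biUnion fun i _ => Finset.finite_toSet _).insert c
  let S := Subring.closure s
  have : IsNoetherianRing S := is_noetherian_subring_closure s hs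
  obtain ⟨G0, hG0, h2, h3⟩ := lifts_and_natDegree_eq_and_monic (f := mapRingHom S.subtype) (p := G)
    ((lifts_iff_coeff_lifts _).2 fun i => (lifts_iff_coeff_lifts (f := S.subtype) _).2 fun j => by
      by_cases h : (G.coeff i).coeff j = 0
      · exact ⟨0, h.symm⟩
      · refine ⟨⟨_, Subring.subset_closure (Or.inr (Set.mem_iUnion₂.2
          ⟨i, mem_support_iff.2 fun h' => h (by simp [h']), coeff_mem_coeffs h⟩))⟩, rfl⟩) hG
  have e : ∀ (p : S[X][X]) i j, ((p.map (mapRingHom S.subtype)).coeff i).coeff j =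
      ((p.coeff i).coeff j : R) := fun p i j => by simp
  rw [← hG0, e] at h0 hc
  obtain ⟨n0, h⟩ := exists_moving_poly_noeth G0 h3 (Subtype.ext h0) (IsUnit.of_mul_eq_one_right
    (⟨c, Subring.subset_closure (Or.inl rfl)⟩ : S) (Subtype.ext hc)) M
  refine ⟨n0, fun n hn => ?_⟩
  obtain ⟨p, h4, h5, h6⟩ := h n hn
  obtain ⟨a, b, h7⟩ := Ideal.mem_span_pair.1 h6
  refine ⟨p.map (mapRingHom S.subtype), fun i j hij => ?_, by rw [e, h5]; rfl,
    Ideal.mem_span_pair.2 ⟨a.map (mapRingHom S.subtype), b.map (mapRingHom S.subtype), ?_⟩⟩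
  · rw [← h2]
    exact h4 i j fun h8 => hij (by rw [e, h8]; rfl)
  · simpa [hG0] using congrArg (Polynomial.map (mapRingHom S.subtype)) h7

end Pool.Agent.P.MP_c1f06d_ag
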