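import Pool.Agent.P.MP_c1f06d_ag.QSn

open Matrix Polynomial

universe u

namespace Pool.Agent.P.MP_c1f06d_ag

variable {R : Type*} [CommRing R]

/-- all monomials have weight plus `s` below `k` -/
def move2_w (N s k : ℕ) (p : R[X][X]) : Prop :=
  ∀ i j, (p.coeff i).coeff j ≠ 0 → j + N * i + s < k

theorem move2_w_mul {N s k : ℕ} {p q : R[X][X]} (hp : move2_w N s (k + 1) p)
    (hq : move2_w N 0 s q) : move2_w N 0 k (p * q) := by
  intro i j h
  rw [coeff_mul, finsetSum_coeff] at h
  obtain ⟨x, hx, h1⟩ := Finset.exists_ne_zero_of_sum_ne_zero h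
  rw [coeff_mul] at h1
  obtain ⟨y, hy, h2⟩ := Finset.exists_ne_zero_of_sum_ne_zero h1
  have e1 := hp _ _ (left_ne_zero_of_mul h2)
  have e2 := hq _ _ (right_ne_zero_of_mul h2)
  rw [Finset.HasAntidiagonal.mem_antidiagonal] at hx hy
  rw [← hx, ← hy, Nat.mul_add]
  omega

theorem move2_w_exists (N s : ℕ) (p : R[X][X]) : ∃ k, move2_w N s k p := by
  refine ⟨(p.support.sup fun i => (p.coeff i).natDegree) + N * p.natDegree + s + 1, ?_⟩
  intro i j h
  have hi : p.coeff i ≠ 0 := by
    intro h0
    rw [h0] at h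
    exact h rfl
  have h1 : j ≤ (p.coeff i).natDegree := le_natDegree_of_ne_zero h
  have h2 : i ≤ p.natDegree := le_natDegree_of_ne_zero hi
  have h3 : (p.coeff i).natDegree ≤ p.support.sup fun i => (p.coeff i).natDegree :=
    Finset.le_sup (f := fun i => (p.coeff i).natDegree) (mem_support_iff.2 hi)
  have h4 := Nat.mul_le_mul_left N h2
  omega

theorem move2_w_zero {N s : ℕ} {p : R[X][X]} (hp : move2_w N s 0 p) : p = 0 := by
  ext i j
  by_contra h
  exact absurd (hp i j (by simpa using h)) (Nat.not_lt_zero _)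

/-- the monomial -/
noncomputable def move2_mon (R : Type*) [CommRing R] (j i : ℕ) : R[X][X] := C (X ^ j) * X ^ i

theorem move2_mon_coeff (j i j' i' : ℕ) :
    ((move2_mon R j i).coeff i').coeff j' = if i' = i ∧ j' = j then 1 else 0 := by
  unfold move2_mon
  rw [coeff_C_mul, coeff_X_pow]
  by_cases h : i' = i
  · simp [h, coeff_X_pow]
  · simp [h]

theorem move2_w_mon (N j i : ℕ) : move2_w N 0 (j + N * i + 1) (move2_mon R j i) := by
  intro i' j' h
  rw [move2_mon_coeff] at h
  by_cases h' : i' = i ∧ j' = j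
  · rw [h'.1, h'.2]; omega
  · simp [h'] at h

theorem move2_mem_of_mon (T : Submodule R R[X][X]) (p : R[X][X])
    (h : ∀ i j, (p.coeff i).coeff j ≠ 0 → move2_mon R j i ∈ T) : p ∈ T := by
  rw [p.as_sum_support_C_mul_X_pow]
  refine T.sum_mem fun i _ => ?_
  rw [(p.coeff i).as_sum_support_C_mul_X_pow, map_sum, Finset.sum_mul]
  refine T.sum_mem fun j hj => ?_
  have := T.smul_mem ((p.coeff i).coeff j) (h i j (mem_support_iff.1 hj))
  rw [move2_mon, Algebra.smul_def] at this
  rw [C_mul, mul_assoc]
  exact this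

theorem move2_tail (G : R[X][X]) (hG : G.Monic) (N : ℕ)
    (hw : ∀ i j, i < G.natDegree → (G.coeff i).coeff j ≠ 0 → j + N * i < N * G.natDegree) :
    move2_w N 0 (N * G.natDegree) (G - X ^ G.natDegree) := by
  intro i j h
  rw [coeff_sub, coeff_X_pow] at h
  rcases lt_trichotomy i G.natDegree with h1 | h1 | h1
  · rw [if_neg h1.ne, sub_zero] at h
    exact hw i j h1 h
  · rw [if_pos h1, h1, hG.coeff_natDegree, sub_self] at h
    exact absurd rfl h
  · rw [if_neg h1.ne', coeff_eq_zero_of_natDegree_lt h1, sub_self] at h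
    exact absurd rfl h

theorem move2_span (G : R[X][X]) (hG : G.Monic) (n N : ℕ) (ρ : R[X][X])
    (hw : ∀ i j, i < G.natDegree → (G.coeff i).coeff j ≠ 0 → j + N * i < N * G.natDegree)
    (hρ : ∀ i j, (ρ.coeff i).coeff j ≠ 0 → j + N * i < n) (T : Submodule R R[X][X])
    (h1 : ∀ a, a * G ∈ T) (h2 : ∀ a, a * (C (X ^ n) + ρ) ∈ T)
    (h3 : ∀ j i, j < n → i < G.natDegree → move2_mon R j i ∈ T) (p : R[X][X]) : p ∈ T := by
  have key : ∀ k i j, j + N * i < k → move2_mon R j i ∈ T := by
    intro k
    induction k with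
    | zero => intro i j h; omega
    | succ k ih =>
      have ih' : ∀ q, move2_w N 0 k q → q ∈ T := fun q hq =>
        move2_mem_of_mon T q fun i j h => ih i j (hq i j h)
      intro i j h
      by_cases hi : i < G.natDegree
      · by_cases hj : j < n
        · exact h3 j i hj hi
        · obtain ⟨d, rfl⟩ := Nat.exists_eq_add_of_le (not_lt.1 hj)
          have e : move2_mon R (n + d) i =
              move2_mon R d i * (C (X ^ n) + ρ) - move2_mon R d i * ρ := by
            unfold move2_mon
            rw [pow_add, C_mul]; ring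
          rw [e]
          refine T.sub_mem (h2 _) (ih' _ (move2_w_mul (s := n) ?_ hρ))
          intro i' j' h'
          have := move2_w_mon (R := R) N d i i' j' h'
          omega
      · obtain ⟨d, rfl⟩ := Nat.exists_eq_add_of_le (not_lt.1 hi)
        have e : move2_mon R j (G.natDegree + d) =
            move2_mon R j d * G - move2_mon R j d * (G - X ^ G.natDegree) := by
          unfold move2_mon
          rw [pow_add]; ring
        rw [e]
        refine T.sub_mem (h1 _) (ih' _ (move2_w_mul (s := N * G.natDegree) ?_ (move2_tail G hG N hw)))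
        intro i' j' h'
        have := move2_w_mon (R := R) N j d i' j' h'
        rw [Nat.mul_add] at h
        omega
  exact move2_mem_of_mon T p fun i j _ => key _ i j (Nat.lt_succ_self _)

theorem move2_indep0 (G : R[X][X]) (hG : G.Monic) (n N : ℕ) (ρ : R[X][X])
    (hw : ∀ i j, i < G.natDegree → (G.coeff i).coeff j ≠ 0 → j + N * i < N * G.natDegree)
    (hρ : ∀ i j, (ρ.coeff i).coeff j ≠ 0 → j + N * i < n) (a b : R[X][X])
    (hb : ∀ i, G.natDegree ≤ i → b.coeff i = 0)
    (hL : ∀ i j, ((a * G + b * (C (X ^ n) + ρ)).coeff i).coeff j ≠ 0 → i < G.natDegree ∧ j < n) :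
    a = 0 ∧ b = 0 := by
  have e : a * G + b * (C (X ^ n) + ρ) =
      a * X ^ G.natDegree + b * C (X ^ n) + (a * (G - X ^ G.natDegree) + b * ρ) := by ring
  rw [e] at hL
  have key : ∀ k, move2_w N (N * G.natDegree) k a → move2_w N n k b → a = 0 ∧ b = 0 := by
    intro k
    induction k with
    | zero => exact fun ha hb => ⟨move2_w_zero ha, move2_w_zero hb⟩
    | succ k ih =>
      intro ha hb'
      have w1 := move2_w_mul ha (move2_tail G hG N hw)
      have w2 := move2_w_mul hb' (q := ρ) hρ
      have w3 : ∀ i j, j + N * i = k →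
          ((a * (G - X ^ G.natDegree) + b * ρ).coeff i).coeff j = 0 := by
        intro i j h
        have z1 : ((a * (G - X ^ G.natDegree)).coeff i).coeff j = 0 := by
          by_contra h'
          have := w1 i j h'
          omega
        have z2 : ((b * ρ).coeff i).coeff j = 0 := by
          by_contra h'
          have := w2 i j h'
          omega
        rw [coeff_add, coeff_add, z1, z2, add_zero]
      refine ih ?_ ?_
      · intro i j h
        have h0 := ha i j h
        by_contra h1
        have hk : j + N * (i + G.natDegree) = k := by rw [Nat.mul_add]; omega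
        have := hL (i + G.natDegree) j (by
          rw [coeff_add, coeff_add, w3 _ _ hk, add_zero, coeff_add, coeff_mul_X_pow, coeff_mul_C,
            hb _ (Nat.le_add_left _ _), zero_mul, add_zero]
          exact h)
        omega
      · intro i j h
        have h0 := hb' i j h
        by_contra h1
        have hk : j + n + N * i = k := by omega
        have hi : i < G.natDegree := by
          by_contra hi
          rw [hb i (not_lt.1 hi)] at h
          exact h rfl
        have := hL i (j + n) (by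
          rw [coeff_add, coeff_add, w3 _ _ hk, add_zero, coeff_add, coeff_mul_X_pow', coeff_mul_C,
            if_neg (not_le.2 hi), zero_add, coeff_mul_X_pow]
          exact h)
        omega
  obtain ⟨k1, h1⟩ := move2_w_exists N (N * G.natDegree) a
  obtain ⟨k2, h2⟩ := move2_w_exists N n b
  exact key (k1 + k2) (fun i j h => by have := h1 i j h; omega)
    (fun i j h => by have := h2 i j h; omega)

theorem move2_indep [Nontrivial R] (G : R[X][X]) (hG : G.Monic) (n N : ℕ) (ρ : R[X][X])
    (hw : ∀ i j, i < G.natDegree → (G.coeff i).coeff j ≠ 0 → j + N * i < N * G.natDegree)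
    (hρ : ∀ i j, (ρ.coeff i).coeff j ≠ 0 → j + N * i < n) (L : R[X][X])
    (hI : L ∈ Ideal.span {G, C (X ^ n) + ρ})
    (hL : ∀ i j, (L.coeff i).coeff j ≠ 0 → i < G.natDegree ∧ j < n) : L = 0 := by
  obtain ⟨a, b, rfl⟩ := Ideal.mem_span_pair.1 hI
  have e : a * G + b * (C (X ^ n) + ρ) =
      (a + (b /ₘ G) * (C (X ^ n) + ρ)) * G + (b %ₘ G) * (C (X ^ n) + ρ) := by
    conv_lhs => rw [← modByMonic_add_div b G]
    ring
  rw [e] at hL ⊢
  obtain ⟨h1, h2⟩ := move2_indep0 G hG n N ρ hw hρ _ _ (fun i hi =>
    coeff_eq_zero_of_degree_lt (lt_of_lt_of_le (degree_modByMonic_lt b hG) (by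
      rw [degree_eq_natDegree hG.ne_zero]; exact_mod_cast hi))) hL
  rw [h1, h2]; simp

theorem quot_free [Nontrivial R] (G : R[X][X]) (hG : G.Monic) (n N : ℕ) (ρ : R[X][X])
    (hw : ∀ i j, i < G.natDegree → (G.coeff i).coeff j ≠ 0 → j + N * i < N * G.natDegree)
    (hρ : ∀ i j, (ρ.coeff i).coeff j ≠ 0 → j + N * i < n) :
    Module.Free R (R[X][X] ⧸ Ideal.span {G, C (X ^ n) + ρ}) ∧
      Module.Finite R (R[X][X] ⧸ Ideal.span {G, C (X ^ n) + ρ}) ∧
      Module.finrank R (R[X][X] ⧸ Ideal.span {G, C (X ^ n) + ρ}) = n * G.natDegree := by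
  classical
  let I : Ideal R[X][X] := Ideal.span {G, C (X ^ n) + ρ}
  let f : R[X][X] →ₗ[R] (R[X][X] ⧸ I) := (Ideal.Quotient.mkₐ R I).toLinearMap
  have hf : ∀ x, f x = 0 ↔ x ∈ I := fun x => Ideal.Quotient.eq_zero_iff_mem
  let v : Fin n × Fin G.natDegree → R[X][X] ⧸ I := fun x => f (move2_mon R x.1 x.2)
  have hli : LinearIndependent R v := by
    rw [Fintype.linearIndependent_iff]
    intro g hg x
    have hc : ∀ i j, ((∑ y : Fin n × Fin G.natDegree, g y • move2_mon R y.1 y.2).coeff i).coeff j =
        ∑ y : Fin n × Fin G.natDegree, g y * (if i = y.2 ∧ j = y.1 then 1 else 0) := by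
      intro i j
      rw [finsetSum_coeff, finsetSum_coeff]
      refine Finset.sum_congr rfl fun y _ => ?_
      rw [coeff_smul, coeff_smul, move2_mon_coeff, smul_eq_mul]
    have h0 : (∑ y : Fin n × Fin G.natDegree, g y • move2_mon R y.1 y.2) = 0 := by
      refine move2_indep G hG n N ρ hw hρ _ ((hf _).1 ?_) ?_
      · rw [map_sum, ← hg]
        exact Finset.sum_congr rfl fun y _ => map_smul f _ _
      · intro i j h
        rw [hc] at h
        obtain ⟨y, -, hy⟩ := Finset.exists_ne_zero_of_sum_ne_zero h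
        by_cases h' : i = y.2 ∧ j = y.1
        · rw [h'.1, h'.2]; exact ⟨y.2.2, y.1.2⟩
        · simp [h'] at hy
    have := hc x.2 x.1
    rw [h0, Finset.sum_eq_single x] at this
    · simpa using this.symm
    · intro y _ hy
      rw [if_neg, mul_zero]
      rintro ⟨h1, h2⟩
      exact hy (Prod.ext (Fin.ext h2.symm) (Fin.ext h1.symm))
    · simp
  have hsp : ⊤ ≤ Submodule.span R (Set.range v) := by
    intro q _
    obtain ⟨p, rfl⟩ := Ideal.Quotient.mk_surjective q
    refine move2_span G hG n N ρ hw hρ ((Submodule.span R (Set.range v)).comap f) ?_ ?_ ?_ p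
    · intro a
      rw [Submodule.mem_comap, (hf _).2 (I.mul_mem_left _ (Ideal.subset_span (by simp)))]
      exact zero_mem _
    · intro a
      rw [Submodule.mem_comap, (hf _).2 (I.mul_mem_left _ (Ideal.subset_span (by simp)))]
      exact zero_mem _
    · intro j i hj hi
      exact Submodule.subset_span ⟨(⟨j, hj⟩, ⟨i, hi⟩), rfl⟩
  let b := Module.Basis.mk hli hsp
  refine ⟨Module.Free.of_basis b, Module.Finite.of_basis b, ?_⟩
  rw [Module.finrank_eq_card_basis b]
  simp

theorem exists_weight (G : R[X][X]) :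
    ∃ N, ∀ i j, i < G.natDegree → (G.coeff i).coeff j ≠ 0 → j + N * i < N * G.natDegree := by
  obtain ⟨k, hk⟩ := move2_w_exists 0 0 G
  refine ⟨k, fun i j hi h => ?_⟩
  have h1 := hk i j h
  have h2 : k * (i + 1) ≤ k * G.natDegree := Nat.mul_le_mul_left k hi
  rw [Nat.mul_add] at h2
  omega

end Pool.Agent.P.MP_c1f06d_ag
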