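import Pool.Agent.P.MP_c1f06d_ag.QSn

open Matrix Polynomial

universe u

namespace Pool.Agent.P.MP_c1f06d_ag

variable {R : Type*} [CommRing R]

theorem move3_free_of_split [IsLocalRing R] {M P : Type*} [AddCommGroup M] [Module R M]
    [AddCommGroup P] [Module R P] [Module.Free R P] [Module.Finite R P]
    (i : M →ₗ[R] P) (s : P →ₗ[R] M) (h : s.comp i = LinearMap.id) :
    Module.Free R M ∧ Module.Finite R M := by
  have hs : Function.Surjective s := fun x => ⟨i x, LinearMap.congr_fun h x⟩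
  have hfin : Module.Finite R M := Module.Finite.of_surjective s hs
  have hproj : Module.Projective R M := Module.Projective.of_split i s h
  exact ⟨Module.free_of_flat_of_isLocalRing, hfin⟩

theorem move3_prod [IsLocalRing R] {P M N : Type*} [AddCommGroup M] [Module R M]
    [AddCommGroup N] [Module R N] [AddCommGroup P] [Module R P] [Module.Free R P]
    [Module.Finite R P] (e : P ≃ₗ[R] M × N) :
    Module.Free R N ∧ Module.Finite R N ∧
      Module.finrank R P = Module.finrank R M + Module.finrank R N := by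
  obtain ⟨f1, g1⟩ := move3_free_of_split (R := R) (M := M) (P := P)
    (e.symm.toLinearMap.comp (LinearMap.inl R _ _)) ((LinearMap.fst R _ _).comp e.toLinearMap)
    (by ext x; simp)
  obtain ⟨f2, g2⟩ := move3_free_of_split (R := R) (M := N) (P := P)
    (e.symm.toLinearMap.comp (LinearMap.inr R _ _)) ((LinearMap.snd R _ _).comp e.toLinearMap)
    (by ext x; simp)
  refine ⟨f2, g2, ?_⟩
  rw [e.finrank_eq, Module.finrank_prod]

theorem move3_cancel {A : Type*} [CommRing A] (I : Ideal A) (n : ℕ) (a b c u v x : A)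
    (ha : a ^ n ∈ I) (hb : b ^ n ∈ I) (hc : IsUnit c) (hx : x * (c + (a * u + b * v)) ∈ I) :
    x ∈ I := by
  have n1 : IsNilpotent (Ideal.Quotient.mk I a) :=
    ⟨n, by rw [← map_pow, Ideal.Quotient.eq_zero_iff_mem]; exact ha⟩
  have n2 : IsNilpotent (Ideal.Quotient.mk I b) :=
    ⟨n, by rw [← map_pow, Ideal.Quotient.eq_zero_iff_mem]; exact hb⟩
  have hu : IsUnit (Ideal.Quotient.mk I (c + (a * u + b * v))) := by
    rw [map_add, map_add, map_mul, map_mul]
    refine IsNilpotent.isUnit_add_left_of_commute ?_ (hc.map _) (Commute.all _ _)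
    exact (Commute.all _ _).isNilpotent_add ((Commute.all _ _).isNilpotent_mul_right n1)
      ((Commute.all _ _).isNilpotent_mul_right n2)
  rw [← Ideal.Quotient.eq_zero_iff_mem] at hx ⊢
  rw [map_mul] at hx
  exact (hu.mul_left_eq_zero).1 hx

theorem move3_equiv {A : Type*} [CommRing A] [Algebra R A] (I I1 I2 : Ideal A)
    (h1 : I ≤ I1) (h2 : I ≤ I2) (h12 : I1 * I2 ≤ I) (hc : I1 ⊔ I2 = ⊤) :
    Nonempty ((A ⧸ I) ≃ₗ[R] (A ⧸ I1) × (A ⧸ I2)) := by
  let φ : (A ⧸ I) →ₗ[R] (A ⧸ I1) × (A ⧸ I2) :=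
    LinearMap.prod (Ideal.Quotient.factorₐ R h1).toLinearMap
      (Ideal.Quotient.factorₐ R h2).toLinearMap
  have hφ : ∀ a : A, φ (Ideal.Quotient.mk I a) =
      (Ideal.Quotient.mk I1 a, Ideal.Quotient.mk I2 a) := fun a => rfl
  refine ⟨LinearEquiv.ofBijective φ ⟨?_, ?_⟩⟩
  · rw [injective_iff_map_eq_zero]
    intro x hx
    obtain ⟨a, rfl⟩ := Ideal.Quotient.mk_surjective x
    rw [hφ, Prod.mk_eq_zero, Ideal.Quotient.eq_zero_iff_mem, Ideal.Quotient.eq_zero_iff_mem] at hx
    rw [Ideal.Quotient.eq_zero_iff_mem]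
    apply h12
    rw [Ideal.mul_eq_inf_of_coprime hc]
    exact hx
  · rintro ⟨x, y⟩
    obtain ⟨a, rfl⟩ := Ideal.Quotient.mk_surjective x
    obtain ⟨b, rfl⟩ := Ideal.Quotient.mk_surjective y
    have h1' : (1 : A) ∈ I1 ⊔ I2 := by rw [hc]; exact Submodule.mem_top
    obtain ⟨u, hu, v, hv, huv⟩ := Submodule.mem_sup.1 h1'
    refine ⟨Ideal.Quotient.mk I (a * v + b * u), ?_⟩
    rw [hφ, Prod.mk.injEq, Ideal.Quotient.eq, Ideal.Quotient.eq]
    constructor
    · have e : a * v + b * u - a = (b - a) * u := by linear_combination a * huv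
      rw [e]; exact I1.mul_mem_left _ hu
    · have e : a * v + b * u - b = (a - b) * v := by linear_combination b * huv
      rw [e]; exact I2.mul_mem_left _ hv

theorem split_free [IsLocalRing R] {A : Type*} [CommRing A] [Algebra R A] (I I1 I2 : Ideal A)
    (h1 : I ≤ I1) (h2 : I ≤ I2) (h12 : I1 * I2 ≤ I) (hc : I1 ⊔ I2 = ⊤)
    [Module.Free R (A ⧸ I)] [Module.Finite R (A ⧸ I)] :
    Module.Free R (A ⧸ I2) ∧ Module.Finite R (A ⧸ I2) ∧
      Module.finrank R (A ⧸ I) = Module.finrank R (A ⧸ I1) + Module.finrank R (A ⧸ I2) := by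
  obtain ⟨e⟩ := move3_equiv (R := R) I I1 I2 h1 h2 h12 hc
  exact move3_prod e

theorem move3_newton (G : R[X][X]) (h0 : (G.coeff 0).coeff 0 = 0)
    (h1 : IsUnit ((G.coeff 1).coeff 0)) (n : ℕ) :
    ∃ y : R[X], X ∣ y ∧ X ^ (n + 1) ∣ G.eval y := by
  induction n with
  | zero =>
    refine ⟨0, dvd_zero _, ?_⟩
    rw [zero_add, pow_one, ← coeff_zero_eq_eval_zero, X_dvd_iff]
    exact h0
  | succ n ih =>
    obtain ⟨y, hy, g, hg⟩ := ih
    obtain ⟨w, hw⟩ := h1.exists_right_inv
    have hd : ((derivative G).eval y).coeff 0 = (G.coeff 1).coeff 0 := by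
      have h2 : (X : R[X]) ∣ (derivative G).eval y - (derivative G).eval 0 := by
        refine dvd_trans ?_ (sub_dvd_eval_sub y 0 (derivative G))
        rw [sub_zero]; exact hy
      rw [X_dvd_iff, coeff_sub, sub_eq_zero] at h2
      rw [h2, ← coeff_zero_eq_eval_zero, coeff_derivative]
      simp
    obtain ⟨k, hk⟩ := G.binomExpansion y (C (-(g.coeff 0 * w)) * X ^ (n + 1))
    refine ⟨y + C (-(g.coeff 0 * w)) * X ^ (n + 1), ?_, ?_⟩
    · exact dvd_add hy (Dvd.dvd.mul_left (dvd_pow_self _ (Nat.succ_ne_zero n)) _)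
    · have h3 : (X : R[X]) ∣ g + (derivative G).eval y * C (-(g.coeff 0 * w)) := by
        rw [X_dvd_iff, coeff_add, coeff_mul_C, hd]
        linear_combination (-(g.coeff 0)) * hw
      obtain ⟨g', hg'⟩ := h3
      refine ⟨g' + k * C (-(g.coeff 0 * w)) ^ 2 * X ^ n, ?_⟩
      rw [hk, hg]
      linear_combination X ^ (n + 1) * hg'

theorem span_section_eq (G : R[X][X]) (h0 : (G.coeff 0).coeff 0 = 0)
    (h1 : IsUnit ((G.coeff 1).coeff 0)) (n : ℕ) :
    ∃ y : R[X], Ideal.span {G, C (X ^ n), X ^ n} = Ideal.span {X - C y, (C (X ^ n) : R[X][X])} := by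
  obtain ⟨y, hy, hG⟩ := move3_newton G h0 h1 n
  obtain ⟨g, hg⟩ : X ^ n ∣ G.eval y := dvd_trans (pow_dvd_pow _ (Nat.le_succ n)) hG
  obtain ⟨be, hbe⟩ : X - C y ∣ G - C (G.eval y) := X_sub_C_dvd_sub_C_eval
  refine ⟨y, le_antisymm ?_ ?_⟩
  · have m1 : (X - C y : R[X][X]) ∈ Ideal.span {X - C y, (C (X ^ n) : R[X][X])} :=
      Ideal.subset_span (by simp)
    have m2 : (C (X ^ n) : R[X][X]) ∈ Ideal.span {X - C y, (C (X ^ n) : R[X][X])} :=
      Ideal.subset_span (by simp)
    rw [Ideal.span_le]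
    intro a ha
    simp only [Set.mem_insert_iff, Set.mem_singleton_iff] at ha
    rcases ha with rfl | rfl | rfl
    · have e : a = (X - C y) * be + C (X ^ n) * C g := by
        rw [← hbe, ← map_mul, ← hg]; ring
      rw [SetLike.mem_coe, e]
      exact add_mem (Ideal.mul_mem_right _ _ m1) (Ideal.mul_mem_right _ _ m2)
    · exact m2
    · obtain ⟨b, hb⟩ := sub_dvd_pow_sub_pow (X : R[X][X]) (C y) n
      obtain ⟨z, hz⟩ := pow_dvd_pow_of_dvd hy n
      have e : (X : R[X][X]) ^ n = (X - C y) * b + C (X ^ n) * C z := by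
        rw [← hb, ← map_mul, ← hz, map_pow]; ring
      rw [SetLike.mem_coe, e]
      exact add_mem (Ideal.mul_mem_right _ _ m1) (Ideal.mul_mem_right _ _ m2)
  · set I : Ideal R[X][X] := Ideal.span {G, C (X ^ n), X ^ n} with hI
    have m1 : G ∈ I := Ideal.subset_span (by simp)
    have m2 : (C (X ^ n) : R[X][X]) ∈ I := Ideal.subset_span (by simp)
    have m3 : (X ^ n : R[X][X]) ∈ I := Ideal.subset_span (by simp)
    have hc : (be.coeff 0).coeff 0 = (G.coeff 1).coeff 0 := by
      have h2 : (G - C (G.eval y)).coeff 1 = ((X - C y) * be).coeff 1 := by rw [hbe]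
      rw [coeff_sub, coeff_C_succ, sub_zero, sub_mul, coeff_sub, coeff_X_mul, coeff_C_mul] at h2
      rw [h2, coeff_sub, mul_coeff_zero, X_dvd_iff.1 hy, zero_mul, sub_zero]
    have e : be = C (C ((be.coeff 0).coeff 0)) + (C X * C (divX (be.coeff 0)) + X * divX be) := by
      have e1 := X_mul_divX_add be
      have e2 := congrArg (C : R[X] →+* R[X][X]) (X_mul_divX_add (be.coeff 0))
      rw [map_add, map_mul] at e2
      linear_combination (-1 : R[X][X]) * e1 - e2
    have h4 : (X - C y) * be ∈ I := by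
      rw [← hbe, hg, map_mul]
      exact sub_mem m1 (Ideal.mul_mem_right _ _ m2)
    have h5 : (X - C y : R[X][X]) ∈ I := by
      refine move3_cancel I n (C X) X (C (C ((be.coeff 0).coeff 0))) (C (divX (be.coeff 0)))
        (divX be) _ (by rw [← map_pow]; exact m2) m3 ?_ (by rw [← e]; exact h4)
      rw [hc]
      exact (h1.map C).map C
    rw [Ideal.span_le]
    intro a ha
    simp only [Set.mem_insert_iff, Set.mem_singleton_iff] at ha
    rcases ha with rfl | rfl
    · exact h5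
    · exact m2

end Pool.Agent.P.MP_c1f06d_ag
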