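import Pool.Agent.P.MP_c1f06d_ag.Move1
import Pool.Agent.P.MP_c1f06d_ag.Move2
import Pool.Agent.P.MP_c1f06d_ag.Move3

open Matrix Polynomial

universe u

namespace Pool.Agent.P.MP_c1f06d_ag

section aux

variable {R : Type*} [CommRing R]

theorem move4_split (x : R[X][X]) :
    x = X * divX x + C X * C (divX (x.coeff 0)) + C (C ((x.coeff 0).coeff 0)) := by
  have e1 := X_mul_divX_add x
  have e2 := X_mul_divX_add (x.coeff 0)
  rw [add_assoc, ← map_mul, ← map_add, e2, e1]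

theorem move4_top (J : Ideal R[X][X]) (ht : C X ∈ J) (hY : X ∈ J) (x : R[X][X]) (hx : x ∈ J)
    (hu : IsUnit ((x.coeff 0).coeff 0)) : J = ⊤ := by
  have h : C (C ((x.coeff 0).coeff 0)) ∈ J := by
    have e : C (C ((x.coeff 0).coeff 0)) = x - X * divX x - C X * C (divX (x.coeff 0)) := by
      have := move4_split x
      linear_combination -this
    rw [e]
    exact J.sub_mem (J.sub_mem hx (J.mul_mem_right _ hY)) (J.mul_mem_right _ ht)
  exact J.eq_top_of_isUnit_mem h ((hu.map C).map C)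

theorem move4_exists_wt (q : R[X][X]) (N : ℕ) :
    ∃ k, ∀ i j, (q.coeff i).coeff j ≠ 0 → j + N * i < k := by
  refine ⟨q.support.sup (fun i => (q.coeff i).natDegree) + N * q.natDegree + 1, fun i j h => ?_⟩
  have hi : q.coeff i ≠ 0 := by
    intro h0
    rw [h0] at h
    exact h (coeff_zero j)
  have h1 : i ≤ q.natDegree := le_natDegree_of_ne_zero hi
  have h2 : j ≤ (q.coeff i).natDegree := le_natDegree_of_ne_zero h
  have h3 : (q.coeff i).natDegree ≤ q.support.sup (fun i => (q.coeff i).natDegree) :=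
    Finset.le_sup (f := fun i => (q.coeff i).natDegree) (mem_support_iff.2 hi)
  have h4 := Nat.mul_le_mul_left N h1
  omega

theorem move4_wt_mul (q p : R[X][X]) (N k r n : ℕ)
    (hq : ∀ i j, (q.coeff i).coeff j ≠ 0 → j + N * i < k)
    (hp : ∀ i j, (p.coeff i).coeff j ≠ 0 → i < r ∧ j + (k + N * r) < n) :
    ∀ i j, ((q * p).coeff i).coeff j ≠ 0 → j + N * i < n := by
  intro i j h
  rw [coeff_mul, finsetSum_coeff] at h
  obtain ⟨a, ha, h⟩ := Finset.exists_ne_zero_of_sum_ne_zero h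
  rw [coeff_mul] at h
  obtain ⟨b, hb, h⟩ := Finset.exists_ne_zero_of_sum_ne_zero h
  have h1 := hq _ _ (left_ne_zero_of_mul h)
  obtain ⟨h2, h3⟩ := hp _ _ (right_ne_zero_of_mul h)
  have ea := Finset.HasAntidiagonal.mem_antidiagonal.1 ha
  have eb := Finset.HasAntidiagonal.mem_antidiagonal.1 hb
  have h4 := Nat.mul_le_mul_left N h2.le
  rw [← ea, ← eb, Nat.mul_add]
  omega

theorem move4_mem3 {A : Type*} [CommRing A] (a b c : A) :
    a ∈ Ideal.span {a, b, c} ∧ b ∈ Ideal.span {a, b, c} ∧ c ∈ Ideal.span {a, b, c} :=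
  ⟨Ideal.subset_span (by simp), Ideal.subset_span (by simp), Ideal.subset_span (by simp)⟩

theorem move4_mem2 {A : Type*} [CommRing A] (a b : A) :
    a ∈ Ideal.span {a, b} ∧ b ∈ Ideal.span {a, b} :=
  ⟨Ideal.subset_span (by simp), Ideal.subset_span (by simp)⟩

theorem move4_le2 {A : Type*} [CommRing A] {a b : A} {J : Ideal A} (ha : a ∈ J) (hb : b ∈ J) :
    Ideal.span {a, b} ≤ J := by
  rw [Ideal.span_le]
  rintro x (rfl | rfl)
  · exact ha
  · exact hb

theorem move4_mul_le {A : Type*} [CommRing A] {a b c a' b' c' : A} {J : Ideal A}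
    (ha : a ∈ J) (ha' : a' ∈ J) (h1 : b * b' ∈ J) (h2 : b * c' ∈ J) (h3 : c * b' ∈ J)
    (h4 : c * c' ∈ J) : Ideal.span {a, b, c} * Ideal.span {a', b', c'} ≤ J := by
  rw [Ideal.span_mul_span, Ideal.span_le]
  rintro x ⟨u, hu, v, hv, rfl⟩
  rcases hu with rfl | rfl | rfl
  · exact J.mul_mem_right _ ha
  · rcases hv with rfl | rfl | rfl
    · exact J.mul_mem_left _ ha'
    · exact h1
    · exact h2
  · rcases hv with rfl | rfl | rfl
    · exact J.mul_mem_left _ ha'
    · exact h3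
    · exact h4

theorem move4_units {A : Type*} [CommRing A] (J : Ideal A) (G T ρ : A) (hG : G ∈ J)
    (hT : T + ρ ∈ J) (hc : Ideal.span {G, T, ρ} ⊔ J = ⊤) :
    IsUnit (Ideal.Quotient.mk J T) ∧ IsUnit (Ideal.Quotient.mk J ρ) := by
  have hle : Ideal.span {G, T, ρ} ≤ Ideal.span {T} ⊔ J := by
    rw [Ideal.span_le]
    rintro x (rfl | rfl | rfl)
    · exact Ideal.mem_sup_right hG
    · exact Ideal.mem_sup_left (Ideal.mem_span_singleton_self _)
    · have := Ideal.sub_mem _ (Ideal.mem_sup_right (S := Ideal.span {T}) hT)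
        (Ideal.mem_sup_left (Ideal.mem_span_singleton_self T))
      rwa [add_sub_cancel_left] at this
  have htop : (1 : A) ∈ Ideal.span {T} ⊔ J := by
    have : (1 : A) ∈ Ideal.span {G, T, ρ} ⊔ J := by
      rw [hc]
      exact Submodule.mem_top
    exact (sup_le hle le_sup_right) this
  obtain ⟨u, hu, v, hv, huv⟩ := Submodule.mem_sup.1 htop
  obtain ⟨w, rfl⟩ := Ideal.mem_span_singleton'.1 hu
  have h1 : IsUnit (Ideal.Quotient.mk J T) := by
    refine IsUnit.of_mul_eq_one_right (Ideal.Quotient.mk J w) ?_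
    rw [← map_mul, ← map_one (Ideal.Quotient.mk J), Ideal.Quotient.eq, ← huv]
    simpa using hv
  refine ⟨h1, ?_⟩
  have e : Ideal.Quotient.mk J ρ = - Ideal.Quotient.mk J T := by
    rw [← map_neg, Ideal.Quotient.eq, sub_neg_eq_add, add_comm]
    exact hT
  rw [e]
  exact h1.neg

theorem move4_unit_left {A : Type*} [CommRing A] (J : Ideal A) (a b c : A) (h : c = a * b)
    (hc : IsUnit (Ideal.Quotient.mk J c)) : IsUnit (Ideal.Quotient.mk J a) := by
  rw [h, map_mul] at hc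
  exact isUnit_of_mul_isUnit_left hc

end aux

theorem exists_odd_ge (n0 : ℕ) : ∃ n, n0 ≤ n ∧ Odd n := ⟨2 * n0 + 1, by omega, n0, rfl⟩

variable {R : Type*} [CommRing R] [IsLocalRing R]

theorem move_core_gen (Good : ℕ → Prop) (hGood : ∀ n0, ∃ n, n0 ≤ n ∧ Good n)
    (G φ : R[X][X]) (hG : G.Monic) (h0 : (G.coeff 0).coeff 0 = 0)
    (h1 : IsUnit ((G.coeff 1).coeff 0)) (hφ : IsUnit ((φ.coeff 0).coeff 0)) :
    ∃ I : Ideal R[X][X], G ∈ I ∧ Module.Free R (R[X][X] ⧸ I) ∧ Module.Finite R (R[X][X] ⧸ I) ∧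
      Good (Module.finrank R (R[X][X] ⧸ I)) ∧ IsUnit (Ideal.Quotient.mk I (C X)) ∧
      IsUnit (Ideal.Quotient.mk I φ) := by
  obtain ⟨N, hN⟩ := exists_weight G
  obtain ⟨ph, hph⟩ : ∃ ph, ph = φ * divX G := ⟨_, rfl⟩
  obtain ⟨k, hk⟩ := move4_exists_wt ph N
  obtain ⟨n0, hn0⟩ := exists_moving_poly G hG h0 h1 (k + N * G.natDegree)
  obtain ⟨n, hn1, hgood⟩ := hGood (n0 + 1)
  obtain ⟨n', hn⟩ : ∃ n', n = n' + 1 := ⟨n - 1, by omega⟩
  obtain ⟨p, hp, hp0, hpY⟩ := hn0 n (by omega)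
  obtain ⟨al, a, hal⟩ := Ideal.mem_span_pair.1 hpY
  have hCt : (C (X ^ n) : R[X][X]) = C X ^ n := map_pow _ _ _
  have hu : IsUnit (((ph * p).coeff 0).coeff 0) := by
    rw [hph, mul_coeff_zero, mul_coeff_zero, mul_coeff_zero, mul_coeff_zero, hp0, mul_one,
      coeff_divX, zero_add]
    exact hφ.mul h1
  -- the two complete intersections
  obtain ⟨fI, gI, rI⟩ := quot_free G hG n N (ph * p) hN (move4_wt_mul ph p N k _ n hk hp)
  have hT := quot_free G hG n N 0 hN (by simp)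
  rw [add_zero] at hT
  obtain ⟨fT, gT, rT⟩ := hT
  -- the thickened section
  obtain ⟨y, hy⟩ := span_section_eq G h0 h1 n
  obtain ⟨N', hN'⟩ := exists_weight (X - C y : R[X][X])
  have h3 := (quot_free (X - C y : R[X][X]) (monic_X_sub_C y) n N' 0 hN' (by simp)).2.2
  rw [add_zero, ← hy, natDegree_X_sub_C, mul_one] at h3
  obtain ⟨a1, a2, a3⟩ := move4_mem3 G (C (X ^ n)) (ph * p)
  obtain ⟨b1, b2, b3⟩ := move4_mem3 G (C (X ^ n) + ph * p) (X ^ n + ph * a)
  obtain ⟨c1, c2, c3⟩ := move4_mem3 G (C (X ^ n)) (X ^ n)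
  obtain ⟨d1, d2⟩ := move4_mem2 G (C (X ^ n) + ph * p)
  obtain ⟨e1, e2⟩ := move4_mem2 G (C (X ^ n))
  have c13 : Ideal.span {G, C (X ^ n), ph * p} ⊔ Ideal.span {G, C (X ^ n), X ^ n} = ⊤ := by
    by_contra hne
    obtain ⟨J, hJ, hle⟩ := Ideal.exists_le_maximal _ hne
    have ht : C X ∈ J := hJ.isPrime.mem_of_pow_mem n (hCt ▸ hle (Ideal.mem_sup_left a2))
    have hY : X ∈ J := hJ.isPrime.mem_of_pow_mem n (hle (Ideal.mem_sup_right c3))
    exact hJ.ne_top (move4_top J ht hY _ (hle (Ideal.mem_sup_left a3)) hu)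
  have c12 : Ideal.span {G, C (X ^ n), ph * p} ⊔
      Ideal.span {G, C (X ^ n) + ph * p, X ^ n + ph * a} = ⊤ := by
    by_contra hne
    obtain ⟨J, hJ, hle⟩ := Ideal.exists_le_maximal _ hne
    have ht : C X ∈ J := hJ.isPrime.mem_of_pow_mem n (hCt ▸ hle (Ideal.mem_sup_left a2))
    have hYG : X * divX G ∈ J := by
      have e : X * divX G = G - C X * C (divX (G.coeff 0)) := by
        have := move4_split G
        rw [h0, map_zero, map_zero, add_zero] at this
        linear_combination -this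
      rw [e]
      exact J.sub_mem (hle (Ideal.mem_sup_left a1)) (J.mul_mem_right _ ht)
    have hY : X ∈ J := by
      rcases hJ.isPrime.mem_or_mem hYG with h | h
      · exact h
      · have h' : ph * a ∈ J := by
          rw [hph]
          exact J.mul_mem_right _ (J.mul_mem_left _ h)
        exact hJ.isPrime.mem_of_pow_mem n
          ((J.add_mem_iff_left h').1 (hle (Ideal.mem_sup_right b3)))
    exact hJ.ne_top (move4_top J ht hY _ (hle (Ideal.mem_sup_left a3)) hu)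
  have s1 := split_free (R := R) (Ideal.span {G, C (X ^ n)}) (Ideal.span {G, C (X ^ n), ph * p})
    (Ideal.span {G, C (X ^ n), X ^ n}) (move4_le2 a1 a2) (move4_le2 c1 c2)
    (move4_mul_le e1 e1 (Ideal.mul_mem_right _ _ e2) (Ideal.mul_mem_right _ _ e2)
      (Ideal.mul_mem_left _ _ e2) (by
        have e : ph * p * X ^ n = ph * (X ^ n * p) := by ring
        rw [e]
        exact Ideal.mul_mem_left _ _ hpY)) c13
  have hz : C (X ^ n) * (X ^ n + ph * a) ∈ Ideal.span {G, C (X ^ n) + ph * p} := by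
    have e : C (X ^ n) * (X ^ n + ph * a) = X ^ n * (C (X ^ n) + ph * p) - ph * al * G := by
      linear_combination ph * hal
    rw [e]
    exact Ideal.sub_mem _ (Ideal.mul_mem_left _ _ d2) (Ideal.mul_mem_left _ _ d1)
  have s2 := split_free (R := R) (Ideal.span {G, C (X ^ n) + ph * p})
    (Ideal.span {G, C (X ^ n), ph * p})
    (Ideal.span {G, C (X ^ n) + ph * p, X ^ n + ph * a})
    (move4_le2 a1 (Ideal.add_mem _ a2 a3)) (move4_le2 b1 b2)
    (move4_mul_le d1 d1 (Ideal.mul_mem_left _ _ d2) hz (Ideal.mul_mem_left _ _ d2) (by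
        have e : ph * p * (X ^ n + ph * a) =
            (C (X ^ n) + ph * p) * (X ^ n + ph * a) - C (X ^ n) * (X ^ n + ph * a) := by ring
        rw [e]
        exact Ideal.sub_mem _ (Ideal.mul_mem_right _ _ d2) hz)) c12
  have hrank : Module.finrank R
      (R[X][X] ⧸ Ideal.span {G, C (X ^ n) + ph * p, X ^ n + ph * a}) = n := by
    have t1 := s1.2.2
    have t2 := s2.2.2
    rw [rT, h3] at t1
    rw [rI] at t2
    omega
  obtain ⟨u1, u2⟩ := move4_units _ G (C (X ^ n)) (ph * p) b1 b2 c12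
  refine ⟨Ideal.span {G, C (X ^ n) + ph * p, X ^ n + ph * a}, b1, s2.1, s2.2.1, ?_, ?_, ?_⟩
  · rw [hrank]
    exact hgood
  · exact move4_unit_left _ (C X) (C X ^ n') _ (by rw [hCt, hn, pow_succ']) u1
  · exact move4_unit_left _ φ (divX G * p) _ (by rw [hph, mul_assoc]) u2

end Pool.Agent.P.MP_c1f06d_ag
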