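import Pool.Agent.P.MP_c1f06d_ag.Move4
import Pool.Agent.P.MP_c1f06d_ag.Gen

open Matrix Polynomial

universe u

namespace Pool.Agent.P.MP_c1f06d_ag

open IsLocalRing

theorem move5_split {R : Type u} [CommRing R] [IsLocalRing R] (b : R[X])
    (hb : b.map (residue R) ≠ 0) :
    ∃ (a : ℕ) (b1 : R[X]), IsUnit (b1.coeff 0) ∧
      b - X ^ a * b1 ∈ (maximalIdeal R).map (C : R →+* R[X]) := by
  obtain ⟨q, hq, hnd⟩ := exists_eq_pow_rootMultiplicity_mul_and_not_dvd _ hb 0
  obtain ⟨b1, rfl⟩ := Polynomial.map_surjective (residue R) residue_surjective q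
  rw [C_0, sub_zero] at hq hnd
  refine ⟨rootMultiplicity 0 (b.map (residue R)), b1, ?_, ?_⟩
  · rw [X_dvd_iff, coeff_map, residue_eq_zero_iff] at hnd
    exact (notMem_maximalIdeal).1 hnd
  · rw [Ideal.mem_map_C_iff]
    intro i
    rw [← residue_eq_zero_iff, ← coeff_map, Polynomial.map_sub, Polynomial.map_mul,
      Polynomial.map_pow, map_X, ← hq, sub_self, coeff_zero]

theorem move5_ev {R : Type u} [CommRing R] (y0 : R) (p : R[X][X]) :
    ((p.comp (X + C (C y0))).coeff 0).coeff 0 = eval₂ constantCoeff y0 p := by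
  have h := hom_eval₂ p (RingHom.id R[X]) (constantCoeff : R[X] →+* R) (C y0)
  rw [RingHom.comp_id, eval₂_id, constantCoeff_apply, constantCoeff_apply, coeff_C_zero] at h
  rw [← h, coeff_zero_eq_eval_zero (p.comp _), eval_comp, eval_add, eval_X, eval_C, zero_add]

theorem move5_adjoin {R S : Type u} [CommRing R] [CommRing S] [Algebra R S]
    (π : R[X][X] →ₐ[R] S) (hπ : Function.Surjective π) :
    Algebra.adjoin R {π (C X), π X} = ⊤ := by
  rw [eq_top_iff]
  rintro x -
  obtain ⟨p, rfl⟩ := hπ x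
  have ht : π (C X) ∈ Algebra.adjoin R {π (C X), π X} :=
    Algebra.subset_adjoin (Set.mem_insert _ _)
  have hy : π X ∈ Algebra.adjoin R {π (C X), π X} :=
    Algebra.subset_adjoin (Set.mem_insert_of_mem _ rfl)
  have hC : ∀ a : R[X], π (C a) ∈ Algebra.adjoin R {π (C X), π X} := by
    intro a
    induction a using Polynomial.induction_on' with
    | add p q hp hq => rw [map_add, map_add]; exact add_mem hp hq
    | monomial n r =>
      rw [← C_mul_X_pow_eq_monomial, map_mul, map_mul, map_pow, map_pow]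
      have e : π (C (C r)) = algebraMap R S r := π.commutes r
      rw [e]
      exact mul_mem (Subalgebra.algebraMap_mem _ r) (pow_mem ht n)
  induction p using Polynomial.induction_on' with
  | add p q hp hq => rw [map_add]; exact add_mem hp hq
  | monomial n a =>
    rw [← C_mul_X_pow_eq_monomial, map_mul, map_pow]
    exact mul_mem (hC a) (pow_mem hy n)

theorem move5_aeval {R S : Type u} [CommRing R] [CommRing S] [Algebra R S]
    (π : R[X][X] →ₐ[R] S) : aevalAeval (π (C X)) (π X) = π := by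
  apply Polynomial.algHom_ext'
  · apply Polynomial.algHom_ext
    simp
  · simp

theorem move5_abs {Good : ℕ → Prop} {R S : Type u} [CommRing R] [IsLocalRing R] [Infinite (ResidueField R)]
    [CommRing S] [Algebra R S] [Module.Free R S] [Module.Finite R S]
    (π : R[X][X] →ₐ[R] S) (hπ : Function.Surjective π) (hodd : Good (Module.finrank R S))
    (F g q : R[X][X]) (a : ℕ) (b b1 : R[X]) (hG0 : π (F.comp q) = 0) (ht : IsUnit (π (C X)))
    (hu : IsUnit (π (g.comp q * derivative (F.comp q) * C b1)))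
    (hbm : b - X ^ a * b1 ∈ (maximalIdeal R).map (C : R →+* R[X])) :
    ∃ (P : R[X]) (ψ : R[X] →+* AdjoinRoot P) (x : AdjoinRoot P), P.Monic ∧ Good P.natDegree ∧
      (∀ r, ψ (C r) = AdjoinRoot.of P r) ∧ IsUnit (ψ b) ∧ eval₂ ψ x F = 0 ∧
      IsUnit (eval₂ ψ x g) := by
  rw [map_mul, map_mul] at hu
  have hu1 := isUnit_of_mul_isUnit_left (isUnit_of_mul_isUnit_left hu)
  have hu2 := isUnit_of_mul_isUnit_right (isUnit_of_mul_isUnit_left hu)
  have hu3 := isUnit_of_mul_isUnit_right hu
  obtain ⟨z, hz⟩ := exists_generator (π (C X)) (π X) (move5_adjoin π hπ) (F.comp q)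
    (by rw [move5_aeval]; exact hG0) (by rw [move5_aeval]; exact hu2)
  obtain ⟨P, e, hP, hdeg, -, -⟩ := exists_adjoinRoot_equiv z hz
  have hbu : IsUnit (π (C b)) := by
    have hy : IsUnit (π (C (X ^ a * b1))) := by
      rw [map_mul, map_mul, map_pow, map_pow]
      exact (ht.pow a).mul hu3
    refine isUnit_of_sub_mem_map (R := R) hy ?_
    have h := Ideal.mem_map_of_mem (π.toRingHom.comp C) hbm
    have e1 : (π.toRingHom.comp C).comp C = algebraMap R S := RingHom.ext fun r => π.commutes r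
    rw [Ideal.map_map, map_sub, e1] at h
    exact h
  let θ : R[X][X] →+* AdjoinRoot P := (e.symm.toAlgHom.comp π).toRingHom
  have hθ : ∀ p, θ p = e.symm (π p) := fun _ => rfl
  have hev : ∀ p : R[X][X], eval₂ (θ.comp C) (θ q) p = e.symm (π (p.comp q)) := by
    intro p
    rw [← hθ, ← hom_eval₂]
    rfl
  refine ⟨P, θ.comp C, θ q, hP, hdeg ▸ hodd, fun r => ?_, ?_, ?_, ?_⟩
  · exact (e.symm.toAlgHom.comp π).commutes r
  · exact hbu.map e.symm
  · rw [hev, hG0, map_zero]
  · rw [hev]
    exact hu1.map e.symm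

theorem move5_pair (Good : ℕ → Prop) (hGood : ∀ n0, ∃ n, n0 ≤ n ∧ Good n)
    {R : Type u} [CommRing R] [IsLocalRing R] [Infinite (ResidueField R)]
    (F g : R[X][X]) (hF : F.Monic) (y0 : R) (h0 : eval₂ constantCoeff y0 F = 0)
    (h1 : IsUnit (eval₂ constantCoeff y0 (derivative F)))
    (hg : IsUnit (eval₂ constantCoeff y0 g)) (b : R[X]) (hb : b.map (residue R) ≠ 0) :
    ∃ (P : R[X]) (ψ : R[X] →+* AdjoinRoot P) (x : AdjoinRoot P), P.Monic ∧ Good P.natDegree ∧
      (∀ r, ψ (C r) = AdjoinRoot.of P r) ∧ IsUnit (ψ b) ∧ eval₂ ψ x F = 0 ∧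
      IsUnit (eval₂ ψ x g) := by
  obtain ⟨a, b1, hb1, hbm⟩ := move5_split b hb
  have hd : derivative (F.comp (X + C (C y0))) = (derivative F).comp (X + C (C y0)) := by
    rw [derivative_comp, derivative_add, derivative_X, derivative_C, add_zero, one_mul]
  have hG1 : IsUnit (((F.comp (X + C (C y0))).coeff 1).coeff 0) := by
    have e := coeff_derivative (F.comp (X + C (C y0))) 0
    rw [Nat.cast_zero, zero_add, zero_add, mul_one] at e
    rw [← e, hd, move5_ev]
    exact h1
  have hφ : IsUnit (((g.comp (X + C (C y0)) * derivative (F.comp (X + C (C y0))) * C b1).coeff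
      0).coeff 0) := by
    rw [mul_coeff_zero, mul_coeff_zero, mul_coeff_zero, mul_coeff_zero, coeff_C_zero, hd,
      move5_ev, move5_ev]
    exact (hg.mul h1).mul hb1
  obtain ⟨I, hGI, hfree, hfin, hodd, ht, hu⟩ := move_core_gen Good hGood (F.comp (X + C (C y0))) _
    (hF.comp_X_add_C _) (by rw [move5_ev]; exact h0) hG1 hφ
  exact move5_abs (S := R[X][X] ⧸ I) (Ideal.Quotient.mkₐ R I) (Ideal.Quotient.mkₐ_surjective R I)
    hodd F g (X + C (C y0)) a b b1 (Ideal.Quotient.eq_zero_iff_mem.2 hGI) ht hu hbm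

theorem move_etale_gen (Good : ℕ → Prop) (hGood : ∀ n0, ∃ n, n0 ≤ n ∧ Good n)
    {R A : Type u} [CommRing R] [IsLocalRing R] [Infinite (ResidueField R)]
    [CommRing A] (f : R[X] →+* A) (hf : f.Etale) (σ : A →+* R) (hσ : ∀ p, σ (f p) = p.coeff 0)
    (b : R[X]) (hb : b.map (residue R) ≠ 0) :
    ∃ (P : R[X]) (χ : A →+* AdjoinRoot P), P.Monic ∧ Good P.natDegree ∧
      (∀ r, χ (f (C r)) = AdjoinRoot.of P r) ∧ IsUnit (χ (f b)) := by
  let _ : Algebra R[X] A := f.toAlgebra
  have : Algebra.Etale R[X] A := hf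
  have hn : ((maximalIdeal R).comap σ).IsPrime := Ideal.comap_isPrime σ _
  have : Algebra.IsEtaleAt R[X] ((maximalIdeal R).comap σ) := by
    have h : (⟨(maximalIdeal R).comap σ, hn⟩ : PrimeSpectrum A) ∈ Algebra.etaleLocus R[X] A := by
      rw [Algebra.etaleLocus_eq_univ_iff_etale.2 inferInstance]
      exact Set.mem_univ _
    exact h
  obtain ⟨e, he, hse⟩ := Algebra.IsEtaleAt.exists_isStandardEtale (R := R[X])
    ((maximalIdeal R).comap σ)
  have heu : IsUnit (σ e) := (notMem_maximalIdeal).1 he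
  obtain ⟨P⟩ := hse.nonempty_standardEtalePresentation
  let σe : Localization.Away e →+* R := IsLocalization.Away.lift e heu
  have hσe : σe.comp (algebraMap R[X] (Localization.Away e)) = constantCoeff := by
    refine RingHom.ext fun p => ?_
    rw [RingHom.comp_apply, IsScalarTower.algebraMap_apply R[X] A (Localization.Away e),
      IsLocalization.Away.lift_eq]
    exact hσ p
  have hev : ∀ p : R[X][X], eval₂ constantCoeff (σe P.x) p = σe (aeval P.x p) := by
    intro p
    rw [aeval_def, hom_eval₂, hσe]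
  obtain ⟨Q, ψ, x, hQ, hodd, hψ, hbu, hx0, hxg⟩ := move5_pair Good hGood P.f P.g P.monic_f (σe P.x)
    (by rw [hev, P.hasMap.1, map_zero])
    (by rw [hev]; exact (StandardEtalePair.HasMap.isUnit_derivative_f _ P.hasMap).map σe)
    (by rw [hev]; exact P.hasMap.2.map σe) b hb
  let _ : Algebra R[X] (AdjoinRoot Q) := ψ.toAlgebra
  have hx : P.P.HasMap x := ⟨hx0, hxg⟩
  let χe : Localization.Away e →ₐ[R[X]] AdjoinRoot Q :=
    (P.P.lift x hx).comp P.equivRing.toAlgHom
  have hχ : ∀ p, χe (algebraMap A (Localization.Away e) (f p)) = ψ p := by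
    intro p
    have h := χe.commutes p
    rw [IsScalarTower.algebraMap_apply R[X] A (Localization.Away e)] at h
    exact h
  refine ⟨Q, χe.toRingHom.comp (algebraMap A (Localization.Away e)), hQ, hodd, fun r => ?_, ?_⟩
  · exact (hχ _).trans (hψ r)
  · exact (hχ b).symm ▸ hbu

end Pool.Agent.P.MP_c1f06d_ag
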