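import Pool.Agent.P.MP_c1f06d_ag.Top
import Pool.Agent.P.MP_c1f06d_ag.Avoid

open Matrix Polynomial

universe u

namespace Pool.Agent.P.MP_c1f06d_ag

variable {m : ℕ} {R : Type*} [CommRing R] [IsLocalRing R] {Q : Matrix (Fin m) (Fin m) R}

theorem normind_red {P : R[X]} (hP : P.Monic) :
    ∃ f : AdjoinRoot P →+* AdjoinRoot (P.map (IsLocalRing.residue R)),
      (∀ p, f (AdjoinRoot.mk P p) = AdjoinRoot.mk _ (p.map (IsLocalRing.residue R))) ∧
        Function.Surjective f ∧ IsLocalHom f := by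
  set ρ := IsLocalRing.residue R
  let f : AdjoinRoot P →+* AdjoinRoot (P.map ρ) :=
    Ideal.Quotient.lift _ ((AdjoinRoot.mk (P.map ρ)).comp (mapRingHom ρ)) fun a ha => by
      obtain ⟨b, rfl⟩ := Ideal.mem_span_singleton.1 ha
      simp
  have hf : ∀ p, f (AdjoinRoot.mk P p) = AdjoinRoot.mk _ (p.map ρ) := fun p => rfl
  have hs : Function.Surjective (Polynomial.map ρ) :=
    map_surjective ρ IsLocalRing.residue_surjective
  have sur : Function.Surjective f := fun y => by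
    obtain ⟨p, rfl⟩ := AdjoinRoot.mk_surjective y
    obtain ⟨q, rfl⟩ := hs p
    exact ⟨_, hf q⟩
  have : Module.Finite R (AdjoinRoot P) := (AdjoinRoot.powerBasis' hP).finite
  have ker : ∀ x, f x = 0 →
      x ∈ (IsLocalRing.maximalIdeal R).map (algebraMap R (AdjoinRoot P)) := fun x hx => by
    obtain ⟨p, rfl⟩ := AdjoinRoot.mk_surjective x
    rw [hf, AdjoinRoot.mk_eq_zero] at hx
    obtain ⟨g, hg⟩ := hx
    obtain ⟨g, rfl⟩ := hs g
    have h1 : p - P * g ∈ (IsLocalRing.maximalIdeal R).map (C : R →+* R[X]) := by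
      refine Ideal.mem_map_C_iff.2 fun n => (IsLocalRing.residue_eq_zero_iff _).1 ?_
      have : (p - P * g).map ρ = 0 := by
        rw [Polynomial.map_sub, Polynomial.map_mul, hg, sub_self]
      rw [← coeff_map, this, coeff_zero]
    have h2 := Ideal.mem_map_of_mem (AdjoinRoot.mk P) h1
    rw [Ideal.map_map, map_sub, map_mul, AdjoinRoot.mk_self, zero_mul, sub_zero] at h2
    exact h2
  refine ⟨f, hf, sur, ⟨fun x hx => ?_⟩⟩
  obtain ⟨y, hy⟩ := hx.exists_right_inv
  obtain ⟨y, rfl⟩ := sur y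
  exact isUnit_of_mul_isUnit_left (isUnit_of_sub_mem_map (x := x * y) isUnit_one
    (ker _ (by rw [map_sub, map_mul, hy, map_one, sub_self])))

omit [IsLocalRing R] in
theorem normind_top {n : ℕ} (w : Fin m → R[X]) (hw : ∀ i, (w i).natDegree ≤ n) :
    (qv (Q.map C) w).natDegree ≤ n + n ∧
      (qv (Q.map C) w).coeff (n + n) = qv Q fun i => (w i).coeff n := by
  have h1 : ∀ i, ((Q.map C *ᵥ w) i).natDegree ≤ n := fun i =>
    natDegree_sum_le_of_forall_le Finset.univ (fun j => C (Q i j) * w j) fun j _ =>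
      (natDegree_C_mul_le _ _).trans (hw j)
  unfold qv dotProduct
  refine ⟨natDegree_sum_le_of_forall_le _ _ fun i _ => natDegree_mul_le_of_le (hw i) (h1 i), ?_⟩
  rw [finsetSum_coeff]
  refine Finset.sum_congr rfl fun i _ => ?_
  rw [coeff_mul_add_eq_of_natDegree_le (hw i) (h1 i)]
  congr 1
  simp [mulVec, dotProduct]

theorem exists_top_isUnit (hQ : Unim Q) (hm : 5 ≤ m) {P : R[X]} (hP : P.Monic) {n : ℕ}
    (hn : P.natDegree = n + 1) (w : Fin m → R[X]) (hw : IsCoprime (qv (Q.map C) w) P) :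
    ∃ w' : Fin m → R[X], (∀ i, (w' i).natDegree ≤ n) ∧
      P ∣ qv (Q.map C) w' - qv (Q.map C) w ∧ IsUnit (qv Q fun i => (w' i).coeff n) := by
  have red := normind_red hP
  set ρ := IsLocalRing.residue R
  obtain ⟨f, hf, sur, loc⟩ := red
  have hP' : (P.map ρ).Monic := hP.map ρ
  have hn' : (P.map ρ).natDegree = n + 1 := by rw [hP.natDegree_map, hn]
  have : Module.Finite (IsLocalRing.ResidueField R) (AdjoinRoot (P.map ρ)) :=
    (AdjoinRoot.powerBasis' hP').finite
  have := finite_maximalSpectrum (IsLocalRing.ResidueField R) (AdjoinRoot (P.map ρ))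
  have e1 : (Q.map ρ).map C = (Q.map C).map (mapRingHom ρ) := by
    ext1 i j
    simp
  have e2 : qv ((Q.map ρ).map C) (mapRingHom ρ ∘ w) = (qv (Q.map C) w).map ρ := by
    rw [e1, qv_map]
    rfl
  obtain ⟨v, v1, v2, v3⟩ := exists_top_ne_zero (hQ.map ρ) hm hP' hn' (mapRingHom ρ ∘ w)
    (by rw [e2]; exact hw.map (mapRingHom ρ))
  have hu : IsUnit (qv ((Q.map C).map (AdjoinRoot.mk P)) (AdjoinRoot.mk P ∘ w)) := by
    rw [qv_map]
    obtain ⟨a, b, e⟩ := hw
    have := congrArg (AdjoinRoot.mk P) e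
    rw [map_add, map_mul, map_mul, AdjoinRoot.mk_self, mul_zero, add_zero, map_one] at this
    exact IsUnit.of_mul_eq_one_right _ this
  have e3 : ((Q.map C).map (AdjoinRoot.mk P)).map f =
      ((Q.map ρ).map C).map (AdjoinRoot.mk (P.map ρ)) := by
    ext1 i j
    simp only [Matrix.map_apply, hf, map_C]
  obtain ⟨w1, a1, a2⟩ := lift_vector f sur ((hQ.map C).map (AdjoinRoot.mk P)) hm hu
    (w' := AdjoinRoot.mk (P.map ρ) ∘ v) (by
      rw [e3, qv_map, qv_map, hf, ← e2]
      exact AdjoinRoot.mk_eq_mk.2 v2)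
  have P1 : P ≠ 1 := fun e => by simp [e] at hn
  have : ∀ i, ∃ p : R[X], p.natDegree ≤ n ∧ AdjoinRoot.mk P p = w1 i := fun i => by
    obtain ⟨p, e⟩ := AdjoinRoot.mk_surjective (w1 i)
    refine ⟨p %ₘ P, by have := natDegree_modByMonic_lt p hP P1; omega, ?_⟩
    rw [← e, AdjoinRoot.mk_eq_mk]
    exact ⟨-(p /ₘ P), by linear_combination modByMonic_add_div p P⟩
  choose z z1 z2 using this
  have z3 : AdjoinRoot.mk P ∘ z = w1 := funext z2
  have z4 : ∀ i, (z i).map ρ = v i := fun i => by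
    have g : AdjoinRoot.mk (P.map ρ) ((z i).map ρ) = AdjoinRoot.mk _ (v i) := by
      rw [← hf, z2]
      exact congrFun a2 i
    refine sub_eq_zero.1 (eq_zero_of_dvd_of_natDegree_lt (AdjoinRoot.mk_eq_mk.1 g) ?_)
    have := natDegree_sub_le_of_le (natDegree_map_le.trans (z1 i) : ((z i).map ρ).natDegree ≤ n)
      (v1 i)
    omega
  refine ⟨z, z1, AdjoinRoot.mk_eq_mk.1 (by rw [← qv_map, ← qv_map, z3, a1]), ?_⟩
  rw [← IsLocalRing.residue_ne_zero_iff_isUnit, ← qv_map]
  have : (ρ ∘ fun i => (z i).coeff n) = fun i => (v i).coeff n := funext fun i => by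
    rw [← z4, coeff_map]
    rfl
  rwa [this]

theorem sn_of_dvd (hQ : Unim Q) (hm : 5 ≤ m) {v0 : Fin m → R} (h0 : IsUnit (qv Q v0)) (n : ℕ) :
    ∀ (P : R[X]), P.Monic → P.natDegree = n → ∀ w : Fin m → R[X],
      P ∣ X * qv (Q.map C) w - 1 → Sn Q ((-1) ^ n * P.coeff 0 * qv Q v0 ^ n) := by
  induction n with
  | zero =>
    intro P hP hn w _
    rw [hP.natDegree_eq_zero.1 hn]
    simpa using sn_one
  | succ n ih =>
    intro P hP hn w hw
    obtain ⟨g, hg⟩ := hw
    obtain ⟨z, z1, ⟨g', hg'⟩, u, hu⟩ := exists_top_isUnit hQ hm hP hn w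
      ⟨X, -g, by linear_combination hg⟩
    obtain ⟨t1, t2⟩ := normind_top (Q := Q) z z1
    obtain ⟨h, hh⟩ : P ∣ X * qv (Q.map C) z - 1 := ⟨g + X * g', by linear_combination hg + X * hg'⟩
    have d1 : (P * h).natDegree ≤ n + 1 + n := by
      rw [← hh]
      have := natDegree_sub_le_of_le (natDegree_mul_le_of_le natDegree_X_le t1)
        (natDegree_one (R := R)).le
      omega
    have d2 : h.natDegree ≤ n := by
      by_cases e : h = 0
      · simp [e]
      · rw [hP.natDegree_mul' e] at d1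
        omega
    have d3 : h.coeff n = u := by
      have a := coeff_mul_add_eq_of_natDegree_le hn.le d2
      rw [← hh, show n + 1 + n = n + n + 1 by ring, coeff_sub, coeff_X_mul, t2, ← hu,
        coeff_one, if_neg (by omega), sub_zero, ← hn, hP.coeff_natDegree, one_mul] at a
      exact a.symm
    have d4 : (C (↑u⁻¹ : R) * h).coeff n = 1 := by rw [coeff_C_mul, d3, Units.inv_mul]
    have d5 : (C (↑u⁻¹ : R) * h).natDegree ≤ n := (natDegree_C_mul_le _ _).trans d2
    have i1 := ih _ (monic_of_natDegree_le_of_coeff_eq_one n d5 d4)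
      (natDegree_eq_of_le_of_coeff_ne_zero d5 (by rw [d4]; exact one_ne_zero)) z
      ⟨C (↑u : R) * P, by
        rw [hh, mul_mul_mul_comm, ← C_mul, Units.inv_mul, C_1, one_mul, mul_comm]⟩
    have c0 : P.coeff 0 * h.coeff 0 = -1 := by
      rw [← mul_coeff_zero, ← hh]
      simp
    have hu0 : IsUnit (h.coeff 0) :=
      IsUnit.of_mul_eq_one_right (-P.coeff 0) (by linear_combination -c0)
    rw [coeff_C_mul] at i1
    have i2 := i1.mul (hu ▸ sn_two (Q := Q) (fun i => (z i).coeff n) v0)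
    refine Sn.cancel h0 i2 (((((isUnit_one.neg).pow n).mul ((u⁻¹).isUnit.mul hu0)).mul
      (h0.pow n)).mul (u.isUnit.mul h0)) ?_
    have e : (-1) ^ (n + 1) * P.coeff 0 * qv Q v0 ^ (n + 1) *
        ((-1) ^ n * (↑u⁻¹ * h.coeff 0) * qv Q v0 ^ n * (↑u * qv Q v0)) =
        -(-1) ^ (2 * n) * (P.coeff 0 * h.coeff 0) * (↑u⁻¹ * ↑u) * (qv Q v0 ^ (n + 1)) ^ 2 := by
      rw [two_mul, pow_add (-1 : R) n n, pow_succ (-1 : R)]
      generalize (-1 : R) ^ n = s
      ring
    rw [e, c0, Units.inv_mul]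
    simpa using sn_sq h0 (qv Q v0 ^ (n + 1))

end Pool.Agent.P.MP_c1f06d_ag
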