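import Pool.Agent.P.MP_c1f06d_ag.WittB

namespace Pool.Agent.P.MP_c1f06d_ag

open Matrix

variable {A : Type*} [Ring A] [StarRing A]

theorem FP.sum_mem (L : FP A) {ι : Type*} (s : Finset ι) (f : ι → A) (h : ∀ i ∈ s, L.Mem (f i)) :
    L.Mem (∑ i ∈ s, f i) :=
  Finset.sum_induction f L.Mem L.add' L.zero h

theorem FP.sum2_mem (L : FP A) {ι : Type*} (s : Finset ι) (u : ι → ι → A)
    (h1 : ∀ i j, u j i = -star (u i j)) (h2 : ∀ i, L.Mem (u i i)) :
    L.Mem (∑ i ∈ s, ∑ j ∈ s, u i j) := by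
  classical
  induction s using Finset.induction_on with
  | empty => simpa using L.zero
  | insert a s ha ih =>
    simp only [Finset.sum_insert ha, Finset.sum_add_distrib]
    refine (((h2 a).add ih).add (L.sum_mem s (fun j => u a j - star (u a j))
      fun j _ => L.sub_star _)).of_eq ?_
    have : ∑ j ∈ s, (u a j - star (u a j)) = ∑ j ∈ s, u a j + ∑ j ∈ s, u j a := by
      rw [← Finset.sum_add_distrib]
      exact Finset.sum_congr rfl fun j _ => by rw [h1 a j, sub_eq_add_neg]
    rw [this]; abel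

/-- The form parameter on matrices. -/
def FP.mat (L : FP A) (n : Type*) [Fintype n] [DecidableEq n] : FP (Matrix n n A) where
  Mem M := M + star M = 0 ∧ ∀ i, L.Mem (M i i)
  add' x y hx hy := ⟨(FP.skew _).add' x y hx.1 hy.1, fun i => (hx.2 i).add (hy.2 i)⟩
  neg' x hx := ⟨(FP.skew _).neg' x hx.1, fun i => (hx.2 i).neg⟩
  sub_star a := ⟨(FP.skew _).sub_star a, fun i => L.sub_star (a i i)⟩
  skew' _ hx := hx.1
  conj' x a hx := ⟨(FP.skew _).conj' x a hx.1, fun k => by
    refine (L.sum2_mem Finset.univ (fun j i => star (a i k) * x i j * a j k) (fun i j => ?_)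
      fun i => (hx.2 i).conj _).of_eq ?_
    · have : x i j = -star (x j i) := eq_neg_of_add_eq_zero_left (congrFun (congrFun hx.1 i) j)
      rw [this]; simp only [star_mul, star_star, mul_neg, neg_mul, mul_assoc]
    · simp only [Matrix.mul_apply, Matrix.star_apply, Finset.sum_mul]⟩

omit [StarRing A] in
theorem isUnit_one_add_jac {r : A} (h : r ∈ Ideal.jacobson (⊥ : Ideal A)) : IsUnit (1 + r) := by
  obtain ⟨z, hz⟩ := Ideal.mem_jacobson_iff.1 h 1
  obtain ⟨w, hw⟩ := Ideal.mem_jacobson_iff.1 h (-z)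
  rw [Ideal.mem_bot, sub_eq_zero] at hz hw
  have h1 : z * (1 + r) = 1 := Eq.trans (by noncomm_ring) hz
  have h2 : w * z = 1 := by
    have : z = 1 - z * r := by rw [eq_sub_iff_add_eq]; exact Eq.trans (by noncomm_ring) h1
    rw [this]; exact Eq.trans (by noncomm_ring) hw
  have h3 : w = 1 + r := by
    have := congrArg (w * ·) h1
    simp only [← mul_assoc, h2, one_mul, mul_one] at this
    exact this.symm
  exact ⟨⟨1 + r, z, h3 ▸ h2, h1⟩, rfl⟩

omit [StarRing A] in
/-- Units lift for matrices when they lift for entries. -/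
theorem mat_unit_lift {D : Type*} [Ring D] (ρ : A →+* D) (hρ : Function.Surjective ρ)
    (hu : ∀ x, IsUnit (ρ x) → IsUnit x) {n : Type*} [Fintype n] [DecidableEq n]
    (M : Matrix n n A) (h : IsUnit (ρ.mapMatrix M)) : IsUnit M := by
  have hJ : ∀ N : Matrix n n A, ρ.mapMatrix N = 1 → IsUnit N := by
    intro N hN
    have : N - 1 ∈ Ideal.jacobson (⊥ : Ideal (Matrix n n A)) := by
      rw [← Ideal.matrix_bot n]
      refine Ideal.matrix_jacobson_le _ fun i j => Ideal.mem_jacobson_iff.2 fun y => ?_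
      have h0 : ρ ((N - 1) i j) = 0 := by
        have : ρ.mapMatrix (N - 1) = 0 := by rw [map_sub, hN, map_one, sub_self]
        exact congrFun (congrFun this i) j
      obtain ⟨U, hU⟩ := hu (y * (N - 1) i j + 1) (by rw [map_add, map_mul, h0]; simp)
      refine ⟨↑U⁻¹, ?_⟩
      rw [Ideal.mem_bot, sub_eq_zero, ← U.inv_mul, hU]; noncomm_ring
    simpa using isUnit_one_add_jac this
  obtain ⟨U, hU⟩ := h
  choose N hN using fun i j => hρ ((↑U⁻¹ : Matrix n n D) i j)
  have e : ρ.mapMatrix (Matrix.of N) = ↑U⁻¹ := by ext i j; exact hN i j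
  obtain ⟨V, hV⟩ := hJ (M * Matrix.of N) (by rw [map_mul, e, ← hU, U.mul_inv])
  obtain ⟨W, hW⟩ := hJ (Matrix.of N * M) (by rw [map_mul, e, ← hU, U.inv_mul])
  have h1 : M * (Matrix.of N * (V⁻¹).1) = 1 := by rw [← mul_assoc, ← hV, V.mul_inv]
  have h2 : ((W⁻¹).1 * Matrix.of N) * M = 1 := by rw [mul_assoc, ← hW, W.inv_mul]
  exact ⟨⟨M, _, h1, by rw [← left_inv_eq_right_inv h2 h1, h2]⟩, rfl⟩

theorem sim_qa {L : FP A} {Θ Θ1 g : A} (h : L.Mem (qa Θ g - Θ1)) (x : A) :
    L.Mem (qa Θ (g * x) - qa Θ1 x) :=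
  (h.conj x).of_eq (by rw [qa_mul]; simp only [qa]; noncomm_ring)

theorem sim_ba {L : FP A} {Θ Θ1 g : A} (h : L.Mem (qa Θ g - Θ1)) (x y : A) :
    ba Θ (g * x) (g * y) = ba Θ1 x y := by
  have e : ba Θ g g = Θ1 + star Θ1 := by
    have := h.add_star
    rw [ba_self, star_sub] at *
    rw [← sub_eq_zero, ← this]; abel
  rw [ba_mul_left, ba_mul_right, e, ← mul_assoc]; rfl

/-- The Hankel form. -/
def hank (η : ℕ → A) (k : ℕ) (θ : A) : Matrix (Fin (2 * k + 1)) (Fin (2 * k + 1)) A :=
  Matrix.of fun i l => η (i + l) * θ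

section Hank
variable {η : ℕ → A} {k : ℕ} (hc : ∀ m a, η m * a = a * η m) (hs : ∀ m, star (η m) = η m)
  (h0 : ∀ m, m < 2 * k → η m = 0) (h1 : η (2 * k) = 1)

include hc hs in
theorem hank_add_star (θ : A) : hank η k θ + star (hank η k θ) = hank η k (θ + star θ) := by
  ext i l
  simp only [hank, Matrix.add_apply, Matrix.star_apply, Matrix.of_apply, star_mul, hs, add_mul,
    add_comm (l : ℕ) i, hc]

omit [StarRing A] in
include hc h0 h1 in
theorem hank_inv {b : A} (hb : IsUnit b) : ∃ S, hank η k b * S = 1 := by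
  let H : Matrix (Fin (2 * k + 1)) (Fin (2 * k + 1)) (Subring.center A) :=
    Matrix.of fun i l => ⟨η (i.rev + l), Subring.mem_center_iff.2 fun a => (hc _ a).symm⟩
  have ht : H.BlockTriangular id := fun i l hl => Subtype.ext (h0 _ (by
    have : (l : ℕ) < i := hl
    rw [Fin.val_rev]; omega))
  have hd : H.det = 1 := by
    rw [Matrix.det_of_isUpperTriangular ht]
    refine Finset.prod_eq_one fun i _ => Subtype.ext ?_
    have : (i.rev : ℕ) + i = 2 * k := by rw [Fin.val_rev]; omega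
    change η (i.rev + i) = 1
    rw [this, h1]
  obtain ⟨S, hS⟩ := ((Matrix.isUnit_iff_isUnit_det H).2 (hd ▸ isUnit_one)).exists_right_inv
  obtain ⟨b, rfl⟩ := hb
  refine ⟨Matrix.of fun m l => ↑b⁻¹ * (S m l.rev : A), ?_⟩
  ext i l
  have := congrArg Subtype.val (congrFun (congrFun hS i.rev) l.rev)
  rw [Matrix.mul_apply, AddSubmonoidClass.coe_finsetSum] at this
  simp only [H, Matrix.of_apply, Fin.rev_rev, Subring.coe_mul, Matrix.one_apply, Fin.rev_inj,
    apply_ite Subtype.val, Subring.coe_one, Subring.coe_zero] at this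
  simp only [Matrix.mul_apply, hank, Matrix.of_apply, mul_assoc, Units.mul_inv_cancel_left, this,
    Matrix.one_apply]

/-- The projection to the first `k` coordinates. -/
def hpi (A : Type*) [Ring A] (k : ℕ) : Matrix (Fin (2 * k + 1)) (Fin (2 * k + 1)) A :=
  Matrix.diagonal fun i => if (i : ℕ) < k then 1 else 0

theorem star_hpi : star (hpi A k) = hpi A k := by
  rw [hpi, Matrix.star_eq_conjTranspose, Matrix.diagonal_conjTranspose]
  congr 1; ext i; simp only [Pi.star_apply]; split_ifs <;> simp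

omit [StarRing A] in
theorem hpi_mul : hpi A k * hpi A k = hpi A k := by
  rw [hpi, Matrix.diagonal_mul_diagonal]
  congr 1; ext i; split_ifs <;> simp

include h0 in
theorem qa_hpi (θ : A) : qa (hank η k θ) (hpi A k) = 0 := by
  rw [qa, star_hpi]
  ext i l
  simp only [hpi, Matrix.mul_diagonal, Matrix.diagonal_mul, hank, Matrix.of_apply,
    Matrix.zero_apply]
  split_ifs with a b
  · rw [h0 _ (by omega)]; simp
  all_goals simp

include hc hs h0 h1 in
theorem hank_descent {κ D : Type*} [Field κ] [Ring D] [Algebra κ D] [FiniteDimensional κ D]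
    [IsSemisimpleRing D] (ρ : A →+* D) (hρ : Function.Surjective ρ)
    (hu : ∀ x, IsUnit (ρ x) → IsUnit x) (L : FP A) {θ θ1 : A} (hθ : IsUnit (θ + star θ))
    (hθ1 : IsUnit (θ1 + star θ1)) {g : Matrix (Fin (2 * k + 1)) (Fin (2 * k + 1)) A}
    (hg : (L.mat _).Mem (qa (hank η k θ) g - hank η k θ1)) :
    ∃ x, L.Mem (star x * θ * x - θ1) := by
  obtain ⟨S, hS⟩ := hank_inv hc h0 h1 hθ
  obtain ⟨S1, hS1⟩ := hank_inv hc h0 h1 hθ1
  have hba : ∀ (θ : A) M, ba (hank η k θ) (hpi A k) M = hpi A k * (hank η k (θ + star θ) * M) :=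
    fun θ M => by rw [ba, hank_add_star hc hs, star_hpi, mul_assoc]
  let c : Fin (2 * k + 1) := ⟨k, by omega⟩
  have hρ' : Function.Surjective (ρ.mapMatrix : Matrix (Fin (2 * k + 1)) (Fin (2 * k + 1)) A →+* _) :=
    fun M => by
      choose N hN using fun i j => hρ (M i j)
      exact ⟨Matrix.of N, by ext i j; exact hN i j⟩
  have hyy : ba (hank η k θ) (Matrix.single c c 1) (Matrix.single c c 1) =
      Matrix.single c c (θ + star θ) := by
    rw [ba, hank_add_star hc hs, Matrix.star_eq_conjTranspose, Matrix.conjTranspose_single, star_one,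
      Matrix.single_mul_mul_single]
    simp only [hank, Matrix.of_apply, c, ← two_mul, h1, one_mul, mul_one]
  obtain ⟨σ, hσ, hσg⟩ := frames_conjA (κ := κ) (L := L.mat _) (Θ := hank η k θ) ρ.mapMatrix hρ'
    (mat_unit_lift ρ hρ hu) star_hpi hpi_mul (E := g * hpi A k) (F := g * (S1 * hpi A k))
    (E1 := hpi A k) (F1 := S * hpi A k) (y := Matrix.single c c 1)
    (by rw [mul_assoc, hpi_mul])
    ((sim_qa hg (hpi A k)).of_eq (by rw [qa_hpi h0, sub_zero]))
    (by rw [sim_ba hg, hba, ← mul_assoc _ S1, hS1, one_mul, hpi_mul]) hpi_mul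
    (by rw [qa_hpi h0]; exact FP.zero _) (by rw [hba, ← mul_assoc _ S, hS, one_mul, hpi_mul])
    (by
      rw [hba]; ext i l
      simp only [hpi, Matrix.diagonal_mul, Matrix.zero_apply]
      split_ifs with a
      · by_cases hl : l = c
        · rw [hl, Matrix.mul_single_apply_same]
          simp only [hank, Matrix.of_apply, c]
          rw [h0 _ (by omega)]; simp
        · rw [Matrix.mul_single_apply_of_ne (hbj := hl), mul_zero]
      · simp)
    (by
      obtain ⟨b, hb⟩ := hθ
      refine fullEl_of_sum (fun i => ρ.mapMatrix (Matrix.single i c (b⁻¹).1))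
        (fun i => ρ.mapMatrix (Matrix.single c i 1)) ?_
      simp only [hyy, ← map_mul, Matrix.single_mul_single_same, ← hb, Units.inv_mul, mul_one]
      rw [← map_sum, Matrix.sum_single_one, map_one])
  obtain ⟨h, hh⟩ : ∃ h, h = σ * g := ⟨_, rfl⟩
  have hh1 : (L.mat _).Mem (qa (hank η k θ) h - hank η k θ1) :=
    ((hσ.qa g).add hg).of_eq (by rw [hh]; abel)
  have hh2 := sim_ba hh1 (hpi A k) 1
  rw [mul_one, hh, mul_assoc, hσg, ← hh, hba, hba, mul_one] at hh2
  have hz : ∀ d, ∀ m : Fin (2 * k + 1), k < m → 2 * k - m = d → h m c = 0 := by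
    intro d
    induction d using Nat.strong_induction_on with
    | _ d ih =>
      intro m hm hd
      have e := congrFun (congrFun hh2 m.rev) c
      have hr : (m.rev : ℕ) = 2 * k - m := by rw [Fin.val_rev]; omega
      have hm2 := m.2
      simp only [hpi, Matrix.diagonal_mul] at e
      rw [if_pos (by omega), one_mul, one_mul, Matrix.mul_apply, Finset.sum_eq_single m] at e
      · simp only [hank, Matrix.of_apply, c] at e
        rw [h0 (m.rev + k) (by omega), show (m.rev : ℕ) + m = 2 * k by omega, h1, one_mul,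
          zero_mul] at e
        exact hθ.mul_right_eq_zero.1 e
      · intro m' _ hne
        have hne' : (m' : ℕ) ≠ m := fun h => hne (Fin.ext h)
        have := m'.2
        rcases lt_or_gt_of_ne hne' with hlt | hlt
        · simp only [hank, Matrix.of_apply]
          rw [h0 _ (by omega)]; simp
        · rw [ih _ (by omega) m' (by omega) rfl, mul_zero]
      · simp
  refine ⟨h c c, (hh1.2 c).of_eq ?_⟩
  simp only [Matrix.sub_apply, qa, Matrix.mul_apply, Matrix.star_apply, hank, Matrix.of_apply]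
  have hcc : η (c + c) = 1 := by simp only [c, ← two_mul, h1]
  rw [Finset.sum_eq_single c, Finset.sum_eq_single c, hcc, one_mul, one_mul]
  · intro i _ hne
    have hne' : (i : ℕ) ≠ k := fun h => hne (Fin.ext h)
    rcases lt_or_gt_of_ne hne' with hlt | hlt
    · rw [h0 _ (by simp only [c]; omega)]; simp
    · rw [hz _ i hlt rfl]; simp
  · simp
  · intro l _ hne
    have hne' : (l : ℕ) ≠ k := fun h => hne (Fin.ext h)
    rcases lt_or_gt_of_ne hne' with hlt | hlt
    · rw [Finset.sum_eq_zero, zero_mul]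
      intro i _
      rcases le_or_gt (i : ℕ) k with hi | hi
      · rw [h0 _ (by omega)]; simp
      · rw [hz _ i hi rfl]; simp
    · rw [hz _ l hlt rfl, mul_zero]
  · simp

end Hank

section Coord
variable {A1 : Type*} [Ring A1] [StarRing A1] (j : A →+* A1) (hj : ∀ a, j (star a) = star (j a))
  (t : A1) (ht : star t = t) (htc : ∀ x, t * x = x * t) {n : ℕ}
  (hun : ∀ c : Fin n → A, ∑ i : Fin n, t ^ (i : ℕ) * j (c i) = 0 → c = 0)

omit [StarRing A] [StarRing A1] in
include hun in
theorem coord_inj {c d : Fin n → A}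
    (h : ∑ i : Fin n, t ^ (i : ℕ) * j (c i) = ∑ i : Fin n, t ^ (i : ℕ) * j (d i)) : c = d :=
  sub_eq_zero.1 (hun _ (by
    simp only [Pi.sub_apply, map_sub, mul_sub, Finset.sum_sub_distrib, h, sub_self]))

include hj ht htc in
theorem star_coord (c : Fin n → A) :
    star (∑ i : Fin n, t ^ (i : ℕ) * j (c i)) = ∑ i : Fin n, t ^ (i : ℕ) * j (star (c i)) := by
  rw [star_sum]
  refine Finset.sum_congr rfl fun i _ => ?_
  rw [star_mul, star_pow, ht, hj]
  exact ((show Commute t _ from htc _).pow_left i).eq.symm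

include hj ht htc hun in
theorem coord_alt (hex : ∀ x, ∃ c : Fin n → A, x = ∑ i : Fin n, t ^ (i : ℕ) * j (c i))
    (c : Fin n → A) (h : (FP.alt A1).Mem (∑ i : Fin n, t ^ (i : ℕ) * j (c i))) (i : Fin n) :
    (FP.alt A).Mem (c i) := by
  obtain ⟨y, hy⟩ := h
  obtain ⟨d, rfl⟩ := hex y
  rw [star_coord j hj t ht htc, ← Finset.sum_sub_distrib] at hy
  simp only [← mul_sub, ← map_sub] at hy
  exact ⟨d i, congrFun (coord_inj j t hun hy) i⟩

include hj ht htc hun in
theorem coord_skew (c : Fin n → A) (h : (FP.skew A1).Mem (∑ i : Fin n, t ^ (i : ℕ) * j (c i)))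
    (i : Fin n) : (FP.skew A).Mem (c i) := by
  have h2 := h.add_star
  rw [star_coord j hj t ht htc, ← Finset.sum_add_distrib] at h2
  simp only [← mul_add, ← map_add] at h2
  exact congrFun (hun _ h2) i

end Coord

/-- Odd degree descent of a representation `x* θ x = θ1` modulo a form parameter. -/
theorem odd_descent {κ D : Type*} [Field κ] [Ring D] [Algebra κ D] [FiniteDimensional κ D]
    [IsSemisimpleRing D] (ρ : A →+* D) (hρ : Function.Surjective ρ)
    (hu : ∀ x, IsUnit (ρ x) → IsUnit x) {A1 : Type*} [Ring A1] [StarRing A1] (L : FP A)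
    (L1 : FP A1) (j : A →+* A1) (hj : ∀ a, j (star a) = star (j a)) (t : A1) (ht : star t = t)
    (htc : ∀ x, t * x = x * t) (k : ℕ)
    (hex : ∀ x, ∃ c : Fin (2 * k + 1) → A, x = ∑ i : Fin (2 * k + 1), t ^ (i : ℕ) * j (c i))
    (hun : ∀ c : Fin (2 * k + 1) → A, ∑ i : Fin (2 * k + 1), t ^ (i : ℕ) * j (c i) = 0 → c = 0)
    (hL : ∀ c : Fin (2 * k + 1) → A, L1.Mem (∑ i : Fin (2 * k + 1), t ^ (i : ℕ) * j (c i)) →
      L.Mem (c (Fin.last _)))
    {θ θ1 : A} (hθ : IsUnit (θ + star θ)) (hθ1 : IsUnit (θ1 + star θ1)) {x : A1}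
    (hx : L1.Mem (star x * j θ * x - j θ1)) : ∃ x0, L.Mem (star x0 * θ * x0 - θ1) := by
  choose co hco using hex
  have hcm : ∀ (m : ℕ) y, t ^ m * y = y * t ^ m := fun m y =>
    ((show Commute t _ from htc y).pow_left m).eq
  have hce : ∀ y c, y = ∑ i : Fin (2 * k + 1), t ^ (i : ℕ) * j (c i) → co y = c :=
    fun y c h => coord_inj j t hun ((hco y).symm.trans h)
  let Λ : A1 →+ A := AddMonoidHom.mk' (fun y => co y (Fin.last _)) fun y z => by
    rw [hce (y + z) (co y + co z)]
    · rfl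
    · simp only [Pi.add_apply, map_add, mul_add, Finset.sum_add_distrib, ← hco]
  have hΛ : ∀ y, Λ y = co y (Fin.last _) := fun _ => rfl
  have hr : ∀ y a, Λ (y * j a) = Λ y * a := fun y a => by
    rw [hΛ, hΛ, hce (y * j a) fun i => co y i * a]
    nth_rw 1 [hco y]
    simp only [Finset.sum_mul, map_mul, mul_assoc]
  have hst : ∀ y, Λ (star y) = star (Λ y) := fun y => by
    rw [hΛ, hΛ, hce (star y) fun i => star (co y i)]
    nth_rw 1 [hco y]
    exact star_coord j hj t ht htc _
  have hl : ∀ a y, Λ (j a * y) = a * Λ y := fun a y => by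
    rw [← star_star (j a * y), hst, star_mul, ← hj, hr, hst, star_mul, star_star, star_star]
  have hpow : ∀ i : Fin (2 * k + 1), co (t ^ (i : ℕ)) = Pi.single i 1 := fun i => hce _ _ (by
    rw [Finset.sum_eq_single i]
    · simp
    · intro b _ hb; rw [Pi.single_eq_of_ne hb, map_zero, mul_zero]
    · simp)
  have hLΛ : ∀ y, L1.Mem y → L.Mem (Λ y) := fun y hy => hL _ (hco y ▸ hy)
  refine hank_descent (κ := κ) (η := fun m => Λ (t ^ m)) (k := k) (fun m a => ?_) (fun m => ?_)
    (fun m hm => ?_) ?_ ρ hρ hu L hθ hθ1 (g := Matrix.of fun i l => co (x * t ^ (l : ℕ)) i) ?_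
  · rw [← hr, ← hl, hcm]
  · rw [← hst, star_pow, ht]
  · have := hpow ⟨m, by omega⟩
    rw [hΛ, this, Pi.single_eq_of_ne]
    exact fun h => by simpa using (congrArg Fin.val h).trans_lt hm
  · have := hpow (Fin.last _)
    rw [Fin.val_last] at this
    rw [hΛ, this, Pi.single_eq_same]
  have key : ∀ a b : Fin (2 * k + 1),
      (qa (hank (fun m => Λ (t ^ m)) k θ) (Matrix.of fun i l => co (x * t ^ (l : ℕ)) i) -
        hank (fun m => Λ (t ^ m)) k θ1) a b =
      Λ (star (t ^ (a : ℕ)) * (star x * j θ * x - j θ1) * t ^ (b : ℕ)) := by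
    intro a b
    have e1 : star (t ^ (a : ℕ)) * (star x * j θ * x - j θ1) * t ^ (b : ℕ) =
        star (x * t ^ (a : ℕ)) * j θ * (x * t ^ (b : ℕ)) - t ^ ((a : ℕ) + b) * j θ1 := by
      rw [star_mul, pow_add, mul_assoc (t ^ (a : ℕ)), hcm b, star_pow, ht]; noncomm_ring
    rw [e1, map_sub, hr]
    simp only [Matrix.sub_apply, qa, Matrix.mul_apply, Matrix.star_apply, hank, Matrix.of_apply]
    congr 1
    conv_rhs => rw [hco (x * t ^ (a : ℕ)), hco (x * t ^ (b : ℕ)), star_coord j hj t ht htc]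
    simp only [Finset.sum_mul, Finset.mul_sum, map_sum]
    refine Finset.sum_congr rfl fun l _ => Finset.sum_congr rfl fun i _ => ?_
    rw [← hr, ← hl, ← hr, pow_add]
    congr 1
    generalize j (star (co (x * t ^ (a : ℕ)) i)) = u
    generalize j (co (x * t ^ (b : ℕ)) l) = v
    rw [hcm i u, mul_assoc (t ^ (i : ℕ)), hcm l (j θ)]
    simp only [mul_assoc]
  refine ⟨?_, fun a => by rw [key]; exact hLΛ _ (hx.conj _)⟩
  ext a b
  rw [Matrix.add_apply, Matrix.star_apply, key, key, ← hst, ← map_add, star_mul, star_mul, star_star,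
    ← mul_assoc, ← add_mul, ← mul_add, hx.add_star]
  simp

end Pool.Agent.P.MP_c1f06d_ag
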