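import Mathlib

open Matrix

namespace Pool.Agent.P.MP_c1f06d_ag

variable {T T' : Type*} [CommRing T] [CommRing T'] {m : ℕ}

/-- Value of the quadratic form with matrix `Q`. -/
def qv (Q : Matrix (Fin m) (Fin m) T) (x : Fin m → T) : T := x ⬝ᵥ Q *ᵥ x

/-- Polar form. -/
def bv (Q : Matrix (Fin m) (Fin m) T) (x y : Fin m → T) : T := x ⬝ᵥ (Q + Qᵀ) *ᵥ y

/-- The polar form is unimodular. -/
def Unim (Q : Matrix (Fin m) (Fin m) T) : Prop := IsUnit (Q + Qᵀ).det

/-- `g` carries the form `Q` to the form `Q'`. -/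
def Carries (g Q Q' : Matrix (Fin m) (Fin m) T) : Prop := ∀ x, qv Q' (g *ᵥ x) = qv Q x

/-- There is a form preserving linear map. -/
def Iso (Q Q' : Matrix (Fin m) (Fin m) T) : Prop := ∃ g, Carries g Q Q'

/-- `u` is a product of an even number of values. -/
def Sn (Q : Matrix (Fin m) (Fin m) T) (u : T) : Prop :=
  ∃ l : List (Fin m → T), Even l.length ∧ u = (l.map (qv Q)).prod

/-- Reflection of `w` in `z`. -/
noncomputable def refl (Q : Matrix (Fin m) (Fin m) T) (z w : Fin m → T) : Fin m → T :=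
  w - (bv Q w z * Ring.inverse (qv Q z)) • z

variable (Q Q' Q'' : Matrix (Fin m) (Fin m) T)

theorem bv_comm (x y : Fin m → T) : bv Q x y = bv Q y x := by
  unfold bv
  rw [dotProduct_mulVec, ← mulVec_transpose, dotProduct_comm, transpose_add, transpose_transpose,
    add_comm Qᵀ Q]

theorem bv_eq (x y : Fin m → T) : bv Q x y = x ⬝ᵥ Q *ᵥ y + y ⬝ᵥ Q *ᵥ x := by
  unfold bv
  rw [add_mulVec, dotProduct_add, dotProduct_mulVec y, ← mulVec_transpose, dotProduct_comm _ x]

theorem bv_add_left (x y z : Fin m → T) : bv Q (x + y) z = bv Q x z + bv Q y z := by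
  unfold bv; rw [add_dotProduct]

theorem bv_add_right (x y z : Fin m → T) : bv Q x (y + z) = bv Q x y + bv Q x z := by
  unfold bv; rw [mulVec_add, dotProduct_add]

theorem bv_sub_left (x y z : Fin m → T) : bv Q (x - y) z = bv Q x z - bv Q y z := by
  unfold bv; rw [sub_dotProduct]

theorem bv_sub_right (x y z : Fin m → T) : bv Q x (y - z) = bv Q x y - bv Q x z := by
  unfold bv; rw [mulVec_sub, dotProduct_sub]

theorem bv_smul_left (a : T) (x y : Fin m → T) : bv Q (a • x) y = a * bv Q x y := by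
  unfold bv; rw [smul_dotProduct, smul_eq_mul]

theorem bv_smul_right (a : T) (x y : Fin m → T) : bv Q x (a • y) = a * bv Q x y := by
  unfold bv; rw [mulVec_smul, dotProduct_smul, smul_eq_mul]

theorem bv_neg_left (x y : Fin m → T) : bv Q (-x) y = -bv Q x y := by
  unfold bv; rw [neg_dotProduct]

theorem bv_neg_right (x y : Fin m → T) : bv Q x (-y) = -bv Q x y := by
  unfold bv; rw [mulVec_neg, dotProduct_neg]

theorem bv_zero_left (y : Fin m → T) : bv Q 0 y = 0 := by simp [bv]

theorem bv_zero_right (x : Fin m → T) : bv Q x 0 = 0 := by simp [bv]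

theorem bv_self (x : Fin m → T) : bv Q x x = 2 * qv Q x := by
  rw [bv_eq, two_mul]; rfl

theorem qv_add (x y : Fin m → T) : qv Q (x + y) = qv Q x + qv Q y + bv Q x y := by
  rw [bv_eq]; unfold qv
  rw [mulVec_add, add_dotProduct, dotProduct_add, dotProduct_add]; ring

theorem qv_smul (a : T) (x : Fin m → T) : qv Q (a • x) = a ^ 2 * qv Q x := by
  unfold qv; rw [mulVec_smul, smul_dotProduct, dotProduct_smul, smul_eq_mul, smul_eq_mul]; ring

theorem qv_neg (x : Fin m → T) : qv Q (-x) = qv Q x := by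
  unfold qv; rw [mulVec_neg, neg_dotProduct, dotProduct_neg, neg_neg]

theorem qv_sub (x y : Fin m → T) : qv Q (x - y) = qv Q x + qv Q y - bv Q x y := by
  rw [sub_eq_add_neg, qv_add, qv_neg, bv_neg_right]; ring

theorem qv_zero : qv Q 0 = 0 := by simp [qv]

theorem qv_single (i : Fin m) : qv Q (Pi.single i 1) = Q i i := by
  simp [qv]

theorem bv_single (i j : Fin m) : bv Q (Pi.single i 1) (Pi.single j 1) = Q i j + Q j i := by
  simp [bv]

theorem qv_map (f : T →+* T') (x : Fin m → T) : qv (Q.map f) (f ∘ x) = f (qv Q x) := by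
  unfold qv
  rw [RingHom.map_dotProduct]
  congr 1
  funext i
  exact (RingHom.map_mulVec f Q x i).symm

theorem polar_map (f : T →+* T') : Q.map f + (Q.map f)ᵀ = (Q + Qᵀ).map f := by
  ext i j; simp

theorem bv_map (f : T →+* T') (x y : Fin m → T) :
    bv (Q.map f) (f ∘ x) (f ∘ y) = f (bv Q x y) := by
  unfold bv
  rw [RingHom.map_dotProduct, polar_map]
  congr 1
  funext i
  exact (RingHom.map_mulVec f _ y i).symm

theorem qv_mulVec (g : Matrix (Fin m) (Fin m) T) (x : Fin m → T) :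
    qv Q (g *ᵥ x) = qv (gᵀ * Q * g) x := by
  unfold qv
  rw [← mulVec_mulVec, ← mulVec_mulVec, dotProduct_mulVec x gᵀ, vecMul_transpose]

theorem qv_smul_mat (a : T) (x : Fin m → T) : qv (a • Q) x = a * qv Q x := by
  unfold qv; rw [smul_mulVec, dotProduct_smul, smul_eq_mul]

/-- Two matrices give the same form iff diagonals and symmetrisations agree. -/
theorem qv_ext_iff : (∀ x, qv Q x = qv Q' x) ↔ (∀ i, Q i i = Q' i i) ∧ Q + Qᵀ = Q' + Q'ᵀ := by
  constructor
  · intro h
    refine ⟨fun i => by simpa [qv_single] using h (Pi.single i 1), ?_⟩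
    ext i j
    have h1 := h (Pi.single i 1 + Pi.single j 1)
    rw [qv_add, qv_add, h, h, bv_single, bv_single] at h1
    simpa using h1
  · rintro ⟨h1, h2⟩ x
    have key : ∀ s : Finset (Fin m),
        qv Q (∑ i ∈ s, x i • Pi.single i 1) = qv Q' (∑ i ∈ s, x i • Pi.single i 1) := by
      intro s
      induction s using Finset.induction_on with
      | empty => simp [qv_zero]
      | insert a s ha ih =>
        rw [Finset.sum_insert ha, qv_add, qv_add, ih, qv_smul, qv_smul, qv_single, qv_single, h1]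
        unfold bv; rw [h2]
    have hx : (∑ i, x i • Pi.single i (1 : T) : Fin m → T) = x := by
      funext j; simp [Finset.sum_apply, Pi.single_apply]
    simpa [hx] using key Finset.univ

variable {Q Q' Q''}

theorem Unim.map (h : Unim Q) (f : T →+* T') : Unim (Q.map f) := by
  unfold Unim at *
  rw [polar_map, ← RingHom.mapMatrix_apply, ← RingHom.map_det]
  exact h.map f

theorem Unim.of_map (f : T →+* T') [IsLocalHom f] (h : Unim (Q.map f)) : Unim Q := by
  unfold Unim at *
  rw [polar_map, ← RingHom.mapMatrix_apply, ← RingHom.map_det] at h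
  exact IsUnit.of_map f _ h

theorem Carries.bv {g : Matrix (Fin m) (Fin m) T} (h : Carries g Q Q') (x y : Fin m → T) :
    bv Q' (g *ᵥ x) (g *ᵥ y) = bv Q x y := by
  have h1 := h (x + y)
  rw [mulVec_add, qv_add, qv_add, h, h] at h1
  exact add_left_cancel h1

theorem carries_iff {g : Matrix (Fin m) (Fin m) T} :
    Carries g Q Q' ↔ (∀ i, (gᵀ * Q' * g) i i = Q i i) ∧
      gᵀ * Q' * g + (gᵀ * Q' * g)ᵀ = Q + Qᵀ := by
  unfold Carries
  simp only [qv_mulVec]
  exact qv_ext_iff _ _

theorem Carries.map {g : Matrix (Fin m) (Fin m) T} (h : Carries g Q Q') (f : T →+* T') :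
    Carries (g.map f) (Q.map f) (Q'.map f) := by
  rw [carries_iff] at h ⊢
  have e : (g.map f)ᵀ * Q'.map f * g.map f = (gᵀ * Q' * g).map f := by
    rw [Matrix.map_mul, Matrix.map_mul, transpose_map]
  rw [e]
  refine ⟨fun i => by simp [h.1 i], ?_⟩
  rw [polar_map, polar_map, h.2]

theorem Carries.mul {g g' : Matrix (Fin m) (Fin m) T} (h : Carries g Q Q') (h' : Carries g' Q' Q'') :
    Carries (g' * g) Q Q'' := fun x => by rw [← mulVec_mulVec, h', h]

theorem carries_one : Carries 1 Q Q := fun x => by rw [one_mulVec]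

theorem Carries.isUnit_det {g : Matrix (Fin m) (Fin m) T} (h : Carries g Q Q') (hQ : Unim Q) :
    IsUnit g.det := by
  have h2 := (carries_iff.1 h).2
  have e : gᵀ * (Q' + Q'ᵀ) * g = Q + Qᵀ := by
    rw [← h2, Matrix.mul_add, Matrix.add_mul, transpose_mul, transpose_mul, transpose_transpose,
      Matrix.mul_assoc gᵀ Q'ᵀ g]
  unfold Unim at hQ
  rw [← e, det_mul] at hQ
  exact isUnit_of_mul_isUnit_right hQ

theorem Carries.unim {g : Matrix (Fin m) (Fin m) T} (h : Carries g Q Q') (hg : IsUnit g.det)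
    (hQ : Unim Q') : Unim Q := by
  have h2 := (carries_iff.1 h).2
  have e : gᵀ * (Q' + Q'ᵀ) * g = Q + Qᵀ := by
    rw [← h2, Matrix.mul_add, Matrix.add_mul, transpose_mul, transpose_mul, transpose_transpose,
      Matrix.mul_assoc gᵀ Q'ᵀ g]
  unfold Unim at *
  rw [← e, det_mul, det_mul, det_transpose]
  exact (hg.mul hQ).mul hg

theorem Carries.inv {g : Matrix (Fin m) (Fin m) T} (h : Carries g Q Q') (hg : IsUnit g.det) :
    Carries g⁻¹ Q' Q := fun x => by
  rw [← h, mulVec_mulVec, mul_nonsing_inv _ hg, one_mulVec]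

theorem Iso.map (h : Iso Q Q') (f : T →+* T') : Iso (Q.map f) (Q'.map f) :=
  let ⟨_, hg⟩ := h; ⟨_, hg.map f⟩

theorem Iso.trans (h : Iso Q Q') (h' : Iso Q' Q'') : Iso Q Q'' :=
  let ⟨_, hg⟩ := h; let ⟨_, hg'⟩ := h'; ⟨_, hg.mul hg'⟩

theorem Iso.symm (h : Iso Q Q') (hQ : Unim Q) : Iso Q' Q :=
  let ⟨_, hg⟩ := h; ⟨_, hg.inv (hg.isUnit_det hQ)⟩

theorem Iso.rfl : Iso Q Q := ⟨1, carries_one⟩

/-- A linear map that preserves the values gives an isometry. -/
theorem iso_of_linearMap (g : (Fin m → T) →ₗ[T] (Fin m → T)) (h : ∀ x, qv Q' (g x) = qv Q x) :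
    Iso Q Q' :=
  ⟨LinearMap.toMatrix' g, fun x => by rw [LinearMap.toMatrix'_mulVec, h]⟩

end Pool.Agent.P.MP_c1f06d_ag
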