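import Pool.Agent.P.MP_c1f06d_ag.QSn

open Matrix Polynomial

universe u

namespace Pool.Agent.P.MP_c1f06d_ag

variable {m : ℕ}

section Field
variable {k : Type*} [Field k] {Q : Matrix (Fin m) (Fin m) k}

theorem exists_bv_ne_zero_perp (hQ : Unim Q) (hm : 5 ≤ m) (a b : Fin m → k) :
    ∃ x y, bv Q x a = 0 ∧ bv Q x b = 0 ∧ bv Q y a = 0 ∧ bv Q y b = 0 ∧ bv Q x y ≠ 0 := by
  by_contra! h
  have e : ∀ x y, (Q + Qᵀ).toBilin' x y = bv Q y x := fun x y => by
    rw [toBilin'_apply', bv_comm]; rfl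
  have hB := LinearMap.BilinForm.nondegenerate_toBilin'_of_det_ne_zero' _ hQ.ne_zero
  have h1 := finrank_range_le_card (R := k) ![a, b]
  have h2 := LinearMap.BilinForm.finrank_orthogonal hB (Submodule.span k (Set.range ![a, b]))
  set N := (Q + Qᵀ).toBilin'.orthogonal (Submodule.span k (Set.range ![a, b]))
  have h3 := LinearMap.BilinForm.finrank_orthogonal hB N
  have hN : ∀ x ∈ N, bv Q x a = 0 ∧ bv Q x b = 0 := fun x hx =>
    ⟨(e _ _).symm.trans (hx a (Submodule.subset_span ⟨0, rfl⟩)),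
      (e _ _).symm.trans (hx b (Submodule.subset_span ⟨1, rfl⟩))⟩
  have h4 := Submodule.finrank_mono (show N ≤ (Q + Qᵀ).toBilin'.orthogonal N from
    fun x hx y hy => (e _ _).trans (h x y (hN x hx).1 (hN x hx).2 (hN y hy).1 (hN y hy).2))
  simp only [Set.finrank, Module.finrank_fintype_fun_eq_card, Fintype.card_fin] at h1 h2 h3
  omega

theorem exists_qv_ne_zero_perp (hQ : Unim Q) (hm : 5 ≤ m) (a b z : Fin m → k) :
    ∃ y, bv Q y a = 0 ∧ bv Q y b = 0 ∧ qv Q (z + y) ≠ 0 := by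
  by_contra! h
  obtain ⟨x, y, h1, h2, h3, h4, h5⟩ := exists_bv_ne_zero_perp hQ hm a b
  have e0 := h 0 (bv_zero_left _ _) (bv_zero_left _ _)
  have e1 := h x h1 h2
  have e2 := h y h3 h4
  have e3 := h (x + y) (by rw [bv_add_left, h1, h3, add_zero]) (by rw [bv_add_left, h2, h4, add_zero])
  rw [add_zero] at e0
  simp only [qv_add, bv_add_right] at e1 e2 e3
  exact h5 (by linear_combination e3 - e1 - e2 + e0)

theorem exists_three_ne_zero (hQ : Unim Q) (hm : 5 ≤ m) {a b : Fin m → k} (ha : a ≠ 0)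
    (hb : b ≠ 0) : ∃ z, qv Q z ≠ 0 ∧ bv Q a z ≠ 0 ∧ bv Q b z ≠ 0 := by
  obtain ⟨z, h1, h2⟩ : ∃ z, bv Q a z ≠ 0 ∧ bv Q b z ≠ 0 := by
    obtain ⟨x, hx⟩ := not_forall.1 (mt hQ.eq_zero ha)
    obtain ⟨y, hy⟩ := not_forall.1 (mt hQ.eq_zero hb)
    by_contra! h
    have e : bv Q a y = 0 := by_contra fun e => hy (h y e)
    have := h (x + y) (by rwa [bv_add_right, e, add_zero])
    rw [bv_add_right, h x hx, zero_add] at this
    exact hy this
  obtain ⟨y, h3, h4, h5⟩ := exists_qv_ne_zero_perp hQ hm a b z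
  exact ⟨z + y, h5, by rwa [bv_add_right, bv_comm Q a y, h3, add_zero],
    by rwa [bv_add_right, bv_comm Q b y, h4, add_zero]⟩

theorem exists_two_refl_field (hQ : Unim Q) (hm : 5 ≤ m) {w w' : Fin m → k} (hw : w ≠ 0)
    (hw' : w' ≠ 0) : ∃ z, qv Q z ≠ 0 ∧ qv Q (w - w') * qv Q z + bv Q w z * bv Q w' z ≠ 0 := by
  by_cases h : qv Q (w - w') = 0
  · obtain ⟨z, h1, h2, h3⟩ := exists_three_ne_zero hQ hm hw hw'
    exact ⟨z, h1, by rw [h, zero_mul, zero_add]; exact mul_ne_zero h2 h3⟩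
  · obtain ⟨z, h1, -, h2⟩ := exists_qv_ne_zero_perp hQ hm w w 0
    rw [zero_add] at h2
    exact ⟨z, h2, by rw [bv_comm Q w, h1, zero_mul, add_zero]; exact mul_ne_zero h h2⟩

end Field

theorem exists_two_refl {S : Type*} [CommRing S] [Finite (MaximalSpectrum S)]
    {Q : Matrix (Fin m) (Fin m) S} (hQ : Unim Q) (hm : 5 ≤ m) {w w' : Fin m → S}
    (h : qv Q w' = qv Q w) (hu : IsUnit (qv Q w)) :
    ∃ z, IsUnit (qv Q z) ∧ IsUnit (qv Q (refl Q z w - w')) := by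
  have key : ∀ n : MaximalSpectrum S, ∃ z : Fin m → S ⧸ n.1, ∀ y : Fin m → S,
      Ideal.Quotient.mk n.1 ∘ y = z →
        qv Q y ∉ n.1 ∧ qv Q (w - w') * qv Q y + bv Q w y * bv Q w' y ∉ n.1 := fun n => by
    have := n.2
    let _ := Ideal.Quotient.field n.1
    have ne : ∀ v, qv Q v = qv Q w → Ideal.Quotient.mk n.1 ∘ v ≠ 0 := fun v hv e =>
      (hu.map (Ideal.Quotient.mk n.1)).ne_zero (by rw [← hv, ← qv_map, e, qv_zero])
    obtain ⟨z, h1, h2⟩ := exists_two_refl_field (hQ.map (Ideal.Quotient.mk n.1)) hm (ne w rfl) (ne w' h)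
    refine ⟨z, ?_⟩
    rintro y rfl
    rw [show Ideal.Quotient.mk n.1 ∘ w - Ideal.Quotient.mk n.1 ∘ w' = Ideal.Quotient.mk n.1 ∘ (w - w')
      from funext fun i => (map_sub (Ideal.Quotient.mk n.1) (w i) (w' i)).symm] at h2
    simp only [qv_map, bv_map, ← map_mul, ← map_add] at h1 h2
    exact ⟨mt Ideal.Quotient.eq_zero_iff_mem.2 h1, mt Ideal.Quotient.eq_zero_iff_mem.2 h2⟩
  choose z hz using key
  choose y hy using fun i => Ideal.pi_quotient_surjective (I := fun n : MaximalSpectrum S => n.1)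
    (fun _ _ => MaximalSpectrum.isCoprime_of_ne) fun n => z n i
  have un : ∀ s : S, (∀ n : MaximalSpectrum S, s ∉ n.1) → IsUnit s := fun s hs => by
    by_contra e
    obtain ⟨n, h1, h2⟩ := exists_max_ideal_of_mem_nonunits e
    exact hs ⟨n, h1⟩ h2
  have hy' := fun n => hz n y (funext fun i => hy i n)
  have u1 := un _ fun n => (hy' n).1
  refine ⟨y, u1, isUnit_of_mul_isUnit_left (y := qv Q y) ?_⟩
  have e : qv Q (refl Q y w - w') * qv Q y = qv Q (w - w') * qv Q y + bv Q w y * bv Q w' y := by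
    rw [qv_sub, qv_sub, qv_refl u1, bv_refl_left, bv_comm Q y w']
    linear_combination bv Q w y * bv Q w' y * Ring.inverse_mul_cancel _ u1
  exact e ▸ un _ fun n => (hy' n).2

theorem lift_vector {S S' : Type*} [CommRing S] [CommRing S'] (f : S →+* S')
    (hf : Function.Surjective f) [IsLocalHom f] [Finite (MaximalSpectrum S')]
    {Q : Matrix (Fin m) (Fin m) S} (hQ : Unim Q) (hm : 5 ≤ m) {w : Fin m → S}
    (hu : IsUnit (qv Q w)) {w' : Fin m → S'} (h : qv (Q.map f) w' = f (qv Q w)) :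
    ∃ w1, qv Q w1 = qv Q w ∧ f ∘ w1 = w' := by
  obtain ⟨z, h1, h2⟩ := exists_two_refl (hQ.map f) hm (w := f ∘ w) (w' := w')
    (by rw [h, qv_map]) (by rw [qv_map]; exact hu.map f)
  obtain ⟨z, rfl⟩ := hf.comp_left z
  obtain ⟨y, hy⟩ := hf.comp_left (refl (Q.map f) (f ∘ z) (f ∘ w) - w')
  have u1 : IsUnit (qv Q z) := IsUnit.of_map f _ (qv_map Q f z ▸ h1)
  have u2 : IsUnit (qv Q y) := IsUnit.of_map f _ (by rw [← qv_map, show f ∘ y = _ from hy]; exact h2)
  refine ⟨refl Q y (refl Q z w), by rw [qv_refl u2, qv_refl u1], ?_⟩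
  rw [refl_map f u2, refl_map f u1, show f ∘ y = _ from hy]
  exact refl_sub (by rw [qv_refl h1, h, qv_map]) h2

end Pool.Agent.P.MP_c1f06d_ag
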