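import Mathlib

namespace Pool.Agent.P.MP_c1f06d_ag

open IsLocalRing TensorProduct Module

/-- A module over a simple algebra that is at least as large as the algebra has a free element. -/
theorem exists_free_el {κ D N : Type*} [Field κ] [Ring D] [Algebra κ D] [FiniteDimensional κ D]
    [IsSimpleRing D] [AddCommGroup N] [Module κ N] [FiniteDimensional κ N]
    (φ : D →ₐ[κ] Module.End κ N) (h : finrank κ D ≤ finrank κ N) :
    ∃ x : N, ∀ d, φ d x = 0 → d = 0 := by
  letI : Module D N := Module.compHom N φ.toRingHom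
  have hs : ∀ (d : D) (x : N), d • x = φ d x := fun _ _ => rfl
  have : IsArtinianRing D := IsArtinianRing.of_finite κ D
  have : IsSemisimpleRing D := IsSimpleRing.isSemisimpleRing_iff_isArtinianRing.2 inferInstance
  let l : N → D →ₗ[κ] N := fun x => (LinearMap.applyₗ x).comp φ.toLinearMap
  have hl : ∀ x d, l x d = φ d x := fun _ _ => rfl
  obtain ⟨x, hx⟩ : ∃ x, ∀ y, finrank κ (LinearMap.ker (l x)) ≤ finrank κ (LinearMap.ker (l y)) :=
    ⟨_, fun y => Function.argmin_le (fun x => finrank κ (LinearMap.ker (l x))) y⟩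
  refine ⟨x, fun d hd => ?_⟩
  by_contra hne
  obtain ⟨N', hN'⟩ := exists_isCompl (Submodule.span D {x})
  have hker : ∀ y ∈ N', φ d y = 0 := by
    intro y hy
    have hle : LinearMap.ker (l (x + y)) ≤ LinearMap.ker (l x) := fun e he => by
      have h1 : e • x + e • y = 0 := by rw [← smul_add]; exact he
      exact (Submodule.disjoint_def.1 hN'.disjoint) (e • x)
        (Submodule.smul_mem _ _ (Submodule.mem_span_singleton_self x))
        (by rw [eq_neg_of_add_eq_zero_left h1]; exact N'.neg_mem (N'.smul_mem e hy))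
    have he := Submodule.eq_of_le_of_finrank_le hle (hx _)
    have h2 : d ∈ LinearMap.ker (l (x + y)) := he ▸ hd
    rwa [LinearMap.mem_ker, hl, map_add, hd, zero_add] at h2
  let I : TwoSidedIdeal D := TwoSidedIdeal.mk' {e | ∀ y ∈ N', e • y = 0} (fun y _ => zero_smul _ y)
    (fun {a b} ha hb y hy => by rw [add_smul, ha y hy, hb y hy, add_zero])
    (fun {a} ha y hy => by rw [neg_smul, ha y hy, neg_zero])
    (fun {a b} hb y hy => by rw [mul_smul, hb y hy, smul_zero])
    (fun {a b} ha y hy => by rw [mul_smul]; exact ha _ (N'.smul_mem b hy))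
  have h1 : (1 : D) ∈ I := IsSimpleRing.one_mem_of_ne_zero_mem I hne
    (by rw [TwoSidedIdeal.mem_mk']; exact hker)
  rw [TwoSidedIdeal.mem_mk'] at h1
  have hb : N' = ⊥ := eq_bot_iff.2 fun y hy => by simpa using h1 y hy
  have hsurj : Function.Surjective (l x) := fun y => by
    have : y ∈ Submodule.span D {x} := by
      have := hN'.sup_eq_top
      rw [hb, sup_bot_eq] at this
      rw [this]; trivial
    exact Submodule.mem_span_singleton.1 this
  have h3 := (l x).finrank_range_add_finrank_ker
  rw [LinearMap.range_eq_top.2 hsurj, finrank_top] at h3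
  have h4 : LinearMap.ker (l x) = ⊥ := Submodule.finrank_eq_zero.1 (by omega)
  exact hne ((Submodule.eq_bot_iff _).1 h4 d hd)

section Local
variable {R : Type*} [CommRing R] [IsLocalRing R]

theorem coker_free {M N P : Type*} [AddCommGroup M] [Module R M] [AddCommGroup N] [Module R N]
    [AddCommGroup P] [Module R P] [Module.Finite R M] [Module.Free R M] [Module.Finite R N]
    [Module.Free R N] (l : M →ₗ[R] N) (g : N →ₗ[R] P) (hg : Function.Surjective g)
    (h : Function.Exact l g) (hl : Function.Injective (l.lTensor (ResidueField R))) :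
    Function.Injective l ∧ Module.Free R P ∧ finrank R N = finrank R M + finrank R P := by
  have hP := Module.free_of_lTensor_residueField_injective l g hg h hl
  obtain ⟨l', hl'⟩ := (IsLocalRing.split_injective_iff_lTensor_residueField_injective l).2 hl
  have := Module.Finite.of_surjective g hg
  refine ⟨Function.LeftInverse.injective (g := l') (LinearMap.congr_fun hl'), hP, ?_⟩
  rw [(h.splitInjectiveEquiv hg ⟨l', hl'⟩).1.finrank_eq, finrank_prod]

variable {A : Type*} [Ring A] [Algebra R A] [Module.Finite R A] [Module.Free R A]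

omit [IsLocalRing R] [Module.Finite R A] [Module.Free R A] in
theorem rep_of_module [Nontrivial R] (M : Type*) [AddCommGroup M] [Module R M] [Module A M]
    [IsScalarTower R A M] [Module.Finite R M] [Module.Free R M] {n : ℕ} (h : finrank R M = n) :
    Nonempty (A →ₐ[R] Matrix (Fin n) (Fin n) R) :=
  ⟨(LinearMap.toMatrixAlgEquiv (Module.finBasisOfFinrankEq R M h)).toAlgHom.comp
    (Algebra.lsmul R R M)⟩

/-- The residue algebra of an Azumaya algebra is simple. -/
theorem simple_of_sandwich [Nontrivial A]
    (h : ∀ f : A →ₗ[R] A, ∃ (n : ℕ) (x y : Fin n → A), ∀ a, f a = ∑ i, x i * a * y i) :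
    IsSimpleRing (ResidueField R ⊗[R] A) := by
  have : Nontrivial (ResidueField R ⊗[R] A) := by
    rw [← not_subsingleton_iff_nontrivial, IsLocalRing.subsingleton_tensorProduct]
    exact not_subsingleton A
  refine IsSimpleRing.of_eq_bot_or_eq_top fun I => ?_
  rw [or_iff_not_imp_left, ← I.one_mem_iff]
  intro hI
  obtain ⟨d, hd, hd0⟩ := SetLike.exists_of_lt (bot_lt_iff_ne_bot.mpr hI : ⊥ < I)
  obtain ⟨a, rfl⟩ := TensorProduct.mk_surjective R A (ResidueField R) residue_surjective d
  let b := Module.Free.chooseBasis R A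
  obtain ⟨i, hi⟩ : ∃ i, IsUnit (b.repr a i) := by
    by_contra hn
    push Not at hn
    apply hd0
    rw [TwoSidedIdeal.mem_bot, ← b.sum_repr a, map_sum]
    refine Finset.sum_eq_zero fun i _ => ?_
    rw [map_smul, TensorProduct.mk_apply, TensorProduct.smul_tmul', Algebra.smul_def, mul_one,
      ResidueField.algebraMap_eq, (residue_eq_zero_iff _).2 (hn i), TensorProduct.zero_tmul]
  obtain ⟨u, hu⟩ := hi
  obtain ⟨n, x, y, e⟩ := h (((↑u⁻¹ : R) • b.coord i).smulRight 1)
  have e1 : (1 : A) = ∑ i, x i * a * y i := by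
    rw [← e a]; simp [← hu]
  have e2 : (1 : ResidueField R ⊗[R] A) =
      ∑ i, (1 ⊗ₜ x i) * TensorProduct.mk R (ResidueField R) A 1 a * (1 ⊗ₜ y i) := by
    simp only [TensorProduct.mk_apply, Algebra.TensorProduct.tmul_mul_tmul, mul_one,
      ← TensorProduct.tmul_sum, ← e1]
    rfl
  rw [e2]
  exact I.finsetSum_mem _ _ fun i _ => I.mul_mem_right _ _ (I.mul_mem_left _ _ hd)

omit [IsLocalRing R] [Module.Finite R A] [Module.Free R A] in
theorem sandwich_of_surjective (h : Function.Surjective (AlgHom.mulLeftRight R A)) (f : A →ₗ[R] A) :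
    ∃ (n : ℕ) (x y : Fin n → A), ∀ a, f a = ∑ i, x i * a * y i := by
  obtain ⟨t, rfl⟩ := h f
  obtain ⟨n, x, y, rfl⟩ := TensorProduct.exists_sum_tmul_eq t
  exact ⟨n, x, fun i => (y i).unop, fun a => by simp [map_sum, LinearMap.sum_apply]⟩

variable [IsSimpleRing (ResidueField R ⊗[R] A)]

theorem exists_bc_rep {R A : Type*} (κ M : Type*) [CommRing R] [Ring A] [Algebra R A] [CommRing κ]
    [Algebra R κ] [AddCommGroup M] [Module R M] [Module A M] [IsScalarTower R A M] :
    ∃ φ2 : κ ⊗[R] A →ₐ[κ] Module.End κ (κ ⊗[R] M), ∀ x d, φ2 d (1 ⊗ₜ x) =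
      ((LinearMap.toSpanSingleton A M x).restrictScalars R).lTensor κ d := by
  refine ⟨Algebra.TensorProduct.lift (Algebra.ofId _ _)
      ((Module.End.baseChangeHom R κ M).comp (Algebra.lsmul R R M))
      fun c a => Algebra.commute_algebraMap_left c _, fun x d => ?_⟩
  induction d with
  | zero => simp
  | add a b ha hb => rw [map_add, map_add, LinearMap.add_apply, ha, hb]
  | tmul c a =>
    change c • ((1 : κ) ⊗ₜ[R] (a • x)) = c ⊗ₜ[R] (a • x)
    rw [TensorProduct.smul_tmul', smul_eq_mul, mul_one]

theorem exists_quot_map {R A M : Type*} [CommRing R] [Ring A] [Algebra R A]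
    [AddCommGroup M] [Module R M] [Module A M] [IsScalarTower R A M] (x : M) :
    ∃ g : M →ₗ[R] M ⧸ Submodule.span A {x}, Function.Surjective g ∧
      Function.Exact ((LinearMap.toSpanSingleton A M x).restrictScalars R) g := by
  refine ⟨(Submodule.span A {x}).mkQ.restrictScalars R, fun y => ?_, fun y => ?_⟩
  · exact (Submodule.span A {x}).mkQ_surjective y
  · exact (Submodule.Quotient.mk_eq_zero (Submodule.span A {x})).trans Submodule.mem_span_singleton

theorem mod_step (M : Type*) [AddCommGroup M] [Module R M] [Module A M]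
    [IsScalarTower R A M] [Module.Finite R M] [Module.Free R M] {n : ℕ}
    (h : finrank R M = finrank R A + n) : Nonempty (A →ₐ[R] Matrix (Fin n) (Fin n) R) := by
  obtain ⟨φ2, hφ⟩ := exists_bc_rep (R := R) (A := A) (ResidueField R) M
  have h1 : finrank (ResidueField R) (ResidueField R ⊗[R] A) ≤
      finrank (ResidueField R) (ResidueField R ⊗[R] M) := by
    rw [Module.finrank_baseChange, Module.finrank_baseChange]; omega
  obtain ⟨x, hx⟩ := exists_free_el (κ := ResidueField R) (D := ResidueField R ⊗[R] A)
    (N := ResidueField R ⊗[R] M) φ2 h1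
  obtain ⟨x, rfl⟩ := TensorProduct.mk_surjective R M (ResidueField R) residue_surjective x
  obtain ⟨g, hg, he⟩ := exists_quot_map (R := R) (A := A) x
  have hi : Function.Injective
      (((LinearMap.toSpanSingleton A M x).restrictScalars R).lTensor (ResidueField R)) := by
    rw [injective_iff_map_eq_zero]
    intro d hd
    rw [← hφ] at hd
    exact hx d hd
  obtain ⟨-, hP, hr⟩ := coker_free _ _ hg he hi
  have : Module.Finite R (M ⧸ Submodule.span A {x}) := Module.Finite.of_surjective _ hg
  exact rep_of_module (M ⧸ Submodule.span A {x}) (by omega)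

theorem rep_step {n : ℕ} (φ : A →ₐ[R] Matrix (Fin (finrank R A + n)) (Fin (finrank R A + n)) R) :
    Nonempty (A →ₐ[R] Matrix (Fin n) (Fin n) R) := by
  let M := Fin (finrank R A + n) → R
  letI : Module A M := Module.compHom M
    ((Matrix.toLinAlgEquiv' (R := R) (n := Fin (finrank R A + n))).toAlgHom.toRingHom.comp
      φ.toRingHom)
  have hs : ∀ (a : A) (x : M), a • x = Matrix.mulVec (φ a) x := fun _ _ => rfl
  have : IsScalarTower R A M := ⟨fun r a x => by rw [hs, hs, map_smul, Matrix.smul_mulVec]⟩
  exact mod_step M (Module.finrank_fin_fun R)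

theorem rep_steps {n : ℕ} (k : ℕ) : ∀ N, N = n + k * finrank R A →
    (A →ₐ[R] Matrix (Fin N) (Fin N) R) → Nonempty (A →ₐ[R] Matrix (Fin n) (Fin n) R) := by
  induction k with
  | zero => rintro N h φ; obtain rfl : N = n := by omega
            exact ⟨φ⟩
  | succ k ih =>
    rintro N h φ
    obtain rfl : N = finrank R A + (n + k * finrank R A) := by rw [h]; ring
    obtain ⟨φ'⟩ := rep_step φ
    exact ih _ rfl φ'

/-- A representation of the right size is an isomorphism. -/
theorem rep_bijective {m : ℕ} (hm : finrank R A = m * m) (φ : A →ₐ[R] Matrix (Fin m) (Fin m) R) :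
    Function.Bijective φ := by
  have hpos : 0 < finrank (ResidueField R) (ResidueField R ⊗[R] A) := Module.finrank_pos
  rw [Module.finrank_baseChange, hm] at hpos
  have : Nonempty (Fin m) := ⟨⟨0, Nat.pos_of_mul_pos_left hpos⟩⟩
  have : Nontrivial (ResidueField R ⊗[R] Matrix (Fin m) (Fin m) R) := by
    rw [← not_subsingleton_iff_nontrivial, IsLocalRing.subsingleton_tensorProduct]
    exact not_subsingleton _
  have hi : Function.Injective (φ.toLinearMap.lTensor (ResidueField R)) :=
    (Algebra.TensorProduct.map (AlgHom.id R (ResidueField R)) φ).toRingHom.injective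
  obtain ⟨h1, hP, hr⟩ := coker_free φ.toLinearMap (LinearMap.range φ.toLinearMap).mkQ
    (Submodule.mkQ_surjective _) φ.toLinearMap.exact_map_mkQ_range hi
  refine ⟨h1, ?_⟩
  rw [Module.finrank_matrix, Module.finrank_self, Fintype.card_fin, hm] at hr
  have h0 : finrank R (Matrix (Fin m) (Fin m) R ⧸ LinearMap.range φ.toLinearMap) = 0 := by omega
  exact LinearMap.range_eq_top.1
    (Submodule.Quotient.subsingleton_iff.1 ((Module.finrank_eq_zero_iff_of_free R _).1 h0))

/-- A splitting over a free extension of rank `m k + 1` descends. -/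
theorem split_descent {m k : ℕ} (hm : finrank R A = m * m) {S : Type*} [CommRing S] [Algebra R S]
    [Module.Finite R S] [Module.Free R S] (hS : finrank R S = m * k + 1)
    (ψ : A →ₐ[R] Matrix (Fin m) (Fin m) S) : Nonempty (A ≃ₐ[R] Matrix (Fin m) (Fin m) R) := by
  let M := Fin m → S
  letI : Module A M := Module.compHom M
    ((Matrix.toLinAlgEquiv' (R := S) (n := Fin m)).toAlgHom.toRingHom.comp ψ.toRingHom)
  have hs : ∀ (a : A) (x : M), a • x = Matrix.mulVec (ψ a) x := fun _ _ => rfl
  have : IsScalarTower R A M := ⟨fun r a x => by rw [hs, hs, map_smul, Matrix.smul_mulVec]⟩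
  obtain ⟨φ⟩ := rep_of_module (R := R) (A := A) M rfl
  obtain ⟨φ'⟩ := rep_steps (n := m) k _ (by
    rw [Module.finrank_pi_fintype, Finset.sum_const, Finset.card_univ, Fintype.card_fin, hS, hm,
      smul_eq_mul]; ring) φ
  exact ⟨AlgEquiv.ofBijective φ' (rep_bijective hm φ')⟩

end Local

/-- Over a valuation ring, a representation over the fraction field has an invariant lattice. -/
theorem rep_of_fraction {O K A : Type*} [CommRing O] [IsDomain O] [ValuationRing O] [Field K]
    [Algebra O K] [IsFractionRing O K] [Ring A] [Algebra O A] [Module.Finite O A] {m : ℕ}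
    (ψ : A →ₐ[O] Matrix (Fin m) (Fin m) K) : Nonempty (A →ₐ[O] Matrix (Fin m) (Fin m) O) := by
  let M := Fin m → K
  letI : Module A M := Module.compHom M
    ((Matrix.toLinAlgEquiv' (R := K) (n := Fin m)).toAlgHom.toRingHom.comp ψ.toRingHom)
  have hs : ∀ (a : A) (x : M), a • x = Matrix.mulVec (ψ a) x := fun _ _ => rfl
  have : IsScalarTower O A M := ⟨fun r a x => by rw [hs, hs, map_smul, Matrix.smul_mulVec]⟩
  let L : Submodule A M := Submodule.span A (Set.range (Pi.basisFun K (Fin m)))
  have : Module.Finite A L := Module.Finite.span_of_finite A (Set.finite_range _)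
  have : Module.Finite O L := Module.Finite.trans A L
  have : Module.IsTorsionFree O L := Function.Injective.moduleIsTorsionFree
    (fun x : L => (x : M)) Subtype.val_injective fun _ _ => rfl
  have : Module.Flat O L := (Module.Flat.flat_iff_torsion_eq_bot_of_isBezout).2
    (Submodule.isTorsionFree_iff_torsion_eq_bot.1 inferInstance)
  have : Module.Free O L := Module.free_of_flat_of_isLocalRing
  refine rep_of_module L (le_antisymm ?_ ?_)
  · have h1 : Module.rank O L ≤ Module.rank O M :=
      (L.subtype.restrictScalars O).rank_le_of_injective Subtype.val_injective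
    rw [← IsLocalization.rank_eq K (N := M) (nonZeroDivisors O) le_rfl, rank_fin_fun] at h1
    exact Module.finrank_le_of_rank_le h1
  · have h2 : LinearIndependent O fun i : Fin m =>
        (⟨Pi.basisFun K (Fin m) i, Submodule.subset_span ⟨i, rfl⟩⟩ : L) :=
      LinearIndependent.of_comp (L.subtype.restrictScalars O)
        ((Pi.basisFun K (Fin m)).linearIndependent.restrict_scalars' O)
    simpa using h2.fintype_card_le_finrank

end Pool.Agent.P.MP_c1f06d_ag
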