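import Pool.Agent.P.MP_c1f06d_ag.QSn

open Matrix Polynomial

universe u

namespace Pool.Agent.P.MP_c1f06d_ag

/-- `O` is a localisation of `B / (G)`, through `π`. -/
structure LocPres {B O : Type*} [CommRing B] [CommRing O] (π : B →+* O) (G : B) : Prop where
  map_G : π G = 0
  surj : ∀ r, ∃ a s, IsUnit (π s) ∧ r * π s = π a
  ker : ∀ a, π a = 0 → ∃ s, IsUnit (π s) ∧ G ∣ s * a

/-- `R` is a local ring of the standard etale algebra `V[x][Y] / (G)`, over the closed point. -/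
structure Pres {V R : Type*} [CommRing V] [CommRing R] {d : ℕ}
    (π : (MvPolynomial (Fin d) V)[X] →+* R) (G : (MvPolynomial (Fin d) V)[X]) : Prop where
  lp : LocPres π G
  monic : G.Monic
  deriv : IsUnit (π (derivative G))
  loc : ∀ v, IsUnit (π (C (MvPolynomial.C v))) → IsUnit v

variable {m : ℕ} {B O : Type*} [CommRing B] [CommRing O] {π : B →+* O} {G : B}

theorem spread_den (h : LocPres π G) {ι : Type*} [Fintype ι] (r : ι → O) :
    ∃ (a : ι → B) (s : B), IsUnit (π s) ∧ ∀ i, r i * π s = π (a i) := by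
  classical
  choose a s hs hr using fun i => h.surj (r i)
  refine ⟨fun i => a i * ∏ j ∈ Finset.univ.erase i, s j, ∏ j, s j, ?_, fun i => ?_⟩
  · rw [map_prod]
    exact IsUnit.prod_iff.2 fun j _ => hs j
  · rw [← Finset.mul_prod_erase Finset.univ s (Finset.mem_univ i), map_mul, map_mul, ← mul_assoc,
      hr]

theorem spread_ker (h : LocPres π G) {ι : Type*} [Fintype ι] (e : ι → B) (he : ∀ i, π (e i) = 0) :
    ∃ s : B, IsUnit (π s) ∧ ∀ i, G ∣ s * e i := by
  classical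
  choose s hs hd using fun i => h.ker (e i) (he i)
  refine ⟨∏ j, s j, ?_, fun i => ?_⟩
  · rw [map_prod]
    exact IsUnit.prod_iff.2 fun j _ => hs j
  · rw [← Finset.prod_erase_mul Finset.univ s (Finset.mem_univ i), mul_assoc]
    exact Dvd.dvd.mul_left (hd i) _

theorem spread_zero {S : Type*} [CommRing S] (ψ : B →+* S) (hG : ψ G = 0) {s e : B}
    (hs : IsUnit (ψ s)) (hd : G ∣ s * e) : ψ e = 0 := by
  obtain ⟨c, hc⟩ := hd
  have h1 := congrArg ψ hc
  rw [map_mul, map_mul, hG, zero_mul] at h1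
  exact hs.mul_right_eq_zero.1 h1

theorem spread_carries_map_iff {S : Type*} [CommRing S] (ψ : B →+* S)
    (g Q Q' : Matrix (Fin m) (Fin m) B) :
    Carries (g.map ψ) (Q.map ψ) (Q'.map ψ) ↔
      (∀ i, ψ ((gᵀ * Q' * g) i i - Q i i) = 0) ∧
        ∀ i j, ψ ((gᵀ * Q' * g + (gᵀ * Q' * g)ᵀ) i j - (Q + Qᵀ) i j) = 0 := by
  have e : (g.map ψ)ᵀ * Q'.map ψ * g.map ψ = (gᵀ * Q' * g).map ψ := by
    rw [Matrix.map_mul, Matrix.map_mul, transpose_map]
  rw [carries_iff, e, polar_map, polar_map, ← Matrix.ext_iff]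
  simp only [Matrix.map_apply, map_sub, sub_eq_zero]

theorem spread_carries (h : LocPres π G) {g Q Q' : Matrix (Fin m) (Fin m) B}
    (hc : Carries (g.map π) (Q.map π) (Q'.map π)) :
    ∃ F, IsUnit (π F) ∧ ∀ (S : Type u) [CommRing S] (ψ : B →+* S), ψ G = 0 → IsUnit (ψ F) →
      Carries (g.map ψ) (Q.map ψ) (Q'.map ψ) := by
  obtain ⟨h1, h2⟩ := (spread_carries_map_iff π g Q Q').1 hc
  obtain ⟨s, hs, hd⟩ := spread_ker h _ h1
  obtain ⟨t, ht, hd'⟩ := spread_ker h
    (fun p : Fin m × Fin m => (gᵀ * Q' * g + (gᵀ * Q' * g)ᵀ) p.1 p.2 - (Q + Qᵀ) p.1 p.2)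
    (fun p => h2 p.1 p.2)
  refine ⟨s * t, by rw [map_mul]; exact hs.mul ht, fun S _ ψ hG hF => ?_⟩
  rw [map_mul] at hF
  exact (spread_carries_map_iff ψ g Q Q').2
    ⟨fun i => spread_zero ψ hG (isUnit_of_mul_isUnit_left hF) (hd i),
      fun i j => spread_zero ψ hG (isUnit_of_mul_isUnit_right hF) (hd' (i, j))⟩

theorem spread_map_smul {S : Type*} [CommRing S] (ψ : B →+* S) (a : B)
    (Q : Matrix (Fin m) (Fin m) B) : (a • Q).map ψ = ψ a • Q.map ψ := by
  ext i j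
  simp

theorem spread_list (h : LocPres π G) (Q : Matrix (Fin m) (Fin m) B) (l : List (Fin m → O)) :
    ∃ P s : B, IsUnit (π s) ∧ π P = π s ^ 2 * (l.map (qv (Q.map π))).prod ∧
      ∀ (S : Type u) [CommRing S] (ψ : B →+* S), IsUnit (ψ s) →
        ∃ l' : List (Fin m → S), l'.length = l.length ∧
          ψ P = ψ s ^ 2 * (l'.map (qv (Q.map ψ))).prod := by
  induction l with
  | nil => exact ⟨1, 1, by simp, by simp, fun S _ ψ _ => ⟨[], rfl, by simp⟩⟩
  | cons x l ih =>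
    obtain ⟨P, s, hs, hP, hS⟩ := ih
    obtain ⟨a, t, ht, ha⟩ := spread_den h x
    have e : π ∘ a = π t • x := by
      funext i
      simp only [Function.comp_apply, Pi.smul_apply, smul_eq_mul, ← ha i, mul_comm]
    refine ⟨qv Q a * P, t * s, by rw [map_mul]; exact ht.mul hs, ?_, fun S _ ψ hF => ?_⟩
    · rw [map_mul, map_mul, hP, ← qv_map, e, qv_smul, List.map_cons, List.prod_cons]
      ring
    · rw [map_mul] at hF
      obtain ⟨l', hl', hP'⟩ := hS S ψ (isUnit_of_mul_isUnit_right hF)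
      obtain ⟨w, hw⟩ := isUnit_of_mul_isUnit_left hF
      refine ⟨((↑w⁻¹ : S) • (ψ ∘ a)) :: l', by simp [hl'], ?_⟩
      rw [map_mul, map_mul, hP', List.map_cons, List.prod_cons, qv_smul, qv_map, ← hw]
      have hw1 : (w : S) * ↑w⁻¹ = 1 := w.mul_inv
      linear_combination
        (-(ψ (qv Q a) * ψ s ^ 2 * (l'.map (qv (Q.map ψ))).prod * ((w : S) * ↑w⁻¹ + 1))) * hw1

theorem LocPres.localization (h : LocPres π G) (M : Submonoid O) (O' : Type*) [CommRing O']
    [Algebra O O'] [IsLocalization M O'] : LocPres ((algebraMap O O').comp π) G := by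
  refine ⟨by simp [h.map_G], fun r => ?_, fun a ha => ?_⟩
  · obtain ⟨⟨x, y⟩, hxy⟩ := IsLocalization.surj M r
    obtain ⟨a, s, hs, ha⟩ := h.surj x
    obtain ⟨a', s', hs', ha'⟩ := h.surj (y : O)
    refine ⟨a * s', a' * s, ?_, ?_⟩
    · rw [RingHom.comp_apply, map_mul, ← ha', map_mul, map_mul]
      exact ((IsLocalization.map_units O' y).mul (hs'.map _)).mul (hs.map _)
    · simp only [RingHom.comp_apply, map_mul, ← ha, ← ha'] at hxy ⊢
      rw [← hxy]
      ring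
  · obtain ⟨y, hy⟩ := (IsLocalization.map_eq_zero_iff M O' (π a)).1 ha
    obtain ⟨a', s', hs', ha'⟩ := h.surj (y : O)
    obtain ⟨s, hs, hd⟩ := h.ker (a' * a) (by rw [map_mul, ← ha', mul_right_comm, hy, zero_mul])
    refine ⟨s * a', ?_, by rwa [mul_assoc]⟩
    rw [RingHom.comp_apply, map_mul, ← ha', map_mul, map_mul]
    exact (hs.map _).mul ((IsLocalization.map_units O' y).mul (hs'.map _))

theorem locPres_of_isLocalization (M : Submonoid B) [Algebra B O] [IsLocalization M O] :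
    LocPres (algebraMap B O) 0 := by
  refine ⟨map_zero _, fun r => ?_, fun a ha => ?_⟩
  · obtain ⟨⟨x, y⟩, hxy⟩ := IsLocalization.surj M r
    exact ⟨x, y, IsLocalization.map_units O y, hxy⟩
  · obtain ⟨y, hy⟩ := (IsLocalization.map_eq_zero_iff M O a).1 ha
    exact ⟨y, IsLocalization.map_units O y, by rw [hy]⟩

theorem LocPres.exists_mat (h : LocPres π G) (Q : Matrix (Fin m) (Fin m) O) :
    ∃ (Q0 : Matrix (Fin m) (Fin m) B) (s : O), IsUnit s ∧ Q0.map π = s ^ 2 • Q := by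
  obtain ⟨a, s, hs, ha⟩ := spread_den h (fun p : Fin m × Fin m => Q p.1 p.2)
  refine ⟨Matrix.of fun i j => a (i, j) * s, π s, hs, ?_⟩
  ext i j
  simp only [Matrix.map_apply, Matrix.of_apply, map_mul, Matrix.smul_apply, smul_eq_mul,
    ← ha (i, j)]
  ring

theorem LocPres.exists_sq (h : LocPres π G) (a : O) :
    ∃ (a0 : B) (s : O), IsUnit s ∧ π a0 = s ^ 2 * a := by
  obtain ⟨b, s, hs, hb⟩ := h.surj a
  exact ⟨b * s, π s, hs, by rw [map_mul, ← hb]; ring⟩

theorem LocPres.spread_iso (h : LocPres π G) {Q Q' : Matrix (Fin m) (Fin m) B}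
    (hi : Iso (Q.map π) (Q'.map π)) :
    ∃ F, IsUnit (π F) ∧ ∀ (S : Type u) [CommRing S] (ψ : B →+* S), ψ G = 0 → IsUnit (ψ F) →
      Iso (Q.map ψ) (Q'.map ψ) := by
  obtain ⟨g, hg⟩ := hi
  obtain ⟨a, s, hs, ha⟩ := spread_den h (fun p : Fin m × Fin m => g p.1 p.2)
  have e : (Matrix.of fun i j => a (i, j) : Matrix (Fin m) (Fin m) B).map π = π s • g := by
    ext i j
    simp only [Matrix.map_apply, Matrix.of_apply, Matrix.smul_apply, smul_eq_mul, ← ha (i, j),
      mul_comm]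
  have hc : Carries ((Matrix.of fun i j => a (i, j) : Matrix (Fin m) (Fin m) B).map π)
      ((s ^ 2 • Q).map π) (Q'.map π) := fun x => by
    rw [e, smul_mulVec, qv_smul, hg, spread_map_smul, qv_smul_mat, map_pow]
  obtain ⟨F, hF, hS⟩ := spread_carries h hc
  refine ⟨s * F, by rw [map_mul]; exact hs.mul hF, fun S _ ψ hG hu => ?_⟩
  rw [map_mul] at hu
  have h1 := hS S ψ hG (isUnit_of_mul_isUnit_right hu)
  obtain ⟨w, hw⟩ := isUnit_of_mul_isUnit_left hu
  refine Iso.trans ⟨(↑w⁻¹ : S) • 1, fun x => ?_⟩ ⟨_, h1⟩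
  rw [smul_mulVec, one_mulVec, qv_smul, spread_map_smul, qv_smul_mat, map_pow, ← hw, ← mul_assoc,
    ← mul_pow, Units.inv_mul, one_pow, one_mul]

theorem LocPres.spread_sn (h : LocPres π G) {Q : Matrix (Fin m) (Fin m) B} {a : B}
    (hs : Sn (Q.map π) (π a)) :
    ∃ F, IsUnit (π F) ∧ ∀ (S : Type u) [CommRing S] (ψ : B →+* S), ψ G = 0 → IsUnit (ψ F) →
      Sn (Q.map ψ) (ψ a) := by
  obtain ⟨l, hl, ha⟩ := hs
  obtain ⟨P, s, hu, hP, hS⟩ := spread_list h Q l
  obtain ⟨t, ht, hd⟩ := h.ker (P - s ^ 2 * a) (by rw [map_sub, map_mul, map_pow, hP, ha, sub_self])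
  refine ⟨s * t, by rw [map_mul]; exact hu.mul ht, fun S _ ψ hG hF => ?_⟩
  rw [map_mul] at hF
  have hs' := isUnit_of_mul_isUnit_left hF
  obtain ⟨l', hl', hP'⟩ := hS S ψ hs'
  have h0 := spread_zero ψ hG (isUnit_of_mul_isUnit_right hF) hd
  rw [map_sub, map_mul, map_pow, hP', sub_eq_zero] at h0
  exact ⟨l', by rwa [hl'], ((hs'.pow 2).mul_left_cancel h0).symm⟩

end Pool.Agent.P.MP_c1f06d_ag
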