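import Mathlib

open Matrix CliffordAlgebra

universe u

namespace Pool.Agent.P.MP_c1f06d_ag

section
variable {T M : Type u} [CommRing T] [AddCommGroup M] [Module T M]

/-- `x * reverse x = 1 = reverse x * x`. -/
def NormOne (q : QuadraticForm T M) (x : CliffordAlgebra q) : Prop :=
  x * reverse x = 1 ∧ reverse x * x = 1

/-- `x v = w x` in the Clifford algebra, for vectors `v` and `w`. -/
def Moves (q : QuadraticForm T M) (x : CliffordAlgebra q) (v w : M) : Prop :=
  x * ι q v = ι q w * x

/-- `x` is even, of norm one, and `x M x⁻¹ = M`. -/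
def InSpin (q : QuadraticForm T M) (x : CliffordAlgebra q) : Prop :=
  x ∈ even q ∧ NormOne q x ∧ (∀ v, ∃ w, Moves q x v w) ∧ ∀ w, ∃ v, Moves q x v w

end

variable {R : Type u} [CommRing R] {m : ℕ}

/-- The quadratic form `x ↦ xᵀ Q x` on `T ^ m`, for an `R`-algebra `T`. -/
noncomputable def formOver (Q : Matrix (Fin m) (Fin m) R) (T : Type u) [CommRing T] [Algebra R T] :
    QuadraticForm T (Fin m → T) :=
  (Q.map (algebraMap R T)).toQuadraticForm'

/-- The Clifford algebra of the form over `T`. -/
abbrev Cl (Q : Matrix (Fin m) (Fin m) R) (T : Type u) [CommRing T] [Algebra R T] : Type u :=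
  CliffordAlgebra (formOver Q T)

/-- A vector as an element of the Clifford algebra. -/
noncomputable def vec (Q : Matrix (Fin m) (Fin m) R) (T : Type u) [CommRing T] [Algebra R T]
    (v : Fin m → T) : Cl Q T :=
  ι (formOver Q T) v

/-- `φ` is the base change map along `f`: it is `f` on scalars and on coordinates of vectors. -/
def IsBaseChangeMap (Q : Matrix (Fin m) (Fin m) R) {T T' : Type u} [CommRing T] [Algebra R T]
    [CommRing T'] [Algebra R T'] (f : T →ₐ[R] T') (φ : Cl Q T →+* Cl Q T') : Prop :=
  (∀ c, φ (algebraMap T (Cl Q T) c) = algebraMap T' (Cl Q T') (f c)) ∧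
    ∀ v, φ (vec Q T v) = vec Q T' (f ∘ v)

/-- The points of `Spin(q)` with values in `T`. -/
structure SpinPt (Q : Matrix (Fin m) (Fin m) R) (T : Type u) [CommRing T] [Algebra R T] where
  val : Cl Q T
  inSpin : InSpin (formOver Q T) val

/-- A family of maps `Spin(q)(T) × E(T) → E(T)`, one for every `R`-algebra `T`. -/
def PtAction (Q : Matrix (Fin m) (Fin m) R) (E : Type u) [CommRing E] [Algebra R E] :
    Type (u + 1) :=
  ∀ (T : Type u) [CommRing T] [Algebra R T], SpinPt Q T → (E →ₐ[R] T) → (E →ₐ[R] T)

variable {Q : Matrix (Fin m) (Fin m) R} {E : Type u} [CommRing E] [Algebra R E]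

/-- The unit acts trivially and products act by composition. -/
def PtAction.IsAction (act : PtAction Q E) : Prop :=
  ∀ (T : Type u) [CommRing T] [Algebra R T] (e : E →ₐ[R] T),
    (∀ x : SpinPt Q T, x.val = 1 → act T x e = e) ∧
    ∀ x y z : SpinPt Q T, z.val = x.val * y.val → act T z e = act T x (act T y e)

/-- The action commutes with maps of `R`-algebras and the induced maps of Clifford algebras. -/
def PtAction.IsNatural (act : PtAction Q E) : Prop :=
  ∀ (T T' : Type u) [CommRing T] [Algebra R T] [CommRing T'] [Algebra R T']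
    (f : T →ₐ[R] T') (φ : Cl Q T →+* Cl Q T'), IsBaseChangeMap Q f φ →
    ∀ (x : SpinPt Q T) (x' : SpinPt Q T') (e : E →ₐ[R] T),
      φ x.val = x'.val → f.comp (act T x e) = act T' x' (f.comp e)

/-- Exactly one group element moves a given point to a given point. -/
def PtAction.IsSimplyTransitive (act : PtAction Q E) : Prop :=
  ∀ (T : Type u) [CommRing T] [Algebra R T] (e e' : E →ₐ[R] T), ∃! x : SpinPt Q T, act T x e = e'

/-- `Spec E` is a torsor under `Spin(q)`: it is faithfully flat over `R`, and `Spin(q)(T)` acts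
simply transitively on `E(T)`, naturally in the `R`-algebra `T`. -/
def IsSpinTorsor (Q : Matrix (Fin m) (Fin m) R) (E : Type u) [CommRing E] [Algebra R E] : Prop :=
  Module.FaithfullyFlat R E ∧
    ∃ act : PtAction Q E, act.IsAction ∧ act.IsNatural ∧ act.IsSimplyTransitive

end Pool.Agent.P.MP_c1f06d_ag
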