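import Pool.Agent.P.MP_c1f06d_ag.Cliff
import Pool.Agent.P.MP_c1f06d_ag.RX

open Matrix Polynomial

universe u

namespace Pool.Agent.P.MP_c1f06d_ag

open CliffordAlgebra IsLocalRing

variable {R : Type u} [CommRing R] {m : ℕ} {Q : Matrix (Fin m) (Fin m) R}
variable {E : Type u} [CommRing E] [Algebra R E]
variable {T T' : Type u} [CommRing T] [Algebra R T] [CommRing T'] [Algebra R T']

theorem exists_local_cover (R E : Type u) [CommRing R] [IsLocalRing R] [CommRing E] [Algebra R E]
    [Module.FaithfullyFlat R E] :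
    ∃ (S : Type u) (_ : CommRing S) (_ : IsLocalRing S) (_ : Algebra R S),
      Module.FaithfullyFlat R S ∧ Infinite (ResidueField S) ∧ Nonempty (E →ₐ[R] S) := by
  obtain ⟨n, hn, hn'⟩ := Ideal.exists_isPrime_liesOver_of_faithfullyFlat (B := E) (maximalIdeal R)
  let S1 := Localization.AtPrime n
  have hflat : Module.Flat R S1 := Module.Flat.trans R E S1
  have hloc : IsLocalHom (algebraMap R S1) := by
    refine ⟨fun a ha => ?_⟩
    by_contra hna
    have h1 : a ∈ maximalIdeal R := hna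
    rw [hn'.over, Ideal.under, Ideal.mem_comap] at h1
    rw [IsScalarTower.algebraMap_apply R E S1, IsLocalization.AtPrime.isUnit_to_map_iff S1 n] at ha
    exact ha h1
  have hff : Module.FaithfullyFlat R S1 := Module.FaithfullyFlat.of_flat_of_isLocalHom
  have hff2 : Module.FaithfullyFlat S1 (RX S1) := faithfullyFlat_RX S1
  refine ⟨RX S1, inferInstance, inferInstance, inferInstance,
    Module.FaithfullyFlat.trans R S1 (RX S1), infinite_residueField_RX S1, ⟨?_⟩⟩
  exact (IsScalarTower.toAlgHom R S1 (RX S1)).comp (IsScalarTower.toAlgHom R E S1)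

/-- The element of `Spin` that moves `e` to `e'`. -/
noncomputable def SpinAction.gam (τ : SpinAction Q E) (e e' : E →ₐ[R] T) : Spin Q T :=
  (τ.simply_transitive T e e').exists.choose

/-- Its matrix. -/
noncomputable def SpinAction.gmat (τ : SpinAction Q E) (e e' : E →ₐ[R] T) :
    Matrix (Fin m) (Fin m) T :=
  (spin_ind (τ.gam e e')).choose

variable (τ : SpinAction Q E)

theorem SpinAction.act_gam (e e' : E →ₐ[R] T) : τ.act T (τ.gam e e') e = e' :=
  (τ.simply_transitive T e e').exists.choose_spec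

theorem SpinAction.gam_eq {e e' : E →ₐ[R] T} {x : Spin Q T} (h : τ.act T x e = e') :
    τ.gam e e' = x :=
  (τ.simply_transitive T e e').unique (τ.act_gam e e') h

theorem SpinAction.gam_self (e : E →ₐ[R] T) : τ.gam e e = 1 := τ.gam_eq (τ.act_one T e)

theorem SpinAction.gam_mul (e e' e'' : E →ₐ[R] T) : τ.gam e' e'' * τ.gam e e' = τ.gam e e'' :=
  (τ.gam_eq (by rw [τ.act_mul, τ.act_gam, τ.act_gam])).symm

theorem SpinAction.gam_map (hQ : Unim Q) (f : T →ₐ[R] T') (e e' : E →ₐ[R] T) :
    clMap Q f (τ.gam e e').val.val = (τ.gam (f.comp e) (f.comp e')).val.val := by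
  obtain ⟨x', hx'⟩ := exists_spin_map hQ f (τ.gam e e')
  have h := τ.natural T T' f _ (isBaseChangeMap_clMap Q f) _ x' e hx'
  rw [τ.act_gam] at h
  rw [hx', τ.gam_eq h.symm]

theorem SpinAction.gmat_ind (e e' : E →ₐ[R] T) : Ind Q (τ.gam e e').val.val (τ.gmat e e') :=
  (spin_ind (τ.gam e e')).choose_spec.1

theorem SpinAction.gmat_carries (e e' : E →ₐ[R] T) :
    Carries (τ.gmat e e') (Q.map (algebraMap R T)) (Q.map (algebraMap R T)) :=
  (spin_ind (τ.gam e e')).choose_spec.2

theorem SpinAction.gmat_self (e : E →ₐ[R] T) : τ.gmat e e = 1 := by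
  have h := τ.gmat_ind e e
  rw [τ.gam_self] at h
  exact Ind.unique isUnit_one h ind_one

theorem SpinAction.gmat_mul (e e' e'' : E →ₐ[R] T) :
    τ.gmat e' e'' * τ.gmat e e' = τ.gmat e e'' := by
  have h := (τ.gmat_ind e' e'').mul (τ.gmat_ind e e')
  have h2 := τ.gmat_ind e e''
  rw [← τ.gam_mul e e' e''] at h2
  exact Ind.unique (Units.isUnit _) h h2

theorem SpinAction.gmat_map (hQ : Unim Q) (f : T →ₐ[R] T') (e e' : E →ₐ[R] T) :
    (τ.gmat e e').map f = τ.gmat (f.comp e) (f.comp e') := by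
  have h := (τ.gmat_ind e e').map f
  rw [τ.gam_map hQ] at h
  exact Ind.unique (Units.isUnit _) h (τ.gmat_ind _ _)

end Pool.Agent.P.MP_c1f06d_ag
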