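import Pool.Agent.P.MP_c1f06d_ag.Tors1
import Pool.Agent.P.MP_c1f06d_ag.H90

open Matrix Polynomial

universe u

namespace Pool.Agent.P.MP_c1f06d_ag

open CliffordAlgebra IsLocalRing TensorProduct

variable {R : Type u} [CommRing R] {m : ℕ} {Q : Matrix (Fin m) (Fin m) R}
variable {E : Type u} [CommRing E] [Algebra R E]
variable {S : Type u} [CommRing S] [Algebra R S]
variable {K : Type u} [Field K] [Algebra R K]

theorem desc_field [Nontrivial (K ⊗[R] S)] (x : K ⊗[R] S)
    (hx : ∀ (T : Type u) [CommRing T] [Algebra R T] (a b : K ⊗[R] S →ₐ[R] T),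
      a.comp (Algebra.TensorProduct.includeLeft : K →ₐ[R] K ⊗[R] S) =
        b.comp (Algebra.TensorProduct.includeLeft : K →ₐ[R] K ⊗[R] S) → a x = b x) :
    ∃ k, (Algebra.TensorProduct.includeLeft : K →ₐ[R] K ⊗[R] S) k = x := by
  have h := hx ((K ⊗[R] S) ⊗[K] (K ⊗[R] S)) Algebra.TensorProduct.includeLeft
    ((Algebra.TensorProduct.includeRight :
      K ⊗[R] S →ₐ[K] (K ⊗[R] S) ⊗[K] (K ⊗[R] S)).restrictScalars R) (by
      apply AlgHom.ext
      intro k
      change (algebraMap K (K ⊗[R] S) k) ⊗ₜ[K] (1 : K ⊗[R] S) =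
        (1 : K ⊗[R] S) ⊗ₜ[K] (algebraMap K (K ⊗[R] S) k)
      rw [Algebra.algebraMap_eq_smul_one, smul_tmul])
  exact mem_range_of_includeLeft_eq (R := K) x h

theorem desc_base [Module.FaithfullyFlat R S] (x : S)
    (hx : ∀ (T : Type u) [CommRing T] [Algebra R T] (a b : S →ₐ[R] T), a x = b x) :
    ∃ r, algebraMap R S r = x :=
  mem_range_of_includeLeft_eq x
    (hx (S ⊗[R] S) Algebra.TensorProduct.includeLeft Algebra.TensorProduct.includeRight)

theorem map_map_algHom {T T' T'' : Type u} [CommRing T] [Algebra R T] [CommRing T'] [Algebra R T']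
    [CommRing T''] [Algebra R T''] (h : Matrix (Fin m) (Fin m) T) (a : T →ₐ[R] T')
    (b : T' →ₐ[R] T'') : (h.map a).map b = h.map (b.comp a) := rfl

theorem map_mul_algHom {T T' : Type u} [CommRing T] [Algebra R T] [CommRing T'] [Algebra R T']
    (h k : Matrix (Fin m) (Fin m) T) (a : T →ₐ[R] T') : (h * k).map a = h.map a * k.map a :=
  Matrix.map_mul

theorem map_algebraMap_algHom {T T' : Type u} [CommRing T] [Algebra R T] [CommRing T']
    [Algebra R T'] (h : Matrix (Fin m) (Fin m) R) (a : T →ₐ[R] T') :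
    (h.map (algebraMap R T)).map a = h.map (algebraMap R T') := by
  ext i j; simp

theorem Carries.mapAlg {T T' : Type u} [CommRing T] [Algebra R T] [CommRing T'] [Algebra R T']
    {g : Matrix (Fin m) (Fin m) T} {Q1 Q2 : Matrix (Fin m) (Fin m) R}
    (h : Carries g (Q1.map (algebraMap R T)) (Q2.map (algebraMap R T))) (a : T →ₐ[R] T') :
    Carries (g.map a) (Q1.map (algebraMap R T')) (Q2.map (algebraMap R T')) := by
  rw [← map_algebraMap_algHom Q1 a, ← map_algebraMap_algHom Q2 a]
  exact h.map a.toRingHom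

theorem Carries.of_mapAlg {T T' : Type u} [CommRing T] [Algebra R T] [CommRing T'] [Algebra R T']
    {g : Matrix (Fin m) (Fin m) T} {Q1 Q2 : Matrix (Fin m) (Fin m) R} (a : T →ₐ[R] T')
    (ha : Function.Injective a)
    (h : Carries (g.map a) (Q1.map (algebraMap R T')) (Q2.map (algebraMap R T'))) :
    Carries g (Q1.map (algebraMap R T)) (Q2.map (algebraMap R T)) := by
  rw [← map_algebraMap_algHom Q1 a, ← map_algebraMap_algHom Q2 a] at h
  exact Carries.of_map a.toRingHom ha h

/-- A matrix over `S` that trivialises the cocycle descends, at a `K`-point, to `K`. -/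
theorem SpinAction.descend_mat (τ : SpinAction Q E) (hQ : Unim Q) [Nontrivial (K ⊗[R] S)]
    (e : E →ₐ[R] S) (eK : E →ₐ[R] K) (h : Matrix (Fin m) (Fin m) S)
    (hh : ∀ (T : Type u) [CommRing T] [Algebra R T] (a b : S →ₐ[R] T),
      τ.gmat (a.comp e) (b.comp e) * h.map a = h.map b) :
    ∃ hK : Matrix (Fin m) (Fin m) K,
      hK.map (Algebra.TensorProduct.includeLeft : K →ₐ[R] K ⊗[R] S) =
        τ.gmat ((Algebra.TensorProduct.includeRight : S →ₐ[R] K ⊗[R] S).comp e)
          ((Algebra.TensorProduct.includeLeft : K →ₐ[R] K ⊗[R] S).comp eK) *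
        h.map (Algebra.TensorProduct.includeRight : S →ₐ[R] K ⊗[R] S) := by
  set j : K →ₐ[R] K ⊗[R] S := Algebra.TensorProduct.includeLeft with hj
  set r : S →ₐ[R] K ⊗[R] S := Algebra.TensorProduct.includeRight with hr
  have key : ∀ i k, ∃ c, j c = (τ.gmat (r.comp e) (j.comp eK) * h.map r) i k := by
    intro i k
    refine desc_field _ fun T _ _ a b hab => ?_
    have e1 : ∀ a : K ⊗[R] S →ₐ[R] T, (τ.gmat (r.comp e) (j.comp eK) * h.map r).map a =
        τ.gmat ((a.comp r).comp e) ((a.comp j).comp eK) * h.map (a.comp r) := by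
      intro a
      rw [map_mul_algHom, τ.gmat_map hQ, map_map_algHom]; rfl
    have e2 : (τ.gmat (r.comp e) (j.comp eK) * h.map r).map a =
        (τ.gmat (r.comp e) (j.comp eK) * h.map r).map b := by
      rw [e1, e1, ← hh T (a.comp r) (b.comp r), ← Matrix.mul_assoc, τ.gmat_mul, hab]
    exact congrFun (congrFun e2 i) k
  choose c hc using key
  exact ⟨Matrix.of c, Matrix.ext fun i k => hc i k⟩

theorem isLocalHom_of_faithfullyFlat [IsLocalRing R] [Module.FaithfullyFlat R S] :
    IsLocalHom (algebraMap R S) := by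
  refine ⟨fun a ha => ?_⟩
  by_contra hna
  obtain ⟨n, hn, hn'⟩ := Ideal.exists_isPrime_liesOver_of_faithfullyFlat (B := S) (maximalIdeal R)
  have h1 : a ∈ maximalIdeal R := hna
  rw [hn'.over, Ideal.under, Ideal.mem_comap] at h1
  exact hn.ne_top (n.eq_top_of_isUnit_mem h1 ha)

/-- A form over `S` with equal pull-backs comes from `R`. -/
theorem desc_form [Module.FaithfullyFlat R S] (M : Matrix (Fin m) (Fin m) S)
    (hM : ∀ (T : Type u) [CommRing T] [Algebra R T] (a b : S →ₐ[R] T) (x : Fin m → T),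
      qv (M.map a) x = qv (M.map b) x) :
    ∃ Q' : Matrix (Fin m) (Fin m) R, ∀ x, qv M x = qv (Q'.map (algebraMap R S)) x := by
  have h1 : ∀ i, ∃ r, algebraMap R S r = M i i := fun i =>
    desc_base _ fun T _ _ a b => ((qv_ext_iff _ _).1 (hM T a b)).1 i
  have h2 : ∀ i j, ∃ r, algebraMap R S r = M i j + M j i := fun i j =>
    desc_base _ fun T _ _ a b => by
      have := congrFun (congrFun ((qv_ext_iff _ _).1 (hM T a b)).2 i) j
      simpa using this
  choose α hα using h1
  choose β hβ using h2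
  refine ⟨Matrix.of fun i j => if i = j then α i else if i < j then β i j else 0, ?_⟩
  rw [qv_ext_iff]
  refine ⟨fun i => by simp [hα], ?_⟩
  ext i j
  rcases lt_trichotomy i j with h | h | h
  · simp [h, h.ne, h.ne', not_lt.2 h.le, hβ]
  · subst h; simp [hα]
  · simp [h, h.ne, h.ne', not_lt.2 h.le, hβ, add_comm]

/-- The cocycle is the coboundary of an isometry of `Q` over `S`. -/
theorem SpinAction.exists_frame (τ : SpinAction Q E) (hQ : Unim Q) [IsLocalRing R] [IsLocalRing S]
    [Module.FaithfullyFlat R S] [Nontrivial (K ⊗[R] S)]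
    (HA : ∀ Q' : Matrix (Fin m) (Fin m) R, Unim Q' →
      Iso (Q'.map (algebraMap R K)) (Q.map (algebraMap R K)) → Iso Q' Q)
    (e : E →ₐ[R] S) (eK : E →ₐ[R] K) :
    ∃ h : Matrix (Fin m) (Fin m) S,
      Carries h (Q.map (algebraMap R S)) (Q.map (algebraMap R S)) ∧
      ∀ (T : Type u) [CommRing T] [Algebra R T] (a b : S →ₐ[R] T),
        τ.gmat (a.comp e) (b.comp e) * h.map a = h.map b := by
  obtain ⟨h, hdet, hh⟩ := h90 (R := R) (S := S) (n := m)
    (fun T _ _ a b => τ.gmat (a.comp e) (b.comp e))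
    (fun T T' _ _ _ _ f a b => τ.gmat_map hQ f _ _) (fun T _ _ a => τ.gmat_self _)
    (fun T _ _ a b c => τ.gmat_mul _ _ _)
  obtain ⟨Q', hQ'⟩ := desc_form (R := R) (hᵀ * Q.map (algebraMap R S) * h) (by
    intro T _ _ a b x
    have e1 : ∀ a : S →ₐ[R] T, qv ((hᵀ * Q.map (algebraMap R S) * h).map a) x =
        qv (Q.map (algebraMap R T)) (h.map a *ᵥ x) := by
      intro a
      rw [qv_mulVec, map_mul_algHom, map_mul_algHom, map_algebraMap_algHom, transpose_map]
    rw [e1, e1, ← hh T a b, ← mulVec_mulVec, τ.gmat_carries])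
  have hc : Carries h (Q'.map (algebraMap R S)) (Q.map (algebraMap R S)) := fun x => by
    rw [qv_mulVec, hQ']
  have hloc := isLocalHom_of_faithfullyFlat (R := R) (S := S)
  have hU : Unim Q' := Unim.of_map (algebraMap R S) (hc.unim hdet (hQ.map _))
  obtain ⟨hK, hhK⟩ := τ.descend_mat hQ e eK h hh
  have hcK : Carries hK (Q'.map (algebraMap R K)) (Q.map (algebraMap R K)) := by
    refine Carries.of_mapAlg (Algebra.TensorProduct.includeLeft : K →ₐ[R] K ⊗[R] S)
      (RingHom.injective (Algebra.TensorProduct.includeLeft : K →ₐ[R] K ⊗[R] S).toRingHom) ?_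
    rw [hhK]
    exact (hc.mapAlg _).mul (τ.gmat_carries _ _)
  obtain ⟨g, hg⟩ := HA Q' hU ⟨hK, hcK⟩
  refine ⟨h * g⁻¹.map (algebraMap R S), ((hg.inv (hg.isUnit_det hU)).map _).mul hc, ?_⟩
  intro T _ _ a b
  rw [map_mul_algHom, map_mul_algHom, map_algebraMap_algHom, map_algebraMap_algHom,
    ← Matrix.mul_assoc, hh]

end Pool.Agent.P.MP_c1f06d_ag
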