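import Pool.Agent.P.MP_c1f06d_ag.Tors3

open Matrix Polynomial

universe u

namespace Pool.Agent.P.MP_c1f06d_ag

open CliffordAlgebra IsLocalRing TensorProduct

theorem SpinAction.nonempty_of_generic {R K : Type u} [CommRing R] [IsDomain R] [IsLocalRing R]
    [Field K] [Algebra R K] [IsFractionRing R K] {m : ℕ} {Q : Matrix (Fin m) (Fin m) R}
    (hQ : Unim Q) (hm : 1 ≤ m)
    (HA : ∀ Q' : Matrix (Fin m) (Fin m) R, Unim Q' →
      Iso (Q'.map (algebraMap R K)) (Q.map (algebraMap R K)) → Iso Q' Q)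
    (HB : ∀ c : R, IsUnit c → Sn (Q.map (algebraMap R K)) (algebraMap R K c) → Sn Q c)
    {E : Type u} [CommRing E] [Algebra R E] [Module.FaithfullyFlat R E] (τ : SpinAction Q E)
    (hK : Nonempty (E →ₐ[R] K)) : Nonempty (E →ₐ[R] R) := by
  obtain ⟨eK⟩ := hK
  rcases finite_or_infinite K with hfin | hinf
  · have hR : Finite R := Finite.of_injective _ (IsFractionRing.injective R K)
    have hs : Function.Surjective (algebraMap R K) :=
      IsFractionRing.surjective_iff_isField.2 (Finite.isField_of_domain R)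
    exact ⟨(AlgEquiv.ofBijective (Algebra.ofId R K)
      ⟨IsFractionRing.injective R K, hs⟩).symm.toAlgHom.comp eK⟩
  obtain ⟨S, _, _, _, hff, hinfS, ⟨e⟩⟩ := exists_local_cover R E
  have hnt : Nontrivial (K ⊗[R] S) := inferInstance
  obtain ⟨h, hc, hh⟩ := τ.exists_frame hQ HA e eK
  obtain ⟨x, h', c, hx, hxe, hxi, hc', hcu, hn, hrel⟩ := τ.exists_lift hQ hm e h hc hh
  obtain ⟨l, hle, hl⟩ := HB c hcu (τ.sn_generic hQ e eK x h' c hm hx hxe hxi hc' hn hrel)
  have hQS : Unim (Q.map (algebraMap R S)) := hQ.map _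
  set L : List (Fin m → S) := l.map fun v => algebraMap R S ∘ v with hL
  have hprod : (L.map (qv (Q.map (algebraMap R S)))).prod = algebraMap R S c := by
    rw [hl, hL, map_list_prod, List.map_map, List.map_map]
    congr 1
    exact List.map_congr_left fun v _ => qv_map Q _ v
  have hLu : ∀ v ∈ L, IsUnit (qv (Q.map (algebraMap R S)) v) := by
    intro v hv
    have h1 : IsUnit (L.map (qv (Q.map (algebraMap R S)))).prod := hprod ▸ hcu.map _
    exact List.prod_isUnit_iff.1 h1 _ (List.mem_map_of_mem hv)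
  have hLc : ∀ L : List (Fin m → S), (∀ v ∈ L, IsUnit (qv (Q.map (algebraMap R S)) v)) →
      IsUnit (L.map (reflMat (Q.map (algebraMap R S)))).prod.det := by
    intro L hL
    induction L with
    | nil => simp
    | cons v L ih =>
      rw [List.map_cons, List.prod_cons, det_mul]
      exact ((carries_reflMat (hL v (by simp))).isUnit_det hQS).mul
        (ih fun w hw => hL w (by simp [hw]))
  obtain ⟨cu, rfl⟩ := hcu
  set y : Cl Q S := algebraMap R S (↑cu⁻¹ : R) • (x * vprod Q L) with hy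
  have hyu : IsUnit y := by
    rw [hy, Algebra.smul_def]
    exact (((Units.isUnit _).map _).map _).mul (hx.mul (isUnit_vprod L hLu))
  have hyn : reverse y * y = 1 := by
    rw [hy, reverse_smul_mul, reverse.map_mul, mul_assoc, ← mul_assoc (reverse x), hn,
      ← Algebra.smul_def, mul_smul_comm, reverse_vprod_mul, hprod, Algebra.smul_def,
      Algebra.smul_def, ← map_mul, ← map_mul, ← map_pow, ← map_mul, ← map_mul]
    rw [show (↑cu⁻¹ : R) ^ 2 * (↑cu * ↑cu) = (↑cu⁻¹ * ↑cu) ^ 2 by ring, Units.inv_mul]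
    simp
  have hye : y ∈ even (formOver Q S) := by
    have h1 := vprod_mem_evenOdd (Q := Q) L
    rw [hL, List.length_map, (ZMod.natCast_eq_zero_iff_even).2 hle] at h1
    exact Subalgebra.smul_mem _ (Subalgebra.mul_mem _ hxe h1) _
  have hyi : Ind Q y (h' * (L.map (reflMat (Q.map (algebraMap R S)))).prod) :=
    (hxi.mul (vprod_ind L hLu)).smul _
  have hys : hyu.unit ∈ Spin Q S :=
    mem_spin (by rw [det_mul]; exact (hc'.isUnit_det hQS).mul (hLc L hLu)) hye hyn hyi
  have hyrel : ∀ (T : Type u) [CommRing T] [Algebra R T] (a b : S →ₐ[R] T),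
      (τ.gam (a.comp e) (b.comp e)).val.val * clMap Q a y = clMap Q b y := by
    intro T _ _ a b
    have e1 : ∀ a : S →ₐ[R] T, clMap Q a y = algebraMap R T (↑cu⁻¹ : R) •
        (clMap Q a x * vprod Q (l.map fun v => algebraMap R T ∘ v)) := by
      intro a
      rw [hy, clMap_smul, map_mul, clMap_vprod, AlgHom.commutes, hL, List.map_map]
      congr 4
      funext v i
      simp
    rw [e1, e1, mul_smul_comm, ← mul_assoc, hrel]
  let k : Spin Q S := ⟨hyu.unit, hys⟩
  have hpt : ∀ (T : Type u) [CommRing T] [Algebra R T] (a b : S →ₐ[R] T),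
      a.comp (τ.act S k⁻¹ e) = b.comp (τ.act S k⁻¹ e) := by
    intro T _ _ a b
    obtain ⟨ka, hka⟩ := exists_spin_map hQ a k⁻¹
    obtain ⟨kb, hkb⟩ := exists_spin_map hQ b k⁻¹
    have hinv : (k⁻¹).val.val * y = 1 := hyu.val_inv_mul
    have hk : kb * τ.gam (a.comp e) (b.comp e) = ka := by
      apply Subtype.ext
      apply Units.ext
      apply (hyu.map (clMap Q a)).mul_right_cancel
      change kb.val.val * (τ.gam (a.comp e) (b.comp e)).val.val * _ = _
      rw [mul_assoc, hyrel, ← hka, ← hkb, ← map_mul, ← map_mul, hinv, map_one, map_one]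
    rw [τ.natural S T a _ (isBaseChangeMap_clMap Q a) _ ka e hka,
      τ.natural S T b _ (isBaseChangeMap_clMap Q b) _ kb e hkb, ← hk, τ.act_mul, τ.act_gam]
  exact exists_algHom_of_eq (τ.act S k⁻¹ e) fun z =>
    DFunLike.congr_fun (hpt (S ⊗[R] S) Algebra.TensorProduct.includeLeft
      Algebra.TensorProduct.includeRight) z

end Pool.Agent.P.MP_c1f06d_ag
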