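import Pool.Agent.P.MP_c1f06d_ag.r.Top

open Pool.Agent.GR

universe u

namespace Pool.Agent.P.MP_c1f06d_ag.VariantReductiveTorsors

/-- Grothendieck-Serre over a local ring `R` of a smooth algebra over a valuation ring `V` that
contains a field `k`, for the twisted form `G_z` of a split reductive subgroup `G` of `GL_n` by the
`H`-torsor attached to the point `z` of `GL_n / H`: a `G_z`-torsor with a point over the fraction
field has a point over `R`. -/
theorem result (k : Type u) [Field k] (n r r' : ℕ) (G H : AffQuot k n) (χ : Fin n → Fin r → ℤ)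
    (χ' : Fin n → Fin r' → ℤ) (hN : H.Normalizes G) (hI : G.GeomIntegral) (hT : G.SplitTorus χ)
    (hW : G.WideTorus H χ χ')
    (V : Type u) [CommRing V] [IsDomain V] [ValuationRing V] [Algebra k V]
    (A : Type u) [CommRing A] [Algebra V A] [Algebra.Smooth V A] (p : Ideal A) [p.IsPrime]
    (R : Type u) [CommRing R] [Algebra A R] [IsLocalization.AtPrime R p] [Algebra k R]
    (hk : ∀ c, algebraMap k R c = algebraMap A R (algebraMap V A (algebraMap k V c)))
    (K : Type u) [Field K] [Algebra R K] [IsFractionRing R K]
    (z : H.B →ₐ[k] R) (E : Type u) [CommRing E] [Algebra R E] (hE : G.IsTorsor H z E)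
    (hK : Nonempty (E →ₐ[R] K)) : Nonempty (E →ₐ[R] R) :=
  AffQuot.gs_main hN hI hT hW V A p R hk K z E hE hK

end Pool.Agent.P.MP_c1f06d_ag.VariantReductiveTorsors
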