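import Pool.Agent.P.MP_c1f06d_ag.d.DMain

open Pool.Agent.GSD

universe u

namespace Pool.Agent.P.MP_c1f06d_ag.VariantSpinPairTorsors

/-- Grothendieck-Serre for the spin group of an Azumaya algebra of degree `2 n ≥ 6` with quadratic
pair, over a local ring `R` of a smooth algebra over an arbitrary valuation ring: a torsor with a
point over the fraction field has a point over `R`. -/
theorem result (V : Type u) [CommRing V] [IsDomain V] [ValuationRing V]
    (C : Type u) [CommRing C] [Algebra V C] [Algebra.Smooth V C] (p : Ideal C) [p.IsPrime]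
    (R : Type u) [CommRing R] [Algebra C R] [IsLocalization.AtPrime R p]
    (A : Type u) [Ring A] [StarRing A] [Algebra R A] [IsAzumaya R A] (l : A)
    (n : ℕ) (hn : 3 ≤ n) (hA : IsQuadPair R l (2 * n))
    (E : Type u) [CommRing E] [Algebra R E] (hE : IsPairTorsor R l (2 * n) E)
    (hK : Nonempty (E →ₐ[R] FractionRing R)) : Nonempty (E →ₐ[R] R) :=
  pair_main V C p R A l n hn hA E hE hK

end Pool.Agent.P.MP_c1f06d_ag.VariantSpinPairTorsors
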