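import Pool.Agent.P.MP_c1f06d_ag.BMain
import Pool.Agent.P.MP_c1f06d_ag.Dom

open Matrix Pool.Agent.P.MP_c1f06d_ag

universe u

namespace Pool.Agent.P.MP_c1f06d_ag.VariantSpinTorsors

/-- Grothendieck-Serre for `Spin(q)`, `q` of rank at least five with smooth projective quadric (over
every field `k` under `R`, no nonzero vector is both isotropic and in the radical of the polar
form), over a local ring `R` of a smooth algebra over an arbitrary valuation ring: a torsor with a
point over the fraction field has a point over `R`. -/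
theorem result (V : Type u) [CommRing V] [IsDomain V] [ValuationRing V]
    (A : Type u) [CommRing A] [Algebra V A] [Algebra.Smooth V A] (p : Ideal A) [p.IsPrime]
    (R : Type u) [CommRing R] [Algebra A R] [IsLocalization.AtPrime R p]
    (m : ℕ) (hm : 5 ≤ m) (Q : Matrix (Fin m) (Fin m) R)
    (hQ : ∀ (k : Type u) [Field k] (f : R →+* k) (x : Fin m → k),
      x ⬝ᵥ Q.map f *ᵥ x = 0 → (Q.map f + (Q.map f)ᵀ) *ᵥ x = 0 → x = 0)
    (E : Type u) [CommRing E] [Algebra R E] (hE : IsSpinTorsor Q E)
    (hK : Nonempty (E →ₐ[R] FractionRing R)) : Nonempty (E →ₐ[R] R) := by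
  have : IsLocalRing R := IsLocalization.AtPrime.isLocalRing R p
  obtain ⟨V', _, _, _, d, π, G, h⟩ := exists_pres V A p R
  have : IsDomain R := h.isDomain
  have := hE.1
  obtain ⟨τ⟩ := hE.nonempty_spinAction
  exact spin_main_smooth V A p R (FractionRing R) m hm Q hQ E τ hK

end Pool.Agent.P.MP_c1f06d_ag.VariantSpinTorsors
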