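import Pool.Agent.P.MP_c1f06d_ag.su.CMain

open Pool.Agent.SU.C

universe u

namespace Pool.Agent.P.MP_c1f06d_ag.VariantSymplecticTorsors

/-- Grothendieck-Serre for `Sp(B, σ)`, `(B, σ)` a form of a product of matrix algebras with
symplectic involutions, over a local ring `R` of a smooth algebra over an arbitrary valuation ring:
a torsor with a point over the fraction field has a point over `R`. -/
theorem result (V : Type u) [CommRing V] [IsDomain V] [ValuationRing V]
    (A : Type u) [CommRing A] [Algebra V A] [Algebra.Smooth V A] (p : Ideal A) [p.IsPrime]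
    (R : Type u) [CommRing R] [Algebra A R] [IsLocalization.AtPrime R p]
    (B : Type u) [Ring B] [Algebra R B] (σ : B →ₗ[R] B) (hσ : IsSymplectic σ)
    (E : Type u) [CommRing E] [Algebra R E] (hE : IsSpTorsor σ E)
    (hK : Nonempty (E →ₐ[R] FractionRing R)) : Nonempty (E →ₐ[R] R) :=
  Pool.Agent.SU.sp_main V A p R B σ hσ E hE hK

end Pool.Agent.P.MP_c1f06d_ag.VariantSymplecticTorsors
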