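import Pool.Agent.P.MP_c1f06d_ag.su.Main

open Pool.Agent.SU

universe u

namespace Pool.Agent.P.MP_c1f06d_ag.VariantUnitaryTorsors

/-- Grothendieck-Serre for `SU(B, τ)`, `B` an algebra of degree `d` with unitary involution, over a
local ring `R` of a smooth algebra over an arbitrary valuation ring: a torsor with a point over the
fraction field has a point over `R`. -/
theorem result (V : Type u) [CommRing V] [IsDomain V] [ValuationRing V]
    (A : Type u) [CommRing A] [Algebra V A] [Algebra.Smooth V A] (p : Ideal A) [p.IsPrime]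
    (R : Type u) [CommRing R] [Algebra A R] [IsLocalization.AtPrime R p]
    (B : Type u) [Ring B] [Algebra R B] (τ : B →ₗ[R] B) (d : ℕ) (hd : 0 < d)
    (hB : IsUnitaryAlgebra τ d)
    (E : Type u) [CommRing E] [Algebra R E] (hE : IsSUTorsor τ d E)
    (hK : Nonempty (E →ₐ[R] FractionRing R)) : Nonempty (E →ₐ[R] R) :=
  hK.elim (su_main V A p R hd hB hE)

end Pool.Agent.P.MP_c1f06d_ag.VariantUnitaryTorsors
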