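import Pool.Agent.P.MP_c1f06d_ag.QSn

open Matrix Polynomial

universe u

namespace Pool.Agent.P.MP_c1f06d_ag

open QuadraticMap

section aux

variable {R M : Type*} [CommRing R] [AddCommGroup M] [Module R M]

theorem witt_add_smul (φ : QuadraticForm R M) (x y : M) (a : R) :
    φ (x + a • y) = φ x + a * a * φ y + a * polar φ x y := by
  rw [QuadraticMap.map_add φ, QuadraticMap.map_smul, polar_smul_right, smul_eq_mul, smul_eq_mul]

theorem witt_add2 (φ : QuadraticForm R M) (x y z : M) (a c : R) :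
    φ (x + a • y + c • z) = φ x + a * a * φ y + a * polar φ x y + c * c * φ z
      + c * (polar φ x z + a * polar φ y z) := by
  rw [witt_add_smul, witt_add_smul, polar_add_left, polar_smul_left, smul_eq_mul]

theorem witt_self (φ : QuadraticForm R M) {e : M} (he : φ e = 0) : polar φ e e = 0 := by
  rw [polar_self, he, smul_zero]

theorem witt_polar_map (φ : QuadraticForm R M) {σ : M →ₗ[R] M} (h : ∀ x, φ (σ x) = φ x)
    (x y : M) : polar φ (σ x) (σ y) = polar φ x y := by
  rw [polar, polar, ← map_add σ, h, h, h]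

theorem witt_polar_comp (φ : QuadraticForm R M) (σ : M →ₗ[R] M) (x y : M) :
    polar (φ.comp σ) x y = polar φ (σ x) (σ y) := by
  rw [polar, polar, QuadraticMap.comp_apply, QuadraticMap.comp_apply, QuadraticMap.comp_apply,
    map_add σ]

/-- The linear map `x ↦ polar φ x y • e`. -/
noncomputable def wittRk (φ : QuadraticForm R M) (y e : M) : M →ₗ[R] M :=
  (φ.polarBilin.flip y).smulRight e

theorem wittRk_apply (φ : QuadraticForm R M) (y e x : M) :
    wittRk φ y e x = polar φ x y • e := by
  simp [wittRk]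

/-- One pair of vectors is carried to another by a linear map that keeps the form. -/
def WittMov (φ : QuadraticForm R M) (e f e' f' : M) : Prop :=
  ∃ σ : M →ₗ[R] M, (∀ x, φ (σ x) = φ x) ∧ σ e = e' ∧ σ f = f'

theorem WittMov.trans {φ : QuadraticForm R M} {e f e' f' e'' f'' : M}
    (h : WittMov φ e f e' f') (h' : WittMov φ e' f' e'' f'') : WittMov φ e f e'' f'' := by
  obtain ⟨s, h1, h2, h3⟩ := h
  obtain ⟨t, k1, k2, k3⟩ := h'
  exact ⟨t.comp s, fun x => by rw [LinearMap.comp_apply, k1, h1],
    by rw [LinearMap.comp_apply, h2, k2], by rw [LinearMap.comp_apply, h3, k3]⟩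

theorem WittMov.flip {φ : QuadraticForm R M} {e f e' f' : M}
    (h : WittMov φ e f e' f') : WittMov φ f e f' e' := by
  obtain ⟨s, h1, h2, h3⟩ := h
  exact ⟨s, h1, h3, h2⟩

theorem witt_eichler (φ : QuadraticForm R M) {e y : M} (he : φ e = 0) (hy : polar φ y e = 0) :
    ∃ σ : M →ₗ[R] M, (∀ x, φ (σ x) = φ x) ∧
      ∀ x, σ x = x + polar φ x e • y + (-(polar φ x y + φ y * polar φ x e)) • e := by
  have h : ∀ x, (LinearMap.id + wittRk φ e y - wittRk φ y e - φ y • wittRk φ e e : M →ₗ[R] M) x
      = x + polar φ x e • y + (-(polar φ x y + φ y * polar φ x e)) • e := by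
    intro x
    simp only [LinearMap.sub_apply, LinearMap.add_apply, LinearMap.id_apply,
      LinearMap.smul_apply, wittRk_apply]
    module
  refine ⟨_, fun x => ?_, h⟩
  rw [h, witt_add2, he, hy]
  ring

theorem witt_same_left (φ : QuadraticForm R M) {e f f' : M} (he : φ e = 0) (hf : φ f = 0)
    (hef : polar φ e f = 1) (hf' : φ f' = 0) (hef' : polar φ e f' = 1) :
    WittMov φ e f e f' := by
  have hy : polar φ (f' - f) e = 0 := by
    rw [polar_sub_left, polar_comm φ f', polar_comm φ f, hef, hef', sub_self]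
  obtain ⟨σ, h1, h2⟩ := witt_eichler φ he hy
  refine ⟨σ, h1, ?_, ?_⟩
  · rw [h2, witt_self φ he, polar_comm φ e, hy]
    simp
  · have h3 : φ (f' - f) = -polar φ f f' := by
      have := witt_add_smul φ f' f (-1)
      rw [neg_one_smul, ← sub_eq_add_neg, hf, hf', polar_comm φ f'] at this
      rw [this]; ring
    rw [h2, polar_comm φ f e, hef, h3, polar_sub_right, witt_self φ hf]
    simp

theorem witt_same_right (φ : QuadraticForm R M) {e e' f : M} (he : φ e = 0) (hf : φ f = 0)
    (hef : polar φ e f = 1) (he' : φ e' = 0) (hef' : polar φ e' f = 1) :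
    WittMov φ e f e' f :=
  (witt_same_left φ hf he (by rw [polar_comm, hef]) he' (by rw [polar_comm, hef'])).flip

theorem witt_swap (φ : QuadraticForm R M) {e f : M} (he : φ e = 0) (hf : φ f = 0)
    (hef : polar φ e f = 1) : WittMov φ f e e f := by
  have h : ∀ x, (LinearMap.id + wittRk φ (e - f) (e - f) : M →ₗ[R] M) x
      = x + polar φ x (e - f) • (e - f) := by
    intro x
    simp only [LinearMap.add_apply, LinearMap.id_apply, wittRk_apply]
  have h3 : φ (e - f) = -1 := by
    have := witt_add_smul φ e f (-1)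
    rw [neg_one_smul, ← sub_eq_add_neg, hf, he, hef] at this
    rw [this]; ring
  refine ⟨LinearMap.id + wittRk φ (e - f) (e - f), fun x => ?_, ?_, ?_⟩
  rotate_left
  · rw [h, polar_sub_right, witt_self φ hf, polar_comm φ f e, hef]
    simp
  · rw [h, polar_sub_right, witt_self φ he, hef]
    simp
  · rw [h, witt_add_smul, h3]
    ring

theorem witt_scale (φ : QuadraticForm R M) {e f : M} (he : φ e = 0) (hf : φ f = 0)
    (hef : polar φ e f = 1) {a b : R} (hab : a * b = 1) : WittMov φ (a • e) (b • f) e f := by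
  have h : ∀ x, (LinearMap.id + (b - 1) • wittRk φ f e + (a - 1) • wittRk φ e f : M →ₗ[R] M) x
      = x + ((b - 1) * polar φ x f) • e + ((a - 1) * polar φ x e) • f := by
    intro x
    simp only [LinearMap.add_apply, LinearMap.id_apply, LinearMap.smul_apply, wittRk_apply,
      smul_smul]
  refine ⟨LinearMap.id + (b - 1) • wittRk φ f e + (a - 1) • wittRk φ e f, fun x => ?_, ?_, ?_⟩
  rotate_left
  · rw [h, polar_smul_left, polar_smul_left, hef, witt_self φ he, ← add_smul]
    have : a + (b - 1) * a • (1 : R) = 1 := by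
      rw [smul_eq_mul]; linear_combination hab
    rw [this]; simp
  · rw [h, polar_smul_left, polar_smul_left, polar_comm φ f e, hef, witt_self φ hf,
      add_right_comm, ← add_smul]
    have : b + (a - 1) * b • (1 : R) = 1 := by
      rw [smul_eq_mul]; linear_combination hab
    rw [this]; simp
  · rw [h, witt_add2, he, hf, hef]
    linear_combination (polar φ x e * polar φ x f) * hab

theorem witt_of_unit (φ : QuadraticForm R M) {e f e' f' : M} (he : φ e = 0) (hf : φ f = 0)
    (hef : polar φ e f = 1) (he' : φ e' = 0) (hf' : φ f' = 0) (hef' : polar φ e' f' = 1)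
    (hu : IsUnit (polar φ e f')) : WittMov φ e f e' f' := by
  obtain ⟨b, hb⟩ := hu.exists_right_inv
  have h1 : φ (b • f') = 0 := by rw [QuadraticMap.map_smul, hf', smul_zero]
  have h2 : polar φ e (b • f') = 1 := by rw [polar_smul_right, smul_eq_mul, mul_comm, hb]
  have h3 : φ (polar φ e f' • e') = 0 := by rw [QuadraticMap.map_smul, he', smul_zero]
  have h4 : polar φ (polar φ e f' • e') (b • f') = 1 := by
    rw [polar_smul_left, polar_smul_right, hef', smul_eq_mul, smul_eq_mul, mul_one, hb]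
  exact ((witt_same_left φ he hf hef h1 h2).trans (witt_same_right φ he h1 h2 h3 h4)).trans
    (witt_scale φ he' hf' hef' hb)

theorem witt_of_unit' (φ : QuadraticForm R M) {e f e' f' : M} (he : φ e = 0) (hf : φ f = 0)
    (hef : polar φ e f = 1) (he' : φ e' = 0) (hf' : φ f' = 0) (hef' : polar φ e' f' = 1)
    (hu : IsUnit (polar φ e e')) : WittMov φ e f e' f' :=
  (witt_of_unit φ he hf hef hf' he' (by rw [polar_comm, hef']) hu).trans
    (witt_swap φ he' hf' hef')

theorem witt_iso_fix (φ : QuadraticForm R M) {z f : M} (hf : φ f = 0) (h : polar φ z f = 1) :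
    φ (z + (-φ z) • f) = 0 := by
  rw [witt_add_smul, hf, h]; ring

/-- The projection away from a pair. -/
noncomputable def wittPr (φ : QuadraticForm R M) (e f : M) : M →ₗ[R] M :=
  LinearMap.id - wittRk φ f e - wittRk φ e f

theorem wittPr_apply (φ : QuadraticForm R M) (e f x : M) :
    wittPr φ e f x = x + (-polar φ x f) • e + (-polar φ x e) • f := by
  simp only [wittPr, LinearMap.sub_apply, LinearMap.id_apply, wittRk_apply]
  module

theorem wittPr_polar (φ : QuadraticForm R M) (e f x y : M) :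
    polar φ y (wittPr φ e f x)
      = polar φ y x - polar φ x f * polar φ y e - polar φ x e * polar φ y f := by
  rw [wittPr_apply, polar_add_right, polar_add_right, polar_smul_right, polar_smul_right,
    smul_eq_mul, smul_eq_mul]
  ring

theorem wittPr_fix (φ : QuadraticForm R M) {e f x : M} (h1 : polar φ x e = 0)
    (h2 : polar φ x f = 0) : wittPr φ e f x = x := by
  rw [wittPr_apply, h1, h2]; simp

theorem wittPr_val (φ : QuadraticForm R M) {e f : M} (he : φ e = 0) (hf : φ f = 0)
    (hef : polar φ e f = 1) (x : M) :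
    φ (wittPr φ e f x) = φ x - polar φ x e * polar φ x f := by
  rw [wittPr_apply, witt_add2, he, hf, hef]; ring

theorem wittPr_left (φ : QuadraticForm R M) {e f : M} (he : φ e = 0)
    (hef : polar φ e f = 1) (x : M) : polar φ (wittPr φ e f x) e = 0 := by
  rw [polar_comm, wittPr_polar, witt_self φ he, hef, polar_comm φ e x]; ring

theorem wittPr_right (φ : QuadraticForm R M) {e f : M} (hf : φ f = 0)
    (hef : polar φ e f = 1) (x : M) : polar φ (wittPr φ e f x) f = 0 := by
  rw [polar_comm, wittPr_polar, witt_self φ hf, polar_comm φ f e, hef, polar_comm φ f x]; ring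

theorem witt_extend (φ : QuadraticForm R M) {e f : M} (he : φ e = 0) (hf : φ f = 0)
    (hef : polar φ e f = 1) (s : M →ₗ[R] M)
    (hs : ∀ x, φ.comp (wittPr φ e f) (s x) = φ.comp (wittPr φ e f) x) :
    ∃ t : M →ₗ[R] M, (∀ x, φ (t x) = φ x) ∧ t e = e ∧
      ∀ x, polar φ x e = 0 → polar φ x f = 0 → t x = wittPr φ e f (s x) := by
  have h : ∀ x, ((wittPr φ e f).comp (s.comp (wittPr φ e f)) + wittRk φ f e + wittRk φ e f) x
      = wittPr φ e f (s (wittPr φ e f x)) + polar φ x f • e + polar φ x e • f := by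
    intro x
    simp only [LinearMap.add_apply, LinearMap.comp_apply, wittRk_apply]
  refine ⟨(wittPr φ e f).comp (s.comp (wittPr φ e f)) + wittRk φ f e + wittRk φ e f,
    fun x => ?_, ?_, fun x h1 h2 => ?_⟩
  rotate_left
  · have h0 : wittPr φ e f e = 0 := by
      rw [wittPr_apply, hef, witt_self φ he]; simp
    rw [h, h0, hef, witt_self φ he]; simp
  · rw [h, wittPr_fix φ h1 h2, h1, h2]; simp
  · have h5 := hs (wittPr φ e f x)
    rw [QuadraticMap.comp_apply, QuadraticMap.comp_apply,
      wittPr_fix φ (wittPr_left φ he hef x) (wittPr_right φ hf hef x)] at h5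
    rw [h, witt_add2, h5, wittPr_left φ he hef, wittPr_right φ hf hef, wittPr_val φ he hf hef,
      he, hf, hef]
    ring

end aux

variable {R M : Type*} [CommRing R] [IsLocalRing R] [AddCommGroup M] [Module R M]

theorem pair_conj (φ : QuadraticForm R M) {e f e' f' : M} (he : φ e = 0) (hf : φ f = 0)
    (hef : polar φ e f = 1) (he' : φ e' = 0) (hf' : φ f' = 0) (hef' : polar φ e' f' = 1) :
    ∃ σ : M →ₗ[R] M, (∀ x, φ (σ x) = φ x) ∧ σ e = e' ∧ σ f = f' := by
  by_cases h1 : IsUnit (polar φ e f')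
  · exact witt_of_unit φ he hf hef he' hf' hef' h1
  by_cases h2 : IsUnit (polar φ e e')
  · exact witt_of_unit' φ he hf hef he' hf' hef' h2
  obtain ⟨z, hz⟩ : ∃ z, z = f + (1 - polar φ f f') • e' := ⟨_, rfl⟩
  have hzf : polar φ z f' = 1 := by
    rw [hz, polar_add_left, polar_smul_left, hef', smul_eq_mul]; ring
  have hg := witt_iso_fix φ hf' hzf
  have hgf : polar φ (z + (-φ z) • f') f' = 1 := by
    rw [polar_add_left, polar_smul_left, hzf, witt_self φ hf']; simp
  have hu : IsUnit (polar φ e (z + (-φ z) • f')) := by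
    have h3 : polar φ e (z + (-φ z) • f')
        = 1 - (φ z * polar φ e f' - (1 - polar φ f f') * polar φ e e') := by
      rw [polar_add_right, polar_smul_right, smul_eq_mul]
      have : polar φ e z = 1 + (1 - polar φ f f') * polar φ e e' := by
        rw [hz, polar_add_right, polar_smul_right, hef, smul_eq_mul]
      rw [this]; ring
    rw [h3]
    apply IsLocalRing.isUnit_one_sub_self_of_mem_nonunits
    rw [← IsLocalRing.mem_maximalIdeal]
    exact sub_mem (Ideal.mul_mem_left _ _ ((IsLocalRing.mem_maximalIdeal _).2 h1))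
      (Ideal.mul_mem_left _ _ ((IsLocalRing.mem_maximalIdeal _).2 h2))
  exact (witt_of_unit' φ he hf hef hg hf' hgf hu).trans (witt_same_right φ hg hf' hgf he' hef')

theorem witt_frames {ι : Type*} [DecidableEq ι] (s : Finset ι) :
    ∀ (φ : QuadraticForm R M) (e f e' f' : ι → M), (∀ i ∈ s, φ (e i) = 0) →
      (∀ i ∈ s, ∀ j ∈ s, polar φ (e i) (e j) = 0) →
      (∀ i ∈ s, ∀ j ∈ s, polar φ (e i) (f j) = if i = j then 1 else 0) →
      (∀ i ∈ s, φ (e' i) = 0) → (∀ i ∈ s, ∀ j ∈ s, polar φ (e' i) (e' j) = 0) →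
      (∀ i ∈ s, ∀ j ∈ s, polar φ (e' i) (f' j) = if i = j then 1 else 0) →
      ∃ σ : M →ₗ[R] M, (∀ x, φ (σ x) = φ x) ∧ ∀ i ∈ s, σ (e i) = e' i := by
  induction s using Finset.induction_on with
  | empty =>
    intro φ e f e' f' _ _ _ _ _ _
    exact ⟨LinearMap.id, fun _ => rfl, fun i hi => absurd hi (Finset.notMem_empty i)⟩
  | insert a s ha ih =>
    intro φ e f e' f' he hee hef he' hee' hef'
    have ma : a ∈ insert a s := Finset.mem_insert_self a s
    have ms : ∀ i ∈ s, i ∈ insert a s := fun i hi => Finset.mem_insert_of_mem hi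
    have ne : ∀ i ∈ s, i ≠ a := fun i hi h => ha (h ▸ hi)
    have key : ∀ e f : ι → M, (∀ i ∈ insert a s, φ (e i) = 0) →
        (∀ i ∈ insert a s, ∀ j ∈ insert a s, polar φ (e i) (e j) = 0) →
        (∀ i ∈ insert a s, ∀ j ∈ insert a s, polar φ (e i) (f j) = if i = j then 1 else 0) →
        ∃ g, φ g = 0 ∧ polar φ (e a) g = 1 ∧ ∀ i ∈ s, polar φ (e i) g = 0 := by
      intro e f he hee hef
      have h1 : polar φ (e a) (f a) = 1 := by rw [hef a ma a ma, if_pos rfl]
      refine ⟨f a + (-φ (f a)) • e a, witt_iso_fix φ (he a ma) (by rw [polar_comm, h1]), ?_,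
        fun i hi => ?_⟩
      · rw [polar_add_right, polar_smul_right, h1, hee a ma a ma]; simp
      · rw [polar_add_right, polar_smul_right, hef i (ms i hi) a ma, if_neg (ne i hi),
          hee i (ms i hi) a ma]; simp
    obtain ⟨g, g1, g2, g3⟩ := key e f he hee hef
    obtain ⟨g', g1', g2', g3'⟩ := key e' f' he' hee' hef'
    obtain ⟨s1, k1, k2, k3⟩ := pair_conj φ (he a ma) g1 g2 (he' a ma) g1' g2'
    have u1 : ∀ i ∈ s, polar φ (s1 (e i)) (e' a) = 0 := fun i hi => by
      rw [← k2, witt_polar_map φ k1, hee i (ms i hi) a ma]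
    have u2 : ∀ i ∈ s, polar φ (s1 (e i)) g' = 0 := fun i hi => by
      rw [← k3, witt_polar_map φ k1, g3 i hi]
    have v1 : ∀ i ∈ s, polar φ (e' i) (e' a) = 0 := fun i hi => hee' i (ms i hi) a ma
    have p1 : ∀ i ∈ s, wittPr φ (e' a) g' (s1 (e i)) = s1 (e i) := fun i hi =>
      wittPr_fix φ (u1 i hi) (u2 i hi)
    have p2 : ∀ i ∈ s, wittPr φ (e' a) g' (e' i) = e' i := fun i hi =>
      wittPr_fix φ (v1 i hi) (g3' i hi)
    obtain ⟨s2, l1, l2⟩ := ih (φ.comp (wittPr φ (e' a) g')) (fun i => s1 (e i))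
      (fun i => s1 (f i)) e' f'
      (fun i hi => by rw [QuadraticMap.comp_apply, p1 i hi, k1, he i (ms i hi)])
      (fun i hi j hj => by
        rw [witt_polar_comp, p1 i hi, p1 j hj, witt_polar_map φ k1, hee i (ms i hi) j (ms j hj)])
      (fun i hi j hj => by
        rw [witt_polar_comp, p1 i hi, wittPr_polar, u1 i hi, u2 i hi, witt_polar_map φ k1,
          hef i (ms i hi) j (ms j hj)]
        simp)
      (fun i hi => by rw [QuadraticMap.comp_apply, p2 i hi, he' i (ms i hi)])
      (fun i hi j hj => by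
        rw [witt_polar_comp, p2 i hi, p2 j hj, hee' i (ms i hi) j (ms j hj)])
      (fun i hi j hj => by
        rw [witt_polar_comp, p2 i hi, wittPr_polar, v1 i hi, g3' i hi,
          hef' i (ms i hi) j (ms j hj)]
        simp)
    obtain ⟨t, t1, t2, t3⟩ := witt_extend φ (he' a ma) g1' g2' s2 l1
    refine ⟨t.comp s1, fun x => by rw [LinearMap.comp_apply, t1, k1], fun i hi => ?_⟩
    rcases Finset.mem_insert.1 hi with h | h
    · rw [h, LinearMap.comp_apply, k2, t2]
    · rw [LinearMap.comp_apply, t3 _ (u1 i h) (u2 i h), l2 i h, p2 i h]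

theorem frames_conj {ι : Type*} [Fintype ι] [DecidableEq ι] (φ : QuadraticForm R M)
    (e f e' f' : ι → M) (he : ∀ i, φ (e i) = 0) (hee : ∀ i j, polar φ (e i) (e j) = 0)
    (hef : ∀ i j, polar φ (e i) (f j) = if i = j then 1 else 0)
    (he' : ∀ i, φ (e' i) = 0) (hee' : ∀ i j, polar φ (e' i) (e' j) = 0)
    (hef' : ∀ i j, polar φ (e' i) (f' j) = if i = j then 1 else 0) :
    ∃ σ : M →ₗ[R] M, (∀ x, φ (σ x) = φ x) ∧ ∀ i, σ (e i) = e' i := by
  obtain ⟨σ, h1, h2⟩ := witt_frames (R := R) (M := M) Finset.univ φ e f e' f' (fun i _ => he i)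
    (fun i _ j _ => hee i j) (fun i _ j _ => hef i j) (fun i _ => he' i)
    (fun i _ j _ => hee' i j) (fun i _ j _ => hef' i j)
  exact ⟨σ, h1, fun i => h2 i (Finset.mem_univ i)⟩

end Pool.Agent.P.MP_c1f06d_ag
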