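import Mathlib

namespace Pool.Agent.P.MP_c1f06d_ag

variable {B : Type*} [Ring B] [StarRing B]

/-- Alternating elements. -/
def IsAlt (x : B) : Prop := ∃ c, x = c - star c

/-- A form parameter: an additive subgroup between the alternating and the skew elements, stable
under `x ↦ a* x a`. -/
structure FP (B : Type*) [Ring B] [StarRing B] where
  Mem : B → Prop
  add' : ∀ x y, Mem x → Mem y → Mem (x + y)
  neg' : ∀ x, Mem x → Mem (-x)
  sub_star : ∀ a, Mem (a - star a)
  skew' : ∀ x, Mem x → x + star x = 0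
  conj' : ∀ x a, Mem x → Mem (star a * x * a)

/-- The minimal form parameter. -/
def FP.alt (B : Type*) [Ring B] [StarRing B] : FP B where
  Mem := IsAlt
  add' := by
    rintro _ _ ⟨c, rfl⟩ ⟨d, rfl⟩
    exact ⟨c + d, by rw [star_add]; abel⟩
  neg' := by
    rintro _ ⟨c, rfl⟩
    exact ⟨-c, by rw [star_neg]; abel⟩
  sub_star a := ⟨a, rfl⟩
  skew' := by
    rintro _ ⟨c, rfl⟩
    simp
  conj' := by
    rintro _ a ⟨c, rfl⟩
    exact ⟨star a * c * a, by simp only [star_mul, star_star]; noncomm_ring⟩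

/-- The maximal form parameter. -/
def FP.skew (B : Type*) [Ring B] [StarRing B] : FP B where
  Mem x := x + star x = 0
  add' x y hx hy := by rw [star_add, add_add_add_comm, hx, hy, add_zero]
  neg' x hx := by rw [star_neg, ← neg_add, hx, neg_zero]
  sub_star a := by simp
  skew' _ hx := hx
  conj' x a hx := by
    have : star a * x * a + star (star a * x * a) = star a * (x + star x) * a := by
      simp only [star_mul, star_star]; noncomm_ring
    rw [this, hx, mul_zero, zero_mul]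

variable {L : FP B}

theorem FP.zero (L : FP B) : L.Mem 0 := by simpa using L.sub_star 0

theorem FP.Mem.add {x y : B} (hx : L.Mem x) (hy : L.Mem y) : L.Mem (x + y) := L.add' x y hx hy

theorem FP.Mem.neg {x : B} (hx : L.Mem x) : L.Mem (-x) := L.neg' x hx

theorem FP.Mem.sub {x y : B} (hx : L.Mem x) (hy : L.Mem y) : L.Mem (x - y) := by
  rw [sub_eq_add_neg]; exact hx.add hy.neg

theorem FP.Mem.conj {x : B} (hx : L.Mem x) (a : B) : L.Mem (star a * x * a) := L.conj' x a hx

theorem FP.Mem.add_star {x : B} (hx : L.Mem x) : x + star x = 0 := L.skew' x hx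

theorem FP.Mem.of_eq {x y : B} (hx : L.Mem x) (h : y = x) : L.Mem y := h ▸ hx

theorem FP.Mem.of_alt {x : B} (hx : IsAlt x) : L.Mem x := by
  obtain ⟨c, rfl⟩ := hx
  exact L.sub_star c

variable (Θ : B)

/-- The value `x* Θ x`. -/
def qa (x : B) : B := star x * Θ * x

/-- The polar value `x* (Θ + Θ*) y`. -/
def ba (x y : B) : B := star x * (Θ + star Θ) * y

theorem star_ba (x y : B) : star (ba Θ x y) = ba Θ y x := by
  simp only [ba, star_mul, star_add, star_star, add_comm (star Θ) Θ, mul_assoc]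

theorem ba_mul_right (x y a : B) : ba Θ x (y * a) = ba Θ x y * a := by
  simp only [ba, mul_assoc]

theorem ba_mul_left (x y a : B) : ba Θ (x * a) y = star a * ba Θ x y := by
  simp only [ba, star_mul, mul_assoc]

theorem ba_add_right (x y z : B) : ba Θ x (y + z) = ba Θ x y + ba Θ x z := mul_add _ _ _

theorem ba_sub_right (x y z : B) : ba Θ x (y - z) = ba Θ x y - ba Θ x z := mul_sub _ _ _

theorem ba_add_left (x y z : B) : ba Θ (x + y) z = ba Θ x z + ba Θ y z := by
  simp only [ba, star_add, add_mul]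

theorem ba_sub_left (x y z : B) : ba Θ (x - y) z = ba Θ x z - ba Θ y z := by
  simp only [ba, star_sub, sub_mul]

theorem ba_one_mul (x y : B) : ba Θ x 1 * y = ba Θ x y := by simp only [ba, mul_one]

theorem ba_self (x : B) : ba Θ x x = qa Θ x + star (qa Θ x) := by
  simp only [ba, qa, star_mul, star_star]; noncomm_ring

theorem qa_mul (x a : B) : qa Θ (x * a) = star a * qa Θ x * a := by
  simp only [qa, star_mul, mul_assoc]

theorem qa_add (L : FP B) (x y : B) : L.Mem (qa Θ (x + y) - qa Θ x - qa Θ y - ba Θ x y) :=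
  (L.sub_star (star y * Θ * x)).of_eq (by
    simp only [qa, ba, star_mul, star_add, star_star]; noncomm_ring)

theorem qa_one : qa Θ 1 = Θ := by simp [qa]

/-- `g` preserves the form. -/
def IsoA (L : FP B) (Θ g : B) : Prop := L.Mem (qa Θ g - Θ)

variable {Θ}

theorem ba_self_eq_zero {x : B} (h : L.Mem (qa Θ x)) : ba Θ x x = 0 := by
  rw [ba_self]; exact h.add_star

theorem IsoA.qa {g : B} (h : IsoA L Θ g) (x : B) : L.Mem (qa Θ (g * x) - qa Θ x) :=
  (h.conj x).of_eq (by rw [qa_mul]; simp only [Pool.Agent.P.MP_c1f06d_ag.qa]; noncomm_ring)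

theorem IsoA.ba {g : B} (h : IsoA L Θ g) (x y : B) : ba Θ (g * x) (g * y) = ba Θ x y := by
  have e : Pool.Agent.P.MP_c1f06d_ag.ba Θ g g = Θ + star Θ := by
    have := h.add_star
    rw [ba_self, star_sub] at *
    rw [← sub_eq_zero, ← this]; abel
  rw [ba_mul_left, ba_mul_right, e, ← mul_assoc]; rfl

theorem IsoA.mul {g h : B} (hg : IsoA L Θ g) (hh : IsoA L Θ h) : IsoA L Θ (g * h) :=
  ((hg.qa h).add hh).of_eq (by abel)

theorem isoA_one : IsoA L Θ 1 := L.zero.of_eq (by rw [qa_one, sub_self])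

/-- Eichler transformation. -/
def eich (Θ E Y a : B) : B := 1 + Y * ba Θ E 1 - E * (ba Θ Y 1 + a * ba Θ E 1)

theorem eich_mul (E Y a x : B) :
    eich Θ E Y a * x = x + Y * ba Θ E x - E * (ba Θ Y x + a * ba Θ E x) := by
  simp only [eich, sub_mul, add_mul, one_mul, mul_assoc, ba_one_mul]

theorem isoA_eich {E Y a : B} (hE : L.Mem (qa Θ E)) (hY : ba Θ E Y = 0)
    (ha : L.Mem (a - qa Θ Y)) : IsoA L Θ (eich Θ E Y a) := by
  set α := ba Θ E 1
  set γ := ba Θ Y 1
  have hY' : ba Θ Y E = 0 := by rw [← star_ba, hY, star_zero]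
  have h1 := qa_add Θ L (1 + Y * α) (E * -(γ + a * α))
  have h2 := qa_add Θ L 1 (Y * α)
  have h3 := hE.conj (-(γ + a * α))
  have h4 := ha.conj α
  have e1 : ba Θ 1 Y = star γ := (star_ba Θ Y 1).symm
  have e2 : ba Θ 1 E = star α := (star_ba Θ E 1).symm
  rw [ba_mul_right, ba_add_left, ba_mul_left, hY', e2, qa_mul Θ E] at h1
  rw [ba_mul_right, e1, qa_one, qa_mul] at h2
  have h5 := L.sub_star (star γ * α)
  rw [star_mul, star_star] at h5
  refine ((((h1.add h2).add h3).sub h4).add h5).of_eq ?_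
  have e : eich Θ E Y a = 1 + Y * α + E * -(γ + a * α) := by
    rw [mul_neg, ← sub_eq_add_neg]; rfl
  rw [e]
  noncomm_ring

/-- A hyperbolic pair of size `π`. -/
structure PairA (L : FP B) (Θ π E F : B) : Prop where
  eπ : E * π = E
  fπ : F * π = F
  qe : L.Mem (qa Θ E)
  qf : L.Mem (qa Θ F)
  ef : ba Θ E F = π

theorem PairA.map {π E F g : B} (h : PairA L Θ π E F) (hg : IsoA L Θ g) : PairA L Θ π (g * E) (g * F) :=
  ⟨by rw [mul_assoc, h.eπ], by rw [mul_assoc, h.fπ], ((hg.qa E).add h.qe).of_eq (by abel),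
    ((hg.qa F).add h.qf).of_eq (by abel), by rw [hg.ba, h.ef]⟩

theorem exists_pairA {π E F : B} (hs : star π = π) (hπ : π * π = π) (he : E * π = E)
    (hq : L.Mem (qa Θ E)) (hef : ba Θ E F = π) : ∃ F', PairA L Θ π E F' := by
  have hef' : ba Θ E (F * π) = π := by rw [ba_mul_right, hef, hπ]
  have hG : F * π * π = F * π := by rw [mul_assoc, hπ]
  generalize F * π = G at hef' hG
  have hG' : π * star G = star G := by rw [← hs, ← star_mul, hG]
  have ha : π * qa Θ G = qa Θ G := by rw [qa, ← mul_assoc, ← mul_assoc, hG']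
  have ha' : qa Θ G * π = qa Θ G := by rw [qa, mul_assoc, hG]
  refine ⟨G + E * -qa Θ G, he, ?_, hq, ?_, ?_⟩
  · rw [add_mul, hG, mul_assoc, neg_mul, ha']
  · have h1 := qa_add Θ L G (E * -qa Θ G)
    rw [ba_mul_right, ← star_ba Θ E G, hef', hs, mul_neg π, ha, qa_mul] at h1
    exact (h1.add (hq.conj (-qa Θ G))).of_eq (by abel)
  · rw [ba_add_right, hef', ba_mul_right, ba_self_eq_zero hq, zero_mul, add_zero]

/-- Projection to the orthogonal complement of a pair. -/
def prA (Θ E F : B) : B := 1 - E * ba Θ F 1 - F * ba Θ E 1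

theorem prA_mul (E F x : B) : prA Θ E F * x = x - E * ba Θ F x - F * ba Θ E x := by
  simp only [prA, sub_mul, one_mul, mul_assoc, ba_one_mul]

section
variable {π E F : B} (hs : star π = π) (h : PairA L Θ π E F)
include hs h

theorem PairA.fe : ba Θ F E = π := by rw [← star_ba, h.ef, hs]

theorem PairA.π_ba_e (x : B) : π * ba Θ E x = ba Θ E x := by
  rw [← hs, ← ba_mul_left, h.eπ]

theorem PairA.π_ba_f (x : B) : π * ba Θ F x = ba Θ F x := by
  rw [← hs, ← ba_mul_left, h.fπ]

theorem PairA.e_pr (x : B) : ba Θ E (prA Θ E F * x) = 0 := by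
  rw [prA_mul, ba_sub_right, ba_sub_right, ba_mul_right, ba_mul_right, ba_self_eq_zero h.qe, h.ef,
    h.π_ba_e hs]; simp

theorem PairA.f_pr (x : B) : ba Θ F (prA Θ E F * x) = 0 := by
  rw [prA_mul, ba_sub_right, ba_sub_right, ba_mul_right, ba_mul_right, ba_self_eq_zero h.qf,
    h.fe hs, h.π_ba_f hs]; simp

omit hs h in
theorem ba_prA (x y : B) : ba Θ x (prA Θ E F * y) = ba Θ (prA Θ E F * x) y := by
  rw [prA_mul, prA_mul, ba_sub_right, ba_sub_right, ba_sub_left, ba_sub_left, ba_mul_right,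
    ba_mul_right, ba_mul_left, ba_mul_left, star_ba, star_ba]
  abel

omit hs in
theorem PairA.qa_decomp {r : B} (h1 : ba Θ E r = 0) (h2 : ba Θ F r = 0) (a b : B) :
    L.Mem (qa Θ (r + E * a + F * b) - qa Θ r - star a * π * b) := by
  have h1' : ba Θ r E = 0 := by rw [← star_ba, h1, star_zero]
  have h2' : ba Θ r F = 0 := by rw [← star_ba, h2, star_zero]
  have k1 := qa_add Θ L (r + E * a) (F * b)
  have k2 := qa_add Θ L r (E * a)
  rw [ba_mul_right, ba_add_left, ba_mul_left, h2', h.ef, qa_mul Θ F] at k1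
  rw [ba_mul_right, h1', qa_mul Θ E] at k2
  exact (((k1.add k2).add (h.qe.conj a)).add (h.qf.conj b)).of_eq (by noncomm_ring)

end

end Pool.Agent.P.MP_c1f06d_ag
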