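import Pool.Agent.P.MP_c1f06d_ag.WittA

namespace Pool.Agent.P.MP_c1f06d_ag

section Simple
variable {κ D : Type*} [Field κ] [Ring D] [Algebra κ D] [FiniteDimensional κ D]

theorem simple_prime [IsSimpleRing D] {u v : D} (h : ∀ a, u * a * v = 0) : u = 0 ∨ v = 0 := by
  by_contra hne
  push Not at hne
  let I : TwoSidedIdeal D := TwoSidedIdeal.mk' {x | ∀ a, u * a * x = 0} (fun a => by simp)
    (fun {x y} hx hy a => by rw [mul_add, hx a, hy a, add_zero])
    (fun {x} hx a => by rw [mul_neg, hx a, neg_zero])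
    (fun {x y} hy a => by rw [← mul_assoc, mul_assoc u]; exact hy _)
    (fun {x y} hx a => by rw [← mul_assoc, hx a, zero_mul])
  have hv : v ∈ I := by rw [TwoSidedIdeal.mem_mk']; exact h
  have h1 : (1 : D) ∈ I := IsSimpleRing.one_mem_of_ne_zero_mem I hne.2 hv
  rw [TwoSidedIdeal.mem_mk'] at h1
  exact hne.1 (by simpa using h1 1)

theorem ss_regular [IsSemisimpleRing D] (a : D) : ∃ s, a * s * a = a := by
  obtain ⟨e, he, h⟩ := IsSemisimpleRing.ideal_eq_span_idempotent (Ideal.span {a})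
  have h1 : a ∈ Ideal.span {e} := h ▸ Ideal.subset_span rfl
  have h2 : e ∈ Ideal.span {a} := h ▸ Ideal.subset_span rfl
  obtain ⟨c, hc⟩ := Ideal.mem_span_singleton'.1 h1
  obtain ⟨s, hs⟩ := Ideal.mem_span_singleton'.1 h2
  exact ⟨s, by rw [mul_assoc, hs, ← hc, mul_assoc, he.eq]⟩

include κ in
theorem ss_of_simple [IsSimpleRing D] : IsSemisimpleRing D :=
  have : IsArtinianRing D := IsArtinianRing.of_finite κ D
  IsSimpleRing.isSemisimpleRing_iff_isArtinianRing.2 inferInstance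

/-- `Y` generates the unit ideal, in the form used below. -/
def FullEl (Y : D) : Prop := ∀ u v : D, (∀ a b, u * a * Y * b * v = 0) → u * v = 0

theorem fullEl_of_simple [IsSimpleRing D] {Y : D} (h : Y ≠ 0) : FullEl Y := by
  intro u v huv
  by_cases hv : v = 0
  · rw [hv, mul_zero]
  have h3 : ∀ a, u * a * Y = 0 := fun a => (simple_prime (huv a)).resolve_right hv
  rw [(simple_prime h3).resolve_right h, zero_mul]

theorem fullEl_of_sum {ι : Type*} [Fintype ι] {Y : D} (a b : ι → D) (h : ∑ i, a i * Y * b i = 1) :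
    FullEl Y := by
  intro u v huv
  rw [← mul_one u, ← h, Finset.mul_sum, Finset.sum_mul]
  exact Finset.sum_eq_zero fun i _ => by rw [← huv (a i) (b i)]; simp only [mul_assoc]

include κ in
theorem isUnit_of_ker {a : D} (h : ∀ z, a * z = 0 → z = 0) : IsUnit a := by
  have hi : Function.Injective (LinearMap.mulLeft κ a) :=
    (injective_iff_map_eq_zero _).2 fun z hz => h z hz
  obtain ⟨b, hb⟩ := LinearMap.injective_iff_surjective.1 hi 1
  have hb : a * b = 1 := hb
  refine ⟨⟨a, b, hb, ?_⟩, rfl⟩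
  have := h (b * a - 1) (by rw [mul_sub, ← mul_assoc, hb, one_mul, mul_one, sub_self])
  exact sub_eq_zero.1 this

include κ in
theorem exists_ker_el {A s : D} (hk : ¬ ∀ z, A * z = 0 → z = 0) :
    ∃ z, A * z = 0 ∧ ∃ a, (1 - A * s) * a * z ≠ 0 := by
  by_contra hne
  push Not at hne
  let K : Submodule κ D :=
    { carrier := {v | ∀ a, (1 - A * s) * a * v = 0}
      add_mem' := fun {x y} hx hy a => by rw [mul_add, hx a, hy a, add_zero]
      zero_mem' := fun a => mul_zero _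
      smul_mem' := fun c x hx a => by rw [mul_smul_comm, hx a, smul_zero] }
  have hK : ∀ b, ∀ v ∈ K, b * v ∈ K := fun b v hv a => by
    rw [← mul_assoc, mul_assoc _ a]; exact hv _
  let f : K →ₗ[κ] K := (LinearMap.mulLeft κ A).restrict (fun v hv => hK A v hv)
  have hf : Function.Surjective f := by
    rintro ⟨v, hv⟩
    refine ⟨⟨s * v, hK s v hv⟩, Subtype.ext ?_⟩
    have := hv 1
    rw [mul_one, sub_mul, one_mul, sub_eq_zero, mul_assoc] at this
    exact this.symm
  refine hk fun z hz => ?_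
  have := (injective_iff_map_eq_zero _).1 (LinearMap.injective_iff_surjective.2 hf)
    ⟨z, hne z hz⟩ (Subtype.ext hz)
  exact congrArg Subtype.val this

end Simple

variable {B : Type*} [Ring B] [StarRing B] {L : FP B} {Θ π : B}
variable {κ D : Type*} [Field κ] [Ring D] [Algebra κ D] [FiniteDimensional κ D] [IsSemisimpleRing D]

include κ in
/-- One step: an Eichler transformation shrinks the kernel. -/
theorem witt_step (ρ : B →+* D) (hρ : Function.Surjective ρ) (hs : star π = π) (hπ : π * π = π)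
    {E F E1 F1 y0 : B} (h : PairA L Θ π E F) (h1 : PairA L Θ π E1 F1) (hy : ba Θ E1 y0 = 0)
    (hy' : FullEl (ρ (ba Θ y0 y0)))
    (hk : ¬ ∀ z, ρ (ba Θ F1 E + (1 - π)) * z = 0 → z = 0) :
    ∃ g z, IsoA L Θ g ∧ ρ (ba Θ F1 E + (1 - π)) * z = 0 ∧
      ρ (ba Θ F1 (g * E) + (1 - π)) * z ≠ 0 ∧
      ∀ w, ρ (ba Θ F1 (g * E) + (1 - π)) * w = 0 → ρ (ba Θ F1 E + (1 - π)) * w = 0 := by
  obtain ⟨α, hα⟩ : ∃ α, α = ba Θ F1 E := ⟨_, rfl⟩
  obtain ⟨β, hβ⟩ : ∃ β, β = ba Θ E1 E := ⟨_, rfl⟩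
  have hπα : π * α = α := by rw [hα]; exact h1.π_ba_f hs E
  have hπβ : π * β = β := by rw [hβ]; exact h1.π_ba_e hs E
  have hαπ : α * π = α := by rw [hα, ← ba_mul_right, h.eπ]
  obtain ⟨A, hA⟩ : ∃ A, A = α + (1 - π) := ⟨_, rfl⟩
  rw [← hα, ← hA] at hk ⊢
  obtain ⟨s', hs'⟩ := ss_regular (ρ A)
  obtain ⟨s, rfl⟩ := hρ s'
  obtain ⟨z, hz0, a0, hz⟩ := exists_ker_el (κ := κ) (s := ρ s) hk
  obtain ⟨z, rfl⟩ := hρ z
  obtain ⟨a0, rfl⟩ := hρ a0
  obtain ⟨u0, hu0⟩ : ∃ u0, u0 = 1 - A * s := ⟨_, rfl⟩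
  obtain ⟨u, hu⟩ : ∃ u, u = π * u0 := ⟨_, rfl⟩
  have hA1 : A * (1 - π) = 1 - π := by
    rw [hA, add_mul, mul_sub, hαπ, mul_one, sub_self, zero_add, sub_mul, mul_sub, mul_sub, hπ]; simp
  have hu0A : ρ u0 * ρ A = 0 := by rw [hu0, map_sub, map_one, map_mul, sub_mul, hs']; simp
  have huu : u = u0 - A * ((1 - π) * u0) := by rw [← mul_assoc, hA1, hu]; noncomm_ring
  have hu0u : ρ u0 * ρ u = ρ u0 := by
    rw [huu, map_sub, map_mul, mul_sub, ← mul_assoc, hu0A, zero_mul, sub_zero]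
    nth_rw 2 [hu0]
    rw [map_sub, map_one, map_mul, mul_sub, ← mul_assoc, hu0A]; simp
  have hind : ∀ w v, ρ A * w + ρ u * v = 0 → ρ A * w = 0 := by
    intro w v hw
    have h2 := congrArg (ρ u0 * ·) hw
    simp only [mul_add, ← mul_assoc, hu0A, hu0u, zero_mul, zero_add, mul_zero] at h2
    rwa [hu, map_mul, mul_assoc, h2, mul_zero, add_zero] at hw
  have hz1 : ρ ((1 - π) * z) = 0 := by
    have : (1 - π) * A = 1 - π := by
      rw [hA, mul_add, sub_mul, hπα, one_mul, sub_self, zero_add, sub_mul, mul_sub, mul_sub, hπ]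
      simp
    rw [← this, mul_assoc, map_mul, map_mul, hz0, mul_zero]
  have hz2 : ρ (α * z) = 0 := by
    have : α * z = A * z - (1 - π) * z := by rw [hA]; noncomm_ring
    rw [this, map_sub, map_mul, hz0, hz1, sub_zero]
  obtain ⟨pr, hpr⟩ : ∃ pr, pr = prA Θ E1 F1 := ⟨_, rfl⟩
  have hepr : ∀ x, ba Θ E1 (pr * x) = 0 := fun x => by rw [hpr]; exact h1.e_pr hs x
  have hfpr : ∀ x, ba Θ F1 (pr * x) = 0 := fun x => by rw [hpr]; exact h1.f_pr hs x
  obtain ⟨G, hL⟩ : ∃ G : B → B → B, ∀ n c, G n c =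
    ba Θ (pr * n) E + (qa Θ (pr * n) + (c - star c)) * (star u * β) := ⟨_, fun _ _ => rfl⟩
  by_cases hex : ∃ n c, ρ u * ρ (G n c) * ρ z ≠ 0
  · obtain ⟨n, c, hnc⟩ := hex
    have hY : ba Θ E1 (pr * n * star u) = 0 := by rw [ba_mul_right, hepr, zero_mul]
    have hπu : π * u = u := by rw [hu, ← mul_assoc, hπ]
    have key : ba Θ F1 (eich Θ E1 (pr * n * star u) (u * (qa Θ (pr * n) + (c - star c)) * star u)
        * E) + (1 - π) = A + u * -G n c := by
      have e : ba Θ (pr * n * star u) E + u * (qa Θ (pr * n) + (c - star c)) * star u * β =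
          u * G n c := by
        rw [ba_mul_left, star_star, hL]; noncomm_ring
      rw [eich_mul, ← hβ, e, ba_sub_right, ba_add_right, ba_mul_right, ba_mul_right, hfpr,
        ba_mul_right, h1.fe hs, ← hα, ← mul_assoc π, hπu, hA]
      noncomm_ring
    refine ⟨eich Θ E1 (pr * n * star u) (u * (qa Θ (pr * n) + (c - star c)) * star u), ρ z,
      isoA_eich h1.qe hY ?_, hz0, ?_, fun w hw => ?_⟩
    · refine ((L.sub_star c).conj (star u)).of_eq ?_
      rw [qa_mul Θ (pr * n), star_star]; noncomm_ring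
    · rw [key, map_add, add_mul, hz0, zero_add, map_mul, map_neg, mul_neg, neg_mul]
      exact neg_ne_zero.2 hnc
    · rw [key, map_add, add_mul, map_mul, mul_assoc] at hw
      exact hind _ _ hw
  exfalso
  push Not at hex
  have hw : ∀ a, ρ (u * a * (star u * β * z)) = 0 := by
    have hb : ∀ n1 n2, ρ u * ρ (ba Θ (pr * n1) (pr * n2)) * ρ (star u * β * z) = 0 := by
      intro n1 n2
      have e : u * ba Θ (pr * n1) (pr * n2) * (star u * β * z) =
          u * G (n1 + n2) 0 * z - u * G n1 0 * z - u * G n2 (star (pr * n2) * Θ * (pr * n1)) * z := by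
        simp only [hL, ba, qa, mul_add pr, star_add, star_mul, star_star, star_zero]
        noncomm_ring
      rw [← map_mul, ← map_mul, e]
      simp only [map_sub, map_mul, hex, sub_zero]
    have hk : ba Θ (pr * y0) (pr * y0) = ba Θ y0 y0 := by
      have hy2 : ba Θ y0 E1 = 0 := by rw [← star_ba, hy, star_zero]
      rw [hpr, prA_mul, hy, mul_zero, sub_zero, ba_sub_left, ba_sub_right, ba_sub_right,
        ba_mul_right, ba_mul_right, ba_mul_left, ba_mul_left, hy, hy2, ba_self_eq_zero h1.qe]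
      simp
    intro c
    rw [map_mul]
    refine hy' _ _ fun a b => ?_
    obtain ⟨a, rfl⟩ := hρ a
    obtain ⟨b, rfl⟩ := hρ b
    have := hb (y0 * star (c * a)) (y0 * b)
    rw [← mul_assoc pr, ← mul_assoc pr, ba_mul_left, ba_mul_right, hk, star_star] at this
    simpa only [map_mul, mul_assoc] using this
  have hp : ∀ a, ρ (u * a * (ba Θ pr E * z)) = 0 := by
    intro a
    have h4 := hex (star a) 0
    have e : u * G (star a) 0 * z = u * a * (ba Θ pr E * z) +
        u * (qa Θ (pr * star a) + (0 - star 0)) * (star u * β * z) := by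
      rw [hL, ba_mul_left, star_star]; noncomm_ring
    rwa [← map_mul, ← map_mul, e, map_add, hw, add_zero] at h4
  have hz3 : ∀ a, ρ (u * a * (α * z)) = 0 := fun a => by rw [map_mul, hz2, mul_zero]
  have hdec : ∀ x, ba Θ x E = star (ba Θ F1 x) * β + star (ba Θ E1 x) * α +
      star x * ba Θ pr E := by
    intro x
    rw [← ba_mul_left, hpr, prA_mul, ba_sub_left, ba_sub_left, ba_mul_left, ba_mul_left, ← hα, ← hβ]
    abel
  have h5 : ∀ a, ρ (u * a * (star α * β * z)) = 0 := by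
    intro a
    have e := hdec E
    rw [ba_self_eq_zero h.qe, ← hα, ← hβ] at e
    have e2 : star α * β * z = -(star β * (α * z)) - star E * (ba Θ pr E * z) := by
      have := congrArg (· * z) e
      simp only [zero_mul, add_mul, mul_assoc] at this
      rw [mul_assoc, eq_sub_iff_add_eq, eq_neg_iff_add_eq_zero, this]; abel
    have e3 : u * a * (star α * β * z) =
        -(u * (a * star β) * (α * z)) - u * (a * star E) * (ba Θ pr E * z) := by
      rw [e2]; noncomm_ring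
    rw [e3, map_sub, map_neg, hz3, hp]; simp
  have h6 : ∀ a, ρ (u * a * (β * z)) = 0 := by
    intro a
    have e : β * z = star u * β * z + star s * (star α * β * z) := by
      have e1 : star u * β = star u0 * β := by rw [hu, star_mul, hs, mul_assoc, hπβ]
      have e2 : star A * β = star α * β := by
        rw [hA, star_add, star_sub, star_one, hs, add_mul, sub_mul, hπβ, one_mul, sub_self, add_zero]
      rw [e1, ← e2, hu0, star_sub, star_one, star_mul]; noncomm_ring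
    rw [e, mul_add, ← mul_assoc _ (star s), mul_assoc u a (star s), map_add, hw, h5, add_zero]
  have h7 : ∀ a, ρ (u * a * (π * z)) = 0 := by
    intro a
    have e := hdec F
    rw [h.fe hs] at e
    have e3 : u * a * (π * z) = u * (a * star (ba Θ F1 F)) * (β * z) +
        u * (a * star (ba Θ E1 F)) * (α * z) + u * (a * star F) * (ba Θ pr E * z) := by
      nth_rw 1 [e]; noncomm_ring
    rw [e3, map_add, map_add, h6, hz3, hp]; simp
  apply hz
  have e4 : ρ u * ρ a0 * ρ z = 0 := by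
    rw [← map_mul, ← map_mul, show u * a0 * z = u * a0 * ((1 - π) * z) + u * a0 * (π * z) by
      noncomm_ring, map_add, h7, map_mul, hz1]; simp
  rw [← map_mul, ← map_one ρ, ← map_sub, ← hu0, ← hu0u, mul_assoc, mul_assoc, ← mul_assoc (ρ u), e4,
    mul_zero]

include κ in
theorem witt_unit (ρ : B →+* D) (hρ : Function.Surjective ρ) (hu : ∀ x, IsUnit (ρ x) → IsUnit x)
    (hs : star π = π) (hπ : π * π = π) {E1 F1 y0 : B} (h1 : PairA L Θ π E1 F1)
    (hy : ba Θ E1 y0 = 0) (hy' : FullEl (ρ (ba Θ y0 y0))) (d : ℕ) :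
    ∀ E F, PairA L Θ π E F →
      Module.finrank κ (LinearMap.ker (LinearMap.mulLeft κ (ρ (ba Θ F1 E + (1 - π))))) = d →
      ∃ g, IsoA L Θ g ∧ IsUnit (ba Θ F1 (g * E) + (1 - π)) := by
  induction d using Nat.strong_induction_on with
  | _ d ih =>
    intro E F h hd
    by_cases hk : ∀ z, ρ (ba Θ F1 E + (1 - π)) * z = 0 → z = 0
    · exact ⟨1, isoA_one, by rw [one_mul]; exact hu _ (isUnit_of_ker (κ := κ) hk)⟩
    obtain ⟨g, z, hg, hz0, hg1, hg2⟩ := witt_step (κ := κ) ρ hρ hs hπ h h1 hy hy' hk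
    have hlt : LinearMap.ker (LinearMap.mulLeft κ (ρ (ba Θ F1 (g * E) + (1 - π)))) <
        LinearMap.ker (LinearMap.mulLeft κ (ρ (ba Θ F1 E + (1 - π)))) :=
      lt_of_le_of_ne (fun w hw => hg2 w hw) fun he => hg1 (by
        have : z ∈ LinearMap.ker (LinearMap.mulLeft κ (ρ (ba Θ F1 E + (1 - π)))) := hz0
        rw [← he] at this
        exact this)
    obtain ⟨g', hg', hu'⟩ := ih _ (hd ▸ Submodule.finrank_lt_finrank_of_lt hlt) _ _ (h.map hg) rfl
    exact ⟨g' * g, hg'.mul hg, by rwa [mul_assoc]⟩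

theorem wittA_of_unit (hs : star π = π) (hπ : π * π = π) {x E1 F1 : B} (hx : x * π = x)
    (hq : L.Mem (qa Θ x)) (h1 : PairA L Θ π E1 F1) (hu : IsUnit (ba Θ F1 x + (1 - π))) :
    ∃ g, IsoA L Θ g ∧ g * x = E1 := by
  obtain ⟨α, hα⟩ : ∃ α, α = ba Θ F1 x := ⟨_, rfl⟩
  obtain ⟨β, hβ⟩ : ∃ β, β = ba Θ E1 x := ⟨_, rfl⟩
  obtain ⟨y, hy⟩ : ∃ y, y = prA Θ E1 F1 * x := ⟨_, rfl⟩
  have hπα : π * α = α := by rw [hα]; exact h1.π_ba_f hs x
  have hπβ : π * β = β := by rw [hβ]; exact h1.π_ba_e hs x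
  have hαπ : α * π = α := by rw [hα, ← ba_mul_right, hx]
  have hβπ : β * π = β := by rw [hβ, ← ba_mul_right, hx]
  have hxd : x = y + E1 * α + F1 * β := by rw [hy, prA_mul, ← hα, ← hβ]; abel
  have hyπ : y * π = y := by rw [hy, mul_assoc, hx]
  have hey : ba Θ E1 y = 0 := by rw [hy]; exact h1.e_pr hs x
  have hfy : ba Θ F1 y = 0 := by rw [hy]; exact h1.f_pr hs x
  rw [← hα] at hu
  obtain ⟨U, hU⟩ := hu
  obtain ⟨γ, hγ⟩ : ∃ γ : B, γ = π * ↑U⁻¹ * π := ⟨_, rfl⟩
  have hUπ : ↑U * π = α := by rw [hU, add_mul, hαπ, sub_mul, hπ]; simp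
  have hπU : π * ↑U = α := by rw [hU, mul_add, hπα, mul_sub, hπ]; simp
  have hαγ : α * γ = π := by
    rw [hγ, ← mul_assoc, ← mul_assoc, hαπ, ← hπU, Units.mul_inv_cancel_right, hπ]
  have hγα : γ * α = π := by
    rw [hγ, mul_assoc, hπα, ← hUπ, mul_assoc, Units.inv_mul_cancel_left, hπ]
  have hπγ : π * γ = γ := by rw [hγ, ← mul_assoc, ← mul_assoc, hπ]
  have hY : ba Θ (y * -γ) x = -(star γ * ba Θ y y) := by
    have h2 : ba Θ y E1 = 0 := by rw [← star_ba, hey, star_zero]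
    have h3 : ba Θ y F1 = 0 := by rw [← star_ba, hfy, star_zero]
    rw [ba_mul_left]
    nth_rw 1 [hxd]
    rw [ba_add_right, ba_add_right, ba_mul_right, ba_mul_right, h2, h3]; simp
  have hT : IsoA L Θ (eich Θ F1 (y * -γ) ((β + star γ * ba Θ y y) * γ)) := by
    refine isoA_eich h1.qf (by rw [ba_mul_right, hfy, zero_mul]) ?_
    have k1 := h1.qa_decomp hey hfy α β
    rw [← hxd] at k1
    refine (((hq.sub k1).sub (L.sub_star (qa Θ y))).conj γ).of_eq ?_
    have e : star γ * star α = π := by rw [← star_mul, hαγ, hs]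
    have e2 : star γ * (star α * π * β) * γ = β * γ := by
      rw [← mul_assoc, ← mul_assoc, e, hπ, hπβ]
    rw [qa_mul, ba_self, add_mul, ← e2, star_neg]
    noncomm_ring
  have hTx : eich Θ F1 (y * -γ) ((β + star γ * ba Θ y y) * γ) * x = E1 * α := by
    have e : π * star γ = star γ := by
      rw [← hs, ← star_mul, hγ, mul_assoc, hπ]
    have e2 : (β + star γ * ba Θ y y) * π = β + star γ * ba Θ y y := by
      rw [add_mul, hβπ, mul_assoc, ← ba_mul_right, hyπ]
    rw [eich_mul, ← hα, hY, mul_assoc _ γ α, hγα, e2, mul_assoc y, neg_mul, hγα, mul_neg, hyπ]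
    nth_rw 1 [hxd]
    noncomm_ring
  refine ⟨(prA Θ E1 F1 * 1 + E1 * (γ * ba Θ F1 1) + F1 * (star α * ba Θ E1 1)) * _,
    IsoA.mul ?_ hT, ?_⟩
  · have k1 := h1.qa_decomp (h1.e_pr hs 1) (h1.f_pr hs 1) (γ * ba Θ F1 1) (star α * ba Θ E1 1)
    have k2 := h1.qa_decomp (h1.e_pr hs 1) (h1.f_pr hs 1) (ba Θ F1 1) (ba Θ E1 1)
    have e : prA Θ E1 F1 * 1 + E1 * ba Θ F1 1 + F1 * ba Θ E1 1 = 1 := by rw [prA_mul]; abel
    have e1 : star γ * π * star α = π := by
      rw [← hs, ← star_mul, ← star_mul, hπγ, hαγ]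
    have e2 : star (γ * ba Θ F1 1) * π * (star α * ba Θ E1 1) =
        star (ba Θ F1 1) * π * ba Θ E1 1 := by
      rw [star_mul]
      nth_rw 2 [← e1]
      noncomm_ring
    rw [e, qa_one] at k2
    rw [e2] at k1
    exact (k1.sub k2).of_eq (by abel)
  · rw [mul_assoc, hTx, add_mul, add_mul, mul_one, prA_mul, mul_assoc, mul_assoc, mul_assoc,
      mul_assoc, ba_one_mul, ba_one_mul, ba_mul_right, ba_mul_right, h1.fe hs,
      ba_self_eq_zero h1.qe, hπα, hγα, h1.eπ]
    simp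

/-- Witt's theorem for frames over a star ring with semisimple residue algebra. -/
theorem frames_conjA {κ D : Type*} [Field κ] [Ring D] [Algebra κ D] [FiniteDimensional κ D]
    [IsSemisimpleRing D] (ρ : B →+* D) (hρ : Function.Surjective ρ)
    (hu : ∀ x, IsUnit (ρ x) → IsUnit x) (hs : star π = π) (hπ : π * π = π) {E F E1 F1 y : B}
    (he : E * π = E) (hq : L.Mem (qa Θ E)) (hef : ba Θ E F = π)
    (he1 : E1 * π = E1) (hq1 : L.Mem (qa Θ E1)) (hef1 : ba Θ E1 F1 = π)
    (hy : ba Θ E1 y = 0) (hy' : FullEl (ρ (ba Θ y y))) : ∃ g, IsoA L Θ g ∧ g * E = E1 := by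
  obtain ⟨F', h⟩ := exists_pairA hs hπ he hq hef
  obtain ⟨F1', h1⟩ := exists_pairA hs hπ he1 hq1 hef1
  obtain ⟨g, hg, hU⟩ := witt_unit (κ := κ) ρ hρ hu hs hπ h1 hy hy' _ E F' h rfl
  obtain ⟨g', hg', e⟩ := wittA_of_unit hs hπ (h.map hg).eπ (h.map hg).qe h1 hU
  exact ⟨g' * g, hg'.mul hg, by rw [mul_assoc, e]⟩

end Pool.Agent.P.MP_c1f06d_ag
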